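import Pool.Agent.Lib.DU.Blue

open Set Filter TensorProduct Pool.Agent.Lib.MP_e39d36_ag Pool.Agent.Lib.MP_e39d36_ag.Var
  Pool.Agent.Lib.MP_cc3443_ag

set_option linter.unusedSectionVars false
set_option linter.unusedVariables false
set_option linter.style.haveILetI false

noncomputable section

namespace Pool.Agent.Lib.DU

namespace FD

variable {K F : Type} [Field K] [Algebra ℂ K] [Field F] [Algebra ℂ F] {X : Var K}

lemma dlog_div {f g : K} (hf : f ≠ 0) (hg : g ≠ 0) : dlog (f / g) = dlog f - dlog g := by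
  have h1 : KaehlerDifferential.D ℂ K f =
      (f / g) • KaehlerDifferential.D ℂ K g + g • KaehlerDifferential.D ℂ K (f / g) := by
    rw [← Derivation.leibniz, div_mul_cancel₀ _ hg]
  simp only [dlog]
  rw [h1, smul_add, smul_smul, smul_smul, show f⁻¹ * (f / g) = g⁻¹ by field_simp,
    show f⁻¹ * g = (f / g)⁻¹ by field_simp]
  abel

/-- Pull-back of forms along a point with values in a field. -/
lemma exists_pb (γ : CMap X F) : ∃ φ : Ω[X.O γ.c⁄ℂ] →ₗ[ℂ] Ω[F⁄ℂ],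
    (∀ a : X.O γ.c, φ (KaehlerDifferential.D ℂ _ a) = KaehlerDifferential.D ℂ F (γ.τ a)) ∧
    ∀ (a : X.O γ.c) m, φ (a • m) = γ.τ a • φ m := by
  letI : Algebra (X.O γ.c) F := γ.hom.toAlgebra
  haveI : IsScalarTower ℂ (X.O γ.c) F :=
    IsScalarTower.of_algebraMap_eq fun a => (γ.const a).symm
  refine ⟨(KaehlerDifferential.map ℂ ℂ (X.O γ.c) F).restrictScalars ℂ,
    fun a => KaehlerDifferential.map_D ℂ ℂ _ F a, fun a m => ?_⟩
  rw [LinearMap.restrictScalars_apply, map_smul, ← algebraMap_smul F]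
  rfl

lemma exists_lift (γ : CMap X F) (φ : Ω[X.O γ.c⁄ℂ] →ₗ[ℂ] Ω[F⁄ℂ])
    (h1 : ∀ a : X.O γ.c, φ (KaehlerDifferential.D ℂ _ a) = KaehlerDifferential.D ℂ F (γ.τ a))
    (h2 : ∀ (a : X.O γ.c) m, φ (a • m) = γ.τ a • φ m) {R : Subring K} {R' : Subring F}
    (hR : R ≤ X.O γ.c) (hR' : ∀ a ∈ R, γ.τ a ∈ R') {ω : Ω[K⁄ℂ]} (hω : ω ∈ frm R) :
    ∃ m, KaehlerDifferential.map ℂ ℂ (X.O γ.c) K m = ω ∧ φ m ∈ frm R' := by
  induction hω using Submodule.span_induction with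
  | mem x hx =>
    obtain ⟨a, ha, rfl⟩ := hx
    exact ⟨KaehlerDifferential.D ℂ _ ⟨a, hR ha⟩, KaehlerDifferential.map_D ℂ ℂ _ K _,
      h1 _ ▸ Submodule.subset_span ⟨_, hR' a ha, rfl⟩⟩
  | zero => exact ⟨0, map_zero _, by simp⟩
  | add x y _ _ hx hy =>
    obtain ⟨m, h3, h4⟩ := hx
    obtain ⟨m', h5, h6⟩ := hy
    exact ⟨m + m', by rw [map_add, h3, h5], by rw [map_add]; exact add_mem h4 h6⟩
  | smul a x _ hx =>
    obtain ⟨m, h3, h4⟩ := hx
    refine ⟨(⟨a, hR a.2⟩ : X.O γ.c) • m, by rw [map_smul, h3]; rfl, ?_⟩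
    rw [h2]
    exact Submodule.smul_mem (frm R') ⟨_, hR' a a.2⟩ h4

lemma good (hRT : St_RT) [IsFF F] (γ : CMap X F)
    (hi : Function.Injective (KaehlerDifferential.map ℂ ℂ (X.O γ.c) K)) {n : ℕ}
    (D : Fin n → X.CD) (c : Fin n → ℂ) (η : Ω[K⁄ℂ])
    (h : ∀ (x : X.Pt) (f : Fin n → K), (∀ i, LocEq (D i).1 x (f i)) →
      η - ∑ i, c i • dlog (f i) ∈ frm (X.O x)) : ∑ i, c i * γ.deg (D i).1 = 0 := by
  obtain ⟨φ, h1, h2⟩ := exists_pb γ
  obtain ⟨m, h3, -⟩ := exists_lift γ φ h1 h2 (R' := ⊤) le_rfl (fun _ _ => trivial)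
    (h γ.c _ fun i => (D i).2.lf _)
  have hu : ∀ P i, Un (X.O γ.c) (lf (D i).1 (γ.ctr P) / lf (D i).1 γ.c) := fun P i =>
    (((D i).2.lf _).mono (γ.ctr_le P)).un ((D i).2.lf _)
  refine hRT F n c (fun P i => γ.τ (lf (D i).1 (γ.ctr P) / lf (D i).1 γ.c)) (φ m)
    (fun P i => CMap.τ_ne (hu P i))
    (fun i => CMap.finite_supp (fun _ => (D i).2.lf _) ((D i).2.lf _)) fun P => ?_
  obtain ⟨m', h4, h5⟩ := exists_lift γ φ h1 h2 (R' := P.O.toSubring) (γ.ctr_le P)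
    (fun a ha => (CMap.mem_T.1 ((γ.dom_ctr P).1 ha)).2) (h (γ.ctr P) _ fun i => (D i).2.lf _)
  have h6 : m' = m - ∑ i, c i • ((⟨_, (hu P i).2.2⟩ : X.O γ.c) •
      KaehlerDifferential.D ℂ (X.O γ.c) ⟨_, (hu P i).2.1⟩) := by
    apply hi
    rw [h4, map_sub, h3, map_sum, sub_sub, ← Finset.sum_add_distrib]
    congr 1
    refine Finset.sum_congr rfl fun i _ => ?_
    rw [LinearMap.map_smul_of_tower, map_smul, KaehlerDifferential.map_D, ← smul_add]
    congr 1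
    have := dlog_div ((D i).2.lf (γ.ctr P)).1 ((D i).2.lf γ.c).1
    rw [eq_sub_iff_add_eq] at this
    rw [← this, add_comm]
    rfl
  rw [h6, map_sub, map_sum] at h5
  convert h5 using 3 with i
  rw [map_smul, h2, h1, dlog, CMap.τ_inv' (hu P i)]

end FD

theorem blockFD (hLOG : St_LOG) (hSMO : St_SMO) (hRT : St_RT) (hGOOD : St_GOOD) : St_FD := by
  intro K _ _ X Q Γ
  obtain ⟨n, hn⟩ := hLOG K X Q
  obtain ⟨S, hS, hS'⟩ := hSMO K X
  have key : ∀ D : Fin n → X.CD, ¬LinearIndependent ℝ fun i => Γ.cls (D i) := fun D hD => by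
    obtain ⟨c, hc, η, h⟩ := hn D
    have h1 := hGOOD K X Q S hS n D c fun F _ _ _ γ hγ => FD.good hRT γ (hS' _ hγ) D c η h
    have h2 : ∀ L : ℂ →ₗ[ℝ] ℝ, ∀ i, L (c i) = 0 := fun L => by
      refine Fintype.linearIndependent_iff.1 hD _ ?_
      ext x
      obtain ⟨F, _, _, _, γ, -, -, h3⟩ := Γ.int_eq x.1 x.2
      have h4 := congrArg L (h1 F γ)
      rw [map_sum, map_zero] at h4
      simp only [Submodule.coe_sum, Submodule.coe_smul, Finset.sum_apply, Pi.smul_apply,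
        Curves.cls, smul_eq_mul, Submodule.coe_zero, Pi.zero_apply]
      rw [← h4]
      refine Finset.sum_congr rfl fun i _ => ?_
      rw [h3 _ (D i).2, mul_comm (c i), ← Complex.ofReal_intCast, ← Complex.real_smul, map_smul,
        smul_eq_mul, mul_comm]
    exact hc (funext fun i => Complex.ext (h2 Complex.reLm i) (h2 Complex.imLm i))
  obtain ⟨s, h1, h2, h3⟩ := exists_linearIndependent ℝ (range Γ.cls)
  have h4 : s.Finite := by
    by_contra h5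
    let e : Fin n ↪ s := Fin.valEmbedding.trans (Set.Infinite.natEmbedding s h5)
    choose D hD using fun i => h1 (e i).2
    exact key D (by simp only [hD]; exact h3.comp e e.injective)
  rw [Γ.span_cls] at h2
  exact ⟨⟨h4.toFinset, by rw [h4.coe_toFinset, h2]⟩⟩

end Pool.Agent.Lib.DU
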