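import Pool.Agent.Lib.DU.Blue

open Set Filter TensorProduct Pool.Agent.Lib.MP_e39d36_ag Pool.Agent.Lib.MP_e39d36_ag.Var
  Pool.Agent.Lib.MP_cc3443_ag

set_option linter.unusedSectionVars false
set_option linter.unusedVariables false
set_option linter.style.haveILetI false

noncomputable section

namespace Pool.Agent.Lib.DU

namespace LOG

variable {K : Type} [Field K] [Algebra ℂ K]

lemma D_mem {R : Subring K} {w : K} (hw : w ∈ R) : KaehlerDifferential.D ℂ K w ∈ frm R :=
  Submodule.subset_span ⟨w, hw, rfl⟩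

lemma smul_mem {R : Subring K} {r : K} (hr : r ∈ R) {ω : Ω[K⁄ℂ]} (h : ω ∈ frm R) :
    r • ω ∈ frm R := (frm R).smul_mem (⟨r, hr⟩ : R) h

lemma frm_ind {R : Subring K} {p : Ω[K⁄ℂ] → Prop}
    (h1 : ∀ w ∈ R, p (KaehlerDifferential.D ℂ K w)) (h0 : p 0)
    (ha : ∀ a b, p a → p b → p (a + b)) (hs : ∀ r ∈ R, ∀ a, p a → p (r • a))
    {ω : Ω[K⁄ℂ]} (h : ω ∈ frm R) : p ω := by
  induction h using Submodule.span_induction with
  | mem x hx => obtain ⟨w, hw, rfl⟩ := hx; exact h1 w hw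
  | zero => exact h0
  | add a b _ _ h2 h3 => exact ha a b h2 h3
  | smul r a _ h2 => exact hs r r.2 a h2

lemma frm_mono {R T : Subring K} (h : R ≤ T) {ω : Ω[K⁄ℂ]} (hω : ω ∈ frm R) : ω ∈ frm T :=
  frm_ind (p := fun ω => ω ∈ frm T) (fun w hw => D_mem (h hw)) (zero_mem _)
    (fun _ _ => add_mem) (fun r hr _ ha => smul_mem (h hr) ha) hω

lemma frm_loc {B T : Subring K} (h : LocOf B T) {ω : Ω[K⁄ℂ]} (hω : ω ∈ frm T) :
    ∃ p ∈ B, Un T p ∧ p • ω ∈ frm B := by
  refine frm_ind (p := fun ω => ∃ p ∈ B, Un T p ∧ p • ω ∈ frm B) (fun w hw => ?_)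
    ⟨1, one_mem _, Un.one, by simp⟩ ?_ ?_ hω
  · obtain ⟨p, h1, h2, h3⟩ := h.2 w hw
    refine ⟨p * p, mul_mem h1 h1, h2.mul h2, ?_⟩
    have : (p * p) • KaehlerDifferential.D ℂ K w =
        p • KaehlerDifferential.D ℂ K (p * w) - (p * w) • KaehlerDifferential.D ℂ K p := by
      rw [Derivation.leibniz, smul_add, smul_smul, smul_smul]
      abel
    rw [this]
    exact sub_mem (smul_mem h1 (D_mem h3)) (smul_mem h3 (D_mem h1))
  · rintro a b ⟨p, h1, h2, h3⟩ ⟨q, h4, h5, h6⟩
    refine ⟨p * q, mul_mem h1 h4, h2.mul h5, ?_⟩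
    rw [smul_add, mul_smul p q b, mul_comm p q, mul_smul q p a]
    exact add_mem (smul_mem h4 h3) (smul_mem h1 h6)
  · rintro r hr a ⟨p, h1, h2, h3⟩
    obtain ⟨q, h4, h5, h6⟩ := h.2 r hr
    refine ⟨p * q, mul_mem h1 h4, h2.mul h5, ?_⟩
    have : (p * q) • r • a = (q * r) • p • a := by
      rw [smul_smul, smul_smul]; congr 1; ring
    rw [this]
    exact smul_mem h6 h3

lemma rad {B : Subring K} (I : Ideal B) (t : B)
    (h : ∀ T, IsLoc T → LocOf B T → Un T t → ∃ p ∈ I, Un T (p : K)) : ∃ n : ℕ, t ^ n ∈ I := by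
  by_contra h1
  have h2 : t ∉ I.radical := h1
  rw [Ideal.radical_eq_sInf, Ideal.mem_sInf] at h2
  push Not at h2
  obtain ⟨q, ⟨h3, h4⟩, h5⟩ := h2
  obtain ⟨T, h6, h7, h8⟩ := exists_locP q
  obtain ⟨p, h9, h10⟩ := h T h6 h7 ((h8 t).2 h5)
  exact (h8 p).1 h10 (h3 h9)

variable {X : Var K} {Q : Prj X} (P : Pro Q 1)

/-- The affine charts pulled back from projective space. -/
def B (a : P.Y.ι) : Subring K := icl K (chA P.R.y a).toSubring

/-- The point lies in the chart. -/
def In (a : P.Y.ι) (x : X.Pt) : Prop := P.z a ∉ Q.van 1 x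

variable {P} {a b : P.Y.ι} {x : X.Pt}

lemma z_ne (a : P.Y.ι) : P.z a ≠ 0 := fun h => by
  have := P.hu a
  rw [h, zero_div, map_eq_zero] at this
  exact P.R.ne a this

lemma In.locOf (h : In P a x) : LocOf (B P a) (X.O x) :=
  Q.locOf_icl one_pos P.mem P.nv P.d0 P.hu h

lemma in_iff : In P a x ↔ (chA P.R.y a).toSubring ≤ (X.O x).comap (algebraMap P.L K) :=
  (Q.chA_le_iff P.mem P.d0 P.hu (P.nv x) (z_ne a)).symm

lemma alg_mem {w : P.L} (h : w ∈ chA P.R.y a) : algebraMap P.L K w ∈ B P a := alg_mem_icl h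

lemma const_mem_B (a : P.Y.ι) (c : ℂ) : algebraMap ℂ K c ∈ B P a := by
  rw [IsScalarTower.algebraMap_apply ℂ P.L K]
  exact alg_mem ((chA P.R.y a).algebraMap_mem c)

lemma In.of_un (h : In P a x) (hu : Un (X.O x) (algebraMap P.L K (P.R.y b / P.R.y a))) :
    In P b x := in_iff.2 (chA_le_of_un (in_iff.1 h) (un_comap.2 hu))

lemma pts {T : Subring K} (hT : IsLoc T) (h : LocOf (B P a) T) : ∃ x, X.O x = T ∧ In P a x := by
  obtain ⟨V, hV⟩ := hT.exists_val
  obtain ⟨x, hx⟩ := X.exists_ctr_val V fun c => hV.1 (h.1 (const_mem_B a c))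
  obtain ⟨a', ha'⟩ := P.nv x
  have h1 : In P a' x := ha'
  have h2 : (chA P.R.y a).toSubring ≤ V.toSubring.comap (algebraMap P.L K) :=
    fun w hw => hV.1 (h.1 (alg_mem hw))
  have h3 : (chA P.R.y a').toSubring ≤ V.toSubring.comap (algebraMap P.L K) :=
    fun w hw => hx.1 (in_iff.1 h1 hw)
  have h4 := un_comap.1 (un_of_chA (P.R.ne a') (P.R.ne a) h3 h2)
  have h5 : In P a x := h1.of_un (hx.2 _ (in_iff.1 h1 (div_mem_chA _ _ _)) h4)
  exact ⟨x, (h5.locOf.eq_loc hx).trans (h.eq_loc hV).symm, h5⟩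

lemma glue {ω : Ω[K⁄ℂ]} (h : ∀ x, In P a x → In P b x → ω ∈ frm (X.O x)) :
    ∃ n : ℕ, algebraMap P.L K (P.R.y b / P.R.y a) ^ n • ω ∈ frm (B P a) := by
  let I : Ideal (B P a) :=
    { carrier := {p | (p : K) • ω ∈ frm (B P a)}
      zero_mem' := by simp
      add_mem' := fun {p q} hp hq => by
        simpa only [mem_ofPred_eq, Subring.coe_add, add_smul] using add_mem hp hq
      smul_mem' := fun r p hp => by
        simpa only [mem_ofPred_eq, smul_eq_mul, Subring.coe_mul, mul_smul] using smul_mem r.2 hp }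
  obtain ⟨n, hn⟩ := rad I ⟨_, alg_mem (div_mem_chA P.R.y a b)⟩ fun T h1 h2 h3 => by
    obtain ⟨x, rfl, hx⟩ := pts h1 h2
    obtain ⟨p, h4, h5, h6⟩ := frm_loc h2 (h x hx (hx.of_un h3))
    exact ⟨⟨p, h4⟩, h6, h5⟩
  exact ⟨n, hn⟩

lemma exists_eta {D : X.PD →₀ ℤ} (hD : Cart D) (a : P.Y.ι) :
    ∃ η : Ω[K⁄ℂ], ∀ x, In P a x → ∀ f, LocEq D x f → η - dlog f ∈ frm (X.O x) := by
  let I : Ideal (B P a) :=
    { carrier := {p | ∃ η : Ω[K⁄ℂ], ∀ x, In P a x → ∀ f, LocEq D x f →
        η - (p : K) • dlog f ∈ frm (X.O x)}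
      zero_mem' := ⟨0, fun x _ f _ => by simp⟩
      add_mem' := by
        rintro p q ⟨η, hp⟩ ⟨η', hq⟩
        refine ⟨η + η', fun x hx f hf => ?_⟩
        convert add_mem (hp x hx f hf) (hq x hx f hf) using 1
        rw [Subring.coe_add, add_smul]
        abel
      smul_mem' := by
        rintro r p ⟨η, hp⟩
        refine ⟨(r : K) • η, fun x hx f hf => ?_⟩
        convert smul_mem (hx.locOf.1 r.2) (hp x hx f hf) using 1
        rw [smul_eq_mul, Subring.coe_mul, mul_smul, smul_sub] }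
  obtain ⟨n, η, hn⟩ := rad I 1 fun T h1 h2 _ => by
    obtain ⟨x₀, rfl, hx₀⟩ := pts h1 h2
    obtain ⟨f₀, hf₀⟩ := hD x₀
    obtain ⟨f, hf, hf'⟩ := hf₀.exists_section h2
    obtain ⟨g, hg, hg'⟩ := hf₀.neg.exists_section h2
    have k1 : ∀ x, In P a x → ∀ h, LocEq D x h → f / h ∈ X.O x ∧ g * h ∈ X.O x := by
      intro x hx h hh
      refine ⟨hartogs fun E hE => ?_, hartogs fun E hE => ?_⟩
      · have := hf' E (hx.locOf.1.trans hE)
        rw [ord_div hf.1 hh.1, ← hh.eq hE]
        omega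
      · have := hg' E (hx.locOf.1.trans hE)
        rw [Finsupp.neg_apply] at this
        rw [ord_mul hg.1 hh.1, ← hh.eq hE]
        omega
    have k2 : f * g ∈ B P a := mem_of_forall_loc fun T h3 h4 => by
      obtain ⟨x, rfl, hx⟩ := pts h3 h4
      obtain ⟨h, hh⟩ := hD x
      have h0 := hh.1
      convert mul_mem (k1 x hx h hh).1 (k1 x hx h hh).2 using 1
      field_simp
    refine ⟨⟨f * g, k2⟩, ⟨g • KaehlerDifferential.D ℂ K f, fun x hx h hh => ?_⟩, ?_⟩
    · have h0 := hh.1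
      have k3 : KaehlerDifferential.D ℂ K f = (f / h) • KaehlerDifferential.D ℂ K h +
          h • KaehlerDifferential.D ℂ K (f / h) := by
        rw [← Derivation.leibniz, div_mul_cancel₀ _ h0]
      convert smul_mem (k1 x hx h hh).2 (D_mem (k1 x hx h hh).1) using 1
      rw [k3, dlog, smul_add, smul_smul, smul_smul, smul_smul]
      have : g * (f / h) = f * g * h⁻¹ := by field_simp
      rw [this]
      abel
    · have := hf.un (by simpa using hg.neg)
      simpa using this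
  exact ⟨η, fun x hx f hf => by simpa using hn x hx f hf⟩

variable (P) in
/-- The direct image of the sheaf of differentials modulo torsion. -/
def sh : Sh P.R.y Ω[K⁄ℂ] where
  M a :=
    { carrier := frm (B P a)
      zero_mem' := zero_mem _
      add_mem' := add_mem
      smul_mem' := fun r ω h => by
        have := smul_mem (alg_mem r.2) h
        rw [algebraMap_smul] at this
        exact this }
  compat a b v hv := by
    obtain ⟨n, hn⟩ := glue (a := b) (b := a) (ω := v) fun x _ hx => frm_mono hx.locOf.1 hv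
    refine ⟨n, ?_⟩
    rw [← map_pow, algebraMap_smul] at hn
    exact hn

lemma mem_sh {ω : Ω[K⁄ℂ]} : ω ∈ (sh P).M a ↔ ω ∈ frm (B P a) := Iff.rfl

lemma exists_gens (a : P.Y.ι) : ∃ G : Set K, G.Finite ∧ G ⊆ B P a ∧
    ∀ w ∈ B P a, w ∈ Submodule.span (chA P.R.y a) G := by
  haveI := P.fd
  haveI : CharZero P.L := charZero_of_injective_algebraMap (algebraMap ℂ P.L).injective
  let A := (chA P.R.y a).toSubring
  have hA : A = (P.Y.A a).toSubring := by rw [P.R.A_eq]
  haveI : IsFractionRing A P.L := isFrac (hA ▸ P.Y.frac a)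
  haveI : IsIntegrallyClosed A := Nml.isIntegrallyClosed (hA ▸ P.Y.nml_A a)
  haveI : IsNoetherianRing A := hA ▸ inferInstance
  have hf : Module.Finite A (integralClosure A K) := IsIntegralClosure.finite A P.L K _
  obtain ⟨s, hs⟩ := hf.fg_top
  refine ⟨Subtype.val '' (s : Set (integralClosure A K)), s.finite_toSet.image _, ?_, fun w hw => ?_⟩
  · rintro _ ⟨w, -, rfl⟩
    exact w.2
  · have h1 : (⟨w, hw⟩ : integralClosure A K) ∈ Submodule.span A (s : Set (integralClosure A K)) :=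
      hs ▸ Submodule.mem_top
    have h2 : ∀ v : integralClosure A K, v ∈ Submodule.span A (s : Set (integralClosure A K)) →
        (v : K) ∈ Submodule.span (chA P.R.y a) (Subtype.val '' (s : Set (integralClosure A K))) := by
      intro v hv
      induction hv using Submodule.span_induction with
      | mem x hx => exact Submodule.subset_span ⟨x, hx, rfl⟩
      | zero => exact zero_mem _
      | add a b _ _ h2 h3 => exact add_mem h2 h3
      | smul r v _ h2 => exact Submodule.smul_mem _ (⟨r.1, r.2⟩ : chA P.R.y a) h2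
    exact h2 _ h1

lemma fg_sh (a : P.Y.ι) : ((sh P).M a).FG := by
  obtain ⟨G, h1, h2, h3⟩ := exists_gens a
  let T : Set K := G ∪ range fun b => algebraMap P.L K (P.R.y b / P.R.y a)
  have hT : T ⊆ B P a := union_subset h2 (range_subset_iff.2 fun b => alg_mem (div_mem_chA _ _ _))
  let S : Set Ω[K⁄ℂ] := image2 (fun w t => w • KaehlerDifferential.D ℂ K t) G T
  let N := Submodule.span (chA P.R.y a) S
  have hsm : ∀ (r : chA P.R.y a) (w : K), r • w = algebraMap P.L K r * w := fun r w => by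
    rw [← smul_eq_mul, algebraMap_smul]; rfl
  have hsm' : ∀ (r : chA P.R.y a) (w : Ω[K⁄ℂ]), r • w = algebraMap P.L K r • w := fun r w => by
    rw [algebraMap_smul]; rfl
  let Z : K → Prop := fun w => w ∈ B P a ∧ ∀ b ∈ B P a, b • KaehlerDifferential.D ℂ K w ∈ N
  have z1 : ∀ t ∈ T, Z t := fun t ht => ⟨hT ht, fun b hb => by
    have := h3 b hb
    clear hb
    induction this using Submodule.span_induction with
    | mem x hx => exact Submodule.subset_span ⟨x, hx, t, ht, rfl⟩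
    | zero => simp
    | add a b _ _ h4 h5 => rw [add_smul]; exact add_mem h4 h5
    | smul r v _ h4 => rw [hsm, mul_smul, ← hsm']; exact N.smul_mem r h4⟩
  have z2 : ∀ v w, Z v → Z w → Z (v + w) := fun v w hv hw => ⟨add_mem hv.1 hw.1, fun b hb => by
    rw [map_add, smul_add]; exact add_mem (hv.2 b hb) (hw.2 b hb)⟩
  have z3 : ∀ v w, Z v → Z w → Z (v * w) := fun v w hv hw => ⟨mul_mem hv.1 hw.1, fun b hb => by
    rw [Derivation.leibniz, smul_add, smul_smul, smul_smul]
    exact add_mem (hw.2 _ (mul_mem hb hv.1)) (hv.2 _ (mul_mem hb hw.1))⟩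
  have z4 : ∀ r ∈ chA P.R.y a, Z (algebraMap P.L K r) := fun r hr => by
    induction hr using Algebra.adjoin_induction with
    | mem x hx => obtain ⟨b, rfl⟩ := hx; exact z1 _ (Or.inr ⟨b, rfl⟩)
    | algebraMap c =>
      rw [← IsScalarTower.algebraMap_apply]
      exact ⟨const_mem_B a c, fun b _ => by simp⟩
    | add x y _ _ h4 h5 => rw [map_add]; exact z2 _ _ h4 h5
    | mul x y _ _ h4 h5 => rw [map_mul]; exact z3 _ _ h4 h5
  have z5 : ∀ w ∈ B P a, Z w := fun w hw => by
    have := h3 w hw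
    clear hw
    induction this using Submodule.span_induction with
    | mem x hx => exact z1 x (Or.inl hx)
    | zero => exact ⟨zero_mem _, fun b _ => by simp⟩
    | add a b _ _ h4 h5 => exact z2 _ _ h4 h5
    | smul r v _ h4 => rw [hsm]; exact z3 _ _ (z4 r r.2) h4
  refine Submodule.fg_def.2 ⟨S, h1.image2 _ (h1.union (finite_range _)), le_antisymm ?_ ?_⟩
  · refine Submodule.span_le.2 ?_
    rintro _ ⟨w, hw, t, ht, rfl⟩
    exact smul_mem (h2 hw) (D_mem (hT ht))
  · intro ω hω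
    have := frm_ind (p := fun ω => ∀ b ∈ B P a, b • ω ∈ N) (fun w hw => (z5 w hw).2)
      (fun b _ => by simp) (fun v w hv hw b hb => by
        rw [smul_add]; exact add_mem (hv b hb) (hw b hb))
      (fun r hr v hv b hb => by rw [smul_smul]; exact hv _ (mul_mem hb hr)) hω 1 (one_mem _)
    simpa using this

lemma csmul_mem {c : ℂ} {ω : Ω[K⁄ℂ]} (h : ω ∈ frm (X.O x)) : c • ω ∈ frm (X.O x) := by
  have := smul_mem (X.const_mem x c) h
  rwa [algebraMap_smul] at this

end LOG

open LOG in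
theorem blockLOG (h1 : St_PRO1) (h2 : St_SER) : St_LOG := by
  intro K _ _ X Q
  obtain ⟨P⟩ := h1 K X Q
  haveI := P.fd
  obtain ⟨i⟩ := X.nei
  haveI := essFin_of_frac _ (X.fg i) (X.frac i)
  haveI : FiniteDimensional P.L Ω[K⁄ℂ] := Module.Finite.trans K _
  haveI : IsScalarTower ℂ P.L Ω[K⁄ℂ] := ⟨fun c r ω => by
    rw [← algebraMap_smul K (c • r), ← algebraMap_smul K r, ← smul_assoc]
    rfl⟩
  obtain ⟨W, hW, hW'⟩ := h2 P.L P.Y.ι Ω[K⁄ℂ] P.R.y P.R.ne P.ind
    (fun a => P.R.A_eq a ▸ P.Y.frac a) (sh P) fg_sh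
  haveI : FiniteDimensional ℂ W := Module.Finite.iff_fg.2 hW
  refine ⟨Module.finrank ℂ W + 1, fun D => ?_⟩
  choose η hη using fun i a => exists_eta (P := P) (D i).2 a
  have hc : ∀ i, η i ∈ (sh P).Cyc := fun i a b => by
    obtain ⟨n, hn⟩ := glue (a := a) (b := b) (ω := η i a - η i b) fun x hx hx' => by
      obtain ⟨f, hf⟩ := (D i).2 x
      convert sub_mem (hη i a x hx f hf) (hη i b x hx' f hf) using 1
      abel
    refine ⟨n, ?_⟩
    rw [← map_pow, algebraMap_smul] at hn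
    exact hn
  choose η₀ h3 using fun i => hW' (η i) (hc i)
  choose w hw l hl h4 using fun i => Submodule.mem_sup.1 (h3 i)
  have h5 : ¬LinearIndependent ℂ fun i => (⟨w i, hw i⟩ : W) := fun h => by
    simpa using h.fintype_card_le_finrank
  obtain ⟨c, h6, j, hj⟩ := Fintype.not_linearIndependent_iff.1 h5
  refine ⟨c, fun h => hj (congrFun h j), ∑ i, c i • η₀ i, fun x f hf => ?_⟩
  obtain ⟨a, ha⟩ := P.nv x
  have ha' : In P a x := ha
  have h7 : ∑ i, c i • w i a = 0 := by
    have := congrFun (congrArg Subtype.val h6) a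
    simpa using this
  have h8 : ∀ i, η₀ i = η i a - w i a - l i a := fun i => by
    have := congrFun (h4 i) a
    simp only [Pi.add_apply] at this
    rw [sub_sub, this]
    abel
  have h9 : ∑ i, c i • η₀ i - ∑ i, c i • dlog (f i) =
      ∑ i, c i • (η i a - dlog (f i) - l i a) - ∑ i, c i • w i a := by
    rw [← Finset.sum_sub_distrib, ← Finset.sum_sub_distrib]
    refine Finset.sum_congr rfl fun i _ => ?_
    rw [h8, ← smul_sub, ← smul_sub]
    congr 1
    abel
  rw [h9, h7, sub_zero]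
  exact sum_mem fun i _ => csmul_mem (sub_mem (hη i a x ha' _ (hf i))
    (frm_mono ha'.locOf.1 (hl i a (mem_univ a))))

end Pool.Agent.Lib.DU
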