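import Pool.Agent.Lib.DU.Blue
import Pool.Agent.Lib.MP_cc3443_ag.RH
import Pool.Agent.Lib.MP_e39d36_ag.Sal1

open Set Filter TensorProduct Pool.Agent.Lib.MP_e39d36_ag Pool.Agent.Lib.MP_e39d36_ag.Var
  Pool.Agent.Lib.MP_cc3443_ag

set_option linter.unusedSectionVars false
set_option linter.unusedVariables false
set_option linter.style.haveILetI false

noncomputable section

namespace Pool.Agent.Lib.DU

namespace RT

open WithZero Polynomial IntermediateField

variable {M : Type} [Field M] [Algebra ℂ M] [IsFF M] (D : Derivation ℂ M M)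

/-- The form `g` has at most a simple pole at `Q`, with residue `r`. -/
def Res (Q : Place M) (g : M) (r : ℂ) : Prop :=
  Q.val (g - algebraMap ℂ M r * (Q.unif⁻¹ * D Q.unif)) ≤ Q.val (D Q.unif)

/-- The form `g` has at most simple poles, and the sum of its residues is `T`. -/
def Good (g : M) (T : ℂ) : Prop :=
  ∃ r : Place M → ℂ, (Function.support r).Finite ∧ (∀ Q, Res D Q g (r Q)) ∧ ∑ᶠ Q, r Q = T

variable {D}

lemma Res.add {Q : Place M} {g g' : M} {r r' : ℂ} (h : Res D Q g r) (h' : Res D Q g' r') :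
    Res D Q (g + g') (r + r') := by
  unfold Res at *
  have := Q.val.map_add_le h h'
  rw [map_add]
  convert this using 2
  ring

lemma Res.mul {Q : Place M} {g : M} {r : ℂ} (c : ℂ) (h : Res D Q g r) :
    Res D Q (algebraMap ℂ M c * g) (c * r) := by
  unfold Res at *
  rw [map_mul, mul_assoc, ← mul_sub, map_mul]
  exact (mul_le_of_le_one_left' (Q.val_const_le c)).trans h

lemma res_of_le {Q : Place M} {g : M} (h : Q.val g ≤ Q.val (D Q.unif)) : Res D Q g 0 := by
  simpa [Res] using h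

lemma res_sum {Q : Place M} {ι : Type} (s : Finset ι) (g : ι → M) (r : ι → ℂ)
    (h : ∀ i, Res D Q (g i) (r i)) : Res D Q (∑ i ∈ s, g i) (∑ i ∈ s, r i) := by
  classical
  induction s using Finset.induction_on with
  | empty => exact res_of_le (by simp)
  | insert a s ha ih =>
    rw [Finset.sum_insert ha, Finset.sum_insert ha]
    exact (h a).add ih

lemma val_dl (Q : Place M) :
    Q.val (Q.unif⁻¹ * D Q.unif) = exp (1 : ℤ) * Q.val (D Q.unif) := by
  rw [map_mul, map_inv₀, Q.val_unif, ← exp_neg, neg_neg]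

lemma lt_dl (hD : D ≠ 0) (Q : Place M) :
    Q.val (D Q.unif) < exp (1 : ℤ) * Q.val (D Q.unif) := by
  rw [Q.val_eq (deriv_ne_zero hD Q.transc_unif), ← exp_add, exp_lt_exp]
  omega

lemma Res.eq_zero (hD : D ≠ 0) {Q : Place M} {r : ℂ} (h : Res D Q 0 r) : r = 0 := by
  by_contra hr
  unfold Res at h
  rw [zero_sub, Valuation.map_neg, map_mul, Q.val_const hr, one_mul, val_dl] at h
  exact absurd h (not_le.2 (lt_dl hD Q))

lemma res_dlog (hD : D ≠ 0) (Q : Place M) {f : M} (hf : f ≠ 0) :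
    Res D Q (f⁻¹ * D f) (Q.ord f) := by
  have ht := fun m : ℤ => zpow_ne_zero m Q.unif_ne_zero
  obtain ⟨m, hm⟩ : ∃ m, m = Q.ord f := ⟨_, rfl⟩
  obtain ⟨ε, hε⟩ : ∃ ε, ε = Q.unif ^ (-m) * f := ⟨_, rfl⟩
  rw [← hm]
  have h3 : Q.val ε = 1 := by
    rw [hε, map_mul, Q.val_unif_zpow, Q.val_eq hf, ← exp_add]; simp [hm]
  have h0 : ε ≠ 0 := by rintro rfl; simp at h3
  have h4 : f = Q.unif ^ m * ε := by rw [hε, zpow_neg, mul_inv_cancel_left₀ (ht m)]
  have h5 : f⁻¹ * D f - algebraMap ℂ M (m : ℂ) * (Q.unif⁻¹ * D Q.unif) = ε⁻¹ * D ε := by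
    have h6 := Q.unif_ne_zero
    rw [h4, D.leibniz, D.leibniz_zpow, smul_eq_mul, smul_eq_mul, smul_eq_mul, zsmul_eq_mul,
      map_intCast, zpow_sub₀ h6, zpow_one]
    have := ht m
    field_simp
    ring
  unfold Res
  rw [h5, map_mul, map_inv₀, h3, inv_one, one_mul]
  exact val_deriv_le_unif hD Q (Q.mem_iff.2 h3.le)

lemma Res.val_mul_le (hD : D ≠ 0) {Q : Place M} {g z : M} {r : ℂ} (h : Res D Q g r)
    (hz : Q.ord z ≠ 0) (h1 : D z = 1) : Q.val (g * z) ≤ 1 := by
  have h0 : z ≠ 0 := by rintro rfl; simp at hz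
  have h2 := ord_deriv hD Q hz
  rw [h1, Place.ord_one] at h2
  have h3 : Q.val g ≤ exp (1 : ℤ) * Q.val (D Q.unif) := by
    have h4 : g = (g - algebraMap ℂ M r * (Q.unif⁻¹ * D Q.unif)) +
      algebraMap ℂ M r * (Q.unif⁻¹ * D Q.unif) := by ring
    rw [h4]
    refine Q.val.map_add_le (le_trans h (lt_dl hD Q).le) ?_
    rw [map_mul, val_dl]
    exact mul_le_of_le_one_left' (Q.val_const_le r)
  rw [map_mul]
  refine (mul_le_mul_left h3 _).trans ?_
  rw [Q.val_eq (deriv_ne_zero hD Q.transc_unif), Q.val_eq h0, ← exp_add, ← exp_add, ← exp_zero,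
    exp_le_exp]
  omega

lemma Good.add {g g' : M} {T T' : ℂ} (h : Good D g T) (h' : Good D g' T') :
    Good D (g + g') (T + T') := by
  obtain ⟨r, h1, h2, rfl⟩ := h
  obtain ⟨r', h1', h2', rfl⟩ := h'
  exact ⟨fun Q => r Q + r' Q, (h1.union h1').subset (Function.support_add _ _),
    fun Q => (h2 Q).add (h2' Q), finsum_add_distrib h1 h1'⟩

lemma Good.mul {g : M} {T : ℂ} (c : ℂ) (h : Good D g T) :
    Good D (algebraMap ℂ M c * g) (c * T) := by
  obtain ⟨r, h1, h2, rfl⟩ := h
  exact ⟨fun Q => c * r Q, h1.subset (Function.support_mul_subset_right _ _),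
    fun Q => (h2 Q).mul c, (mul_finsum _ _).symm⟩

lemma good_sum {ι : Type} (s : Finset ι) (g : ι → M) (T : ι → ℂ)
    (h : ∀ i, Good D (g i) (T i)) : Good D (∑ i ∈ s, g i) (∑ i ∈ s, T i) := by
  classical
  induction s using Finset.induction_on with
  | empty => exact ⟨fun _ => 0, by simp, fun Q => res_of_le (by simp), by simp⟩
  | insert a s ha ih =>
    rw [Finset.sum_insert ha, Finset.sum_insert ha]
    exact (h a).add ih

lemma cast_finsum {ι : Type} (u : ι → ℤ) : ((∑ᶠ i, u i : ℤ) : ℂ) = ∑ᶠ i, (u i : ℂ) :=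
  (Int.castAddHom ℂ).map_finsum_of_injective Int.cast_injective u

lemma good_dlog (hD : D ≠ 0) {f : M} (hf : f ≠ 0) : Good D (f⁻¹ * D f) 0 :=
  ⟨fun Q => Q.ord f, (Place.finite_ord f).subset fun Q hQ h => hQ (by simp [h]),
    fun Q => res_dlog hD Q hf, by rw [← cast_finsum, prod_formula, Int.cast_zero]⟩

lemma val_aeval_sub (Q : Place M) {t : M} {a : ℂ} (h : Q.val (t - algebraMap ℂ M a) < 1)
    (p : ℂ[X]) : Q.val (aeval t p - algebraMap ℂ M (p.eval a)) < 1 := by
  obtain ⟨p1, hp⟩ := X_sub_C_dvd_sub_C_eval (a := a) (p := p)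
  have h1 := congrArg (aeval t) hp
  simp only [map_sub, map_mul, aeval_C, aeval_X] at h1
  have h2 : t ∈ Q.O := by
    have := add_mem (Q.mem_iff.2 h.le) (Q.const a)
    rwa [sub_add_cancel] at this
  rw [h1, map_mul]
  exact (mul_le_of_le_one_right' (Q.mem_iff.1 (Q.aeval_mem h2 p1))).trans_lt h

lemma one_le_val_aeval (Q : Place M) {t : M} (h : 1 < Q.val t) {p : ℂ[X]} (hp : p ≠ 0) :
    1 ≤ Q.val (aeval t p) := by
  rw [(IsAlgClosed.splits p).eq_prod_roots, map_mul, aeval_C, map_mul,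
    Q.val_const (leadingCoeff_ne_zero.2 hp), one_mul, map_multiset_prod,
    map_multiset_prod, Multiset.map_map, Multiset.map_map]
  refine Multiset.one_le_prod_of_one_le fun a ha => ?_
  obtain ⟨a, -, rfl⟩ := Multiset.mem_map.1 ha
  simp only [Function.comp_apply, map_sub, aeval_X, aeval_C]
  rw [Q.val.map_sub_eq_of_lt_left ((Q.val_const_le a).trans_lt h)]
  exact h.le

section
variable [Algebra (RatFunc ℂ) M] [IsScalarTower ℂ (RatFunc ℂ) M]
  [FiniteDimensional (RatFunc ℂ) M]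

lemma exists_pole {t : M} (ht : Transcendental ℂ t) : ∃ Q : Place M, 1 < Q.val t := by
  by_contra h
  push Not at h
  obtain ⟨c, rfl⟩ := exists_const (z := t) fun Q => Q.mem_iff.2 (h Q)
  exact ht (isAlgebraic_algebraMap c)

lemma exists_zero {t : M} (ht : Transcendental ℂ t) (a : ℂ) :
    ∃ Q : Place M, Q.val (t - algebraMap ℂ M a) < 1 := by
  have h0 := transc_sub_ne ht a
  have h1 : Transcendental ℂ (t - algebraMap ℂ M a) := transc_of_not_const fun c hc =>
    transc_sub_ne ht (c + a) (by rw [map_add, ← hc]; ring)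
  obtain ⟨Q, hQ⟩ := exists_pole (transc_inv h1)
  refine ⟨Q, not_le.1 fun h => ?_⟩
  exact absurd (Q.mem_iff.1 ((Q.inv_mem_iff h0).2 h)) (not_le.2 hQ)

lemma core {t : M} (ht : Transcendental ℂ t) (h1 : D t = 1) (n : ℕ) :
    ∀ (q p : ℂ[X]) (T : ℂ), q ≠ 0 → q.natDegree = n → Good D (aeval t p / aeval t q) T →
      T = 0 := by
  have hD : D ≠ 0 := by rintro rfl; simp at h1
  have hne : ∀ q : ℂ[X], q ≠ 0 → aeval t q ≠ 0 := fun q hq h => ht ⟨q, hq, h⟩
  induction n with
  | zero =>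
    rintro q p T hq hn ⟨r, -, h2, rfl⟩
    obtain ⟨b, rfl⟩ := natDegree_eq_zero.1 hn
    have hb : b ≠ 0 := by rintro rfl; simp at hq
    have hp : p = 0 := by
      by_contra hp
      obtain ⟨Q, hQ⟩ := exists_pole ht
      have h3 : Q.ord t ≠ 0 := fun h => by
        rw [Q.val_eq (transc_ne_zero ht), h] at hQ; simp at hQ
      have h4 := (h2 Q).val_mul_le hD h3 h1
      rw [map_mul, map_div₀, aeval_C, Q.val_const hb, div_one] at h4
      exact absurd ((le_mul_of_one_le_left' (one_le_val_aeval Q hQ hp)).trans h4) (not_le.2 hQ)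
    subst hp
    simp only [map_zero, zero_div] at h2
    simp [fun Q => (h2 Q).eq_zero hD]
  | succ n ih =>
    intro q p T hq hn hg
    obtain ⟨a, ha⟩ := IsAlgClosed.exists_root q (by
      rw [degree_eq_natDegree hq, hn]; exact_mod_cast Nat.succ_ne_zero n)
    obtain ⟨q1, rfl⟩ := dvd_iff_isRoot.2 ha
    have hq1 : q1 ≠ 0 := right_ne_zero_of_mul hq
    have h0 := transc_sub_ne ht a
    have h2 : D (t - algebraMap ℂ M a) = 1 := by rw [map_sub, D.map_algebraMap, sub_zero, h1]
    have h3 := hne q1 hq1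
    simp only [map_mul, map_sub, aeval_X, aeval_C] at hg
    obtain ⟨c, hc⟩ : ∃ c : ℂ, p.eval a = c * q1.eval a := by
      by_cases h : q1.eval a = 0
      · refine ⟨0, ?_⟩
        obtain ⟨r, -, h4, -⟩ := hg
        obtain ⟨Q, hQ⟩ := exists_zero ht a
        have h5 : Q.ord (t - algebraMap ℂ M a) ≠ 0 := fun h => by
          rw [Q.val_eq h0, h] at hQ; simp at hQ
        have h6 := (h4 Q).val_mul_le hD h5 h2
        have h7 : aeval t p = aeval t p / ((t - algebraMap ℂ M a) * aeval t q1) *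
          (t - algebraMap ℂ M a) * aeval t q1 := by field_simp
        have h8 := val_aeval_sub Q hQ q1
        rw [h, map_zero, sub_zero] at h8
        have h9 : Q.val (aeval t p - algebraMap ℂ M 0) < 1 := by
          rw [map_zero, sub_zero, h7, map_mul]
          exact (mul_le_of_le_one_left' h6).trans_lt h8
        rw [zero_mul]
        exact Q.res_unique (val_aeval_sub Q hQ p) h9
      · exact ⟨p.eval a / q1.eval a, by field_simp⟩
    obtain ⟨p1, hp1⟩ : X - C a ∣ p - C c * q1 := dvd_iff_isRoot.2 (by simp [hc])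
    have h4 := congrArg (aeval t) hp1
    simp only [map_sub, map_mul, aeval_C, aeval_X] at h4
    have h5 := hg.add ((good_dlog hD h0).mul (-c))
    rw [mul_zero, add_zero] at h5
    refine ih q1 p1 T hq1 ?_ ?_
    · rw [natDegree_mul (X_sub_C_ne_zero a) hq1, natDegree_X_sub_C] at hn
      omega
    · convert h5 using 1
      rw [h2, map_neg]
      field_simp
      linear_combination -h4

end

lemma good_push {F : Type} [Field F] [Algebra ℂ F] [IsFF F] (hD : D ≠ 0) (j : F →ₐ[ℂ] M)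
    (φ : Ω[F⁄ℂ] →+ M) (hφ : ∀ (a : F) ω, φ (a • ω) = j a * φ ω)
    (hφ' : ∀ a, φ (KaehlerDifferential.D ℂ F a) = D (j a)) {n : ℕ} (c : Fin n → ℂ)
    (f : Place F → Fin n → F) (η : Ω[F⁄ℂ]) (hf : ∀ P i, f P i ≠ 0)
    (hfin : ∀ i, {P : Place F | P.ord (f P i) ≠ 0}.Finite)
    (hη : ∀ P : Place F, η - ∑ i, c i • dlog (f P i) ∈ frm P.O.toSubring) :
    ∃ m : ℕ, 0 < m ∧ Good D (φ η) (m * ∑ i, c i * (∑ᶠ P : Place F, P.ord (f P i) : ℤ)) := by
  obtain ⟨m, hm, h1⟩ := exists_deg j
  have h2 : ∀ i, (Function.support fun Q : Place M =>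
      c i * (Q.ord (j (f (resP j Q) i)) : ℂ)).Finite := by
    intro i
    obtain ⟨k, -, h⟩ := exists_sum_over j
    choose T hT hT' using h
    refine ((hfin i).biUnion fun P _ => (T P).finite_toSet).subset fun Q hQ => ?_
    simp only [mem_iUnion, Finset.mem_coe, hT]
    refine ⟨resP j Q, fun h0 => hQ ?_, rfl⟩
    obtain ⟨e, -, he⟩ := exists_ram j.toRingHom (w := Q.val) (resP j Q).val_surj fun z => by
      rw [← Place.mem_iff, ← Place.mem_iff]; rfl
    have := he (f (resP j Q) i)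
    change Q.ord (j _) = e * (resP j Q).ord _ at this
    simp only [this, h0, mul_zero, Int.cast_zero]
  refine ⟨m, hm, fun Q => ∑ i, c i * (Q.ord (j (f (resP j Q) i)) : ℂ), ?_, fun Q => ?_, ?_⟩
  · refine (Set.finite_iUnion h2).subset fun Q hQ => ?_
    obtain ⟨i, -, hi⟩ := Finset.exists_ne_zero_of_sum_ne_zero hQ
    exact mem_iUnion.2 ⟨i, hi⟩
  · have h3 : ∀ ω ∈ frm (resP j Q).O.toSubring, Q.val (φ ω) ≤ Q.val (D Q.unif) := by
      intro ω hω
      induction hω using Submodule.span_induction with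
      | mem x hx =>
        obtain ⟨a, ha, rfl⟩ := hx
        rw [hφ']
        exact val_deriv_le_unif hD Q ha
      | zero => simp
      | add x y _ _ hx hy => rw [map_add]; exact Q.val.map_add_le hx hy
      | smul a x _ hx =>
        change Q.val (φ ((a : F) • x)) ≤ _
        rw [hφ, map_mul]
        exact (mul_le_of_le_one_left' (Q.mem_iff.1 a.2)).trans hx
    have h4 := (res_of_le (h3 _ (hη (resP j Q)))).add (res_sum Finset.univ _ _ fun i =>
      (res_dlog hD Q ((map_ne_zero j).2 (hf (resP j Q) i))).mul (c i))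
    rw [zero_add] at h4
    convert h4 using 1
    rw [map_sub, map_sum, eq_comm, sub_add_eq_add_sub, sub_eq_iff_eq_add, add_right_inj]
    refine Finset.sum_congr rfl fun i _ => ?_
    rw [← algebraMap_smul F (c i), hφ, dlog, hφ, hφ', j.commutes, map_inv₀]
  · rw [finsum_sum_comm _ _ fun i _ => h2 i, Finset.mul_sum]
    refine Finset.sum_congr rfl fun i _ => ?_
    rw [← mul_finsum, ← cast_finsum, h1 (fun P => f P i) (hfin i)]
    push_cast
    ring

end RT

open IntermediateField in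
theorem blockRT : St_RT := by
  intro F _ _ _ n c f η hf hfin hη
  classical
  obtain ⟨u, hu⟩ := IsFF.ex (K := F)
  haveI := IsFF.fin u hu
  let e := RatFunc.algEquivOfTranscendental u hu
  letI : Algebra (RatFunc ℂ) F := ((ℂ⟮u⟯.val).comp e.toAlgHom).toRingHom.toAlgebra
  haveI : IsScalarTower ℂ (RatFunc ℂ) F := IsScalarTower.of_algebraMap_eq fun a =>
    (((ℂ⟮u⟯.val).comp e.toAlgHom).commutes a).symm
  haveI : FiniteDimensional (RatFunc ℂ) F :=
    Module.Finite.of_equiv_equiv (A₁ := ℂ⟮u⟯) (B₁ := F) e.symm.toRingEquiv (RingEquiv.refl F) (by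
      ext a
      change ((e (e.symm a) : ℂ⟮u⟯) : F) = a
      simp)
  obtain ⟨M, _, _, _, _, _, _, _, _, _⟩ := exists_galois_closure (RatFunc ℂ) F
  obtain ⟨D₀, hD₀⟩ := exists_deriv (K := M)
  obtain ⟨t, htd⟩ : ∃ t, t = algebraMap (RatFunc ℂ) M RatFunc.X := ⟨_, rfl⟩
  have ht : Transcendental ℂ t := htd ▸
    (transcendental_algebraMap_iff (algebraMap (RatFunc ℂ) M).injective).2 RatFunc.transcendental_X
  obtain ⟨D, h1⟩ : ∃ D : Derivation ℂ M M, D t = 1 :=
    ⟨(D₀ t)⁻¹ • D₀, by simp [inv_mul_cancel₀ (deriv_ne_zero hD₀ ht)]⟩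
  have hD : D ≠ 0 := by rintro rfl; simp at h1
  have h2 : ∀ (σ : M ≃ₐ[RatFunc ℂ] M) (x : M), D (σ x) = σ (D x) := by
    intro σ x
    let D' : Derivation ℂ M M :=
      { toFun := fun x => σ.symm (D (σ x))
        map_add' := fun x y => by simp
        map_smul' := fun r z => by
          simp only [RingHom.id_apply]
          rw [← algebraMap_smul (RatFunc ℂ) r z, map_smul, algebraMap_smul, D.map_smul,
            ← algebraMap_smul (RatFunc ℂ) r, map_smul, algebraMap_smul]
        map_one_eq_zero' := by simp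
        leibniz' := fun a b => by simp }
    have h3 : D' - D = 0 := by
      by_contra h
      refine deriv_ne_zero h ht ?_
      change σ.symm (D (σ t)) - D t = 0
      rw [htd, σ.commutes, ← htd, h1, map_one, sub_self]
    have h4 : σ.symm (D (σ x)) = D x := congrArg (fun E : Derivation ℂ M M => E x) (sub_eq_zero.1 h3)
    rw [← h4, σ.apply_symm_apply]
  let φ : Ω[F⁄ℂ] →ₗ[F] M := (D.compAlgebraMap F).liftKaehlerDifferential
  have h3 : ∀ σ : M ≃ₐ[RatFunc ℂ] M, ∃ m : ℕ, 0 < m ∧ RT.Good D (σ (φ η))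
      (m * ∑ i, c i * (∑ᶠ P : Place F, P.ord (f P i) : ℤ)) := fun σ =>
    RT.good_push hD ((σ.toAlgHom.restrictScalars ℂ).comp (IsScalarTower.toAlgHom ℂ F M))
      (σ.toRingEquiv.toAddMonoidHom.comp φ.toAddMonoidHom)
      (fun a ω => by
        change σ (φ (a • ω)) = σ (algebraMap F M a) * σ (φ ω)
        rw [map_smul, Algebra.smul_def, map_mul])
      (fun a => by
        change σ (φ (KaehlerDifferential.D ℂ F a)) = D (σ (algebraMap F M a))
        rw [h2, Derivation.liftKaehlerDifferential_comp_D]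
        rfl) c f η hf hfin hη
  choose m hm h4 using h3
  have h5 := RT.good_sum Finset.univ _ _ h4
  obtain ⟨h, hh⟩ : ∑ σ : M ≃ₐ[RatFunc ℂ] M, σ (φ η) ∈ (algebraMap (RatFunc ℂ) M).range := by
    refine (IsGalois.mem_range_algebraMap_iff_fixed _).2 fun τ => ?_
    rw [map_sum]
    exact Fintype.sum_equiv (Equiv.mulLeft τ) _ _ fun σ => rfl
  have h6 : ∀ p : Polynomial ℂ, algebraMap (RatFunc ℂ) M (algebraMap _ _ p) =
      Polynomial.aeval t p := fun p => by
    rw [htd, Polynomial.aeval_algebraMap_apply, RatFunc.aeval_X_left_eq_algebraMap]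
  rw [← hh, ← RatFunc.num_div_denom h, map_div₀, h6, h6, ← Finset.sum_mul] at h5
  have h7 := RT.core ht h1 _ _ _ _ (RatFunc.denom_ne_zero h) rfl h5
  refine (mul_eq_zero.1 h7).resolve_left ?_
  rw [← Nat.cast_sum, Nat.cast_eq_zero]
  exact (Finset.sum_pos (fun σ _ => hm σ) Finset.univ_nonempty).ne'

end Pool.Agent.Lib.DU
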