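import Pool.Agent.Lib.DU.Blue

open Set Filter TensorProduct Pool.Agent.Lib.MP_e39d36_ag Pool.Agent.Lib.MP_e39d36_ag.Var
  Pool.Agent.Lib.MP_cc3443_ag

set_option linter.unusedSectionVars false
set_option linter.unusedVariables false
set_option linter.style.haveILetI false

noncomputable section

namespace Pool.Agent.Lib.DU

theorem blockDER : St_DER := by
  intro k F ι _ _ _ _ x hx v
  classical
  let A := MvPolynomial ι k
  letI : Algebra A F := (MvPolynomial.aeval x : A →ₐ[k] F).toRingHom.toAlgebra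
  have hA : ∀ a : A, algebraMap A F a = MvPolynomial.aeval x a := fun _ => rfl
  haveI : IsScalarTower k A F := IsScalarTower.of_algebraMap_eq fun c => by
    rw [hA]; exact ((MvPolynomial.aeval x : A →ₐ[k] F).commutes c).symm
  have hinj : Function.Injective (algebraMap A F) := hx.1
  haveI : FaithfulSMul A F := (faithfulSMul_iff_algebraMap_injective A F).2 hinj
  let L := FractionRing A
  letI : Algebra L F := FractionRing.liftAlgebra A F
  haveI : IsScalarTower A L F := FractionRing.isScalarTower_liftAlgebra A F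
  haveI : Algebra.IsAlgebraic A F := by
    have h1 := hx.isAlgebraic
    refine ⟨fun z => ?_⟩
    have h2 := h1.1 z
    refine IsAlgebraic.of_ringHom_of_comp_eq (R := A) (S := Algebra.adjoin k (range x))
      (f := (hx.1.aevalEquiv : A ≃ₐ[k] _).toRingEquiv.toRingHom) (g := RingHom.id F) h2
      hx.1.aevalEquiv.surjective (fun _ _ h => h) ?_
    refine RingHom.ext fun a => ?_
    exact hx.1.algebraMap_aevalEquiv a
  haveI : Algebra.IsAlgebraic L F := Algebra.IsAlgebraic.extendScalars (R := A)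
    (IsFractionRing.injective A L)
  haveI : CharZero L := charZero_of_injective_algebraMap (R := k) (algebraMap k L).injective
  haveI : Algebra.FormallyEtale A L := Algebra.FormallyEtale.of_isLocalization (nonZeroDivisors A)
  haveI : Algebra.FormallyEtale L F := Algebra.FormallyEtale.of_isSeparable L F
  haveI : Algebra.FormallyEtale A F := Algebra.FormallyEtale.comp A L F
  let d : Derivation k A F := MvPolynomial.mkDerivation k v
  let e := KaehlerDifferential.tensorKaehlerEquivOfFormallyEtale k A F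
  let l : F ⊗[A] Ω[A⁄k] →ₗ[F] F := d.liftKaehlerDifferential.liftBaseChange F
  refine ⟨(l ∘ₗ e.symm.toLinearMap).compDer (KaehlerDifferential.D k F), fun i => ?_⟩
  have h1 : x i = algebraMap A F (MvPolynomial.X i) := by simp [hA]
  have h2 := KaehlerDifferential.tensorKaehlerEquivOfFormallyEtale_symm_D_algebraMap k A F
    (MvPolynomial.X i)
  change l (e.symm (KaehlerDifferential.D k F (x i))) = v i
  rw [h1, h2]
  simp only [l, d, LinearMap.liftBaseChange_tmul, one_smul,
    Derivation.liftKaehlerDifferential_comp_D]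
  exact MvPolynomial.mkDerivation_X k v i

namespace DER

open Polynomial in
/-- A derivation-like map keeps algebraic elements inside a stable submodule. -/
theorem alg0 {F N : Type*} [Field F] [CharZero F] [AddCommGroup N] [Module F N] (δ : F → N)
    (ha : ∀ a b, δ (a + b) = δ a + δ b) (hm : ∀ a b, δ (a * b) = a • δ b + b • δ a)
    (B : Subring F) (E : Subfield F) (hBE : ∀ b ∈ B, b ∈ E) (M : Submodule E N)
    (hD : ∀ b ∈ B, δ b ∈ M) {u : F} (huE : u ∈ E) (hu : IsAlgebraic B u) : δ u ∈ M := by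
  classical
  have hsm : ∀ c ∈ E, ∀ n ∈ M, c • n ∈ M := fun c hc n hn => M.smul_mem ⟨c, hc⟩ hn
  have h0 : δ 0 = 0 := by
    have := ha 0 0
    rw [add_zero] at this
    exact (add_eq_left.1 this.symm)
  have hpow : ∀ n : ℕ, δ (u ^ (n + 1)) = ((n + 1 : ℕ) * u ^ n) • δ u := by
    intro n
    induction n with
    | zero => simp
    | succ n ih =>
      rw [pow_succ, hm, ih, smul_smul, ← add_smul]
      congr 1
      push_cast
      ring
  have key : ∀ p : B[X], δ (aeval u p) - aeval u (derivative p) • δ u ∈ M := by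
    intro p
    induction p using Polynomial.induction_on' with
    | add p q hp hq =>
      have := M.add_mem hp hq
      rw [map_add, ha, map_add, map_add, add_smul]
      convert this using 1
      abel
    | monomial n a =>
      rw [derivative_monomial, aeval_monomial, aeval_monomial]
      cases n with
      | zero => simpa using (show δ (algebraMap B F a) ∈ M from hD a a.2)
      | succ n =>
        rw [hm, hpow, smul_smul]
        have : u ^ (n + 1) • δ (algebraMap B F a) ∈ M :=
          hsm _ (E.pow_mem huE _) _ (hD a a.2)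
        convert this using 1
        simp only [Nat.add_sub_cancel, map_mul, map_natCast]
        rw [mul_assoc]
        abel
  have hex : ∃ n, ∃ p : B[X], p ≠ 0 ∧ aeval u p = 0 ∧ p.natDegree = n := by
    obtain ⟨p, hp, hp'⟩ := hu
    exact ⟨_, p, hp, hp', rfl⟩
  obtain ⟨p, hp0, hpu, hpn⟩ := Nat.find_spec hex
  have hdeg : p.natDegree ≠ 0 := by
    intro h
    rw [eq_C_of_natDegree_eq_zero h] at hpu hp0
    rw [aeval_C] at hpu
    exact hp0 (by rw [show p.coeff 0 = 0 from Subtype.ext hpu, map_zero])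
  have hne : aeval u (derivative p) ≠ 0 := by
    intro h
    have hd0 : derivative p ≠ 0 := fun h' => hdeg (derivative_eq_zero.1 h')
    exact Nat.find_min hex (hpn ▸ natDegree_derivative_lt hdeg) ⟨_, hd0, h, rfl⟩
  have hmem : aeval u (derivative p) ∈ E := by
    rw [aeval_eq_sum_range]
    refine E.sum_mem fun i _ => ?_
    rw [Algebra.smul_def]
    exact E.mul_mem (hBE _ (Subtype.prop _)) (E.pow_mem huE _)
  have h1 := key p
  rw [hpu, h0, zero_sub] at h1
  have h2 := hsm _ (E.inv_mem hmem) _ (M.neg_mem h1)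
  rwa [neg_neg, smul_smul, inv_mul_cancel₀ hne, one_smul] at h2

/-- A derivation sends algebraic elements into a stable submodule. -/
theorem alg {R F N : Type*} [CommRing R] [Field F] [CharZero F] [Algebra R F] [AddCommGroup N]
    [Module F N] [Module R N] (D : Derivation R F N)
    (B : Subring F) (E : Subfield F) (hBE : ∀ b ∈ B, b ∈ E) (M : Submodule E N)
    (hD : ∀ b ∈ B, D b ∈ M) {u : F} (huE : u ∈ E) (hu : IsAlgebraic B u) : D u ∈ M :=
  alg0 D (map_add D) D.leibniz B E hBE M hD huE hu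

/-- A subfield as a submodule over itself. -/
def selfMod {F : Type*} [Field F] (E : Subfield F) : Submodule E F where
  carrier := E
  zero_mem' := E.zero_mem
  add_mem' := E.add_mem
  smul_mem' := fun c _ h => E.mul_mem c.2 h

theorem alg_self {R F : Type*} [CommRing R] [Field F] [CharZero F] [Algebra R F]
    (D : Derivation R F F) (B : Subring F) (E : Subfield F) (hBE : ∀ b ∈ B, b ∈ E)
    (hD : ∀ b ∈ B, D b ∈ E) {u : F} (huE : u ∈ E) (hu : IsAlgebraic B u) : D u ∈ E :=
  alg D B E hBE (selfMod E) hD huE hu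

theorem alg_zero {R F N : Type*} [CommRing R] [Field F] [CharZero F] [Algebra R F]
    [AddCommGroup N] [Module F N] [Module R N] (D : Derivation R F N) (B : Subring F)
    (hD : ∀ b ∈ B, D b = 0) {u : F} (hu : IsAlgebraic B u) : D u = 0 :=
  alg D B ⊤ (fun _ _ => trivial) ⊥ hD trivial hu

/-- Values of a derivation-like map on a generated subalgebra. -/
theorem adjoin0 {k F N : Type*} [CommRing k] [Field F] [Algebra k F] [AddCommGroup N] [Module F N]
    (δ : F → N) (ha : ∀ a b, δ (a + b) = δ a + δ b) (hm : ∀ a b, δ (a * b) = a • δ b + b • δ a)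
    (hk : ∀ c, δ (algebraMap k F c) = 0) (s : Set F) (E : Subfield F)
    (hE : ∀ b ∈ Algebra.adjoin k s, b ∈ E) (M : Submodule E N) (hs : ∀ b ∈ s, δ b ∈ M) :
    ∀ b ∈ Algebra.adjoin k s, δ b ∈ M := by
  intro b hb
  induction hb using Algebra.adjoin_induction with
  | mem b hb => exact hs b hb
  | algebraMap c => rw [hk]; exact M.zero_mem
  | add a b _ _ h1 h2 => rw [ha]; exact M.add_mem h1 h2
  | mul a b h3 h4 h1 h2 =>
    rw [hm]
    exact M.add_mem (M.smul_mem ⟨a, hE a h3⟩ h2) (M.smul_mem ⟨b, hE b h4⟩ h1)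

/-- A stable nonzero space of vectors contains a nonzero constant vector. -/
theorem ech0 {F ι : Type*} [Field F] [Finite ι] (E : Subfield F) (W : Set (ι → F))
    (hE : ∀ w ∈ W, ∀ i, w i ∈ E) (hs : ∀ w ∈ W, ∀ c ∈ E, c • w ∈ W) (Δ : Set (F → F))
    (h0 : ∀ d ∈ Δ, d 0 = 0 ∧ d 1 = 0) (hΔ : ∀ d ∈ Δ, ∀ w ∈ W, (fun i => d (w i)) ∈ W)
    (hne : ∃ w ∈ W, w ≠ 0) : ∃ w ∈ W, (∃ i, w i = 1) ∧ ∀ d ∈ Δ, ∀ i, d (w i) = 0 := by
  classical
  have hex : ∃ n, ∃ w ∈ W, w ≠ 0 ∧ (Function.support w).ncard = n := by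
    obtain ⟨w, hw, hw0⟩ := hne
    exact ⟨_, w, hw, hw0, rfl⟩
  obtain ⟨w, hw, hw0, hn⟩ := Nat.find_spec hex
  obtain ⟨i, hi⟩ := Function.ne_iff.1 hw0
  have hi' : w i ≠ 0 := hi
  refine ⟨(w i)⁻¹ • w, hs w hw _ (E.inv_mem (hE w hw i)), ⟨i, by simp [hi']⟩, fun d hd => ?_⟩
  by_contra hc
  push Not at hc
  obtain ⟨j, hj⟩ := hc
  have hmem := hΔ d hd _ (hs w hw _ (E.inv_mem (hE w hw i)))
  refine Nat.find_min hex (m := (Function.support fun l => d (((w i)⁻¹ • w) l)).ncard) ?_
    ⟨_, hmem, Function.ne_iff.2 ⟨j, hj⟩, rfl⟩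
  rw [← hn]
  refine Set.ncard_lt_ncard ⟨fun l hl => ?_, fun h => ?_⟩ (Set.toFinite _)
  · intro h
    apply hl
    simp [h, (h0 d hd).1]
  · apply h hi'
    simp [hi', (h0 d hd).2]

/-- A nonzero subspace stable under derivations has a nonzero vector killed by them. -/
theorem ech {R F ι : Type*} [CommRing R] [Field F] [Algebra R F] [Finite ι]
    (Δ : Set (Derivation R F F)) (W : Submodule F (ι → F)) (hW : W ≠ ⊥)
    (hΔ : ∀ D ∈ Δ, ∀ w ∈ W, (fun i => D (w i)) ∈ W) :
    ∃ w ∈ W, (∃ i, w i = 1) ∧ ∀ D ∈ Δ, ∀ i, D (w i) = 0 := by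
  obtain ⟨w, hw, h1, h2⟩ := ech0 (⊤ : Subfield F) (W : Set (ι → F)) (fun _ _ _ => trivial)
    (fun w hw c _ => W.smul_mem c hw) ((fun D : Derivation R F F => (D : F → F)) '' Δ)
    (by rintro _ ⟨D, -, rfl⟩; exact ⟨map_zero D, D.map_one_eq_zero⟩)
    (by rintro _ ⟨D, hD, rfl⟩; exact hΔ D hD) ((Submodule.ne_bot_iff W).1 hW)
  exact ⟨w, hw, h1, fun D hD => h2 _ ⟨D, hD, rfl⟩⟩

/-- Linear disjointness from derivations. -/
theorem ld {R k F : Type*} [CommRing R] [Field k] [Field F] [Algebra R F] [Algebra k F]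
    (Δ : Set (Derivation R F F)) (E : IntermediateField k F) (hE : ∀ D ∈ Δ, ∀ e ∈ E, D e ∈ E)
    (hc : ∀ e ∈ E, (∀ D ∈ Δ, D e = 0) → e ∈ range (algebraMap k F)) (C : Subalgebra k F)
    (hC : ∀ D ∈ Δ, ∀ c ∈ C, D c = 0) : E.toSubalgebra.LinearDisjoint C := by
  classical
  let b := Module.Basis.ofVectorSpace k C
  refine Subalgebra.LinearDisjoint.of_basis_right _ _ b ?_
  rw [linearIndependent_iff']
  intro s g hg i hi
  by_contra hne
  obtain ⟨w, ⟨hw1, hw2⟩, ⟨j, hj⟩, h2⟩ := ech0 (ι := s) E.toSubfield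
    {f | (∀ l, f l ∈ E) ∧ ∑ l : s, f l * (b l : F) = 0} (fun w hw => hw.1)
    (fun w hw c hc => ⟨fun l => E.mul_mem hc (hw.1 l), by
      simp only [Pi.smul_apply, smul_eq_mul, mul_assoc, ← Finset.mul_sum, hw.2, mul_zero]⟩)
    ((fun D : Derivation R F F => (D : F → F)) '' Δ)
    (by rintro _ ⟨D, -, rfl⟩; exact ⟨map_zero D, D.map_one_eq_zero⟩)
    (by
      rintro _ ⟨D, hD, rfl⟩ w hw
      refine ⟨fun l => hE D hD _ (hw.1 l), ?_⟩
      have := congrArg D hw.2
      rw [map_sum, map_zero] at this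
      rw [← this]
      refine Finset.sum_congr rfl fun l _ => ?_
      rw [D.leibniz, hC D hD _ (b l).2, smul_zero, zero_add, smul_eq_mul, mul_comm])
    ⟨fun l => (g l : F), ⟨fun l => (g l).2, by
      rw [← hg, ← Finset.sum_coe_sort s]; rfl⟩,
      Function.ne_iff.2 ⟨⟨i, hi⟩, fun h => hne (Subtype.ext h)⟩⟩
  choose a ha using fun l => hc (w l) (hw1 l) fun D hD => h2 _ ⟨D, hD, rfl⟩ l
  have h3 : ∑ l : s, a l • b l = 0 := by
    apply Subtype.ext
    rw [AddSubmonoidClass.coe_finsetSum]
    rw [show ((0 : C) : F) = 0 from rfl, ← hw2]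
    refine Finset.sum_congr rfl fun l _ => ?_
    rw [← ha, ← Algebra.smul_def]
    rfl
  have h4 := (Fintype.linearIndependent_iff.1
    (b.linearIndependent.comp (fun l : s => l.1) Subtype.val_injective)) a h3 j
  have h5 := ha j
  rw [h4, map_zero, hj] at h5
  exact zero_ne_one h5

/-- A transcendental element is moved by a derivation. -/
theorem exists_one {k F : Type} [Field k] [CharZero k] [Field F] [Algebra k F] {e : F}
    (he : Transcendental k e) : ∃ D : Derivation k F F, D e = 1 := by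
  have h1 : AlgebraicIndepOn k id ({e} : Set F) := by
    rw [AlgebraicIndepOn, algebraicIndependent_unique_type_iff]
    exact he
  obtain ⟨t, ht, hb⟩ := exists_isTranscendenceBasis_superset h1
  obtain ⟨D, hD⟩ := blockDER k F t _ hb fun _ => 1
  exact ⟨D, hD ⟨e, ht rfl⟩⟩

/-- Common constants of the coordinate derivations are algebraic. -/
theorem const {k F ι : Type} [Field k] [CharZero k] [Field F] [Algebra k F] (x : ι → F)
    (d : ι → F → F) (ha : ∀ i a b, d i (a + b) = d i a + d i b)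
    (hm : ∀ i a b, d i (a * b) = a * d i b + b * d i a) (hk : ∀ i c, d i (algebraMap k F c) = 0)
    (h1 : ∀ i, d i (x i) = 1) (h0 : ∀ i j, i ≠ j → d i (x j) = 0) {e : F}
    (he : IsAlgebraic (Algebra.adjoin k (range x)) e) (hd : ∀ i, d i e = 0) : IsAlgebraic k e := by
  classical
  by_contra hc
  obtain ⟨D, hD⟩ := exists_one (k := k) hc
  haveI : CharZero F := charZero_of_injective_algebraMap (algebraMap k F).injective
  let φ : (ι →₀ F) →ₗ[F] (ι → F) × F :=
    Finsupp.lcoeFun.prod (Finsupp.linearCombination F fun j => D (x j))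
  let δ : F → (ι → F) × F := fun a => (fun i => d i a, D a)
  have ha' : ∀ a b, δ (a + b) = δ a + δ b := fun a b =>
    Prod.ext (funext fun i => ha i a b) (map_add D a b)
  have hm' : ∀ a b, δ (a * b) = a • δ b + b • δ a := fun a b =>
    Prod.ext (funext fun i => hm i a b) (D.leibniz a b)
  have h2 := alg0 δ ha' hm' (Algebra.adjoin k (range x)).toSubring ⊤ (fun _ _ => trivial)
    ((LinearMap.range φ).restrictScalars (⊤ : Subfield F))
    (adjoin0 δ ha' hm' (fun c => Prod.ext (funext fun i => hk i c) (D.map_algebraMap c)) _ ⊤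
      (fun _ _ => trivial) _ (by
        rintro _ ⟨j, rfl⟩
        refine ⟨Finsupp.single j 1, Prod.ext (funext fun i => ?_) (by simp [φ, δ])⟩
        by_cases h : i = j
        · subst h; simp [φ, δ, h1]
        · simp [φ, δ, h0 i j h, Ne.symm h])) trivial he
  obtain ⟨c, hc'⟩ := h2
  have h3 : c = 0 := by
    ext i
    have := congrFun (congrArg Prod.fst hc') i
    simpa [φ, δ, hd] using this
  have h4 := congrArg Prod.snd hc'
  simp [φ, δ, h3, hD] at h4

end DER

end Pool.Agent.Lib.DU
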