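import Pool.Agent.Lib.DU.Blue

open Set Filter TensorProduct Pool.Agent.Lib.MP_e39d36_ag Pool.Agent.Lib.MP_e39d36_ag.Var
  Pool.Agent.Lib.MP_cc3443_ag

set_option linter.unusedSectionVars false
set_option linter.unusedVariables false
set_option linter.style.haveILetI false

noncomputable section

namespace Pool.Agent.Lib.DU

namespace BPF

variable {K F F' : Type} [Field K] [Algebra ℂ K] [Field F] [Algebra ℂ F] [Field F'] [Algebra ℂ F']
  {X : Var K}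

lemma deg_pos [IsFF F] (γ : CMap X F) {D : X.PD →₀ ℤ} (hD : Cart D) (h0 : 0 ≤ D)
    (hc : ∀ E : X.PD, X.O γ.c ≤ X.O E.1 → D E = 0) (P : Place F) (E : X.PD)
    (hE : X.O (γ.ctr P) ≤ X.O E.1) (hDE : D E ≠ 0) : 0 < γ.deg D := by
  have h1 : LocEq D γ.c 1 := .mk' one_ne_zero fun E hE => by simp [hc E hE, ord_val]
  rw [CMap.deg_eq hD (fun _ => hD.lf _) h1]
  have h2 : ∀ P : Place F, γ.τ (lf D (γ.ctr P) / 1) ∈ P.O := fun P => by
    rw [div_one]
    exact (CMap.mem_T.1 ((γ.dom_ctr P).1 ((hD.lf _).mem h0))).2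
  refine finsum_pos (fun P => (place_isV P).od_nonneg (h2 P)) ⟨P, ?_⟩
    (CMap.finite_supp (fun _ => hD.lf _) h1)
  refine ((place_isV P).od_nonneg (h2 P)).lt_of_ne' fun h3 => hDE ?_
  have h4 := ((hD.lf _).mono (γ.ctr_le P)).un h1
  have h5 := (γ.dom_ctr P).2 _ (by rw [div_one]; exact (hD.lf _).mem h0)
    (CMap.un_T.2 ⟨h4, (place_isV P).un_iff.2 ⟨CMap.τ_ne h4, h3⟩⟩)
  rw [div_one] at h5
  rw [(hD.lf _).eq hE, ord_un (h5.mono hE)]

lemma deg_ne [IsFF F] [IsFF F'] (γ : CMap X F) (β : CMap X F') (h : β.c = γ.c)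
    {D : X.PD →₀ ℤ} (hD : Cart D) (h0 : γ.deg D ≠ 0) : β.deg D ≠ 0 := by
  have hc : IsCurve γ.c := of_not_not fun hc => h0 (CMap.deg_eq_zero hc hD)
  haveI := CMap.isFF_of_isCurve (CMap.res_surj γ.c) hc
  obtain ⟨n, -, h1⟩ := CMap.exists_deg_factor γ (CMap.res γ.c) rfl (CMap.res_surj _)
  obtain ⟨m, hm, h2⟩ := CMap.exists_deg_factor β (CMap.res γ.c) h (CMap.res_surj _)
  rw [h1 D hD] at h0
  rw [h2 D hD]
  exact mul_ne_zero (by exact_mod_cast hm.ne') (right_ne_zero_of_mul h0)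

section cover

variable {L M : Type} [Field L] [Algebra ℂ L] [Field M] [Algebra ℂ M] [Algebra L K] [Algebra K M]
  [Algebra L M] [IsScalarTower ℂ L K] [IsScalarTower ℂ K M] [IsScalarTower ℂ L M]
  [IsScalarTower L K M] [FiniteDimensional L M] [IsGalois L M] [FiniteDimensional K M]
  [IsGalois K M] {Y : Var L} {Z : Var M} (π : IC Y X) (π' : IC X Z)

lemma pull_div (φ : K) : π'.pull (X.div φ) = Z.div (algebraMap K M φ) := by
  ext E
  rw [IC.pull_apply, div_apply, div_apply, IC.ord_alg]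

lemma exists_degree (h2 : St_PIC) (h3 : St_CURVE) (R : Prj Y)
    (hR : ∀ a, AlgebraicIndependent ℂ fun b : {b // b ≠ a} => R.y b / R.y a) (a : Y.ι)
    (Γ : Curves X) (v : Γ.N1) : ∃ b : ℕ, ∀ D : X.CD, Γ.cls D = v → 0 ≤ D.1 → ∀ N, Cart N →
      (π.comp π').pull N = ∑ σ, (π.comp π').actD σ (π'.pull D.1) →
        ∃ φ : L, φ ≠ 0 ∧ N = Y.div φ + b • R.hyp a := by
  by_cases ha : R.hyp a = 0
  · refine ⟨0, fun D _ _ N _ _ => ?_⟩
    obtain ⟨φ, d, h4, h5, -⟩ := h2 L Y R hR N a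
    exact ⟨φ, h4, by simpa [ha] using h5⟩
  obtain ⟨E, hE⟩ := Finsupp.ne_iff.1 ha
  obtain ⟨F, _, _, _, γ, P, h4, h5⟩ := h3 L Y R E.1 (isV E).ne_top _ (R.hyp a).support.finite_toSet
  have h6 := (deg_pos γ (R.cart_hyp a) (R.hyp_nonneg a)
    (fun E' hE' => of_not_not fun h => h5 E' (Finsupp.mem_support_iff.2 h) hE') P E h4 hE).ne'
  have hc : IsCurve γ.c := of_not_not fun hc => h6 (CMap.deg_eq_zero hc (R.cart_hyp a))
  obtain ⟨w, hw⟩ := (π.comp π').surj γ.c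
  haveI := CMap.isFF_of_isCurve (CMap.res_surj w) ((π.comp π').isCurve.1 (hw ▸ hc))
  have h7 := deg_ne γ ((CMap.res w).push (π.comp π').mor) hw (R.cart_hyp a) h6
  choose l hl _ using fun σ : M ≃ₐ[L] M =>
    Γ.exists_fun (((CMap.res w).push ((π.comp π').actMor σ)).push π'.mor)
  refine ⟨⌊(∑ σ, l σ v) / (((CMap.res w).push (π.comp π').mor).deg (R.hyp a) : ℝ)⌋₊,
    fun D hv h0 N hN h8 => ?_⟩
  have h9 := π'.cart_pull D.2
  obtain ⟨φ, d, h10, h11, h12⟩ := h2 L Y R hR N a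
  obtain ⟨n, rfl⟩ := Int.eq_ofNat_of_zero_le
    (h12 ((π.comp π').norm_nonneg h8 (π'.pull_nonneg.2 h0)))
  rw [natCast_zsmul] at h11
  have h13 : ((CMap.res w).push (π.comp π').mor).deg N =
      ∑ σ, (((CMap.res w).push ((π.comp π').actMor σ)).push π'.mor).deg D.1 := by
    rw [← CMap.deg_push _ hN fun _ _ => (π.comp π').locEq_pull, h8,
      CMap.deg_sum fun σ _ => (π.comp π').cart_act h9]
    refine Finset.sum_congr rfl fun σ _ => ?_
    rw [CMap.deg_push ((π.comp π').actMor σ) h9 fun _ _ => (π.comp π').locEq_act,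
      CMap.deg_push π'.mor D.2 fun _ _ => π'.locEq_pull]
  rw [h11, CMap.deg_add (cart_div h10) ((R.cart_hyp a).nsmul n), CMap.deg_div h10, zero_add,
    CMap.deg_nsmul (R.cart_hyp a)] at h13
  have h14 : ∑ σ, l σ v = n * (((CMap.res w).push (π.comp π').mor).deg (R.hyp a) : ℝ) := by
    simp only [← hv, hl]
    exact_mod_cast h13.symm
  refine ⟨φ, h10, ?_⟩
  rw [h14, mul_div_cancel_right₀ _ (by exact_mod_cast h7), Nat.floor_natCast]
  exact h11

lemma pull_hyp (Q : Prj X) (R : Prj Y) {z : Y.ι → K} {d : K} (hz : ∀ a, z a ∈ Q.Fm 1)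
    (hv : ∀ x, ∃ a, z a ∉ Q.van 1 x) (hd : d ≠ 0) (hu : ∀ a, algebraMap L K (R.y a) = z a / d)
    (a : Y.ι) (j : X.ι) :
    (π.comp π').pull (R.hyp a) = π'.pull (Q.hyp j + X.div (z a / Q.y j)) := by
  have h0 : ∀ b, z b ≠ 0 := fun b h =>
    (map_ne_zero (algebraMap L K)).2 (R.ne b) (by rw [hu, h, zero_div])
  ext E
  obtain ⟨b, hb⟩ := hv (π'.p E.1)
  obtain ⟨y, h1, h2⟩ := exists_centre (X := Y) (i := b) ((X.isLoc (π'.p E.1)).comap _)
    (R.A_eq b ▸ (Q.chA_le_iff hz hd hu ⟨b, hb⟩ (h0 b)).2 hb)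
  rw [Y.sep _ _ _ ((X.isLoc _).comap _) h1 (π.dom _)] at h2
  have h3 := (π.comp π').locEq_pull (x := E.1) (R.locEq_hyp a h2.1)
  have h4 := (ch_spec (π'.p E.1)).1
  have h5 := (Q.notMem_van (hz b) h4).1 hb
  have h6 : LocEq (Q.hyp j + X.div (z a / Q.y j)) (π'.p E.1) (z a / z b) := by
    refine ((Q.locEq_hyp j h4).add (locEq_div (div_ne_zero (h0 a) (Q.ne j)))).of_un ?_
    convert h5.inv using 1
    have := h0 a
    have := h0 b
    have := Q.ne j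
    have := Q.ne (ch (π'.p E.1))
    field_simp
  rw [h3.eq le_rfl, (π'.locEq_pull h6).eq le_rfl, IsScalarTower.algebraMap_apply L K M, map_div₀,
    hu, hu, div_div_div_cancel_right₀ hd]

end cover

lemma core {L : Type} [Field L] [Algebra ℂ L] [Algebra L K] [IsScalarTower ℂ L K]
    [FiniteDimensional L K] {Y : Var L} (π : IC Y X) (h2 : St_PIC) (h3 : St_CURVE) (Q : Prj X)
    (R : Prj Y) (hR : ∀ a, AlgebraicIndependent ℂ fun b : {b // b ≠ a} => R.y b / R.y a)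
    {z : Y.ι → K} {d : K} (hz : ∀ a, z a ∈ Q.Fm 1) (hv : ∀ x, ∃ a, z a ∉ Q.van 1 x) (hd : d ≠ 0)
    (hu : ∀ a, algebraMap L K (R.y a) = z a / d) (Γ : Curves X) (j : X.ι) (v : Γ.N1) :
    ∃ b : ℕ, ∀ D : X.CD, Γ.cls D = v →
    (∀ T : Set X.Pt, T.Finite → ∃ f : K, f ≠ 0 ∧ 0 ≤ D.1 + X.div f ∧
      ∀ x ∈ T, ∀ E : X.PD, X.O x ≤ X.O E.1 → (D.1 + X.div f) E = 0) →
    ∀ x, ∃ s : K, s ≠ 0 ∧ 0 ≤ b • Q.hyp j - D.1 + X.div s ∧
      ∀ E : X.PD, X.O x ≤ X.O E.1 → (b • Q.hyp j - D.1 + X.div s) E = 0 := by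
  classical
  obtain ⟨M, _, _, _, _, _, _, _, _, _⟩ := exists_galois_closure L K
  haveI := FiniteDimensional.right L K M
  haveI := IsGalois.tower_top_of_isGalois L K M
  obtain ⟨Z, ⟨π'⟩⟩ := exists_normalisation (K := M) X
  obtain ⟨a⟩ := Y.nei
  obtain ⟨b, hb⟩ := exists_degree π π' h2 h3 R hR a Γ v
  refine ⟨b, fun D hD0 hD x => ?_⟩
  obtain ⟨f, h4, h5, h6⟩ := hD _ (((π.comp π').finite_fibre (π.p x)).image π'.p)
  have h7 := D.2.add (cart_div (X := X) h4)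
  obtain ⟨N, h8, h9⟩ := (π.comp π').exists_norm (π'.cart_pull h7)
  obtain ⟨φ, h10, h11⟩ := hb ⟨_, h7⟩
    (by rw [Γ.cls_add D ⟨_, cart_div h4⟩, Γ.cls_div h4, add_zero, hD0]) h5 N h8 h9
  have h12 : z a / Q.y j ≠ 0 := div_ne_zero (fun h =>
    (map_ne_zero (algebraMap L K)).2 (R.ne a) (by rw [hu, h, zero_div])) (Q.ne j)
  have h13 : algebraMap L K φ ≠ 0 := (map_ne_zero _).2 h10
  have h14 : b • Q.hyp j - D.1 + X.div (algebraMap L K φ * (z a / Q.y j) ^ b / f) =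
      X.div (algebraMap L K φ) + b • (Q.hyp j + X.div (z a / Q.y j)) - (D.1 + X.div f) := by
    ext E
    simp only [Finsupp.add_apply, Finsupp.sub_apply, Finsupp.smul_apply, nsmul_eq_mul, div_apply]
    rw [ord_div (mul_ne_zero h13 (pow_ne_zero _ h12)) h4, ord_mul h13 (pow_ne_zero _ h12), ord_pow]
    ring
  have h15 : π'.pull (b • Q.hyp j - D.1 + X.div (algebraMap L K φ * (z a / Q.y j) ^ b / f)) =
      ∑ σ ∈ Finset.univ.erase 1, (π.comp π').actD σ (π'.pull (D.1 + X.div f)) := by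
    have h16 : (π.comp π').actD 1 (π'.pull (D.1 + X.div f)) = π'.pull (D.1 + X.div f) := by
      ext E
      rw [IC.actD_apply', inv_one]
      exact congrArg _ (Subtype.ext (π.comp π').act_one)
    rw [h14, map_sub, map_add, map_nsmul, ← pull_hyp π π' Q R hz hv hd hu, pull_div,
      ← IsScalarTower.algebraMap_apply, ← pull_div (π.comp π'), ← map_nsmul,
      ← map_add, ← h11, h9, ← Finset.add_sum_erase _ _ (Finset.mem_univ 1), h16,
      add_sub_cancel_left]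
  refine ⟨_, div_ne_zero (mul_ne_zero h13 (pow_ne_zero b h12)) h4, π'.pull_nonneg.1 ?_,
    fun E hE => ?_⟩
  · rw [h15]
    exact Finset.sum_nonneg fun σ _ E => π'.pull_nonneg.2 h5 _
  · obtain ⟨F, rfl⟩ := π'.pP_surj E
    obtain ⟨x', rfl, h16⟩ := π'.going_up hE
    refine (mul_eq_zero.1 ((π'.pull_apply _ F).symm.trans ?_)).resolve_left (π'.e_pos F).ne'
    rw [h15, Finsupp.finsetSum_apply]
    refine Finset.sum_eq_zero fun σ _ => ?_
    rw [IC.actD_apply', IC.pull_apply, h6 _ ⟨_, (π.comp π').p_act (σ := σ⁻¹) (x := x'), rfl⟩ _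
      (π'.mono ((π.comp π').act_le h16)), mul_zero]

end BPF

theorem blockBPF (h1 : St_PRO1) (h2 : St_PIC) (h3 : St_CURVE) : St_BPF := by
  intro K _ _ X Q Γ j v
  obtain ⟨P⟩ := h1 K X Q
  haveI := P.fd
  exact BPF.core P.π h2 h3 Q P.R P.ind P.mem P.nv P.d0 P.hu Γ j v

end Pool.Agent.Lib.DU
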