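import Pool.Agent.Lib.DU.Defs

open Set Filter TensorProduct Pool.Agent.Lib.MP_e39d36_ag Pool.Agent.Lib.MP_e39d36_ag.Var
  Pool.Agent.Lib.MP_cc3443_ag

set_option linter.unusedSectionVars false
set_option linter.unusedVariables false

noncomputable section

namespace Pool.Agent.Lib.DU

/-! ### Finiteness of the Picard number -/

/-- Spaces of global sections are finite dimensional. -/
def St_H0 : Prop := ∀ (k F ι : Type) [Field k] [CharZero k] [Field F] [Algebra k F] [Finite ι]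
  (y : ι → F) (d : ℤ), (∃ i, y i ≠ 0) → FiniteDimensional k (Gam k y d)

/-- Global sections of a quotient of two coherent sheaves. -/
def St_FIL : Prop := ∀ (L J V : Type) [Field L] [Algebra ℂ L] [Finite J] [AddCommGroup V]
  [Module L V] [Module ℂ V] [IsScalarTower ℂ L V] (u : J → L), (∀ a, u a ≠ 0) →
  ∀ S N : Sh u V, (∀ a, S.M a ≤ N.M a) → (∀ a, (N.M a).FG) →
    ∃ W : Submodule ℂ (J → V), W.FG ∧ ∀ η ∈ S.Cyc, η ∈ N.Loc → η ∈ W ⊔ S.Loc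

/-- Vanishing of the first cohomology of the nonnegative twists on projective space. -/
def St_H1 : Prop := ∀ (L J : Type) [Field L] [Algebra ℂ L] [Finite J] (u : J → L),
  (∀ a, u a ≠ 0) → (∀ a, AlgebraicIndependent ℂ fun b : {b // b ≠ a} => u b / u a) →
  ∀ (e : ℕ) (η : J → L), (∀ a b, ∃ n : ℕ, (u b / u a) ^ n * (η a - η b) / u a ^ e ∈ chA u a) →
    ∃ η₀, ∀ a, (η a - η₀) / u a ^ e ∈ chA u a

/-- Finiteness of the first cohomology of a torsion free coherent sheaf on projective space. -/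
def St_SER : Prop := ∀ (L J V : Type) [Field L] [Algebra ℂ L] [Finite J] [AddCommGroup V]
  [Module L V] [Module ℂ V] [IsScalarTower ℂ L V] [FiniteDimensional L V] (u : J → L),
  (∀ a, u a ≠ 0) → (∀ a, AlgebraicIndependent ℂ fun b : {b // b ≠ a} => u b / u a) →
  (∀ a w, ∃ b ∈ chA u a, b ≠ 0 ∧ b * w ∈ chA u a) → ∀ S : Sh u V, (∀ a, (S.M a).FG) →
    ∃ W : Submodule ℂ (J → V), W.FG ∧ ∀ η ∈ S.Cyc, ∃ η₀ : V, (fun a => η a - η₀) ∈ W ⊔ S.Loc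

/-- Projection from a base point free family of the right size. -/
def St_PRO : Prop := ∀ (K : Type) [Field K] [Algebra ℂ K] (X : Var K) (Q : Prj X) (m : ℕ),
  0 < m → ∀ (J : Type) [Finite J] (z : J → K), (∀ a, z a ∈ Q.Fm m) →
    (∀ x, ∃ a, z a ∉ Q.van m x) → (∀ a, Cardinal.mk {b : J // b ≠ a} ≤ Algebra.trdeg ℂ K) →
    ∃ (P : Pro Q m) (e : P.Y.ι ≃ J), ∀ a, P.z a = z (e a)

/-- Linear projections exist. -/
def St_PRO1 : Prop := ∀ (K : Type) [Field K] [Algebra ℂ K] (X : Var K) (Q : Prj X),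
  Nonempty (Pro Q 1)

/-- The divisor class group of projective space. -/
def St_PIC : Prop := ∀ (K : Type) [Field K] [Algebra ℂ K] (X : Var K) (Q : Prj X),
  (∀ a, AlgebraicIndependent ℂ fun b : {b // b ≠ a} => Q.y b / Q.y a) →
  ∀ (N : X.PD →₀ ℤ) (a : X.ι), ∃ (φ : K) (d : ℤ), φ ≠ 0 ∧ N = X.div φ + d • Q.hyp a ∧
    (0 ≤ N → 0 ≤ d)

/-- Curves through a point that are not contained in given divisors. -/
def St_CURVE : Prop := ∀ (K : Type) [Field K] [Algebra ℂ K] (X : Var K) (Q : Prj X) (x : X.Pt),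
  X.O x ≠ ⊤ → ∀ S : Set X.PD, S.Finite →
    ∃ (F : Type) (_ : Field F) (_ : Algebra ℂ F) (_ : IsFF F) (γ : CMap X F) (P : Place F),
      X.O (γ.ctr P) ≤ X.O x ∧ ∀ E ∈ S, ¬X.O γ.c ≤ X.O E.1

/-- Numerical equivalence can be tested on curves not contained in given divisors. -/
def St_GOOD : Prop := ∀ (K : Type) [Field K] [Algebra ℂ K] (X : Var K) (Q : Prj X)
  (S : Set X.PD), S.Finite → ∀ (n : ℕ) (D : Fin n → X.CD) (c : Fin n → ℂ),
    (∀ (F : Type) [Field F] [Algebra ℂ F] [IsFF F] (γ : CMap X F),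
      (∀ E ∈ S, ¬X.O γ.c ≤ X.O E.1) → ∑ i, c i * γ.deg (D i).1 = 0) →
    ∀ (F : Type) [Field F] [Algebra ℂ F] [IsFF F] (γ : CMap X F), ∑ i, c i * γ.deg (D i).1 = 0

/-- Among many Cartier divisors some combination carries a logarithmic form. -/
def St_LOG : Prop := ∀ (K : Type) [Field K] [Algebra ℂ K] (X : Var K) (Q : Prj X), ∃ n : ℕ,
  ∀ D : Fin n → X.CD, ∃ c : Fin n → ℂ, c ≠ 0 ∧ ∃ η : Ω[K⁄ℂ], ∀ (x : X.Pt) (f : Fin n → K),
    (∀ i, LocEq (D i).1 x (f i)) → η - ∑ i, c i • dlog (f i) ∈ frm (X.O x)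

/-- Differentials are torsion free away from finitely many divisors. -/
def St_SMO : Prop := ∀ (K : Type) [Field K] [Algebra ℂ K] (X : Var K), ∃ S : Set X.PD,
  S.Finite ∧ ∀ x, (∀ E ∈ S, ¬X.O x ≤ X.O E.1) →
    Function.Injective (KaehlerDifferential.map ℂ ℂ (X.O x) K)

/-- The residue theorem for logarithmic forms on a curve. -/
def St_RT : Prop := ∀ (F : Type) [Field F] [Algebra ℂ F] [IsFF F] (n : ℕ) (c : Fin n → ℂ)
  (f : Place F → Fin n → F) (η : Ω[F⁄ℂ]), (∀ P i, f P i ≠ 0) →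
    (∀ i, {P : Place F | P.ord (f P i) ≠ 0}.Finite) →
    (∀ P : Place F, η - ∑ i, c i • dlog (f P i) ∈ frm P.O.toSubring) →
    ∑ i, c i * (∑ᶠ P : Place F, P.ord (f P i) : ℤ) = 0

/-- The theorem of the base for numerical equivalence. -/
def St_FD : Prop := ∀ (K : Type) [Field K] [Algebra ℂ K] (X : Var K) (Q : Prj X) (Γ : Curves X),
  FiniteDimensional ℝ Γ.N1

/-! ### Numerically trivial pseudo-automorphisms -/

/-- Uniform base point freeness in a numerical class. -/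
def St_BPF : Prop := ∀ (K : Type) [Field K] [Algebra ℂ K] (X : Var K) (Q : Prj X) (Γ : Curves X)
  (j : X.ι) (v : Γ.N1), ∃ b : ℕ, ∀ D : X.CD, Γ.cls D = v →
    (∀ T : Set X.Pt, T.Finite → ∃ f : K, f ≠ 0 ∧ 0 ≤ D.1 + X.div f ∧
      ∀ x ∈ T, ∀ E : X.PD, X.O x ≤ X.O E.1 → (D.1 + X.div f) E = 0) →
    ∀ x, ∃ s : K, s ≠ 0 ∧ 0 ≤ b • Q.hyp j - D.1 + X.div s ∧
      ∀ E : X.PD, X.O x ≤ X.O E.1 → (b • Q.hyp j - D.1 + X.div s) E = 0

/-- Numerically trivial pseudo-automorphisms are morphisms. -/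
def St_REGK : Prop := ∀ (K : Type) [Field K] [Algebra ℂ K] (X : Var K) (Q : Prj X) (Γ : Curves X)
  (φ : Γ.Bir), Γ.rho φ = 1 → Reg ℂ Q.y φ.1

/-- Automorphisms are pseudo-automorphisms. -/
def St_REGB : Prop := ∀ (K : Type) [Field K] [Algebra ℂ K] (X : Var K) (Q : Prj X) (Γ : Curves X)
  (φ : K ≃ₐ[ℂ] K), Reg ℂ Q.y φ → Reg ℂ Q.y φ.symm → φ.toRingEquiv ∈ Γ.Bir

/-- Automorphisms with a given numerical action have bounded degree. -/
def St_BDD : Prop := ∀ (K : Type) [Field K] [Algebra ℂ K] (X : Var K) (Q : Prj X) (Γ : Curves X)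
  (T : Γ.N1 ≃ₗ[ℝ] Γ.N1), ∀ᶠ b in atTop, ∀ φ : Γ.Bir, Reg ℂ Q.y φ.1 → Reg ℂ Q.y φ.1.symm →
    Γ.rho φ = T → Bpf ℂ Q.y b φ.1

/-- Pseudo-automorphisms of bounded degree act through a finite set. -/
def St_FINR : Prop := ∀ (K : Type) [Field K] [Algebra ℂ K] (X : Var K) (Q : Prj X) (Γ : Curves X)
  [FiniteDimensional ℝ Γ.N1] (b : ℕ), (Γ.rho '' {φ | Deg ℂ Q.y b φ.1}).Finite

/-! ### Rigidity of finite group actions -/

/-- Derivations with prescribed values on a transcendence basis. -/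
def St_DER : Prop := ∀ (k F ι : Type) [Field k] [CharZero k] [Field F] [Algebra k F] (x : ι → F),
  IsTranscendenceBasis k x → ∀ v : ι → F, ∃ D : Derivation k F F, ∀ i, D (x i) = v i

/-- Existence of the universal base change. -/
def St_UNI : Prop := ∀ (K : Type) [Field K] [Algebra ℂ K], Nonempty (Uni K)

/-- Twisting a family of derivations by an automorphism keeps it regular, and regular vector fields
form a finite dimensional space. -/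
def St_VEC : Prop := ∀ (k F ι : Type) [Field k] [CharZero k] [Field F] [Algebra k F] (y : ι → F),
  Coords k y → (∀ φ : F ≃ₐ[k] F, Reg k y φ → Reg k y φ.symm → ∀ D : Derivation ℤ F F,
      (∀ j, ∀ a ∈ chK k y j, D a ∈ chK k y j) → ∀ j, ∀ a ∈ chK k y j, φ.symm (D (φ a)) ∈ chK k y j) ∧
    ∃ t : Submodule k (F → F), FiniteDimensional k t ∧ ∀ D : Derivation k F F,
      (∀ j, ∀ a ∈ chK k y j, D a ∈ chK k y j) → ⇑D ∈ t

/-- Every action defined over general constants is conjugate to one defined over independent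
constants. -/
def St_RIG : Prop := ∀ (K ι : Type) [Field K] [Algebra ℂ K] (y : ι → K), Coords ℂ y →
  ∀ W : Uni K, ∃ (κ : W.Ω ≃ₐ[W.U] W.Ω) (N : ℕ), Reg W.U (W.ι ∘ y) κ ∧ Reg W.U (W.ι ∘ y) κ.symm ∧
    ∀ (G : Type) [Group G] [Fintype G] (α : G →* (W.Ω ≃ₐ[W.U] W.Ω)),
      (∀ g, Reg W.U (W.ι ∘ y) (α g)) → (∀ g a, α g (W.ι a) ∈ W.Fld (W.cl (Ici N))) →
      ∃ C : Subalgebra ℂ W.U, (W.cl (Ici N)).toSubalgebra.LinearDisjoint C ∧
        ∀ g a, κ (α g (κ.symm (W.ι a))) ∈ W.Fld C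

/-- Generic extension of specialisations. -/
def St_CHEV : Prop := ∀ (U : Type) [Field U] [Algebra ℂ U] (R : Subalgebra ℂ U) (S : Set U),
  S.Finite → ∃ r : R, r ≠ 0 ∧ ∀ θ : R →ₐ[ℂ] ℂ, θ r ≠ 0 → ∃ P : Pl U,
    (∀ a : R, P.Val a (θ a)) ∧ ∀ s ∈ S, ∃ c, P.Val s c ∧ (s ≠ 0 → c ≠ 0)

/-- General specialisations of an automorphism. -/
def St_SPEC : Prop := ∀ (K ι : Type) [Field K] [Algebra ℂ K] (y : ι → K), Coords ℂ y →
  ∀ (W : Uni K) (κ : W.Ω ≃ₐ[W.U] W.Ω), Reg W.U (W.ι ∘ y) κ → Reg W.U (W.ι ∘ y) κ.symm →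
    ∃ b : ℕ, ∀ᶠ P in gen W.U, ∃ ψ : K ≃ₐ[ℂ] K, (∀ a, W.Sp P (κ (W.ι a)) (ψ a)) ∧
      (∀ a, W.Sp P (κ.symm (W.ι a)) (ψ.symm a)) ∧ Reg ℂ y ψ ∧ Reg ℂ y ψ.symm ∧ Deg ℂ y b ψ

/-- The generic member of a bounded sequence of actions. -/
def St_GEN : Prop := ∀ (K ι : Type) [Field K] [Algebra ℂ K] (y : ι → K), Coords ℂ y →
  ∀ (W : Uni K) (N : ℕ) (G : Type) [Group G] [Fintype G] (b : ℕ) (β : ℕ → G →* (K ≃ₐ[ℂ] K)),
    (∀ n g, Bpf ℂ y b (β n g)) → ∀ 𝒰 : Ultrafilter ℕ,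
    ∃ (σ : Type) (_ : Finite σ) (c : σ → W.U) (cn : ℕ → σ → ℂ) (α : G →* (W.Ω ≃ₐ[W.U] W.Ω)),
      (∀ s, c s ∈ W.cl (Ici N)) ∧
      (∀ p : MvPolynomial σ ℂ, MvPolynomial.aeval c p = 0 ↔
        ∀ᶠ n in 𝒰, MvPolynomial.aeval (cn n) p = 0) ∧
      (∀ g, Reg W.U (W.ι ∘ y) (α g)) ∧ (∀ g a, α g (W.ι a) ∈ W.Fld (range c)) ∧
      ∀ᶠ n in 𝒰, ∀ P : Pl W.U, (∀ s, P.Val (c s) (cn n s)) →
        ∀ g a, W.Sp P (α g (W.ι a)) (β n g a)

/-- Finite group actions of bounded degree fall into finitely many conjugacy classes. -/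
def St_CORE : Prop := ∀ (K ι : Type) [Field K] [Algebra ℂ K] (y : ι → K), Coords ℂ y →
  ∀ (G : Type) [Group G] [Fintype G] (b : ℕ) (β : ℕ → G →* (K ≃ₐ[ℂ] K)),
    (∀ n g, Bpf ℂ y b (β n g)) → ∃ (d : ℕ) (S : Set ℕ) (ψ : ℕ → K ≃ₐ[ℂ] K), S.Infinite ∧
      (∀ n ∈ S, Reg ℂ y (ψ n) ∧ Reg ℂ y (ψ n).symm ∧ Deg ℂ y d (ψ n)) ∧
      ∀ n ∈ S, ∀ m ∈ S, ∀ g, ψ n * β n g * (ψ n)⁻¹ = ψ m * β m g * (ψ m)⁻¹

/-- The finiteness property used in the descent. -/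
def FC {B G H : Type} [Group B] [Group G] [Group H] (ρ : B →* H) (ι : G →* B) : Prop :=
  ∀ F : Set H, F.Finite → ∃ R : Set B, R.Finite ∧ ∀ γ : B, (∀ g, ρ (γ⁻¹ * ι g * γ) ∈ F) →
    ∃ r ∈ R, ∃ z : B, (∀ g, z * ι g = ι g * z) ∧ ρ γ = ρ z * ρ r

/-- The finiteness property holds for every finite group of automorphisms. -/
def St_FC : Prop := ∀ (K : Type) [Field K] [Algebra ℂ K] (X : Var K) (Q : Prj X) (Γ : Curves X)
  (G : Type) [Group G] [Fintype G] (ι : G →* Γ.Bir), (∀ g, Reg ℂ Q.y (ι g).1) → FC Γ.rho ι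

end Pool.Agent.Lib.DU
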