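import Pool.Agent.Lib.DU.Blue
import Pool.Agent.Lib.G1.Chev

open Set Filter TensorProduct Pool.Agent.Lib.MP_e39d36_ag Pool.Agent.Lib.MP_e39d36_ag.Var
  Pool.Agent.Lib.MP_cc3443_ag

set_option linter.unusedSectionVars false
set_option linter.unusedVariables false

noncomputable section

namespace Pool.Agent.Lib.DU

theorem blockCHEV : St_CHEV := by
  classical
  intro U _ _ R S hS
  obtain ⟨ι, x, hx⟩ := exists_isTranscendenceBasis' R U
  let B : Subalgebra R U := Algebra.adjoin R (range x)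
  have : Algebra.IsAlgebraic B U := hx.isAlgebraic
  obtain ⟨a, ha0, ha⟩ := Algebra.IsAlgebraic.exists_integral_multiples B
    (hS.toFinset ∪ hS.toFinset.image fun s => s⁻¹)
  let p : MvPolynomial ι R := hx.1.aevalEquiv.symm a
  have hp : p ≠ 0 := fun h => ha0 (hx.1.aevalEquiv.symm.injective (h.trans (map_zero _).symm))
  obtain ⟨m, hm⟩ := MvPolynomial.ne_zero_iff.1 hp
  refine ⟨_, hm, fun θ hθ => ?_⟩
  have hq : MvPolynomial.map θ.toRingHom p ≠ 0 := fun h => hθ (by
    have := congrArg (MvPolynomial.coeff m) h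
    rwa [MvPolynomial.coeff_map] at this)
  obtain ⟨v, hv⟩ : ∃ v : ι → ℂ, MvPolynomial.eval v (MvPolynomial.map θ.toRingHom p) ≠ 0 := by
    by_contra! h
    exact hq (MvPolynomial.funext fun v => by rw [h, map_zero])
  let ψ : B →+* ℂ :=
    (MvPolynomial.eval₂Hom θ.toRingHom v).comp hx.1.aevalEquiv.symm.toRingEquiv.toRingHom
  have hψa : ψ a ≠ 0 := by
    rw [MvPolynomial.eval_map] at hv
    exact hv
  have hψR : ∀ r : R, ψ (algebraMap R B r) = θ r := fun r => by
    change MvPolynomial.eval₂Hom θ.toRingHom v (hx.1.aevalEquiv.symm (algebraMap R B r)) = _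
    rw [AlgEquiv.commutes, MvPolynomial.algebraMap_eq, MvPolynomial.eval₂Hom_C]
    rfl
  obtain ⟨O, ψ', h1, h2, h3, h4, h5⟩ := G1.blockChev U ℂ B.toSubring ψ
  have hR : ∀ r : R, (r : U) ∈ O := fun r => h1 _ (B.algebraMap_mem r)
  have hR' : ∀ r : R, ψ' r = θ r := fun r => (h2 (algebraMap R B r)).trans (hψR r)
  have hC : ∀ c : ℂ, ψ' (algebraMap ℂ U c) = c := fun c =>
    (hR' (algebraMap ℂ R c)).trans (θ.commutes c)
  have hai : (a : U)⁻¹ ∈ O := h5 _ (h1 _ a.2) (by rw [h2 a]; exact hψa)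
  have ha0' : (a : U) ≠ 0 := fun h => ha0 (Subtype.ext h)
  have hin : ∀ z ∈ hS.toFinset ∪ hS.toFinset.image (fun s => s⁻¹), z ∈ O := fun z hz => by
    have h6 : IsIntegral B.toSubring ((a : U) * z) := ha z hz
    have h7 : (a : U) * z ∈ O := nml_val O _ (isIntegral_mono (R := O.toSubring) h1 h6)
    have := mul_mem hai h7
    rwa [inv_mul_cancel_left₀ ha0'] at this
  let V : Subalgebra ℂ U :=
    { O.toSubring with algebraMap_mem' := fun c => hR (algebraMap ℂ R c) }
  let θ' : V →ₐ[ℂ] ℂ :=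
    { toFun := fun z => ψ' z
      map_one' := by simpa using hC 1
      map_zero' := by simpa using hC 0
      map_mul' := fun z w => h4 _ z.2 _ w.2
      map_add' := fun z w => h3 _ z.2 _ w.2
      commutes' := hC }
  refine ⟨⟨V, θ'⟩, fun r => ⟨hR r, hR' r⟩, fun s hs => ?_⟩
  have hs1 : s ∈ O := hin s (Finset.mem_union_left _ (hS.mem_toFinset.2 hs))
  have hs2 : s⁻¹ ∈ O :=
    hin _ (Finset.mem_union_right _ (Finset.mem_image_of_mem _ (hS.mem_toFinset.2 hs)))
  refine ⟨ψ' s, ⟨hs1, rfl⟩, fun hs0 h => ?_⟩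
  have := h4 _ hs1 _ hs2
  rw [mul_inv_cancel₀ hs0, h, zero_mul, ← map_one (algebraMap ℂ U), hC] at this
  exact one_ne_zero this

end Pool.Agent.Lib.DU
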