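import Pool.Agent.Lib.DU.Sp

open Set Filter TensorProduct Pool.Agent.Lib.MP_e39d36_ag Pool.Agent.Lib.MP_e39d36_ag.Var
  Pool.Agent.Lib.MP_cc3443_ag

set_option linter.unusedSectionVars false
set_option linter.unusedVariables false

noncomputable section

namespace Pool.Agent.Lib.DU

namespace CORE

open MvPolynomial in
lemma exists_places (hC : St_CHEV) {U σ τ : Type} [Field U] [Algebra ℂ U] [Finite σ] [Finite τ]
    {c : σ → U} {e : τ → U} {A C : Subalgebra ℂ U} (hL : A.LinearDisjoint C) (hc : ∀ s, c s ∈ A)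
    (he : ∀ t, e t ∈ C) {cn : ℕ → σ → ℂ} {𝒰 : Ultrafilter ℕ}
    (hk : ∀ p : MvPolynomial σ ℂ, aeval c p = 0 ↔ ∀ᶠ n in 𝒰, aeval (cn n) p = 0)
    {p : Pl U → Prop} (hp : ∀ᶠ P in gen U, p P) : ∃ e₀ : τ → ℂ, ∀ᶠ n in 𝒰, ∃ P, p P ∧
      (∀ s, P.Val (c s) (cn n s)) ∧ ∀ t, P.Val (e t) (e₀ t) := by
  let A' := (aeval c : MvPolynomial σ ℂ →ₐ[ℂ] U).range
  let C' := Algebra.adjoin ℂ (range e)
  have H : A'.LinearDisjoint C' := (hL.of_le_left_of_flat (A' := A')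
    ((Algebra.adjoin_range_eq_range_aeval ℂ c).ge.trans
      (Algebra.adjoin_le (range_subset_iff.2 hc)))).of_le_right_of_flat
      (Algebra.adjoin_le (range_subset_iff.2 he))
  obtain ⟨S, hS, hS'⟩ := exists_of_gen hp
  obtain ⟨r, hr, hθ⟩ := hC U (A' ⊔ C') S hS
  obtain ⟨t, rfl⟩ := H.mulMap.surjective r
  let B := Module.Basis.ofVectorSpace ℂ A'
  obtain ⟨u, rfl⟩ := TensorProduct.eq_repr_basis_left B t
  obtain ⟨i, hi⟩ : u.support.Nonempty := Finsupp.support_nonempty_iff.2 fun h => hr (by simp [h])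
  obtain ⟨r₀, h1, h2⟩ := hC U ⊥ (insert (u i).1 (range e)) ((finite_range e).insert _)
  obtain ⟨P₀, -, h3⟩ := h2 (Algebra.botEquiv ℂ U).toAlgHom ((map_ne_zero_iff _ (AlgEquiv.injective _)).2 h1)
  choose e₀ h4 h5 using fun t => h3 (e t) (mem_insert_of_mem _ ⟨t, rfl⟩)
  obtain ⟨d, h6, h7⟩ := h3 _ (mem_insert _ _)
  let θ : C' →ₐ[ℂ] ℂ := P₀.θ.comp (Subalgebra.inclusion
    (Algebra.adjoin_le (range_subset_iff.2 fun t => (h4 t).1)))
  have h8 : θ (u i) ≠ 0 := (h6.2 : θ (u i) = d) ▸ h7 fun h =>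
    Finsupp.mem_support_iff.1 hi (Subtype.ext h)
  obtain ⟨q, hq⟩ := (aeval c : MvPolynomial σ ℂ →ₐ[ℂ] U).rangeRestrict_surjective
    (∑ j ∈ u.support, θ (u j) • B j)
  have h9 : ∀ᶠ n in 𝒰, aeval (cn n) q ≠ 0 := Ultrafilter.eventually_not.2 fun h =>
    h8 (linearIndependent_iff'.1 B.linearIndependent _ _
      (hq.symm.trans (Subtype.ext ((hk q).2 h))) i hi)
  obtain ⟨T, hT⟩ := (isNoetherianRing_iff_ideal_fg _).1 inferInstance
    (RingHom.ker (aeval c : MvPolynomial σ ℂ →ₐ[ℂ] U).rangeRestrict.toRingHom)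
  have h10 : ∀ᶠ n in 𝒰, ∀ f ∈ T, aeval (cn n) f = 0 := T.eventually_all.2 fun f hf =>
    (hk f).1 (congrArg Subtype.val (hT.le (Ideal.subset_span hf)))
  refine ⟨e₀, (h9.and h10).mono fun n ⟨h11, h12⟩ => ?_⟩
  let θ' : A' →ₐ[ℂ] ℂ := AlgHom.liftOfSurjective _ (AlgHom.rangeRestrict_surjective _)
    (aeval (cn n)) (hT.ge.trans (Ideal.span_le.2 h12))
  have h13 : ∀ f, θ' ((aeval c : MvPolynomial σ ℂ →ₐ[ℂ] U).rangeRestrict f) = aeval (cn n) f :=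
    fun f => AlgHom.liftOfSurjective_apply _ _ _ _ f
  obtain ⟨P, h14, h15⟩ := hθ ((Algebra.TensorProduct.productMap θ' θ).comp H.mulMap.symm.toAlgHom) (by
    rw [← h13, hq] at h11
    simpa [Finsupp.sum, mul_comm] using h11)
  refine ⟨P, hS' P h15, fun s => ?_, fun t => ?_⟩
  · simpa [h13] using h14 (H.mulMap ((aeval c : MvPolynomial σ ℂ →ₐ[ℂ] U).rangeRestrict (X s) ⊗ₜ 1))
  · have := h14 (H.mulMap (1 ⊗ₜ ⟨e t, Algebra.subset_adjoin ⟨t, rfl⟩⟩))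
    simpa [θ, (h4 t).2] using this

end CORE

theorem blockCORE (hU : St_UNI) (hR : St_RIG) (hS : St_SPEC) (hG : St_GEN) (hC : St_CHEV) :
    St_CORE := by
  intro K ι _ _ y hy G _ _ b β hb
  obtain ⟨W⟩ := hU K
  obtain ⟨κ, N, hκ, hκ', hrig⟩ := hR K ι y hy W
  obtain ⟨σ, _, c, cn, α, hc, hker, hreg, hfld, hsp⟩ := hG K ι y hy W N G b β hb (hyperfilter ℕ)
  obtain ⟨C, hL, hC'⟩ := hrig G α hreg fun g a => Uni.Fld_mono (range_subset_iff.2 hc) (hfld g a)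
  obtain ⟨d, hd⟩ := hS K ι y hy W κ hκ hκ'
  obtain ⟨i⟩ := hy.nei
  haveI := hy.fin
  choose C₀ h1 h2 h3 using fun x : G × ι => Uni.exists_finite_Fld (hC' x.1 (y x.2 / y i))
  haveI := (finite_iUnion h2).to_subtype
  choose p q h4 h5 using fun x : G × ι => (Uni.mem_Fld_range (e := (Subtype.val : (⋃ x, C₀ x) → W.U))).1
    (Uni.Fld_mono (by rw [Subtype.range_coe]; exact subset_iUnion _ x) (h3 x))
  obtain ⟨e₀, h6⟩ := CORE.exists_places hC hL hc (e := (Subtype.val : (⋃ x, C₀ x) → W.U))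
    (fun t => iUnion_subset h1 t.2) hker (hd.and (eventually_all.2 fun x => Uni.gen_sp_ne (h4 x)))
  have h7 : ∀ᶠ n in hyperfilter ℕ, ∃ ψ : K ≃ₐ[ℂ] K, (Reg ℂ y ψ ∧ Reg ℂ y ψ.symm ∧ Deg ℂ y d ψ) ∧
      ∀ g l, (ψ * β n g * ψ⁻¹) (y l / y i) =
        MvPolynomial.eval (fun s => algebraMap ℂ K (e₀ s)) (p (g, l)) /
          MvPolynomial.eval (fun s => algebraMap ℂ K (e₀ s)) (q (g, l)) := by
    filter_upwards [h6, hsp] with n ⟨P, ⟨⟨ψ, h7, h8, h9⟩, h10⟩, h11, h12⟩ h13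
    refine ⟨ψ, h9, fun g l => ?_⟩
    obtain ⟨a, h14, h15⟩ := h10 (g, l)
    have h16 := Uni.Sp.map (φ := κ.toAlgHom) (ψ := ψ.toAlgHom) h7
      (Uni.Sp.map (φ := (α g).toAlgHom) (ψ := (β n g).toAlgHom) (h13 P h11 g) (h8 (y l / y i)))
    have h17 := Uni.sp_ev h12 (q (g, l))
    have h18 := h16.mul h17
    rw [eq_div_iff (h15.unique h17 ▸ h14)]
    exact h18.unique ((h5 (g, l)).symm ▸ Uni.sp_ev h12 (p (g, l)))
  obtain ⟨ψ, h8⟩ := h7.choice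
  refine ⟨d, _, ψ, fun h => h.notMem_hyperfilter h8, fun n hn => hn.1, fun n hn m hm g => ?_⟩
  exact AlgEquiv.coe_toAlgHom_injective (hy.algHom_ext i fun l => (hn.2 g l).trans (hm.2 g l).symm)

end Pool.Agent.Lib.DU
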