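import Pool.Agent.Lib.DU.Blue

open Set Filter TensorProduct Pool.Agent.Lib.MP_e39d36_ag Pool.Agent.Lib.MP_e39d36_ag.Var
  Pool.Agent.Lib.MP_cc3443_ag

set_option linter.unusedSectionVars false
set_option linter.unusedVariables false
set_option linter.style.haveILetI false

noncomputable section

namespace Pool.Agent.Lib.DU

namespace CURVE

/-- A line through a given point of affine space, lifted by going down. -/
lemma exists_prime {A : Type} [CommRing A] [IsDomain A] [Algebra ℂ A] [Algebra.FiniteType ℂ A]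
    (m : Ideal A) [m.IsMaximal] {q : A} (hq : q ≠ 0) (hm : q ∈ m) :
    ∃ (p : Ideal A) (u : A), p.IsPrime ∧ p ≤ m ∧ q ∉ p ∧
      ∀ (F : Type) [Field F] [Algebra ℂ F] (φ : A →ₐ[ℂ] F), (∀ a ∈ p, φ a = 0) →
        ∀ a, IsIntegral (Algebra.adjoin ℂ {φ u}) (φ a) := by
  classical
  obtain ⟨s, g, hg, hg'⟩ := exists_integral_inj_algHom_of_fg ℂ A
  letI := g.toRingHom.toAlgebra
  haveI : Algebra.IsIntegral (MvPolynomial (Fin s) ℂ) A := ⟨hg'⟩
  haveI : FaithfulSMul (MvPolynomial (Fin s) ℂ) A :=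
    (faithfulSMul_iff_algebraMap_injective _ _).2 hg
  obtain ⟨α, hα⟩ := MvPolynomial.isMaximal_iff_eq_vanishingIdeal_singleton.1
    (Ideal.isMaximal_comap_of_isIntegral_of_isMaximal (R := MvPolynomial (Fin s) ℂ) m)
  have h1 : ∀ b, g b ∈ m ↔ MvPolynomial.aeval α b = 0 := fun b => by
    rw [← MvPolynomial.mem_vanishingIdeal_singleton_iff, ← hα]; rfl
  obtain ⟨q0, h2, h3⟩ := Submodule.exists_mem_ne_zero_of_ne_bot
    (Ideal.comap_ne_bot_of_integral_mem (R := MvPolynomial (Fin s) ℂ) hq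
      (Ideal.mem_span_singleton_self q) (Algebra.IsIntegral.isIntegral q))
  have h4 : q ∣ g q0 := Ideal.mem_span_singleton.1 h2
  obtain ⟨β, hβ⟩ : ∃ β : Fin s → ℂ, MvPolynomial.aeval β q0 ≠ 0 := by
    by_contra! h
    exact h3 (MvPolynomial.funext fun x => by simpa [MvPolynomial.aeval_eq_eval] using h x)
  have h5 : MvPolynomial.aeval α q0 = 0 := (h1 _).1 (m.mem_of_dvd h4 hm)
  obtain ⟨j, hj⟩ : ∃ j, β j - α j ≠ 0 := by
    by_contra! h
    exact hβ (by rw [show β = α from funext fun j => sub_eq_zero.1 (h j), h5])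
  let ψ : MvPolynomial (Fin s) ℂ →ₐ[ℂ] Polynomial ℂ :=
    MvPolynomial.aeval fun i => Polynomial.C (α i) + Polynomial.C (β i - α i) * Polynomial.X
  have h6 : ∀ (t : ℂ) b, Polynomial.aeval t (ψ b) =
      MvPolynomial.aeval (fun i => α i + (β i - α i) * t) b := fun t b => by
    rw [← AlgHom.comp_apply]
    congr 1
    ext i
    simp [ψ]
  haveI : (RingHom.ker ψ.toRingHom).IsPrime := RingHom.ker_isPrime _
  obtain ⟨p, h7, h8, h9⟩ := Ideal.exists_ideal_le_liesOver_of_le (p := RingHom.ker ψ.toRingHom)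
    (q := m.under (MvPolynomial (Fin s) ℂ)) m fun b hb => (h1 b).2 (by
      have h7 := h6 0 b
      rw [show ψ b = 0 from hb, map_zero] at h7
      simpa using h7.symm)
  have h10 : ∀ b, g b ∈ p ↔ ψ b = 0 := fun b => by
    change b ∈ p.under (MvPolynomial (Fin s) ℂ) ↔ _
    rw [← h9.over]; rfl
  let t : MvPolynomial (Fin s) ℂ :=
    MvPolynomial.C (β j - α j)⁻¹ * (MvPolynomial.X j - MvPolynomial.C (α j))
  have ht : ψ t = Polynomial.X := by
    simp only [t, ψ, map_mul, map_sub, MvPolynomial.aeval_X, MvPolynomial.algHom_C,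
      Polynomial.algebraMap_eq, add_sub_cancel_left]
    rw [← map_sub, ← mul_assoc, ← map_mul, inv_mul_cancel₀ hj, map_one, one_mul]
  refine ⟨p, g t, h8, h7, fun h => hβ ?_, fun F _ _ φ hφ a => ?_⟩
  · have h11 := h6 1 q0
    rw [(h10 _).1 (p.mem_of_dvd h4 h), map_zero] at h11
    simpa using h11.symm
  · have h11 : ∀ b, φ (g b) ∈ Algebra.adjoin ℂ {φ (g t)} := fun b => by
      have h11 := hφ _ ((h10 (b - Polynomial.aeval t (ψ b))).2 (by
        rw [map_sub, ← Polynomial.aeval_algHom_apply, ht, Polynomial.aeval_X_left_apply, sub_self]))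
      rw [map_sub, map_sub, sub_eq_zero, ← Polynomial.aeval_algHom_apply,
        ← Polynomial.aeval_algHom_apply] at h11
      rw [h11]
      exact Polynomial.aeval_mem_adjoin_singleton ℂ _
    exact IsIntegral.map_of_comp_eq ((φ.comp g).codRestrict _ h11).toRingHom φ.toRingHom rfl
      (Algebra.IsIntegral.isIntegral (R := MvPolynomial (Fin s) ℂ) a)

variable {K F : Type} [Field K] [Algebra ℂ K] [Field F] [Algebra ℂ F] {X : Var K}

/-- Every proper specialisation of the image point is the centre of a place. -/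
lemma exists_place (γ : CMap X F) {x : X.Pt} (h : X.O x < X.O γ.c) :
    ∃ P : Place F, γ.ctr P = x := by
  let R : Subring F := (γ.hom.comp (Subring.inclusion h.le)).range
  have h1 : ∀ z ∈ X.O x, γ.τ z ∈ R := fun z hz => ⟨⟨z, hz⟩, rfl⟩
  have h2 : ∀ z ∈ X.O x, Un R (γ.τ z) → Un (X.O x) z := fun z hz hu => by
    obtain ⟨a, ha⟩ := hu.2.2
    replace ha : γ.τ a = (γ.τ z)⁻¹ := ha
    have h3 : z * a ∈ X.O x := mul_mem hz a.2
    refine ((X.isLoc x _ h3).resolve_right fun h4 => CMap.τ_ne (h4.mono h.le) ?_).of_mul hz a.2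
    have h5 := γ.add _ (h.le (sub_mem (one_mem _) h3)) _ (h.le h3)
    rw [sub_add_cancel, γ.τ_one, γ.mul _ (h.le hz) _ (h.le a.2), ha, mul_inv_cancel₀ hu.1] at h5
    simpa using h5
  have h3 : ∀ z, Un (X.O x) z → Un R (γ.τ z) := fun z hz =>
    ⟨CMap.τ_ne (hz.mono h.le), h1 z hz.2.1, CMap.τ_inv' (hz.mono h.le) ▸ h1 _ hz.2.2⟩
  obtain ⟨V, hV⟩ := IsLoc.exists_val (R := R) (by
    rintro _ ⟨a, rfl⟩
    refine (X.isLoc x a a.2).imp (h3 _) fun h4 => ?_
    have h5 := γ.add _ (h.le (sub_mem (one_mem _) a.2)) _ (h.le a.2)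
    rw [sub_add_cancel, γ.τ_one] at h5
    have h6 := h3 _ h4
    rwa [← sub_eq_iff_eq_add.2 h5] at h6)
  obtain ⟨b, h4, h5, h6⟩ := exists_un_of_lt h
  refine ⟨⟨V, fun h7 => h6 (h2 b h4 (hV.2 _ (h1 b h4) ?_)), fun c => ?_⟩,
    CMap.ctr_eq ⟨fun z hz => CMap.mem_T.2 ⟨h.le hz, hV.1 (h1 z hz)⟩, fun z hz hu =>
      h2 z hz (hV.2 _ (h1 z hz) (CMap.un_T.1 hu).2)⟩⟩
  · rw [h7]
    exact un_top.2 (CMap.τ_ne h5)
  · rw [← γ.const]
    exact hV.1 (h1 _ (X.const_mem x c))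

lemma exists_nonunit {i : X.ι} {x : X.Pt} (h : (X.A i).toSubring ≤ X.O x) (hx : X.O x ≠ ⊤) :
    ∃ b : (X.A i).toSubring, b ≠ 0 ∧ ¬Un (X.O x) b := by
  by_contra! h1
  refine hx (eq_top_iff.2 fun z _ => ?_)
  obtain ⟨b, h2, h3, h4⟩ := X.frac i z
  exact (h1 ⟨b, h2⟩ fun h5 => h3 (congrArg Subtype.val h5)).mem_of_mul (h h4)

/-- A curve through a closed specialisation of `x` that lies on none of the given divisors. -/
theorem exists_curve (x : X.Pt) (hx : X.O x ≠ ⊤) {S : Set X.PD} (hS : S.Finite) :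
    ∃ c x' : X.Pt, IsCurve c ∧ X.O x' ≤ X.O x ∧ X.O x' < X.O c ∧
      ∀ E ∈ S, ¬X.O c ≤ X.O E.1 := by
  classical
  obtain ⟨i, hi⟩ := X.chart x
  obtain ⟨b, hb, hb'⟩ := exists_nonunit hi.1 hx
  have h1 : ∀ E : X.PD, ∃ f : (X.A i).toSubring, f ≠ 0 ∧
      ((X.A i).toSubring ≤ X.O E.1 → ¬Un (X.O E.1) f) := fun E => by
    by_cases h : (X.A i).toSubring ≤ X.O E.1
    · exact (exists_nonunit h (isV E).ne_top).imp fun _ h => ⟨h.1, fun _ => h.2⟩
    · exact ⟨1, one_ne_zero, fun h' => absurd h' h⟩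
  choose f h2 h3 using h1
  obtain ⟨m, hm, h4⟩ := (mx (X.isLoc x) hi.1).exists_le_maximal Ideal.IsPrime.ne_top'
  letI : Algebra ℂ (X.A i).toSubring := inferInstanceAs (Algebra ℂ (X.A i))
  haveI : Algebra.FiniteType ℂ (X.A i).toSubring :=
    (⟨(Subalgebra.fg_top _).2 (X.fg i)⟩ : Algebra.FiniteType ℂ (X.A i))
  have h5 : b * ∏ E ∈ hS.toFinset, f E ∈ m := m.mul_mem_right _ (h4 hb')
  obtain ⟨p, u, hp, h6, h7, h8⟩ := exists_prime m
    (mul_ne_zero hb (Finset.prod_ne_zero_iff.2 fun E _ => h2 E)) h5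
  obtain ⟨c, h9, h10⟩ := exists_pt_prime i p
  obtain ⟨x', h11, h12⟩ := exists_pt_prime i m
  have h13 : X.O x' < X.O c := lt_of_le_not_ge
    (h11.le h9.1 fun a ha hu => (h10 ⟨a, ha⟩).2 fun h => (h12 ⟨a, ha⟩).1 hu (h6 h))
    fun h => (h12 _).1 (((h10 _).2 h7).mono h) h5
  refine ⟨c, x', ⟨⟨x', h13⟩, ?_⟩, h11.le hi.1 fun a ha hu => of_not_not fun h =>
    (h12 ⟨a, ha⟩).1 hu (h4 h), h13, fun E hE h => ?_⟩
  · rintro ⟨y, z, h14, h15⟩
    have h16 := Indep.le_trdeg (CMap.res c) (((indep_zero z).succ h14).succ h15)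
    let φ : (X.A i).toSubring →ₐ[ℂ] IsLocalRing.ResidueField (X.O c) :=
      ⟨(CMap.res c).hom.comp (Subring.inclusion h9.1), (CMap.res c).const⟩
    have h17 := h8 _ φ fun a ha => (CMap.res c).zero _ (h9.1 a.2) fun h => (h10 a).1 h ha
    haveI : Algebra.IsAlgebraic (Algebra.adjoin ℂ {φ u}) (IsLocalRing.ResidueField (X.O c)) :=
      ⟨fun w => by
        obtain ⟨a, ha, rfl⟩ := CMap.res_surj c w
        obtain ⟨d, h18, h19, h20⟩ := h9.2 a ha
        have h21 := (h17 ⟨_, h20⟩).isAlgebraic.mul (h17 ⟨_, h18⟩).isAlgebraic.inv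
        change IsAlgebraic _ ((CMap.res c).τ (d * a) * ((CMap.res c).τ d)⁻¹) at h21
        rwa [(CMap.res c).mul _ h19.2.1 _ ha, mul_comm, ← mul_assoc,
          inv_mul_cancel₀ (CMap.τ_ne (γ := CMap.res c) h19), one_mul] at h21⟩
    have h18 := h16.trans (Algebra.IsAlgebraic.trdeg_le_cardinalMk ℂ {φ u})
    norm_num at h18
  · refine h3 E (h9.1.trans h) (((h10 _).2 fun h14 => h7 ?_).mono h)
    exact p.mul_mem_left _ (p.mem_of_dvd (Finset.dvd_prod_of_mem f (hS.mem_toFinset.2 hE)) h14)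

end CURVE

theorem blockCURVE : St_CURVE := by
  intro K _ _ X Q x hx S hS
  obtain ⟨c, x', h1, h2, h3, h4⟩ := CURVE.exists_curve x hx hS
  obtain ⟨P, hP⟩ := CURVE.exists_place (CMap.res c) h3
  exact ⟨_, inferInstance, inferInstance, CMap.isFF_of_isCurve (CMap.res_surj c) h1, CMap.res c, P,
    hP ▸ h2, h4⟩

end Pool.Agent.Lib.DU
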