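import Pool.Agent.Lib.MP_e39d36_ag.Abs2

open Set Filter TensorProduct Pool.Agent.Lib.MP_e39d36_ag Pool.Agent.Lib.MP_e39d36_ag.Var
  Pool.Agent.Lib.MP_cc3443_ag

set_option linter.unusedSectionVars false
set_option linter.unusedVariables false

noncomputable section

namespace Pool.Agent.Lib.DU

section charts

variable (k : Type) {F ι : Type} [Field k] [Field F] [Algebra k F]

/-- Projective charts over an arbitrary base field. -/
def chK (y : ι → F) (i : ι) : Subalgebra k F := Algebra.adjoin k (range fun j => y j / y i)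

/-- Global sections of the `d`-th twist. -/
def Gam (y : ι → F) (d : ℤ) : Submodule k F where
  carrier := {s | ∀ i, y i ≠ 0 → s / y i ^ d ∈ chK k y i}
  zero_mem' := fun i _ => by rw [zero_div]; exact zero_mem _
  add_mem' := fun ha hb i hi => by rw [add_div]; exact add_mem (ha i hi) (hb i hi)
  smul_mem' := fun c s hs i hi => by
    rw [smul_div_assoc]; exact Subalgebra.smul_mem _ (hs i hi) c

/-- The rational self-map with pull-back `φ` is a morphism. -/
def Reg (y : ι → F) (φ : F → F) : Prop :=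
  ∀ T : Subring F, IsLoc T → ∀ j, (chK k y j).toSubring ≤ T → ∃ i, ∀ l, φ (y l / y i) ∈ T

/-- `P` is proportional to `φ ∘ y`. -/
def Rep (y : ι → F) (φ : F → F) (P : ι → F) : Prop := ∀ l i, φ (y l) * P i = P l * φ (y i)

/-- `φ` is given by sections of degree `b`. -/
def Deg (y : ι → F) (b : ℕ) (φ : F → F) : Prop :=
  ∃ P : ι → F, (∀ l, P l ∈ Gam k y b) ∧ (∃ l, P l ≠ 0) ∧ Rep y φ P

/-- `φ` is given near every point by sections of degree `b` not all vanishing there. -/
def Bpf (y : ι → F) (b : ℕ) (φ : F → F) : Prop :=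
  ∀ T : Subring F, IsLoc T → ∀ j, (chK k y j).toSubring ≤ T →
    ∃ P : ι → F, (∀ l, P l ∈ Gam k y b) ∧ Rep y φ P ∧ ∃ l, Un T (P l / y j ^ b)

/-- Homogeneous coordinates of a projective model of `F` over `k`. -/
structure Coords (y : ι → F) : Prop where
  fin : Finite ι
  nei : Nonempty ι
  ne : ∀ i, y i ≠ 0
  frac : ∀ i z, ∃ b ∈ chK k y i, b ≠ 0 ∧ b * z ∈ chK k y i

end charts

section sheaf

variable {L J : Type} [Field L] [Algebra ℂ L]

/-- A quasi-coherent subsheaf of a constant sheaf on projective space. -/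
structure Sh (u : J → L) (V : Type) [AddCommGroup V] [Module L V] where
  M : ∀ a, Submodule (chA u a) V
  compat : ∀ a b, ∀ v ∈ M a, ∃ n : ℕ, (u a / u b) ^ n • v ∈ M b

variable {u : J → L} {V : Type} [AddCommGroup V] [Module L V] [Module ℂ V] [IsScalarTower ℂ L V]

/-- Families of local sections. -/
def Sh.Loc (S : Sh u V) : Submodule ℂ (J → V) := Submodule.pi univ fun a => (S.M a).restrictScalars ℂ

/-- Families whose differences are sections over the intersections of two charts. -/
def Sh.Cyc (S : Sh u V) : Set (J → V) :=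
  {η | ∀ a b, ∃ n : ℕ, (u b / u a) ^ n • (η a - η b) ∈ S.M a}

end sheaf

section forms

variable {K : Type} [Field K] [Algebra ℂ K]

instance {X : Var K} (x : X.Pt) : IsScalarTower ℂ (X.O x) K :=
  IsScalarTower.of_algebraMap_eq fun _ => rfl

/-- Differential forms regular on a subring. -/
def frm (R : Subring K) : Submodule R Ω[K⁄ℂ] :=
  Submodule.span R (KaehlerDifferential.D ℂ K '' R)

/-- Logarithmic differential. -/
def dlog (f : K) : Ω[K⁄ℂ] := f⁻¹ • KaehlerDifferential.D ℂ K f

/-- A finite projection to projective space given by forms of degree `m`. -/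
structure Pro {X : Var K} (Q : Prj X) (m : ℕ) where
  L : IntermediateField ℂ K
  fd : FiniteDimensional L K
  Y : Var L
  R : Prj Y
  ind : ∀ a, AlgebraicIndependent ℂ fun b : {b // b ≠ a} => R.y b / R.y a
  π : IC Y X
  z : Y.ι → K
  mem : ∀ a, z a ∈ Q.Fm m
  nv : ∀ x, ∃ a, z a ∉ Q.van m x
  d : K
  d0 : d ≠ 0
  hu : ∀ a, algebraMap L K (R.y a) = z a / d

end forms

section universal

/-- A universal domain `U` and the function field `Ω` after base change to it. -/
structure Uni (K : Type) [Field K] [Algebra ℂ K] where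
  U : Type
  Ω : Type
  [fU : Field U]
  [fΩ : Field Ω]
  [aU : Algebra ℂ U]
  [aΩ : Algebra ℂ Ω]
  [aUΩ : Algebra U Ω]
  [aKΩ : Algebra K Ω]
  [tU : IsScalarTower ℂ U Ω]
  [tK : IsScalarTower ℂ K Ω]
  [alg : IsAlgClosed U]
  x : ℕ → U
  tb : IsTranscendenceBasis ℂ x
  inj : Function.Injective (Algebra.TensorProduct.productMap (IsScalarTower.toAlgHom ℂ K Ω)
    (IsScalarTower.toAlgHom ℂ U Ω))
  gen : Subfield.closure (range (algebraMap K Ω) ∪ range (algebraMap U Ω)) = ⊤

attribute [instance] Uni.fU Uni.fΩ Uni.aU Uni.aΩ Uni.aUΩ Uni.aKΩ Uni.tU Uni.tK Uni.alg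

/-- A partially defined specialisation to the complex numbers. -/
structure Pl (U : Type) [Field U] [Algebra ℂ U] where
  V : Subalgebra ℂ U
  θ : V →ₐ[ℂ] ℂ

variable {U : Type} [Field U] [Algebra ℂ U]

/-- The value of a specialisation. -/
def Pl.Val (P : Pl U) (u : U) (c : ℂ) : Prop := ∃ h : u ∈ P.V, P.θ ⟨u, h⟩ = c

variable (U) in
/-- The filter of sufficiently general specialisations. -/
def gen : Filter (Pl U) := ⨅ (s : U) (_ : s ≠ 0), 𝓟 {P | ∃ c, c ≠ 0 ∧ P.Val s c}

namespace Uni

variable {K : Type} [Field K] [Algebra ℂ K] (W : Uni K)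

/-- The inclusion of the function field. -/
abbrev ι : K →+* W.Ω := algebraMap K W.Ω

/-- The field generated by `K` and a set of constants. -/
def Fld (C : Set W.U) : Subfield W.Ω :=
  Subfield.closure (range (algebraMap K W.Ω) ∪ algebraMap W.U W.Ω '' C)

/-- Elements algebraic over part of the transcendence basis. -/
def cl (s : Set ℕ) : IntermediateField ℂ W.U where
  carrier := {u | IsAlgebraic (Algebra.adjoin ℂ (W.x '' s)) u}
  mul_mem' := IsAlgebraic.mul
  add_mem' := IsAlgebraic.add
  inv_mem' := fun _ => IsAlgebraic.inv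
  algebraMap_mem' := fun c => isAlgebraic_algebraMap (algebraMap ℂ (Algebra.adjoin ℂ (W.x '' s)) c)

/-- Specialisation of polynomial expressions. -/
def Sp0 (P : Pl W.U) (w : W.Ω) (a : K) : Prop :=
  ∃ t : K ⊗[ℂ] P.V, w = Algebra.TensorProduct.productMap (IsScalarTower.toAlgHom ℂ K W.Ω)
      ((IsScalarTower.toAlgHom ℂ W.U W.Ω).comp P.V.val) t ∧
    a = Algebra.TensorProduct.productMap (AlgHom.id ℂ K) ((Algebra.ofId ℂ K).comp P.θ) t

/-- Specialisation of rational expressions. -/
def Sp (P : Pl W.U) (w : W.Ω) (a : K) : Prop :=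
  ∃ q b p c, W.Sp0 P q b ∧ b ≠ 0 ∧ W.Sp0 P p c ∧ w * q = p ∧ a * b = c

end Uni

end universal

end Pool.Agent.Lib.DU
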