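import Pool.Agent.Lib.DU.Sp
import Pool.Agent.Lib.MP_e39d36_ag.Sch4

set_option linter.unusedSectionVars false
set_option linter.style.haveILetI false
set_option linter.unusedVariables false

noncomputable section

namespace Pool.Agent.Lib.DU

section cg

open Set Submodule Module Filter Topology Pool.Agent.Lib.MP_e39d36_ag.CG
open scoped NNReal Pointwise

variable {V : Type} [AddCommGroup V] [Module ℝ V] [TopologicalSpace V] [IsTopologicalAddGroup V]
  [ContinuousSMul ℝ V] [T2Space V] [FiniteDimensional ℝ V] [LocallyConvexSpace ℝ V]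
  {W : Type} [AddCommGroup W] [Module ℝ W] [TopologicalSpace W] [IsTopologicalAddGroup W]
  [ContinuousSMul ℝ W] [T2Space W] [FiniteDimensional ℝ W] [LocallyConvexSpace ℝ W]

/-- Descent of polyhedral type to the invariants of a finite group. -/
theorem cg_descent {B G : Type} [Group B] [Group G] [Fintype G] (S : Setup V) (S' : Setup W)
    (ρ : B →* V ≃ₗ[ℝ] V) (hΓ : S.Γ = ρ.range) (ι : G →* B) (hA : FC ρ ι)
    (E : Submodule ℝ≥0 V) (E' : Submodule ℝ≥0 W) (hE : E ≤ S.C) (hE' : E' ≤ S'.C)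
    (hEi : interior (S.C : Set V) ⊆ E) (hne : (interior (S.C : Set V)).Nonempty)
    (hE'Γ : ∀ γ ∈ S'.Γ, ∀ x ∈ E', γ x ∈ E')
    {Q : Set V} (hQ : Q.Finite) (hΛ : Q ⊆ S.Λ)
    (hcov : ∀ x, x ∈ E ↔ ∃ b, ∃ y ∈ span ℝ≥0 Q, ρ b y = x)
    (p : W →ₗ[ℝ] V) (r : V →ₗ[ℝ] W) (hpr : ∀ x, p (r x) = ∑ g, ρ (ι g) x)
    (hrp : ∀ y, r (p y) = (Fintype.card G : ℝ) • y) (hgp : ∀ g y, ρ (ι g) (p y) = p y)
    (hrΛ : ∀ x ∈ S.Λ, r x ∈ S'.Λ) (hrE : ∀ x ∈ E, r x ∈ E') (hpE : ∀ y ∈ E', p y ∈ E)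
    (hrC : ∀ x ∈ S.C, r x ∈ S'.C) (hpC : ∀ y ∈ S'.C, p y ∈ S.C)
    (hz : ∀ z : B, (∀ g, z * ι g = ι g * z) → ∃ L ∈ S'.Γ, ∀ y, p (L y) = ρ z (p y)) :
    ∃ P : Set W, P.Finite ∧ P ⊆ S'.Λ ∧ (∀ x, x ∈ E' ↔ ∃ γ ∈ S'.Γ, ∃ y ∈ span ℝ≥0 P, γ y = x) ∧
      ∀ γ ∈ S'.Γ, γ ≠ 1 →
        interior (span ℝ≥0 P : Set W) ∩ γ '' interior (span ℝ≥0 P : Set W) = ∅ := by
  classical
  have hn : (0 : ℝ) < Fintype.card G := by exact_mod_cast Fintype.card_pos (α := G)
  have hρ : ∀ b, ρ b ∈ S.Γ := fun b => hΓ ▸ ⟨b, rfl⟩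
  have hQE : ∀ b, ∀ v ∈ Q, ρ b v ∈ E := fun b v hv => (hcov _).2 ⟨b, v, subset_span hv, rfl⟩
  have hQC : Q ⊆ S.C := fun v hv => hE (by simpa using hQE 1 v hv)
  have hinj : Function.Injective p := fun x y h => by
    have := congrArg r h
    rw [hrp, hrp] at this
    exact smul_right_injective _ hn.ne' this
  have hav : ∀ y b, ∀ x ∈ span ℝ≥0 Q, ρ b x = p y → y ∈ span ℝ≥0 ((fun v => r (ρ b v)) '' Q) := by
    intro y b x hx h
    have h1 := map_mem_span (r ∘ₗ (ρ b).toLinearMap) (E := span ℝ≥0 ((fun v => r (ρ b v)) '' Q))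
      (fun v hv => subset_span ⟨v, hv, rfl⟩) hx
    have h2 := smul_mem' (inv_pos.2 hn).le h1
    simpa [h, hrp, smul_smul, hn.ne'] using h2
  obtain ⟨x₀, hx₀⟩ := hne
  have hint : ∀ y ∈ interior (S'.C : Set W), p y ∈ interior (S.C : Set V) := by
    intro y hy
    obtain ⟨ε, hε, h⟩ := int_sub hy (r x₀)
    have h1 : p (r x₀) ∈ interior (S.C : Set V) := by
      rw [hpr, ← Finset.sum_erase_add _ _ (Finset.mem_univ 1)]
      exact add_mem_int (sum_mem fun g _ => S.ΓC _ (hρ _) _ (interior_subset hx₀))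
        (Setup.map_int (hρ _) hx₀)
    have := add_mem_int (hpC _ h) (smul_mem_int hε h1)
    simpa using this
  obtain ⟨R, hR, hR'⟩ := hA _ (Setup.siegel hQ hΛ hQC)
  refine Setup.fund E' hE' hE'Γ (Q := ⋃ b ∈ R, (fun v => r (ρ b v)) '' Q)
    (hR.biUnion fun _ _ => hQ.image _) ?_ ?_ ?_ ?_ ?_
  · refine iUnion₂_subset fun b _ => ?_
    rintro _ ⟨v, hv, rfl⟩
    exact hrΛ _ (S.ΓΛ _ (hρ b) v (hΛ hv))
  · refine iUnion₂_subset fun b _ => ?_
    rintro _ ⟨v, hv, rfl⟩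
    exact hrE _ (hQE b v hv)
  · have hsurj : Function.Surjective r := fun y =>
      ⟨(Fintype.card G : ℝ)⁻¹ • p y, by simp [hrp, smul_smul, hn.ne']⟩
    have h1 : IsOpenMap r := LinearMap.isOpenMap_of_finiteDimensional r hsurj
    refine ⟨r x₀, interior_maximal ?_ (h1 _ isOpen_interior) ⟨x₀, hx₀, rfl⟩⟩
    rintro _ ⟨x, hx, rfl⟩
    exact hrC x (interior_subset hx)
  · intro y hy
    obtain ⟨b, x, hx, hbx⟩ := (hcov _).1 (hEi (hint y hy))
    have hx' : x ∈ interior (S.C : Set V) := by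
      have := Setup.map_int (hρ b⁻¹) (hint y hy)
      rw [← hbx] at this
      simpa using this
    obtain ⟨b₀, hb₀, z, hz1, hz2⟩ := hR' b fun g => ⟨hρ _, x, hx, hx', by
      have : ρ (b⁻¹ * ι g * b) x = x := by
        simp only [map_mul, LinearEquiv.mul_apply, hbx, hgp]
        rw [← hbx]; simp
      rwa [this]⟩
    obtain ⟨L, hL, hL'⟩ := hz z hz1
    refine ⟨L, hL, L⁻¹ y, span_mono (subset_biUnion_of_mem (u := fun b =>
      (fun v => r (ρ b v)) '' Q) hb₀) (hav _ b₀ x hx ?_), by simp⟩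
    apply (ρ z).injective
    rw [← hL', ← LinearEquiv.mul_apply, ← hz2, hbx]
    simp
  · intro y hy
    obtain ⟨b, x, hx, hbx⟩ := (hcov _).1 (hpE y hy)
    refine ⟨_, hQ.image _, ?_, ?_, hav y b x hx hbx⟩
    · rintro _ ⟨v, hv, rfl⟩
      exact hrΛ _ (S.ΓΛ _ (hρ b) v (hΛ hv))
    · rintro _ ⟨v, hv, rfl⟩
      exact hE' (hrE _ (hQE b v hv))

end cg

section abs

open Set WithZero Filter Finsupp Pool.Agent.Lib.MP_cc3443_ag Pool.Agent.Lib.MP_e39d36_ag
  Pool.Agent.Lib.MP_e39d36_ag.Var Pool.Agent.Lib.MP_e39d36_ag.Var.Curves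
open scoped NNReal

variable {K L : Type} [Field K] [Algebra ℂ K] [Field L] [Algebra ℂ L] {X : Var K} {Y : Var L}

lemma reg_mor (Q : Prj X) (m : Mor X X) : Reg ℂ Q.y m.θ := fun T hT j hj => by
  obtain ⟨x, h1, -⟩ := exists_centre (X := X) (i := j) hT (Q.A_eq j ▸ hj)
  exact ⟨ch (m.p x), fun l => h1.1 (m.mem ((ch_spec _).1 (Q.mem _ l)))⟩

variable (Γ : Curves X) (Γ' : Curves Y) [Algebra L K] [IsScalarTower ℂ L K] [FiniteDimensional L K]
  [IsGalois L K] (π : IC Y X)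

theorem abs_descent (hFD : St_FD) (hFC : St_FC) (hπ : π.Free) (Q : Prj X) (Q' : Prj Y)
    {S : Set X.CD} (hS : S.Finite) (hc : Γ.Covers (Γ.cone S)) :
    ∃ S' : Set Y.CD, S'.Finite ∧ Γ'.Covers (Γ'.cone S') ∧ ∀ φ T, Γ'.IsPull φ T → T ≠ 1 →
      interior (Γ'.cone S' : Set Γ'.N1) ∩ T '' interior (Γ'.cone S' : Set Γ'.N1) = ∅ := by
  haveI := hFD K X Q Γ
  have hA := hFC K X Q Γ _ (Γ.gal π) fun σ => reg_mor Q (π.actMor σ)
  obtain ⟨p, hp⟩ := Γ.exists_lin_mor Γ' π.mor (pullC π) fun _ _ _ => π.locEq_pull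
  choose N hN hN' using fun W : X.CD => π.exists_norm W.2
  have h1 : ∀ W, ∑ σ, Γ.rho (Γ.gal π σ) (Γ.cls W) = Γ.cls (pullC π ⟨N W, hN W⟩) := fun W => by
    simp only [rho_gal, ← cls_sum]
    exact congrArg _ (Subtype.ext (hN' W).symm)
  obtain ⟨r, hr⟩ := Γ.exists_lin Γ' (fun W => ⟨N W, hN W⟩) fun c => by
    obtain ⟨ψ, hψ⟩ := Γ.exists_lift Γ' π c
    exact ⟨ψ ∘ₗ ∑ σ, (Γ.rho (Γ.gal π σ)).toLinearMap, fun W => by simp [h1, hψ]⟩
  have hn : (Fintype.card (K ≃ₐ[L] K) : ℝ) ≠ 0 := by simp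
  have hrp : ∀ y, r (p y) = (Fintype.card (K ≃ₐ[L] K) : ℝ) • y :=
    LinearMap.ext_iff.1 (lin_ext (f := r ∘ₗ p) 
      (g := (Fintype.card (K ≃ₐ[L] K) : ℝ) • LinearMap.id) fun D => by
      rw [LinearMap.comp_apply, hp, hr, LinearMap.smul_apply, LinearMap.id_apply, ← cls_nsmul]
      refine congrArg _ (Subtype.ext (π.pull_inj ?_))
      simp [hN', pullC, π.actD_pull])
  haveI : FiniteDimensional ℝ Γ'.N1 := FiniteDimensional.of_injective p fun x y h =>
    smul_right_injective _ hn (by simpa only [hrp] using congrArg r h)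
  have h2 := Γ.map_mem Γ' r fun W => ⟨_, hr W, π.norm_mov (hN' W), π.norm_nonneg (hN' W)⟩
  have h3 := Γ'.map_mem Γ p fun D => ⟨_, hp D, π.mov_pull, π.pull_nonneg.2⟩
  obtain ⟨P, h4, h5, h6, h7⟩ := cg_descent (Γ.setup Q) (Γ'.setup Q') Γ.rho rfl (Γ.gal π) hA
    Γ.movE Γ'.movE inf_le_left inf_le_left (Γ.interior_movC Q)
    ((Γ.interior_cone Q).mono (interior_mono subset_closure))
    (by
      rintro _ ⟨b, rfl⟩
      exact (Γ'.map_mem Γ' (Γ'.rho b).toLinearMap (Γ'.isPull_rho b).exists_map).2.2)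
    (hS.image Γ.cls) (image_subset_range _ _)
    (fun x => (covers_iff.1 hc x).trans (by simp [Curves.cone])) p r
    (LinearMap.ext_iff.1 (lin_ext (f := p ∘ₗ r) (g := ∑ σ, (Γ.rho (Γ.gal π σ)).toLinearMap)
      fun W => by simp [h1, hp, hr]) · |>.trans (by simp)) hrp
    (fun σ => LinearMap.ext_iff.1 (lin_ext (f := (Γ.rho (Γ.gal π σ)).toLinearMap ∘ₗ p) (g := p)
      fun D => by
        rw [LinearMap.comp_apply, hp, LinearEquiv.coe_coe, rho_gal]
        exact congrArg _ (Subtype.ext π.actD_pull)))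
    h2.1 h2.2.2 h3.2.2 h2.2.1 h3.2.1 fun z hz => by
      have h4 : ∀ z : Γ.Bir, (∀ g, z * Γ.gal π g = Γ.gal π g * z) → ∀ f : L, ∃ f',
          algebraMap L K f' = z.1 (algebraMap L K f) := fun z hz f =>
        (IsGalois.mem_range_algebraMap_iff_fixed _).2 fun σ =>
          (DFunLike.congr_fun (congrArg Subtype.val (hz σ)) (algebraMap L K f)).symm.trans
            (congrArg z.1 (σ.commutes f))
      choose ψ₁ h5 using h4 z hz
      choose ψ₂ h6 using h4 z⁻¹ fun g => (Commute.inv_left (hz g)).eq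
      have hi := (algebraMap L K).injective
      let ψ : L ≃+* L :=
        { toFun := ψ₁
          invFun := ψ₂
          left_inv := fun f => hi (by rw [h6, h5]; exact z.1.symm_apply_apply _)
          right_inv := fun f => hi (by rw [h5, h6]; exact z.1.apply_symm_apply _)
          map_mul' := fun a b => hi (by simp [h5])
          map_add' := fun a b => hi (by simp [h5]) }
      obtain ⟨h7, e, ε, h8, h9, h10⟩ := Γ.isPull_rho z
      obtain ⟨e', h11, h12⟩ := π.exists_desc_aut z.1 ψ h5 e h8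
      have h13 : ∀ D, (ε D).1 = equivMapDomain e D.1 := fun D => Finsupp.ext
        (e.surjective.forall.2 fun E => by simp [h9])
      let ε' : Y.CD ≃ Y.CD := (equivCongrLeft e').subtypeEquiv fun D =>
        ⟨fun h => π.cart_of_pull hπ (by
          rw [equivCongrLeft_apply, h12]
          exact h13 ⟨_, π.cart_pull h⟩ ▸ (ε _).2), fun h => π.cart_of_pull hπ (by
          have h14 := h13 (ε.symm ⟨_, π.cart_pull h⟩)
          rw [ε.apply_symm_apply] at h14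
          have h15 := (equivCongrLeft e).injective ((h12 D).symm.trans h14)
          exact h15 ▸ (ε.symm _).2)⟩
      have h14 : ∀ D, Γ.rho z (p (Γ'.cls D)) = p (Γ'.cls (ε' D)) := fun D => by
        rw [hp, hp, h10]
        exact congrArg _ (Subtype.ext ((h13 _).trans (h12 _).symm))
      obtain ⟨T, hT⟩ := Γ'.exists_equiv ε'
        (f := (Fintype.card (K ≃ₐ[L] K) : ℝ)⁻¹ • r ∘ₗ (Γ.rho z).toLinearMap ∘ₗ p)
        (g := (Fintype.card (K ≃ₐ[L] K) : ℝ)⁻¹ • r ∘ₗ (Γ.rho z).symm.toLinearMap ∘ₗ p)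
        (fun D => by simp [h14, hrp]) fun D => by
          have := (Γ.rho z).eq_symm_apply.2 (h14 (ε'.symm D))
          rw [ε'.apply_symm_apply] at this
          simp [← this, hrp]
      refine ⟨T, Γ'.mem_range_rho.2 ⟨ψ, fun a => hi ?_, e', ε', h11, fun D E => by simp [ε'], hT⟩,
        LinearMap.ext_iff.1 (lin_ext (f := p ∘ₗ T.toLinearMap)
          (g := (Γ.rho z).toLinearMap ∘ₗ p) fun D => by simp [hT, h14])⟩
      exact (h5 _).trans (by rw [← IsScalarTower.algebraMap_apply, h7])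
  obtain ⟨S', -, h8, rfl⟩ := SurjOn.exists_subset_injOn_image_eq (s := univ) (f := Γ'.cls) (t := P)
    fun x hx => image_univ.ge (h5 hx)
  exact ⟨S', h4.of_finite_image h8, covers_iff.2 h6,
    fun φ T h => h7 T (Γ'.mem_range_rho.2 ⟨φ, h⟩)⟩

end abs

section sch

open AlgebraicGeometry CategoryTheory Order WithZero Set Pool.Agent.Lib.MP_e39d36_ag
open Pool.Agent.Lib.MP_99f32e_ag hiding IsProjective
open Pool.Agent.Lib.MP_cc3443_ag

variable {X Y : Scheme.{0}} [IsIntegral X] [IsIntegral Y] [IsLocallyNoetherian X]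
  [IsLocallyNoetherian Y] (π : X ⟶ Y) [IsDominant π]

theorem sch_descent (hFD : St_FD) (hFC : St_FC) [IsFinite π] [Etale π] (s : Y ⟶ Spec (.of ℂ)) (hG : IsGaloisCover π)
    (hY : IsProjective s) (hX : IsProjective (π ≫ s))
    (nX : ∀ x : X, IsIntegrallyClosed (X.presheaf.stalk x))
    (nY : ∀ y : Y, IsIntegrallyClosed (Y.presheaf.stalk y))
    (hc : ∃ S : Set (CDiv X), S.Finite ∧ Covers (π ≫ s) (cone S)) :
    ∃ S : Set (CDiv Y), S.Finite ∧ Covers s (cone S) ∧ ∀ φ L, IsPull s φ L → L ≠ 1 →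
      interior (cone S) ∩ L '' interior (cone S) = ∅ := by
  letI := algK s
  letI := algK (π ≫ s)
  letI := (pullFun π).hom.toAlgebra
  haveI : IsScalarTower ℂ Y.functionField X.functionField := .of_algebraMap_eq fun a =>
    congr($(pullFun_germ π ⊤ trivial trivial) (s.appTop ((Scheme.ΓSpecIso (.of ℂ)).inv a))).symm
  haveI : IsGalois Y.functionField X.functionField := hG
  obtain ⟨c⟩ := exists_coord' hX (algK_spec _) nX
  obtain ⟨c'⟩ := exists_coord' hY (algK_spec _) nY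
  obtain ⟨i⟩ := c.var.nei
  haveI := essFin_of_frac _ (c.var.fg i) (c.var.frac i)
  haveI := Algebra.EssFiniteType.of_comp ℂ Y.functionField X.functionField
  haveI : FiniteDimensional Y.functionField X.functionField :=
    Algebra.finite_of_essFiniteType_of_isAlgebraic
  obtain ⟨p, hp⟩ := exists_IC π (fun _ => rfl) c c'
  obtain ⟨S, h1, h2⟩ := hc
  obtain ⟨S', h3, h4, h5⟩ := abs_descent c.curves c'.curves p hFD hFC hp c.prj c'.prj h1
    (by simp only [Var.Curves.Covers, c.isPull_iff]; exact h2)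
  simp only [Var.Curves.Covers, c'.isPull_iff] at h4 h5
  exact ⟨S', h3, h4, h5⟩

end sch

end Pool.Agent.Lib.DU
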