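import Pool.Agent.Lib.DU.Sp

open Set Filter TensorProduct Pool.Agent.Lib.MP_e39d36_ag Pool.Agent.Lib.MP_e39d36_ag.Var
  Pool.Agent.Lib.MP_cc3443_ag

set_option linter.unusedSectionVars false
set_option linter.unusedVariables false

noncomputable section

namespace Pool.Agent.Lib.DU

namespace FCb

lemma fc_of {B G H : Type} [Group B] [Group G] [Group H] [Finite G] (ρ : B →* H) (ι : G →* B)
    (h : ∀ β : ℕ → G →* B, (∀ n g, ρ (β n g) = ρ (ι g)) →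
      ∃ n m, n ≠ m ∧ ∃ κ, ρ κ = 1 ∧ ∀ g, β n g = κ * β m g * κ⁻¹) : FC ρ ι := by
  classical
  intro F hF
  by_contra hc
  let r : B → B → Prop := fun x y => ¬∃ z : B, (∀ g, z * ι g = ι g * z) ∧ ρ y = ρ z * ρ x
  have hs : ∀ x y, r x y → r y x := fun x y hxy ⟨z, h1, h2⟩ => hxy ⟨z⁻¹, fun g => by
    rw [inv_mul_eq_iff_eq_mul, ← mul_assoc, h1 g, mul_inv_cancel_right], by
    rw [h2, map_inv, inv_mul_cancel_left]⟩
  obtain ⟨f, hf1, hf2⟩ := exists_seq_of_forall_finset_exists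
    (fun γ : B => ∀ g, ρ (γ⁻¹ * ι g * γ) ∈ F) r (fun s _ => by
      by_contra h1
      refine hc ⟨s, s.finite_toSet, fun γ hγ => ?_⟩
      by_contra h2
      exact h1 ⟨γ, hγ, fun x hx h3 => h2 ⟨x, hx, h3⟩⟩)
  have hf3 : ∀ m n, m ≠ n → r (f m) (f n) := fun m n hmn =>
    (lt_or_gt_of_ne hmn).elim (hf2 m n) fun h' => hs _ _ (hf2 n m h')
  have := hF.to_subtype
  obtain ⟨τ, hτ⟩ := Finite.exists_infinite_fiber
    (fun n (g : G) => (⟨_, hf1 n g⟩ : F))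
  let e := Infinite.natEmbedding ((fun n (g : G) => (⟨_, hf1 n g⟩ : F)) ⁻¹' {τ})
  let γ : ℕ → B := fun n => f (e n).1
  have h1 : ∀ n g, ρ ((γ n)⁻¹ * ι g * γ n) = (τ g).1 := fun n g =>
    congrArg Subtype.val (congrFun (e n).2 g)
  obtain ⟨n, m, hnm, κ, hκ, h2⟩ := h
    (fun n => (MulAut.conj (γ 0 * (γ n)⁻¹)).toMonoidHom.comp ι) (fun n g => by
      have h3 : γ 0 * (γ n)⁻¹ * ι g * (γ 0 * (γ n)⁻¹)⁻¹ =
          γ 0 * ((γ n)⁻¹ * ι g * γ n) * (γ 0)⁻¹ := by group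
      have h4 : ι g = γ 0 * ((γ 0)⁻¹ * ι g * γ 0) * (γ 0)⁻¹ := by group
      change ρ (γ 0 * (γ n)⁻¹ * ι g * (γ 0 * (γ n)⁻¹)⁻¹) = _
      rw [h3, map_mul, map_mul, h1 n g, ← h1 0 g, ← map_mul, ← map_mul, ← h4])
  refine hf3 (e m).1 (e n).1 (fun h' => hnm (e.injective (Subtype.ext h')).symm)
    ⟨γ n * (γ 0)⁻¹ * κ * γ 0 * (γ m)⁻¹, fun g => ?_, ?_⟩
  · have h3 : γ 0 * (γ n)⁻¹ * ι g * (γ 0 * (γ n)⁻¹)⁻¹ =
        κ * (γ 0 * (γ m)⁻¹ * ι g * (γ 0 * (γ m)⁻¹)⁻¹) * κ⁻¹ := h2 g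
    have h4 : ι g = (γ 0 * (γ n)⁻¹)⁻¹ * (κ * (γ 0 * (γ m)⁻¹ * ι g * (γ 0 * (γ m)⁻¹)⁻¹) * κ⁻¹) *
        (γ 0 * (γ n)⁻¹) := by rw [← h3]; group
    conv_rhs => rw [h4]
    group
  · change ρ (γ n) = _ * ρ (γ m)
    simp [hκ]

variable {K : Type} [Field K] [Algebra ℂ K] {X : Var K} (Γ : Curves X)

/-- Pseudo-automorphisms as algebra automorphisms. -/
def alg : Γ.Bir →* (K ≃ₐ[ℂ] K) where
  toFun φ := AlgEquiv.ofRingEquiv (f := φ.1) (Γ.isPull_rho φ).1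
  map_one' := AlgEquiv.ext fun _ => rfl
  map_mul' _ _ := AlgEquiv.ext fun _ => rfl

lemma alg_inj : Function.Injective (alg Γ) := fun φ ψ h =>
  Subtype.ext (RingEquiv.ext fun a => DFunLike.congr_fun h a)

end FCb

open FCb in
theorem blockFC (hFD : St_FD) (hREGK : St_REGK) (hREGB : St_REGB) (hBDD : St_BDD)
    (hFINR : St_FINR) (hCORE : St_CORE) : St_FC := by
  intro K _ _ X Q Γ G _ _ ι hι
  have := hFD K X Q Γ
  refine fc_of _ _ fun β hβ => ?_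
  have h1 : ∀ n g, Reg ℂ Q.y (β n g).1 := fun n g => by
    have h2 : Reg ℂ Q.y (alg Γ (β n g * (ι g)⁻¹)) :=
      hREGK K X Q Γ _ (by rw [map_mul, map_inv, hβ, mul_inv_cancel])
    have h3 := Reg.mul h2 (show Reg ℂ Q.y (alg Γ (ι g)) from hι g)
    rwa [← map_mul, inv_mul_cancel_right] at h3
  obtain ⟨b, hb⟩ := (eventually_all.2 fun g : G => hBDD K X Q Γ (Γ.rho (ι g))).exists
  obtain ⟨d, S, ψ, hS, h2, h3⟩ := hCORE K X.ι Q.y (coords_prj Q) G b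
    (fun n => (alg Γ).comp (β n)) (fun n g => hb g (β n g) (h1 n g) (by
      have := h1 n g⁻¹
      rwa [map_inv] at this) (hβ n g))
  have := hS.to_subtype
  let p : S → Γ.Bir := fun n => ⟨_, hREGB K X Q Γ (ψ n) (h2 n n.2).1 (h2 n n.2).2.1⟩
  have hp : ∀ n, alg Γ (p n) = ψ n := fun n => AlgEquiv.ext fun _ => rfl
  have := (hFINR K X Q Γ d).to_subtype
  obtain ⟨n, m, hnm, h4⟩ := Finite.exists_ne_map_eq_of_infinite
    (fun n : S => (⟨Γ.rho (p n), p n, (h2 n n.2).2.2, rfl⟩ : Γ.rho '' {φ | Deg ℂ Q.y d φ.1}))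
  have h5 : Γ.rho (p n) = Γ.rho (p m) := congrArg Subtype.val h4
  refine ⟨n, m, fun h => hnm (Subtype.ext h), (p n)⁻¹ * p m, by
    rw [map_mul, map_inv, h5, inv_mul_cancel], fun g => alg_inj Γ ?_⟩
  have h6 : ψ n * alg Γ (β n g) * (ψ n)⁻¹ = ψ m * alg Γ (β m g) * (ψ m)⁻¹ := h3 n n.2 m m.2 g
  simp only [map_mul, map_inv, hp]
  have h7 : alg Γ (β n g) = (ψ n)⁻¹ * (ψ m * alg Γ (β m g) * (ψ m)⁻¹) * ψ n := by
    rw [← h6]; group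
  rw [h7]; group

end Pool.Agent.Lib.DU
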