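import Pool.Agent.Lib.DU.Blue

open Set Filter TensorProduct Pool.Agent.Lib.MP_e39d36_ag Pool.Agent.Lib.MP_e39d36_ag.Var
  Pool.Agent.Lib.MP_cc3443_ag

set_option linter.unusedSectionVars false
set_option linter.unusedVariables false

noncomputable section

namespace Pool.Agent.Lib.DU

namespace FIL

section lin

/-- A linear map into a finite dimensional space has a finite dimensional complement of its
kernel. -/
theorem exists_sec {E G : Type} [AddCommGroup E] [Module ℂ E] [AddCommGroup G] [Module ℂ G]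
    (f : E →ₗ[ℂ] G) (hf : FiniteDimensional ℂ (LinearMap.range f)) :
    ∃ W : Submodule ℂ E, W.FG ∧ ∀ x, ∃ w ∈ W, f w = f x := by
  obtain ⟨g, hg⟩ := f.rangeRestrict.exists_rightInverse_of_surjective f.range_rangeRestrict
  refine ⟨LinearMap.range g, ?_, fun x => ⟨g (f.rangeRestrict x), ⟨_, rfl⟩, ?_⟩⟩
  · rw [LinearMap.range_eq_map]
    exact (Module.Finite.fg_top (R := ℂ) (M := LinearMap.range f)).map g
  · have := LinearMap.congr_fun hg (f.rangeRestrict x)
    exact congrArg Subtype.val this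

theorem shrink {E : Type} [AddCommGroup E] [Module ℂ E] (A W Z : Submodule ℂ E) (hW : W.FG)
    (h : A ≤ W ⊔ Z) : ∃ W' : Submodule ℂ E, W'.FG ∧ W' ≤ A ∧ ∀ x ∈ A, ∃ w ∈ W', x - w ∈ Z := by
  have hfd : FiniteDimensional ℂ (LinearMap.range (Z.mkQ ∘ₗ A.subtype)) := by
    have h1 : FiniteDimensional ℂ (W.map Z.mkQ) := Module.Finite.iff_fg.2 (hW.map _)
    refine Submodule.finiteDimensional_of_le (S₂ := W.map Z.mkQ) ?_
    rintro _ ⟨x, rfl⟩
    obtain ⟨w, hw, z, hz, e⟩ := Submodule.mem_sup.1 (h x.2)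
    refine ⟨w, hw, ?_⟩
    show Z.mkQ w = Z.mkQ x.1
    rw [← e, map_add, show Z.mkQ z = 0 from (Submodule.Quotient.mk_eq_zero Z).2 hz, add_zero]
  obtain ⟨W', h1, h2⟩ := exists_sec _ hfd
  refine ⟨W'.map A.subtype, h1.map _, Submodule.map_subtype_le _ _, fun x hx => ?_⟩
  obtain ⟨w, hw, e⟩ := h2 ⟨x, hx⟩
  refine ⟨w.1, ⟨w, hw, rfl⟩, ?_⟩
  exact (Submodule.Quotient.eq Z).1 e.symm

end lin

variable {L J : Type} [Field L] [Algebra ℂ L] {u : J → L}

theorem gen_mem (u : J → L) (a b : J) : u b / u a ∈ chA u a := Algebra.subset_adjoin ⟨b, rfl⟩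

/-- The coordinate `u b / u a` as an element of the chart. -/
def tt (u : J → L) (a b : J) : chA u a := ⟨u b / u a, gen_mem u a b⟩

theorem tt_val (a b : J) : (tt u a b : L) = u b / u a := rfl

theorem noeth [Finite J] (u : J → L) (a : J) : IsNoetherianRing (chA u a) := by
  have : Algebra.FiniteType ℂ (chA u a) :=
    (Subalgebra.fg_iff_finiteType _).1 (Subalgebra.fg_def.2 ⟨_, finite_range _, rfl⟩)
  exact Algebra.FiniteType.isNoetherianRing ℂ _

/-- Homogenisation, with control of the values of a character. -/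
theorem homog (hu : ∀ a, u a ≠ 0) {κ : Type} [Field κ] [Algebra ℂ κ] (a b : J)
    (ρ : chA u a →ₐ[ℂ] κ) (q : L) (hq : q ∈ chA u b) :
    ∃ (k : ℕ) (r : chA u a), (r : L) = q * (u b / u a) ^ k ∧
      (ρ (tt u a b) ≠ 0 → ρ r / ρ (tt u a b) ^ k ∈ chK ℂ (fun j => ρ (tt u a j)) b) := by
  induction hq using Algebra.adjoin_induction with
  | mem x hx =>
    obtain ⟨j, rfl⟩ := hx
    refine ⟨1, tt u a j, ?_, fun _ => ?_⟩
    · have := hu a; have := hu b
      rw [tt_val]; field_simp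
    · rw [pow_one]; exact Algebra.subset_adjoin ⟨j, rfl⟩
  | algebraMap c =>
    refine ⟨0, algebraMap ℂ _ c, by simp, fun _ => ?_⟩
    rw [pow_zero, div_one, AlgHom.commutes]; exact Subalgebra.algebraMap_mem _ c
  | add x y _ _ hx hy =>
    obtain ⟨k, r, e, h⟩ := hx
    obtain ⟨k', r', e', h'⟩ := hy
    refine ⟨k + k', r * tt u a b ^ k' + r' * tt u a b ^ k, ?_, fun h0 => ?_⟩
    · push_cast
      rw [e, e', tt_val]; ring
    · have : ρ (r * tt u a b ^ k' + r' * tt u a b ^ k) / ρ (tt u a b) ^ (k + k') =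
          ρ r / ρ (tt u a b) ^ k + ρ r' / ρ (tt u a b) ^ k' := by
        simp only [map_add, map_mul, map_pow]; field_simp; ring
      rw [this]; exact add_mem (h h0) (h' h0)
  | mul x y _ _ hx hy =>
    obtain ⟨k, r, e, h⟩ := hx
    obtain ⟨k', r', e', h'⟩ := hy
    refine ⟨k + k', r * r', ?_, fun h0 => ?_⟩
    · push_cast
      rw [e, e']; ring
    · have : ρ (r * r') / ρ (tt u a b) ^ (k + k') =
          ρ r / ρ (tt u a b) ^ k * (ρ r' / ρ (tt u a b) ^ k') := by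
        simp only [map_mul]; field_simp; ring
      rw [this]; exact mul_mem (h h0) (h' h0)

theorem homog1 (hu : ∀ a, u a ≠ 0) (a b : J) (q : L) (hq : q ∈ chA u b) :
    ∃ k : ℕ, q * (u b / u a) ^ k ∈ chA u a := by
  obtain ⟨k, r, e, -⟩ := homog hu a b (chA u a).val q hq
  exact ⟨k, e ▸ r.2⟩

theorem unif [Finite J] {p : J → ℕ → Prop} (h : ∀ a, ∃ n, p a n)
    (hm : ∀ a n, p a n → p a (n + 1)) : ∃ n, ∀ a, p a n := by
  choose n hn using h
  obtain ⟨m, hm'⟩ := (finite_range n).bddAbove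
  refine ⟨m, fun a => ?_⟩
  have h1 : n a ≤ m := hm' ⟨a, rfl⟩
  exact Nat.le_induction (hn a) (fun k _ hk => hm a k hk) m h1

variable {V : Type} [AddCommGroup V] [Module L V] [Module ℂ V] [IsScalarTower ℂ L V]

theorem smul_mem {a : J} (M : Submodule (chA u a) V) {q : L} (hq : q ∈ chA u a) {v : V}
    (hv : v ∈ M) : q • v ∈ M := M.smul_mem ⟨q, hq⟩ hv

theorem pow_up {a : J} (M : Submodule (chA u a) V) (b : J) {v : V} {n : ℕ} (m : ℕ)
    (hv : (u b / u a) ^ n • v ∈ M) : (u b / u a) ^ (m + n) • v ∈ M := by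
  rw [pow_add, mul_smul]; exact smul_mem M (pow_mem (gen_mem u a b) m) hv

theorem mem_loc (S : Sh u V) (η : J → V) : η ∈ S.Loc ↔ ∀ a, η a ∈ S.M a :=
  ⟨fun h a => h a (mem_univ a), fun h a _ => h a⟩

/-- Cocycles as a subspace. -/
def cyc (S : Sh u V) : Submodule ℂ (J → V) where
  carrier := S.Cyc
  zero_mem' := fun a b => ⟨0, by simp⟩
  add_mem' := fun {x y} hx hy a b => by
    obtain ⟨n, hn⟩ := hx a b
    obtain ⟨m, hm⟩ := hy a b
    refine ⟨m + n, ?_⟩
    have h2 := pow_up _ b n hm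
    rw [add_comm n m] at h2
    have := add_mem (pow_up _ b m hn) h2
    rw [← smul_add] at this
    have e : (x + y) a - (x + y) b = x a - x b + (y a - y b) := by
      simp only [Pi.add_apply]; abel
    rw [e]; exact this
  smul_mem' := fun c x hx a b => by
    obtain ⟨n, hn⟩ := hx a b
    refine ⟨n, ?_⟩
    have := smul_mem _ (Subalgebra.algebraMap_mem (chA u a) c) hn
    rw [smul_comm, algebraMap_smul, smul_sub] at this
    exact this

/-- The finiteness statement for a pair of sheaves. -/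
def Res (S N : Sh u V) : Prop :=
  ∃ W : Submodule ℂ (J → V), W.FG ∧ ∀ η ∈ S.Cyc, η ∈ N.Loc → η ∈ W ⊔ S.Loc

theorem Res.trans {S S' N : Sh u V} (h : ∀ a, S.M a ≤ S'.M a) (h1 : Res S S') (h2 : Res S' N) :
    Res S N := by
  obtain ⟨W1, f1, h1⟩ := h1
  obtain ⟨W2, f2, h2⟩ := h2
  obtain ⟨W3, f3, l3, h3⟩ := shrink (cyc S ⊓ N.Loc) W2 S'.Loc f2 (fun η hη =>
    h2 η (fun a b => (hη.1 a b).imp fun n hn => h a hn) hη.2)
  refine ⟨W3 ⊔ W1, f3.sup f1, fun η hc hl => ?_⟩
  obtain ⟨w, hw, e⟩ := h3 η ⟨hc, hl⟩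
  have h4 : η - w ∈ cyc S := sub_mem (show η ∈ cyc S from hc) (l3 hw).1
  have h5 := h1 _ h4 e
  have : η = w + (η - w) := by abel
  rw [this, sup_assoc]
  exact Submodule.add_mem_sup hw h5

/-- Adjoining a twisted global section. -/
def adj (hu : ∀ a, u a ≠ 0) (S : Sh u V) (w : V) (d : ℕ) : Sh u V where
  M a := S.M a ⊔ Submodule.span _ {(u a ^ d)⁻¹ • w}
  compat a b v hv := by
    obtain ⟨m, hm, z, hz, rfl⟩ := Submodule.mem_sup.1 hv
    obtain ⟨q, rfl⟩ := Submodule.mem_span_singleton.1 hz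
    obtain ⟨n, hn⟩ := S.compat a b m hm
    obtain ⟨k, hk⟩ := homog1 hu b a q q.2
    refine ⟨(k + d) + n, ?_⟩
    rw [smul_add]
    refine Submodule.add_mem_sup (pow_up _ a _ hn) ?_
    rw [add_comm]
    refine pow_up _ a n (Submodule.mem_span_singleton.2 ⟨⟨_, hk⟩, ?_⟩)
    show ((q : L) * (u a / u b) ^ k) • (u b ^ d)⁻¹ • w =
      (u a / u b) ^ (k + d) • (q : L) • (u a ^ d)⁻¹ • w
    simp only [smul_smul]
    congr 1
    have := hu a; have := hu b
    simp only [div_pow, pow_add]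
    field_simp

/-- The ideal of functions multiplying a section into the subsheaf. -/
def col (S : Sh u V) (w : V) (d : ℕ) (a : J) : Ideal (chA u a) :=
  (S.M a).comap (LinearMap.toSpanSingleton _ V ((u a ^ d)⁻¹ • w))

theorem mem_col (S : Sh u V) (w : V) (d : ℕ) (a : J) (f : chA u a) :
    f ∈ col S w d a ↔ (f : L) • (u a ^ d)⁻¹ • w ∈ S.M a := Iff.rfl

theorem step (hH : St_H0) [Finite J] (hu : ∀ a, u a ≠ 0) (S : Sh u V) (w : V) (d : ℕ) (a0 : J)
    (h0 : (col S w d a0).IsPrime)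
    (hp : ∀ b, col S w d b = ⊤ ∨ ((col S w d b).IsPrime ∧ tt u b a0 ∉ col S w d b)) :
    Res S (adj hu S w d) := by
  let κ : Type := (col S w d a0).ResidueField
  let ρ : chA u a0 →ₐ[ℂ] κ := IsScalarTower.toAlgHom ℂ (chA u a0) κ
  have hker : ∀ f, ρ f = 0 ↔ f ∈ col S w d a0 := fun f => Ideal.algebraMap_residueField_eq_zero
  have hfd := hH ℂ κ J (fun j => ρ (tt u a0 j)) (-(d : ℤ)) ⟨a0, by
    have : tt u a0 a0 = 1 := Subtype.ext (div_self (hu a0))
    rw [this, map_one]; exact one_ne_zero⟩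
  have hdec : ∀ η ∈ (adj hu S w d).Loc, ∀ b, ∃ q : chA u b,
      η b - (q : L) • (u b ^ d)⁻¹ • w ∈ S.M b := fun η hη b => by
    obtain ⟨m, hm, z, hz, e⟩ := Submodule.mem_sup.1 ((mem_loc _ _).1 hη b)
    obtain ⟨q, rfl⟩ := Submodule.mem_span_singleton.1 hz
    refine ⟨q, ?_⟩
    rw [← e]
    show m + q • (u b ^ d)⁻¹ • w - q • (u b ^ d)⁻¹ • w ∈ _
    rw [add_sub_cancel_right]; exact hm
  let E : Submodule ℂ ((J → V) × chA u a0) :=
    { carrier := {x | x.1 ∈ cyc S ∧ x.1 ∈ (adj hu S w d).Loc ∧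
        x.1 a0 - (x.2 : L) • (u a0 ^ d)⁻¹ • w ∈ S.M a0}
      zero_mem' := ⟨zero_mem _, zero_mem _, by simp⟩
      add_mem' := fun {x y} hx hy => ⟨add_mem hx.1 hy.1, add_mem hx.2.1 hy.2.1, by
        have := add_mem hx.2.2 hy.2.2
        have e : (x + y).1 a0 - ((x + y).2 : L) • (u a0 ^ d)⁻¹ • w =
            x.1 a0 - (x.2 : L) • (u a0 ^ d)⁻¹ • w + (y.1 a0 - (y.2 : L) • (u a0 ^ d)⁻¹ • w) := by
          simp only [Prod.fst_add, Prod.snd_add, Pi.add_apply, Subalgebra.coe_add, add_smul]; abel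
        rw [e]; exact this⟩
      smul_mem' := fun c x hx => ⟨Submodule.smul_mem _ c hx.1, Submodule.smul_mem _ c hx.2.1, by
        have := smul_mem _ (Subalgebra.algebraMap_mem (chA u a0) c) hx.2.2
        rw [algebraMap_smul, smul_sub, ← smul_assoc] at this
        exact this⟩ }
  let f : E →ₗ[ℂ] κ := ρ.toLinearMap ∘ₗ LinearMap.snd ℂ _ _ ∘ₗ E.subtype
  have hle : LinearMap.range f ≤ Gam ℂ (fun j => ρ (tt u a0 j)) (-(d : ℤ)) := by
    rintro _ ⟨⟨⟨η, p⟩, hc, hl, hp0⟩, rfl⟩ b hb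
    obtain ⟨q, hq⟩ := hdec η hl b
    obtain ⟨n, hn⟩ := hc a0 b
    obtain ⟨n', hn'⟩ := S.compat b a0 _ hq
    obtain ⟨k, r, er, hr⟩ := homog hu a0 b ρ q q.2
    have h1 := pow_up _ b (d + k + n') hn
    have h2 := pow_up _ b (d + k + n) hn'
    have h3 := smul_mem _ (pow_mem (gen_mem u a0 b) (d + k + n + n')) hp0
    have h4 : tt u a0 b ^ (n + n') * (tt u a0 b ^ (d + k) * p - r) ∈ col S w d a0 := by
      rw [mem_col]
      have h5 := sub_mem (add_mem h1 h2) h3
      have e : ((tt u a0 b ^ (n + n') * (tt u a0 b ^ (d + k) * p - r) : chA u a0) : L) •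
          (u a0 ^ d)⁻¹ • w = (u b / u a0) ^ (d + k + n' + n) • (η a0 - η b) +
          (u b / u a0) ^ (d + k + n + n') • (η b - (q : L) • (u b ^ d)⁻¹ • w) -
          (u b / u a0) ^ (d + k + n + n') • (η a0 - (p : L) • (u a0 ^ d)⁻¹ • w) := by
        rw [show d + k + n' + n = d + k + n + n' by ring]
        simp only [smul_sub, smul_smul]
        have e1 : ∀ x y z t : V, x - y + (y - z) - (x - t) = t - z := fun x y z t => by abel
        rw [e1, ← sub_smul]
        congr 1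
        push_cast
        rw [er, tt_val]
        have := hu a0; have := hu b
        simp only [div_pow, pow_add]
        field_simp
      rw [e]; exact h5
    have h6 := (hker _).2 h4
    simp only [map_mul, map_sub, map_pow] at h6
    have h7 := sub_eq_zero.1 ((mul_eq_zero.1 h6).resolve_left (pow_ne_zero _ hb))
    have h8 : f ⟨(η, p), hc, hl, hp0⟩ / ρ (tt u a0 b) ^ (-(d : ℤ)) = ρ r / ρ (tt u a0 b) ^ k := by
      show ρ p / _ = _
      have hb' : ρ (tt u a0 b) ≠ 0 := hb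
      rw [← h7, zpow_neg, zpow_natCast, div_inv_eq_mul, pow_add, eq_div_iff (pow_ne_zero _ hb')]
      ring
    show f _ / ρ (tt u a0 b) ^ (-(d : ℤ)) ∈ _
    rw [h8]; exact hr hb
  obtain ⟨W, fW, hW⟩ := exists_sec f (Submodule.finiteDimensional_of_le hle)
  refine ⟨W.map (LinearMap.fst ℂ _ _ ∘ₗ E.subtype), fW.map _, fun η hc hl => ?_⟩
  obtain ⟨p, hp0⟩ := hdec η hl a0
  obtain ⟨x, hx, ex⟩ := hW ⟨(η, p), hc, hl, hp0⟩
  have e0 : η = x.1.1 + (η - x.1.1) := by abel
  rw [e0]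
  refine Submodule.add_mem_sup ⟨x, hx, rfl⟩ ?_
  obtain ⟨hc', hl', hp'⟩ := ((⟨(η, p), hc, hl, hp0⟩ : E) - x).2
  have h1 : p - x.1.2 ∈ col S w d a0 := by
    rw [← hker, map_sub, sub_eq_zero]; exact ex.symm
  have h2 : (η - x.1.1) a0 ∈ S.M a0 := by
    have hp'' : (η - x.1.1) a0 - ((p - x.1.2 : chA u a0) : L) • (u a0 ^ d)⁻¹ • w ∈ S.M a0 := hp'
    have := add_mem hp'' ((mem_col _ _ _ _ _).1 h1)
    rw [sub_add_cancel] at this
    exact this
  rw [mem_loc]
  intro b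
  obtain ⟨q, hq⟩ := hdec _ hl' b
  have h3 : q ∈ col S w d b := by
    rcases hp b with h | ⟨h, h'⟩
    · rw [h]; trivial
    obtain ⟨n, hn⟩ := hc' b a0
    obtain ⟨n', hn'⟩ := S.compat a0 b _ h2
    have h4 := pow_up _ a0 n' hn
    have h5 := pow_up _ a0 n hn'
    rw [add_comm n n'] at h5
    have h6 := smul_mem _ (pow_mem (gen_mem u b a0) (n' + n)) hq
    have h7 : tt u b a0 ^ (n' + n) * q ∈ col S w d b := by
      rw [mem_col]
      have h8 := sub_mem (add_mem h4 h5) h6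
      rw [← smul_add, ← smul_sub] at h8
      have e1 : ∀ x y z : V, x - y + y - (x - z) = z := fun x y z => by abel
      erw [e1] at h8
      push_cast
      rw [mul_smul]; exact h8
    exact (h.mem_or_mem h7).resolve_left fun h9 => h' (h.mem_of_pow_mem _ h9)
  have := add_mem hq ((mem_col _ _ _ _ _).1 h3)
  rw [show ∀ y z : V, y - z + z = y from sub_add_cancel] at this
  exact this

theorem exists_step (hH : St_H0) [Finite J] (hu : ∀ a, u a ≠ 0) (S N : Sh u V)
    (hSN : ∀ a, S.M a ≤ N.M a) (a1 : J) (v : V) (hv : v ∈ N.M a1) (hv' : v ∉ S.M a1) :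
    ∃ S' : Sh u V, (∀ a, S.M a ≤ S'.M a) ∧ (∀ a, S'.M a ≤ N.M a) ∧ (∃ a, ¬S'.M a ≤ S.M a) ∧
      Res S S' := by
  have hN := fun a => noeth u a
  have wf : WellFoundedLT (∀ a, (Ideal (chA u a))ᵒᵈ) := Pi.wellFoundedLT
  let A : Set (∀ a, (Ideal (chA u a))ᵒᵈ) := {p | ∃ (w : V) (d : ℕ),
    (∀ a, (u a ^ d)⁻¹ • w ∈ N.M a) ∧ (∃ a, (u a ^ d)⁻¹ • w ∉ S.M a) ∧ ∀ a, p a = col S w d a}
  have hA : A.Nonempty := by
    obtain ⟨d, hd⟩ := unif (fun b => N.compat a1 b v hv) fun b n h => by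
      rw [add_comm]; exact pow_up _ a1 1 h
    refine ⟨fun a => col S (u a1 ^ d • v) d a, u a1 ^ d • v, d, fun a => ?_, ⟨a1, ?_⟩,
      fun a => rfl⟩
    · rw [smul_smul, ← div_eq_inv_mul, ← div_pow]; exact hd a
    · rw [smul_smul, inv_mul_cancel₀ (pow_ne_zero _ (hu a1)), one_smul]; exact hv'
  obtain ⟨p, ⟨w, d, hw, ⟨a0, ha0⟩, hp⟩, hmax⟩ := wf.wf.has_min A hA
  have key : ∀ (G : L) (k : ℕ), (∀ b, G / u b ^ k ∈ chA u b) → ∀ a,
      (G / u a ^ k) • (u a ^ d)⁻¹ • w ∉ S.M a → ∀ b (f : chA u b),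
      (f : L) • (G / u b ^ k) • (u b ^ d)⁻¹ • w ∈ S.M b → f ∈ col S w d b := by
    intro G k hG a ha b f hf
    have e : ∀ c, (u c ^ (d + k))⁻¹ • G • w = (G / u c ^ k) • (u c ^ d)⁻¹ • w := fun c => by
      simp only [smul_smul]; congr 1
      have := hu c
      field_simp
      ring
    have hle : ∀ c, col S w d c ≤ col S (G • w) (d + k) c := fun c g hg => by
      rw [mem_col, e, smul_comm]; exact smul_mem _ (hG c) hg
    have h1 := hmax (fun c => col S (G • w) (d + k) c) ⟨G • w, d + k,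
      fun c => by rw [e]; exact smul_mem _ (hG c) (hw c), ⟨a, by rw [e]; exact ha⟩, fun c => rfl⟩
    by_contra hne
    refine h1 (lt_of_le_of_ne (fun c => ?_) fun h => hne ?_)
    · rw [hp c]; exact hle c
    · have h2 : col S (G • w) (d + k) b = col S w d b := (congrFun h b).trans (hp b)
      rw [← h2, mem_col, e]; exact hf
  have hprime : ∀ a, col S w d a ≠ ⊤ → (col S w d a).IsPrime := fun a ha => by
    refine ⟨ha, fun {f g} hfg => ?_⟩
    by_contra hne
    obtain ⟨hf, hg⟩ := not_or.1 hne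
    obtain ⟨k, hk⟩ := unif (fun b => homog1 hu b a g g.2) fun b n h => by
      rw [pow_succ, ← mul_assoc]; exact mul_mem h (gen_mem u b a)
    have e : (g : L) * u a ^ k / u a ^ k = g := mul_div_cancel_right₀ _ (pow_ne_zero _ (hu a))
    refine hf (key (g * u a ^ k) k (fun b => ?_) a (by rw [e]; exact hg) a f ?_)
    · rw [mul_div_assoc, ← div_pow]; exact hk b
    · rw [e, ← mul_smul]; exact hfg
  have htop : col S w d a0 ≠ ⊤ := fun h => ha0 (by
    have : (1 : chA u a0) ∈ col S w d a0 := by rw [h]; trivial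
    rw [mem_col] at this
    simpa using this)
  refine ⟨adj hu S w d, fun a => le_sup_left, fun a => sup_le (hSN a) ?_, ⟨a0, fun h => ha0 ?_⟩,
    step hH hu S w d a0 (hprime a0 htop) fun b => ?_⟩
  · rw [Submodule.span_le, singleton_subset_iff]; exact hw a
  · exact h (Submodule.mem_sup_right (Submodule.mem_span_singleton_self _))
  · by_cases hb : col S w d b = ⊤
    · exact Or.inl hb
    refine Or.inr ⟨hprime b hb, fun h => hb ((Ideal.eq_top_iff_one _).2 ?_)⟩
    refine key (u a0) 1 (fun c => by rw [pow_one]; exact gen_mem u c a0) a0 ?_ b 1 ?_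
    · rw [pow_one, div_self (hu a0), one_smul]; exact ha0
    · rw [pow_one, Subalgebra.coe_one, one_smul]; exact h

end FIL

open FIL in
theorem blockFIL (hH : St_H0) : St_FIL := by
  intro L J V _ _ _ _ _ _ _ u hu S N hSN hfg
  have hN := fun a => noeth u a
  have hM : ∀ a, IsNoetherian (chA u a) (N.M a) := fun a => isNoetherian_of_fg_of_noetherian _ (hfg a)
  have wf : WellFoundedLT (∀ a, (Submodule (chA u a) (N.M a))ᵒᵈ) := Pi.wellFoundedLT
  suffices h : ∀ (x : ∀ a, (Submodule (chA u a) (N.M a))ᵒᵈ) (S : Sh u V), (∀ a, S.M a ≤ N.M a) →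
      (∀ a, x a = (S.M a).comap (N.M a).subtype) → Res S N from h _ S hSN fun a => rfl
  intro x
  induction x using wf.wf.induction with
  | h x ih =>
    intro S hS hx
    by_cases h : ∀ a, N.M a ≤ S.M a
    · exact ⟨⊥, Submodule.fg_bot, fun η _ hl => Submodule.mem_sup_right
        ((mem_loc _ _).2 fun a => h a ((mem_loc _ _).1 hl a))⟩
    obtain ⟨a1, h1⟩ := not_forall.1 h
    obtain ⟨v, hv, hv'⟩ := SetLike.not_le_iff_exists.1 h1
    obtain ⟨S', h2, h3, ⟨a, h4⟩, h5⟩ := exists_step hH hu S N hS a1 v hv hv'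
    refine h5.trans h2 (ih (fun a => (S'.M a).comap (N.M a).subtype) ?_ S' h3 fun a => rfl)
    refine lt_of_le_of_ne (fun c => ?_) fun e => h4 fun z hz => ?_
    · rw [hx c]; exact Submodule.comap_mono (h2 c)
    · have e1 : (S'.M a).comap (N.M a).subtype = (S.M a).comap (N.M a).subtype :=
        (congrFun e a).trans (hx a)
      have : (⟨z, h3 a hz⟩ : N.M a) ∈ (S'.M a).comap (N.M a).subtype := hz
      rw [e1] at this
      exact this

end Pool.Agent.Lib.DU
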