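import Pool.Agent.Lib.DU.Sp

open Set Filter TensorProduct Pool.Agent.Lib.MP_e39d36_ag Pool.Agent.Lib.MP_e39d36_ag.Var
  Pool.Agent.Lib.MP_cc3443_ag

set_option linter.unusedSectionVars false
set_option linter.unusedVariables false
set_option linter.style.haveILetI false

noncomputable section

namespace Pool.Agent.Lib.DU

namespace GEN

open MvPolynomial Uni

/-- A generic point of a sequence of points along an ultrafilter. -/
lemma exists_generic {K : Type} [Field K] [Algebra ℂ K] (W : Uni K) (N : ℕ) {σ : Type} [Finite σ]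
    (cn : ℕ → σ → ℂ) (𝒰 : Ultrafilter ℕ) : ∃ c : σ → W.U, (∀ s, c s ∈ W.cl (Ici N)) ∧
      ∀ p : MvPolynomial σ ℂ, aeval c p = 0 ↔ ∀ᶠ n in 𝒰, aeval (cn n) p = 0 := by
  let I : Ideal (MvPolynomial σ ℂ) :=
    { carrier := {p | ∀ᶠ n in 𝒰, aeval (cn n) p = 0}
      zero_mem' := Eventually.of_forall fun n => map_zero _
      add_mem' := fun ha hb => (ha.and hb).mono fun n h => by rw [map_add, h.1, h.2, add_zero]
      smul_mem' := fun c p hp => hp.mono fun n h => by rw [smul_eq_mul, map_mul, h, mul_zero] }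
  haveI : I.IsPrime := ⟨(Ideal.ne_top_iff_one _).2 fun h => by
      obtain ⟨n, hn⟩ := Eventually.exists h
      simp at hn,
    fun {p q} h => Ultrafilter.eventually_or.1 (Eventually.mono h fun n hn => by
      simpa only [map_mul, mul_eq_zero] using hn)⟩
  obtain ⟨s, g, g1, g2⟩ := exists_integral_inj_algHom_of_fg ℂ (MvPolynomial σ ℂ ⧸ I)
  let e : MvPolynomial (Fin s) ℂ →ₐ[ℂ] W.U := aeval fun i => W.x (N + i)
  have he : Function.Injective e := (W.tb.1.comp (fun i : Fin s => N + i.1) fun i j h =>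
    Fin.ext (Nat.add_left_cancel h))
  letI := g.toRingHom.toAlgebra
  letI := e.toRingHom.toAlgebra
  haveI : Algebra.IsIntegral (MvPolynomial (Fin s) ℂ) (MvPolynomial σ ℂ ⧸ I) := ⟨g2⟩
  haveI : FaithfulSMul (MvPolynomial (Fin s) ℂ) (MvPolynomial σ ℂ ⧸ I) :=
    (faithfulSMul_iff_algebraMap_injective _ _).2 g1
  haveI : FaithfulSMul (MvPolynomial (Fin s) ℂ) W.U :=
    (faithfulSMul_iff_algebraMap_injective _ _).2 he
  let j : (MvPolynomial σ ℂ ⧸ I) →ₐ[MvPolynomial (Fin s) ℂ] W.U := IsAlgClosed.lift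
  have hj : ∀ p, j (g p) = e p := fun p => j.commutes p
  have j1 : Function.Injective j := by
    rw [RingHom.injective_iff_ker_eq_bot]
    refine Ideal.eq_bot_of_comap_eq_bot (R := MvPolynomial (Fin s) ℂ) (eq_bot_iff.2 fun p hp => ?_)
    exact he ((hj p).symm.trans (hp.trans (map_zero e).symm))
  let j' : (MvPolynomial σ ℂ ⧸ I) →ₐ[ℂ] W.U :=
    { j.toRingHom with commutes' := fun z => by rw [← g.commutes, ← e.commutes]; exact hj _ }
  have h1 : (aeval fun s => j (Ideal.Quotient.mk I (X s))) = j'.comp (Ideal.Quotient.mkₐ ℂ I) := by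
    ext s
    simp [j']
  refine ⟨fun s => j (Ideal.Quotient.mk I (X s)), fun t => ?_, fun p => ?_⟩
  · have h2 : IsIntegral (MvPolynomial (Fin s) ℂ) (j (Ideal.Quotient.mk I (X t))) :=
      (Algebra.IsIntegral.isIntegral _).map j
    have h3 : ∀ p, e p ∈ Algebra.adjoin ℂ (W.x '' Ici N) := fun p => by
      have : e.range ≤ Algebra.adjoin ℂ (W.x '' Ici N) := by
        rw [← Algebra.adjoin_range_eq_range_aeval]
        exact Algebra.adjoin_mono (by rintro _ ⟨i, rfl⟩; exact ⟨_, Nat.le_add_right _ _, rfl⟩)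
      exact this ⟨p, rfl⟩
    letI := (e.codRestrict _ h3).toRingHom.toAlgebra
    haveI : IsScalarTower (MvPolynomial (Fin s) ℂ) (Algebra.adjoin ℂ (W.x '' Ici N)) W.U :=
      IsScalarTower.of_algebraMap_eq fun _ => rfl
    exact (h2.tower_top (A := Algebra.adjoin ℂ (W.x '' Ici N))).isAlgebraic
  · rw [h1]
    exact (map_eq_zero_iff j j1).trans Ideal.Quotient.eq_zero_iff_mem

/-- The specialisations of the ring generated by the generic point. -/
lemma exists_theta {U σ : Type} [Field U] [Algebra ℂ U] [Finite σ] {c : σ → U} {cn : ℕ → σ → ℂ}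
    {𝒰 : Ultrafilter ℕ}
    (hk : ∀ p : MvPolynomial σ ℂ, aeval c p = 0 ↔ ∀ᶠ n in 𝒰, aeval (cn n) p = 0) :
    ∃ θ : ℕ → (aeval c : MvPolynomial σ ℂ →ₐ[ℂ] U).range →ₐ[ℂ] ℂ,
      (∀ᶠ n in 𝒰, ∀ p, θ n ⟨aeval c p, p, rfl⟩ = aeval (cn n) p) ∧
      ∀ r, r ≠ 0 → ∀ᶠ n in 𝒰, θ n r ≠ 0 := by
  obtain ⟨S, hS⟩ := IsNoetherian.noetherian (RingHom.ker (aeval c : MvPolynomial σ ℂ →ₐ[ℂ] U))
  have h1 : ∀ᶠ n in 𝒰, ∃ θ : (aeval c : MvPolynomial σ ℂ →ₐ[ℂ] U).range →ₐ[ℂ] ℂ,
      ∀ p, θ ⟨aeval c p, p, rfl⟩ = aeval (cn n) p := by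
    refine (S.eventually_all.2 fun p hp => (hk p).1
      (show p ∈ RingHom.ker (aeval c) from hS ▸ Submodule.subset_span hp)).mono fun n hn => ?_
    have h2 : RingHom.ker (aeval c : MvPolynomial σ ℂ →ₐ[ℂ] U).rangeRestrict.toRingHom ≤
        RingHom.ker (aeval (cn n) : MvPolynomial σ ℂ →ₐ[ℂ] ℂ).toRingHom := fun p hp =>
      (hS.ge.trans (Submodule.span_le.2 fun i hi => hn i hi))
        (congrArg Subtype.val hp)
    exact ⟨AlgHom.liftOfSurjective _ (AlgHom.rangeRestrict_surjective _) _ h2, fun p =>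
      AlgHom.liftOfSurjective_apply _ _ _ h2 p⟩
  obtain ⟨n₀, θ₀, -⟩ := h1.exists
  haveI := Nonempty.intro θ₀
  obtain ⟨θ, hθ⟩ := h1.choice
  refine ⟨θ, hθ, ?_⟩
  rintro ⟨_, p, rfl⟩ hr
  have h3 : ¬∀ᶠ n in 𝒰, aeval (cn n) p = 0 := fun h => hr (Subtype.ext ((hk p).2 h))
  exact ((Ultrafilter.eventually_not.2 h3).and hθ).mono fun n h h' => h.1 ((h.2 p).symm.trans h')

lemma exists_ext {A Ω L : Type} [CommRing A] [Field Ω] [Field L] (m : A →+* Ω)
    (hm : Function.Injective m) (hs : ∀ w, ∃ p q, m q ≠ 0 ∧ w * m q = m p) (f : A →+* L)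
    (hf : Function.Injective f) : ∃ g : Ω →+* L, ∀ t, g (m t) = f t := by
  letI := m.toAlgebra
  haveI : FaithfulSMul A Ω := (faithfulSMul_iff_algebraMap_injective _ _).2 hm
  haveI : IsFractionRing A Ω := IsFractionRing.of_field A Ω fun z => by
    obtain ⟨p, q, h1, h2⟩ := hs z
    exact ⟨p, q, eq_div_of_mul_eq h1 h2⟩
  exact ⟨IsFractionRing.lift hf, fun t => IsFractionRing.lift_algebraMap hf t⟩

section action

variable {K : Type} [Field K] [Algebra ℂ K] {W : Uni K} {R : Subalgebra ℂ W.U}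
  {θ : ℕ → R →ₐ[ℂ] ℂ} {l : Filter ℕ} {w w' : W.Ω} {f f' : ℕ → K}

variable (θ l) in
/-- Specialisation along a filter. -/
def Ul (w : W.Ω) (f : ℕ → K) : Prop := ∀ᶠ n in l, W.Sp ⟨R, θ n⟩ w (f n)

/-- Evaluation of a tensor at a point. -/
abbrev Th (θ : R →ₐ[ℂ] ℂ) : K ⊗[ℂ] R →ₐ[ℂ] K :=
  Algebra.TensorProduct.productMap (AlgHom.id ℂ K) ((Algebra.ofId ℂ K).comp θ)

/-- The inclusion of tensor products. -/
abbrev rh (R : Subalgebra ℂ W.U) : K ⊗[ℂ] R →ₐ[ℂ] K ⊗[ℂ] W.U :=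
  Algebra.TensorProduct.map (AlgHom.id ℂ K) R.val

lemma mu_rh (t : K ⊗[ℂ] R) : W.mu (rh R t) = Algebra.TensorProduct.productMap
    (IsScalarTower.toAlgHom ℂ K W.Ω) ((IsScalarTower.toAlgHom ℂ W.U W.Ω).comp R.val) t := by
  induction t using TensorProduct.induction_on with
  | zero => simp
  | tmul a u => rfl
  | add s t hs ht => simp only [map_add, hs, ht]

lemma sp_rh (θ : R →ₐ[ℂ] ℂ) (t : K ⊗[ℂ] R) : W.Sp ⟨R, θ⟩ (W.mu (rh R t)) (Th θ t) :=
  Sp0.sp ⟨t, mu_rh t, rfl⟩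

lemma sp_rep {θ : R →ₐ[ℂ] ℂ} {a : K} (h : W.Sp ⟨R, θ⟩ w a) :
    ∃ p q : K ⊗[ℂ] R, q ≠ 0 ∧ W.mu (rh R q) ≠ 0 ∧ w * W.mu (rh R q) = W.mu (rh R p) := by
  obtain ⟨_, _, _, _, ⟨q, rfl, rfl⟩, h2, ⟨p, rfl, rfl⟩, h3, -⟩ := h
  exact ⟨p, q, fun h => h2 (by rw [h, map_zero]), (sp_rh θ q).ne h2, by rwa [mu_rh, mu_rh]⟩

lemma th_ne (H : ∀ r, r ≠ 0 → ∀ᶠ n in l, θ n r ≠ 0) {t : K ⊗[ℂ] R} (ht : t ≠ 0) :
    ∀ᶠ n in l, Th (θ n) t ≠ 0 := by
  let B := Module.Basis.ofVectorSpace ℂ K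
  obtain ⟨u, rfl⟩ := TensorProduct.eq_repr_basis_left B t
  obtain ⟨i, hi⟩ : u.support.Nonempty := Finsupp.support_nonempty_iff.2 fun h => ht (by simp [h])
  refine (H _ (Finsupp.mem_support_iff.1 hi)).mono fun n hn h => hn
    (linearIndependent_iff'.1 B.linearIndependent u.support (fun j => θ n (u j)) ?_ i hi)
  rw [← h, Finsupp.sum, map_sum]
  exact Finset.sum_congr rfl fun j _ => by rw [Algebra.smul_def, mul_comm]; rfl

lemma Ul.ne [NeBot l] (H : ∀ r, r ≠ 0 → ∀ᶠ n in l, θ n r ≠ 0) (h : Ul θ l w f) (hw : w ≠ 0) :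
    ∀ᶠ n in l, f n ≠ 0 := by
  obtain ⟨n₀, h0⟩ := h.exists
  obtain ⟨p, q, -, h2, h3⟩ := sp_rep h0
  have h4 : p ≠ 0 := fun h => mul_ne_zero hw h2 (by rw [h3, h, map_zero, map_zero])
  refine (h.and (th_ne H h4)).mono fun n hn h5 => hn.2 ?_
  have h6 := hn.1.mul (sp_rh (θ n) q)
  rw [h3, h5, zero_mul] at h6
  exact (sp_rh (θ n) p).unique h6

lemma Ul.eq [NeBot l] (H : ∀ r, r ≠ 0 → ∀ᶠ n in l, θ n r ≠ 0) (h : Ul θ l w f) (h' : Ul θ l w' f')
    (hf : ∀ᶠ n in l, f n = f' n) : w = w' := by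
  by_contra h0
  obtain ⟨n, h1, h2⟩ := ((Ul.ne (f := fun n => f n - f' n) H
    ((h.and h').mono fun n hn => hn.1.sub hn.2) (sub_ne_zero.2 h0)).and hf).exists
  exact h1 (sub_eq_zero.2 h2)

lemma Ul.mul (h : Ul θ l w f) (h' : Ul θ l w' f') : Ul θ l (w * w') fun n => f n * f' n :=
  (h.and h').mono fun n hn => hn.1.mul hn.2

lemma Ul.add (h : Ul θ l w f) (h' : Ul θ l w' f') : Ul θ l (w + w') fun n => f n + f' n :=
  (h.and h').mono fun n hn => hn.1.add hn.2

lemma ul_const (z : ℂ) : Ul θ l (algebraMap ℂ W.Ω z) fun _ => algebraMap ℂ K z :=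
  Eventually.of_forall fun n => by
    rw [IsScalarTower.algebraMap_apply ℂ K W.Ω]; exact sp_ι _ _

/-- The generic embedding. -/
lemma exists_hom [NeBot l] (H : ∀ r, r ≠ 0 → ∀ᶠ n in l, θ n r ≠ 0) {ι : Type} {y : ι → K}
    (hy : Coords ℂ y) (i : ι) (β : ℕ → K →ₐ[ℂ] K)
    (hg : ∀ j, ∃ w, Ul θ l w fun n => β n (y j / y i)) :
    ∃ φ : K →ₐ[ℂ] W.Ω, ∀ a, Ul θ l (φ a) fun n => β n a := by
  have hc : ∀ z : ℂ, Ul θ l (algebraMap ℂ W.Ω z) fun n => β n (algebraMap ℂ K z) := fun z => by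
    simpa only [AlgHom.commutes] using ul_const z
  let S : Subfield K :=
    { carrier := {a | ∃ w, Ul θ l w fun n => β n a}
      mul_mem' := fun ⟨w, h⟩ ⟨w', h'⟩ => ⟨_, by simpa only [map_mul] using h.mul h'⟩
      add_mem' := fun ⟨w, h⟩ ⟨w', h'⟩ => ⟨_, by simpa only [map_add] using h.add h'⟩
      one_mem' := ⟨_, by simpa only [map_one (algebraMap ℂ K)] using hc 1⟩
      zero_mem' := ⟨_, by simpa only [map_zero (algebraMap ℂ K)] using hc 0⟩
      neg_mem' := fun ⟨w, h⟩ => ⟨-w, h.mono fun n hn => by simpa only [map_neg] using hn.neg⟩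
      inv_mem' := fun a ⟨w, h⟩ => by
        by_cases h0 : a = 0
        · exact ⟨w, by simpa only [h0, inv_zero] using h⟩
        · exact ⟨w⁻¹, h.mono fun n hn => by
            simpa only [map_inv₀] using hn.inv ((map_ne_zero (β n)).2 h0)⟩ }
  choose φ hφ using fun a => hy.eq_top i (S := S) (fun z => ⟨_, hc z⟩) hg a
  have h1 : ∀ z, φ (algebraMap ℂ K z) = algebraMap ℂ W.Ω z := fun z =>
    (hφ _).eq H (hc z) (Eventually.of_forall fun _ => rfl)
  exact ⟨{ toFun := φ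
           map_one' := by simpa using h1 1
           map_zero' := by simpa using h1 0
           map_mul' := fun a b => (hφ _).eq H ((hφ a).mul (hφ b))
             (Eventually.of_forall fun _ => map_mul _ _ _)
           map_add' := fun a b => (hφ _).eq H ((hφ a).add (hφ b))
             (Eventually.of_forall fun _ => map_add _ _ _)
           commutes' := h1 }, hφ⟩

/-- The linear extension of an embedding. -/
abbrev Ph (φ : K →ₐ[ℂ] W.Ω) : K ⊗[ℂ] W.U →ₐ[ℂ] W.Ω :=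
  Algebra.TensorProduct.productMap φ (IsScalarTower.toAlgHom ℂ W.U W.Ω)

lemma ul_ph {φ : K →ₐ[ℂ] W.Ω} {β : ℕ → K →ₐ[ℂ] K} (h : ∀ a, Ul θ l (φ a) fun n => β n a)
    (t : K ⊗[ℂ] R) : Ul θ l (Ph φ (rh R t)) fun n => β n (Th (θ n) t) := by
  induction t using TensorProduct.induction_on with
  | zero => exact Eventually.of_forall fun n => by simpa using sp_zero
  | add s t hs ht => simpa only [map_add] using hs.add ht
  | tmul a u =>
    refine (h a).mono fun n hn => ?_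
    have := hn.mul (sp_val (P := ⟨R, θ n⟩) (⟨u.2, rfl⟩ : Pl.Val ⟨R, θ n⟩ u.1 (θ n u)))
    rw [← (β n).commutes, ← map_mul] at this
    exact this

lemma ph_inj [NeBot l] (H : ∀ r, r ≠ 0 → ∀ᶠ n in l, θ n r ≠ 0) {φ φ' : K →ₐ[ℂ] W.Ω}
    {β β' : ℕ → K →ₐ[ℂ] K} (h : ∀ a, Ul θ l (φ a) fun n => β n a)
    (h' : ∀ a, Ul θ l (φ' a) fun n => β' n a) (hβ : ∀ n a, β' n (β n a) = a) :
    Function.Injective (Ph φ) := by
  have key : ∀ t, ∃ s q, Ph φ' q ≠ 0 ∧ Ph φ t * W.mu q = W.mu s ∧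
      W.mu t * Ph φ' q = Ph φ' s := fun t => by
    induction t using TensorProduct.induction_on with
    | zero => exact ⟨0, 1, by simp, by simp, by simp⟩
    | add t t' ht ht' =>
      obtain ⟨s, q, h1, h2, h3⟩ := ht
      obtain ⟨s', q', h4, h5, h6⟩ := ht'
      refine ⟨s * q' + s' * q, q * q', by rw [map_mul]; exact mul_ne_zero h1 h4, ?_, ?_⟩
      · simp only [map_add, map_mul, ← h2, ← h5]; ring
      · simp only [map_add, map_mul, ← h3, ← h6]; ring
    | tmul a u =>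
      obtain ⟨n₀, h0⟩ := (h a).exists
      obtain ⟨p, q, h1, -, h3⟩ := sp_rep h0
      obtain ⟨n, h4, h5⟩ := ((ul_ph h' q).and (th_ne H h1)).exists
      have h6 : W.ι a * Ph φ' (rh R q) = Ph φ' (rh R p) :=
        (Ul.mul (Eventually.of_forall fun n => sp_ι _ a) (ul_ph h' q)).eq H (ul_ph h' p)
          ((h a).mono fun n hn => by
            have h7 := hn.mul (sp_rh (θ n) q)
            rw [h3] at h7
            rw [(sp_rh (θ n) p).unique h7, map_mul, hβ])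
      refine ⟨rh R p * 1 ⊗ₜ u, rh R q, h4.ne ((map_ne_zero _).2 h5), ?_, ?_⟩
      · rw [map_mul, ← h3, mu_tmul, map_one, one_mul, mul_right_comm]; rfl
      · rw [map_mul, ← h6, mu_tmul, mul_right_comm]; simp
  refine (injective_iff_map_eq_zero _).2 fun t ht => ?_
  obtain ⟨s, q, h1, h2, h3⟩ := key t
  rw [ht, zero_mul] at h2
  rw [W.inj (h2.symm.trans (map_zero _).symm), map_zero] at h3
  exact W.inj (((mul_eq_zero.1 h3).resolve_right h1).trans (map_zero _).symm)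

/-- The generic action. -/
lemma exists_action [NeBot l] (H : ∀ r, r ≠ 0 → ∀ᶠ n in l, θ n r ≠ 0) {ι : Type} {y : ι → K}
    (hy : Coords ℂ y) (i : ι) {G : Type} [Group G] [Finite G] (β : ℕ → G →* (K ≃ₐ[ℂ] K))
    (hg : ∀ g j, ∃ w, Ul θ l w fun n => β n g (y j / y i)) :
    ∃ α : G →* (W.Ω ≃ₐ[W.U] W.Ω), ∀ᶠ n in l, ∀ g a, W.Sp ⟨R, θ n⟩ (α g (W.ι a)) (β n g a) := by
  haveI := hy.fin
  choose φ hφ using fun g => exists_hom H hy i (fun n => (β n g).toAlgHom) (hg g)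
  choose A₀ hA₀ using fun g => exists_ext W.mu.toRingHom W.inj exists_mu (Ph (φ g)).toRingHom
    (ph_inj H (hφ g) (hφ g⁻¹) fun n a => by
      change (β n g⁻¹ * β n g) a = a
      rw [← map_mul, inv_mul_cancel, map_one]; rfl)
  let A : G → W.Ω →ₐ[W.U] W.Ω := fun g =>
    { A₀ g with commutes' := fun u => by simpa using hA₀ g (1 ⊗ₜ u) }
  have hA : ∀ g a, A g (W.ι a) = φ g a := fun g a =>
    show A₀ g (algebraMap K W.Ω a) = φ g a by simpa using hA₀ g (a ⊗ₜ 1)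
  have h1 : ∀ᶠ n in l, ∀ g a, W.Sp ⟨R, θ n⟩ (A g (W.ι a)) (β n g a) :=
    (eventually_all.2 fun g => eventually_all.2 fun j => hφ g (y j / y i)).mono fun n hn g a =>
      sp_of_gen hy i (ψ := (β n g).toAlgHom) (fun j => by rw [hA]; exact hn g j) a
  have ext : ∀ B C : W.Ω →ₐ[W.U] W.Ω, (∀ a, B (W.ι a) = C (W.ι a)) → B = C := fun B C h =>
    AlgHom.coe_ringHom_injective (RingHom.eq_of_eqOn_of_field_closure_eq_top W.gen (by
      rintro _ (⟨a, rfl⟩ | ⟨u, rfl⟩)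
      · exact h a
      · exact (B.commutes u).trans (C.commutes u).symm))
  let M : G →* (W.Ω →ₐ[W.U] W.Ω) :=
    { toFun := A
      map_one' := ext _ _ fun a => Ul.eq H (h1.mono fun n hn => hn 1 a)
        (Eventually.of_forall fun n => sp_ι _ a) (Eventually.of_forall fun n => by simp)
      map_mul' := fun g h => ext _ _ fun a => Ul.eq H (h1.mono fun n hn => hn (g * h) a)
        (h1.mono fun n hn => Sp.map (φ := A g) (ψ := (β n g).toAlgHom) (hn g) (hn h a))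
        (Eventually.of_forall fun n => by simp) }
  exact ⟨(AlgEquiv.algHomUnitsEquiv W.U W.Ω).toMonoidHom.comp M.toHomUnits, h1⟩

lemma val_sum {U : Type} [Field U] [Algebra ℂ U] {P : Pl U} {τ : Type} {s : Finset τ} {f : τ → U}
    {g : τ → ℂ} (h : ∀ i ∈ s, P.Val (f i) (g i)) : P.Val (∑ i ∈ s, f i) (∑ i ∈ s, g i) := by
  classical
  induction s using Finset.induction_on with
  | empty => simpa using P.val_const 0
  | insert i s hi ih =>
    rw [Finset.sum_insert hi, Finset.sum_insert hi]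
    exact (h i (Finset.mem_insert_self _ _)).add (ih fun j hj => h j (Finset.mem_insert_of_mem hj))

/-- A point over the universal domain specialises to complex points. -/
lemma exists_char (hC : St_CHEV) (H : ∀ r, r ≠ 0 → ∀ᶠ n in l, θ n r ≠ 0) {ι : Type} [Finite ι]
    {y : ι → K} {j : ι} {T : Subring W.Ω} (hT : IsLoc T)
    (hj : (chK W.U (W.ι ∘ y) j).toSubring ≤ T) : ∀ᶠ n in l, ∃ χ : chK ℂ y j →ₐ[ℂ] ℂ,
      ∀ (τ : Type) [Fintype τ] (r : τ → R) (a : τ → chK ℂ y j),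
        ¬Un T (∑ k, algebraMap W.U W.Ω (r k) * W.ι (a k)) → ∑ k, θ n (r k) * χ (a k) = 0 := by
  haveI := hT.isLocalRing
  let u : W.U →+* T := (algebraMap W.U W.Ω).codRestrict T (const_mem hj)
  let v : chK ℂ y j →+* T :=
    (W.ι.comp (chK ℂ y j).val.toRingHom).codRestrict T fun a => hj (ι_mem_chK a.2)
  letI : Algebra ℂ (IsLocalRing.ResidueField T) :=
    (((IsLocalRing.residue T).comp u).comp (algebraMap ℂ W.U)).toAlgebra
  let φ : W.U →ₐ[ℂ] IsLocalRing.ResidueField T :=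
    { (IsLocalRing.residue T).comp u with commutes' := fun _ => rfl }
  let ψ : chK ℂ y j →ₐ[ℂ] IsLocalRing.ResidueField T :=
    { (IsLocalRing.residue T).comp v with
      commutes' := fun z => congrArg (IsLocalRing.residue T) (Subtype.ext (ι_const z)) }
  let e := R.equivMapOfInjective φ φ.toRingHom.injective
  obtain ⟨r, hr, h1⟩ := hC _ (R.map φ) (range fun i => ψ ⟨_, div_mem_chK y j i⟩) (finite_range _)
  refine (H (e.symm r) ((map_ne_zero_iff _ e.symm.injective).2 hr)).mono fun n hn => ?_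
  obtain ⟨P, h2, h3⟩ := h1 ((θ n).comp e.symm.toAlgHom) hn
  have h4 : ∀ a, ψ a ∈ P.V := by
    rintro ⟨a, ha⟩
    induction ha using Algebra.adjoin_induction with
    | mem x hx =>
      obtain ⟨i, rfl⟩ := hx
      obtain ⟨c, h5, -⟩ := h3 _ ⟨i, rfl⟩
      exact h5.1
    | algebraMap z => exact (ψ.commutes z).symm ▸ P.V.algebraMap_mem z
    | add x y hx hy h1 h2 => exact (map_add ψ ⟨x, hx⟩ ⟨y, hy⟩).symm ▸ add_mem h1 h2
    | mul x y hx hy h1 h2 => exact (map_mul ψ ⟨x, hx⟩ ⟨y, hy⟩).symm ▸ mul_mem h1 h2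
  refine ⟨P.θ.comp (ψ.codRestrict P.V h4), fun τ _ r a h5 => ?_⟩
  have h6 : P.Val (∑ k, φ (r k) * ψ (a k)) (∑ k, θ n (r k) * P.θ.comp (ψ.codRestrict P.V h4) (a k)) :=
    val_sum fun k _ => Pl.Val.mul (by
      have := h2 (e (r k))
      rwa [AlgHom.comp_apply, AlgEquiv.coe_toAlgHom, e.symm_apply_apply] at this) ⟨h4 _, rfl⟩
  have h7 : ∑ k, φ (r k) * ψ (a k) = 0 := by
    have : ∑ k, φ (r k) * ψ (a k) = IsLocalRing.residue T (∑ k, u (r k) * v (a k)) := by
      simp only [map_sum, map_mul]; rfl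
    rw [this, IsLocalRing.residue_eq_zero_iff, IsLocalRing.mem_maximalIdeal, mem_nonunits_iff,
      isUnit_iff_un, AddSubmonoidClass.coe_finsetSum]
    exact h5
  rw [h7] at h6
  exact h6.unique (by simpa using P.val_const 0)

end action

lemma exists_span {V : Type} [AddCommGroup V] [Module ℂ V] [FiniteDimensional ℂ V]
    (p : Submodule ℂ V) : ∃ v : Fin (Module.finrank ℂ V) → V, (∀ r, v r ∈ p) ∧
      ∀ x ∈ p, ∃ a : Fin (Module.finrank ℂ V) → ℂ, x = ∑ r, a r • v r := by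
  obtain ⟨π, hπ⟩ := LinearMap.exists_leftInverse_of_injective p.subtype p.ker_subtype
  let B := Module.finBasis ℂ V
  refine ⟨fun r => π (B r), fun r => (π _).2, fun x hx => ⟨B.repr x, ?_⟩⟩
  have h1 : π x = ⟨x, hx⟩ := LinearMap.congr_fun hπ ⟨x, hx⟩
  have h2 := congrArg (p.subtype ∘ₗ π) (B.sum_repr x)
  simp only [map_sum, map_smul, LinearMap.comp_apply, h1] at h2
  exact h2.symm

/-- Sections representing a map. -/
def Rp {K ι : Type} [Field K] [Algebra ℂ K] (y : ι → K) (b : ℕ) (φ : K → K) :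
    Submodule ℂ (ι → Gam ℂ y b) where
  carrier := {P | Rep y φ fun l => P l}
  zero_mem' := fun l i => by simp
  add_mem' := fun {P Q} hP hQ l i => by
    simp only [Pi.add_apply, Submodule.coe_add, mul_add, add_mul, hP l i, hQ l i]
  smul_mem' := fun c P hP l i => by
    simp only [Pi.smul_apply, Submodule.coe_smul, mul_smul_comm, smul_mul_assoc, hP l i]

/-- Coordinates of spanning families of sections. -/
lemma exists_coords (hH : St_H0) {K ι G : Type} [Field K] [Algebra ℂ K] {y : ι → K}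
    (hy : Coords ℂ y) (b : ℕ) (β : ℕ → G → K → K) : ∃ (ρ τ : Type) (_ : Fintype ρ) (_ : Fintype τ)
      (e : τ → K) (v : ℕ → G → ρ → ι → K) (cn : ℕ → G × ρ × ι × τ → ℂ), (∀ k, e k ∈ Gam ℂ y b) ∧
      (∀ n g r l, v n g r l = ∑ k, cn n (g, r, l, k) • e k) ∧ (∀ n g r, Rep y (β n g) (v n g r)) ∧
      ∀ n g (P : ι → K), (∀ l, P l ∈ Gam ℂ y b) → Rep y (β n g) P →
        ∃ a : ρ → ℂ, ∀ l, P l = ∑ r, a r • v n g r l := by
  haveI := hy.fin
  obtain ⟨i₀⟩ := hy.nei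
  haveI := hH ℂ K ι y b ⟨i₀, hy.ne i₀⟩
  let e := Module.finBasis ℂ (Gam ℂ y b)
  choose v hv hv' using fun n g => exists_span (Rp y b (β n g))
  refine ⟨_, _, inferInstance, inferInstance, fun k => e k, fun n g r l => v n g r l,
    fun n s => e.repr (v n s.1 s.2.1 s.2.2.1) s.2.2.2, fun k => (e k).2, fun n g r l => ?_, hv,
    fun n g P h1 h2 => ?_⟩
  · exact (congrArg (Gam ℂ y b).subtype (e.sum_repr (v n g r l))).symm.trans (map_sum _ _ _)
  · obtain ⟨a, ha⟩ := hv' n g (fun l => ⟨P l, h1 l⟩) h2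
    exact ⟨a, fun l => by simpa using congrArg Subtype.val (congrFun ha l)⟩

end GEN

open GEN MvPolynomial Uni in
theorem blockGEN (hH : St_H0) (hC : St_CHEV) : St_GEN := by
  intro K ι _ _ y hy W N G _ _ b β hβ 𝒰
  haveI := hy.fin
  obtain ⟨i₀⟩ := hy.nei
  obtain ⟨ρ, τ, _, _, e, v, cn, he, hv₁, hv, hv'⟩ := exists_coords hH hy b fun n g => β n g
  obtain ⟨c, hc, hk⟩ := exists_generic W N cn 𝒰
  obtain ⟨θ, hθ, H⟩ := exists_theta hk
  let c' : _ → (aeval c : MvPolynomial _ ℂ →ₐ[ℂ] W.U).range := fun s => ⟨c s, X s, aeval_X c s⟩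
  have hθ' : ∀ᶠ n in 𝒰, ∀ s, θ n (c' s) = cn n s := hθ.mono fun n hn s => by
    rw [← aeval_X (R := ℂ) (cn n) s, ← hn]
    exact congrArg (θ n) (Subtype.ext (aeval_X c s).symm)
  let S := fun g r l => ∑ k, algebraMap W.U W.Ω (c (g, r, l, k)) * W.ι (e k)
  have hS : ∀ᶠ n in 𝒰, ∀ g r l, W.Sp ⟨_, θ n⟩ (S g r l) (v n g r l) := hθ'.mono fun n hn g r l => by
    rw [hv₁]
    refine Sp.sum fun k _ => ?_
    rw [Algebra.smul_def]
    exact (sp_val ⟨(c' _).2, hn _⟩).mul (sp_ι _ _)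
  have hS' : ∀ g r l, Ul θ 𝒰 (S g r l) fun n => v n g r l := fun g r l =>
    hS.mono fun n hn => hn g r l
  have hP : ∀ n g (T : Subring K), IsLoc T → ∀ j, (chK ℂ y j).toSubring ≤ T →
      ∃ (P : ι → K) (a : ρ → ℂ), (∀ l, P l = ∑ r, a r • v n g r l) ∧ Rep y (β n g) P ∧
        ∃ l, Un T (P l / y j ^ b) := fun n g T hT j hj => by
    obtain ⟨P, h1, h2, h3⟩ := hβ n g T hT j hj
    obtain ⟨a, ha⟩ := hv' n g P h1 h2
    exact ⟨P, a, ha, h2, h3⟩
  have hne : ∀ g, ∃ r, S g r i₀ ≠ 0 := fun g => by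
    by_contra! h0
    obtain ⟨n, hn⟩ := hS.exists
    obtain ⟨P, a, h1, h2, l, h3⟩ := hP n g ⊤ isLoc_top i₀ le_top
    refine mul_ne_zero (div_ne_zero_iff.1 h3.1).1 ((map_ne_zero (β n g)).2 (hy.ne i₀)) ?_
    rw [← h2 l i₀, h1 i₀, Finset.sum_eq_zero fun r _ => by
      rw [(hn g r i₀).unique (h0 r ▸ sp_zero), smul_zero], mul_zero]
  obtain ⟨α, hα⟩ := exists_action H hy i₀ β fun g j => by
    obtain ⟨r, hr⟩ := hne g
    refine ⟨S g r j / S g r i₀, (hS.and ((hS' g r i₀).ne H hr)).mono fun n hn => ?_⟩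
    beta_reduce
    rw [map_div₀, (div_eq_div_iff ((map_ne_zero (β n g)).2 (hy.ne i₀)) hn.2).2 (hv n g r j i₀)]
    exact (hn.1 g r j).div (hn.1 g r i₀) hn.2
  have hα' : ∀ g a, Ul θ 𝒰 (α g (W.ι a)) fun n => β n g a := fun g a => hα.mono fun n hn => hn g a
  refine ⟨_, inferInstance, c, cn, α, hc, hk, fun g T hT j hj => ?_, fun g a => ?_,
    (hα.and hθ).mono fun n hn P hP g a => ?_⟩
  · let a : _ → chK ℂ y j := fun k => ⟨e k / y j ^ (b : ℤ), he k j (hy.ne j)⟩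
    have h1 : ∀ r l, ∑ k, algebraMap W.U W.Ω (c' (g, r, l, k)) * W.ι (a k) =
        S g r l / W.ι (y j) ^ b := fun r l => by
      simp only [S, a, c', Finset.sum_div, map_div₀, zpow_natCast, map_pow, mul_div_assoc]
    by_cases h2 : ∃ r i, Un T (S g r i / W.ι (y j) ^ b)
    · obtain ⟨r, i, h2⟩ := h2
      refine ⟨i, fun l => ?_⟩
      have h3 := h2.div_mem (a := S g r l / W.ι (y j) ^ b) (h1 r l ▸ sum_mem fun k _ =>
        mul_mem (const_mem hj _) (hj (ι_mem_chK (a k).2)))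
      rw [div_div_div_cancel_right₀ (pow_ne_zero _ ((map_ne_zero _).2 (hy.ne j)))] at h3
      have h4 : α g (W.ι (y l)) * S g r i = S g r l * α g (W.ι (y i)) :=
        ((hα' g _).mul (hS' g r i)).eq H ((hS' g r l).mul (hα' g _))
          (Eventually.of_forall fun n => hv n g r l i)
      rwa [map_div₀, Function.comp_apply, Function.comp_apply, (div_eq_div_iff
        ((map_ne_zero _).2 ((map_ne_zero _).2 (hy.ne i))) (div_ne_zero_iff.1 h2.1).1).2 h4]
    · exfalso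
      obtain ⟨n, ⟨χ, h3⟩, h4⟩ := ((exists_char hC H hT hj).and hθ').exists
      let χ' : (chK ℂ y j).toSubring →+* ℂ := χ.toRingHom
      haveI := RingHom.ker_isPrime χ'
      obtain ⟨T₀, h5, h6, h7⟩ := exists_locP (RingHom.ker χ')
      obtain ⟨P, m, h8, -, l, h9⟩ := hP n g T₀ h5 j h6.1
      have h10 : P l / y j ^ b = (∑ r, m r • ∑ k, cn n (g, r, l, k) • a k : chK ℂ y j) := by
        simp [h8, hv₁, a, Finset.sum_div, smul_div_assoc]
      rw [h10] at h9
      refine (h7 ⟨_, Subtype.mem _⟩).1 h9 ?_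
      change χ (∑ r, m r • ∑ k, cn n (g, r, l, k) • a k) = 0
      rw [map_sum]
      refine Finset.sum_eq_zero fun r _ => ?_
      have h11 := h3 _ (fun k => c' (g, r, l, k)) a (by rw [h1]; exact fun h => h2 ⟨r, l, h⟩)
      simp only [h4] at h11
      simp only [map_smul, map_sum, smul_eq_mul, h11, mul_zero]
  · obtain ⟨n, hn⟩ := hα.exists
    obtain ⟨p, q, -, h1, h2⟩ := sp_rep (hn g a)
    have h3 : ∀ t, W.mu (rh (aeval c : MvPolynomial _ ℂ →ₐ[ℂ] W.U).range t) ∈ W.Fld (range c) := by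
      intro t
      induction t using TensorProduct.induction_on with
      | zero => simp
      | add s t hs ht => simpa only [map_add] using add_mem hs ht
      | tmul a u =>
        obtain ⟨_, p, rfl⟩ := u
        refine mul_mem (ι_mem_Fld _ a) ?_
        change algebraMap W.U W.Ω (aeval c p) ∈ _
        induction p using MvPolynomial.induction_on with
        | C z => rw [aeval_C, ← ι_const]; exact ι_mem_Fld _ _
        | add p q hp hq => simpa only [map_add] using add_mem hp hq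
        | mul_X p s hp =>
          rw [map_mul, map_mul, aeval_X]; exact mul_mem hp (alg_mem_Fld ⟨s, rfl⟩)
    rw [eq_div_of_mul_eq h1 h2]
    exact div_mem (h3 p) (h3 q)
  · have key : ∀ w a, W.Sp0 ⟨_, θ n⟩ w a → W.Sp0 P w a := by
      rintro _ _ ⟨t, rfl, rfl⟩
      induction t using TensorProduct.induction_on with
      | zero => simpa using sp0_ι P 0
      | add s t hs ht => simpa only [map_add] using hs.add ht
      | tmul a u =>
        obtain ⟨_, p, rfl⟩ := u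
        have := (sp0_ι P a).mul (sp0_val (Pl.val_aeval hP p))
        rw [← hn.2 p] at this
        exact this
    obtain ⟨q, b, p, c, h1, h2, h3, h4, h5⟩ := hn.1 g a
    exact ⟨q, b, p, c, key _ _ h1, h2, key _ _ h3, h4, h5⟩

end Pool.Agent.Lib.DU
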