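import Pool.Agent.Lib.DU.Blue

open Set Filter TensorProduct Pool.Agent.Lib.MP_e39d36_ag Pool.Agent.Lib.MP_e39d36_ag.Var
  Pool.Agent.Lib.MP_cc3443_ag

set_option linter.unusedSectionVars false
set_option linter.unusedVariables false
set_option linter.style.haveILetI false

noncomputable section

namespace Pool.Agent.Lib.DU

namespace GOOD

variable {K L F F' : Type} [Field K] [Algebra ℂ K] [Field L] [Algebra ℂ L] [Field F] [Algebra ℂ F]
  [Field F'] [Algebra ℂ F'] {X : Var K} {Y : Var L}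

lemma deg_lin [IsFF F] (γ : CMap X F) {φ : K} (hφ : φ ≠ 0) {H : X.PD →₀ ℤ} (hH : Cart H) (d : ℤ) :
    γ.deg (X.div φ + d • H) = d * γ.deg H := by
  obtain ⟨n, rfl | rfl⟩ := d.eq_nat_or_neg
  · rw [natCast_zsmul, CMap.deg_add (cart_div hφ) (hH.nsmul n), CMap.deg_div hφ,
      CMap.deg_nsmul hH, zero_add]
  · rw [neg_smul, natCast_zsmul, CMap.deg_add (cart_div hφ) (hH.nsmul n).neg, CMap.deg_div hφ,
      CMap.deg_neg (hH.nsmul n), CMap.deg_nsmul hH, zero_add, neg_mul]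

lemma deg_pos [IsFF F] (Q : Prj X) (γ : CMap X F) (P : Place F) {a : X.ι}
    (h : ¬(X.A a).toSubring ≤ X.O (γ.ctr P))
    (hc : ∀ E : X.PD, X.O γ.c ≤ X.O E.1 → Q.hyp a E = 0) : 0 < γ.deg (Q.hyp a) := by
  have h1 : ∀ P' : Place F, LocEq (Q.hyp a) (γ.ctr P') (Q.y a / Q.y (ch (γ.ctr P'))) :=
    fun P' => Q.locEq_hyp a (ch_spec _).1
  have h2 : LocEq (Q.hyp a) γ.c 1 := .mk' one_ne_zero fun E hE => by
    rw [hc E hE, ord_un Un.one]
  have h3 : ∀ P' : Place F, γ.τ (Q.y a / Q.y (ch (γ.ctr P')) / 1) ∈ P'.O := fun P' => by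
    rw [div_one]
    exact (CMap.mem_T.1 ((γ.dom_ctr P').1 ((ch_spec _).1 (Q.mem _ a)))).2
  rw [CMap.deg_eq (Q.cart_hyp a) h1 h2]
  refine finsum_pos (fun P' => (place_isV P').od_nonneg (h3 P')) ⟨P, ?_⟩ (CMap.finite_supp h1 h2)
  refine ((place_isV P).od_nonneg (h3 P)).lt_of_ne' fun h4 => h ?_
  have h5 := ((h1 P).mono (γ.ctr_le P)).un h2
  have h6 := CMap.un_T.2 ⟨h5, (place_isV P).un_iff.2 ⟨CMap.τ_ne h5, h4⟩⟩
  rw [div_one] at h6
  exact Q.le_of_un (ch_spec _).1 ((γ.dom_ctr P).2 _ ((ch_spec _).1 (Q.mem _ a)) h6)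

/-- Two curves with the same centre have positively proportional degrees. -/
lemma exists_ratio [IsFF F] [IsFF F'] (γ : CMap X F) (γ' : CMap X F') (hc : IsCurve γ.c)
    (h : γ'.c = γ.c) : ∃ n n' : ℕ, 0 < n ∧ 0 < n' ∧ ∀ D, Cart D → n * γ'.deg D = n' * γ.deg D := by
  haveI := CMap.isFF_of_isCurve (CMap.res_surj γ.c) hc
  obtain ⟨n, h1, h2⟩ := γ.exists_deg_factor (CMap.res γ.c) rfl (CMap.res_surj _)
  obtain ⟨n', h3, h4⟩ := γ'.exists_deg_factor (CMap.res γ.c) h (CMap.res_surj _)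
  exact ⟨n, n', h1, h3, fun D hD => by rw [h2 D hD, h4 D hD]; ring⟩

/-- The Galois families of curves over a curve of the base, with one norm map for all. -/
lemma fam [Algebra L K] [IsScalarTower ℂ L K] [FiniteDimensional L K] (π : IC Y X) :
    (∀ E : X.PD, Y.pd (π.p E.1)) ∧ ∃ Nm : X.CD → (Y.PD →₀ ℤ), ∀ c, IsCurve c →
      ∃ (F : Type) (_ : Field F) (_ : Algebra ℂ F) (_ : IsFF F) (G : Type) (_ : Fintype G)
        (γ : G → CMap X F) (β : CMap Y F), (∀ D : X.CD, ∑ g, (γ g).deg D.1 = β.deg (Nm D)) ∧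
          (∃ g, (γ g).c = c) ∧ (∀ g, π.p (γ g).c = π.p c) ∧ β.c = π.p c := by
  obtain ⟨M, _, _, _, _, _, _, _, _, _⟩ := exists_galois_closure L K
  haveI := FiniteDimensional.right L K M
  haveI := IsGalois.tower_top_of_isGalois L K M
  obtain ⟨Z, ⟨π'⟩⟩ := exists_normalisation (K := M) X
  refine ⟨fun E => ?_, ?_⟩
  · obtain ⟨E', rfl⟩ := π'.pP_surj E
    exact (π.comp π').pd_p E'
  choose Nm h2 h3 using fun D : X.CD => (π.comp π').exists_norm (π'.cart_pull D.2)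
  refine ⟨Nm, fun c hc => ?_⟩
  obtain ⟨x, rfl⟩ := π'.surj c
  haveI := CMap.isFF_of_isCurve (CMap.res_surj x) (π'.isCurve.1 hc)
  refine ⟨_, inferInstance, inferInstance, this, M ≃ₐ[L] M, inferInstance,
    fun σ => ((CMap.res x).push ((π.comp π').actMor σ)).push π'.mor,
    (CMap.res x).push (π.comp π').mor, fun D => ?_,
    ⟨1, congrArg π'.p (π.comp π').act_one⟩, fun σ => (π.comp π').p_act, rfl⟩
  have h1 := π'.cart_pull D.2
  rw [← CMap.deg_push _ (h2 D) fun _ _ => (π.comp π').locEq_pull, h3,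
    CMap.deg_sum fun σ _ => (π.comp π').cart_act h1]
  refine Finset.sum_congr rfl fun σ _ => ?_
  rw [CMap.deg_push ((π.comp π').actMor σ) h1 fun _ _ => (π.comp π').locEq_act,
    CMap.deg_push π'.mor D.2 fun _ _ => π'.locEq_pull]

lemma van_of_p (Q : Prj X) {m : ℕ} (P : Pro Q m) {x x' : X.Pt} {a : P.Y.ι}
    (h : P.π.p x = P.π.p x') (h7 : P.z a ∈ Q.van m x) : P.z a ∈ Q.van m x' := by
  have h5 : P.z a ≠ 0 := fun h0 => P.R.ne a (by
    have := P.hu a
    rw [h0, zero_div] at this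
    exact (map_eq_zero _).1 this)
  refine of_not_not fun h8 => ?_
  obtain ⟨y, h9, h10⟩ := exists_centre (X := P.Y) (i := a) ((X.isLoc x').comap _)
    (P.R.A_eq a ▸ (Q.chA_le_iff P.mem P.d0 P.hu (P.nv x') h5).2 h8)
  rw [P.Y.sep _ _ _ ((X.isLoc x').comap _) h9 (P.π.dom x'), ← h, P.R.A_eq] at h10
  exact (Q.chA_le_iff P.mem P.d0 P.hu (P.nv x) h5).1 (h10.1.trans (P.π.dom x).1) h7

/-- A projection adapted to a curve and a finite set of divisors. -/
lemma exists_pro (h0 : St_PRO) (Q : Prj X) {c : X.Pt} (hc : IsCurve c) {S : Set X.PD}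
    (hS : S.Countable) : ∃ (m : ℕ) (P : Pro Q m), ∀ x, P.π.p x = P.π.p c →
      x = c ∨ ∀ E ∈ S, ¬X.O x ≤ X.O E.1 := by
  obtain ⟨η, hη⟩ := X.exists_top
  have hle : ∀ x, X.O x ≤ X.O η := fun x => hη ▸ le_top
  haveI := essFin_of_frac _ (X.fg (ch η)) (X.frac _)
  obtain ⟨n, hn⟩ := Cardinal.lt_aleph0.1 (trdeg_lt_aleph0 ℂ K)
  have h1 : ∀ x k, Indep x k → k ≤ n := fun x k h => by
    have := Indep.le_trdeg ⟨η, id, fun _ _ _ _ => rfl, fun _ _ _ _ => rfl, fun _ => rfl,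
      fun a _ h => by simpa [hη, un_top] using h⟩ (h.mono (hle x))
    rwa [hn, Nat.cast_le] at this
  have h2 : ∀ x : X.Pt, IsCurve x → Indep x 1 := fun x ⟨⟨y, hy⟩, _⟩ => (indep_zero y).succ hy
  obtain ⟨k, rfl⟩ := Nat.exists_eq_add_of_le' (h1 _ _ (h2 c hc))
  obtain ⟨m, hm, h3⟩ := Q.exists_cut c
  obtain ⟨G, S', h4, h5, h6⟩ := Q.exists_cuts (W := Q.Fm m ⊓ Q.van m c) inf_le_left
    (B := fun x => X.O x ≤ X.O c) (fun _ _ => le_trans)
    (fun s hs h => by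
      obtain ⟨G, h4, h5, h6⟩ := h3 s hs
      exact h6 (h ⟨h4, h5⟩)) k ((hS.image Subtype.val).insert η)
  obtain ⟨G', S'', h7, -, h8⟩ := Q.exists_cuts (m := m) le_rfl (B := fun _ => False)
    (fun _ _ _ => id)
    (fun s _ h => (Q.notMem_van (Q.y_pow_mem (ch s) m) (ch_spec s).1).2
      (by rw [div_self (pow_ne_zero _ (Q.ne _))]; exact Un.one) (h (Q.y_pow_mem _ m))) 2
    ((h5.mono (sep_subset S' fun t => ∀ j, Indep t j → Indep η (j + k))).insert c)
  obtain ⟨P, e, he⟩ := h0 K X Q m hm (Fin k ⊕ Fin 2) (Sum.elim G G')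
    (Sum.rec (fun a => (h4 a).1) h7) (fun x => by
      by_contra! h9
      rcases h6 η (mem_insert _ _) x (hle x) fun a => h9 (.inl a) with h | ⟨t, h10, h11, h12⟩
      · obtain ⟨t, -, -, h13⟩ := (h8 c (mem_insert _ _) x h fun a => h9 (.inr a)).resolve_left id
        haveI := CMap.isFF_of_isCurve (CMap.res_surj c) hc
        exact absurd ((Indep.le_trdeg (CMap.res c) (h13 0 (indep_zero t))).trans trdeg_of_isFF)
          (by norm_num)
      · obtain ⟨t', -, -, h13⟩ := (h8 t (mem_insert_of_mem _ ⟨h10, h12⟩) x h11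
          fun a => h9 (.inr a)).resolve_left id
        have := h1 _ _ (h12 _ (h13 0 (indep_zero t')))
        omega) fun a => by
      classical
      rw [hn, Cardinal.mk_fintype, Fintype.card_subtype_compl, Nat.cast_le]
      simp
  have h10 : ∀ x x' a, P.π.p x = P.π.p x' → G a ∈ Q.van m x → G a ∈ Q.van m x' :=
    fun x x' a h h' => by
      have h9 : P.z (e.symm (.inl a)) = G a := by rw [he, e.apply_symm_apply]; rfl
      rw [← h9] at h' ⊢
      exact van_of_p Q P h h'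
  refine ⟨m, P, fun x h13 => or_iff_not_imp_left.2 fun h14 E hE h15 => ?_⟩
  rcases h6 E.1 (mem_insert_of_mem _ ⟨E, hE, rfl⟩) _ h15
    fun a => h10 c _ a h13.symm (h4 a).2 with h | ⟨t, -, h16, h17⟩
  · exact h14 (P.π.incomp h13 h)
  · have := h1 _ _ ((h17 1 ((h2 _ (P.π.isCurve.1 (h13.symm ▸ P.π.isCurve.2 hc))).mono h16)).succ
      ((hle _).lt_of_ne (hη.symm ▸ (isV E).ne_top)))
    omega

end GOOD

open GOOD in
theorem blockGOOD (h1 : St_PRO) (h2 : St_PIC) (h3 : St_CURVE) : St_GOOD := by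
  intro K _ _ X Q S hS n D c hg F _ _ _ γ
  by_cases hc : IsCurve γ.c
  swap
  · simp [fun i => CMap.deg_eq_zero hc (D i).2]
  obtain ⟨m, P, hP⟩ := exists_pro h1 Q hc hS.countable
  haveI := P.fd
  obtain ⟨hpd, Nm, hN⟩ := fam P.π
  have key : ∀ (F : Type) [Field F] [Algebra ℂ F] [IsFF F] (β : CMap P.Y F),
      ∑ i, c i * β.deg (Nm (D i)) = 0 := by
    by_cases hinf : ∀ a y, (P.Y.A a).toSubring ≤ P.Y.O y
    · intro F _ _ _ β
      obtain ⟨a⟩ := P.Y.nei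
      refine Finset.sum_eq_zero fun i _ => ?_
      obtain ⟨φ, d, h4, h5, -⟩ := h2 _ P.Y P.R P.ind (Nm (D i)) a
      have h6 : P.R.hyp a = 0 := Finsupp.ext fun E => P.R.hyp_eq_zero (hinf a _)
      rw [h5, deg_lin β h4 (P.R.cart_hyp a), h6, CMap.deg_zero]
      simp
    simp only [not_forall] at hinf
    obtain ⟨a, y, hy⟩ := hinf
    choose φ d h4 h5 h6 using fun i => h2 _ P.Y P.R P.ind (Nm (D i)) a
    obtain ⟨F₁, _, _, _, β₁, P₁, h7, h8⟩ := h3 _ P.Y P.R y (fun h => hy (h ▸ le_top))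
      ((fun E : X.PD => (⟨_, hpd E⟩ : P.Y.PD)) '' S ∪ (P.R.hyp a).support)
      ((hS.image _).union (Finset.finite_toSet _))
    have h9 := deg_pos P.R β₁ P₁ (a := a) (fun h => hy (h.trans h7)) fun E hE =>
      of_not_not fun h => h8 E (Or.inr (Finsupp.mem_support_iff.2 h)) hE
    have h10 : IsCurve β₁.c := of_not_not fun h =>
      h9.ne' (CMap.deg_eq_zero h (P.R.cart_hyp a))
    obtain ⟨x, hx⟩ := P.π.surj β₁.c
    obtain ⟨F₂, _, _, _, G, _, γ₂, β₂, h11, -, h12, h13⟩ := hN x (P.π.isCurve.1 (hx ▸ h10))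
    obtain ⟨k, k', hk, hk', h14⟩ := exists_ratio β₁ β₂ h10 (h13.trans hx)
    have h15 : β₂.deg (P.R.hyp a) ≠ 0 := fun h => by
      have := h14 _ (P.R.cart_hyp a)
      rw [h, mul_zero] at this
      exact (mul_pos (Int.natCast_pos.2 hk') h9).ne this
    have h16 : ∑ i, c i * β₂.deg (Nm (D i)) = 0 := by
      simp only [← h11, Int.cast_sum, Finset.mul_sum]
      rw [Finset.sum_comm]
      refine Finset.sum_eq_zero fun g _ => hg _ (γ₂ g) fun E hE h => ?_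
      refine h8 _ (Or.inl ⟨E, hE, rfl⟩) ?_
      rw [← hx, ← h12 g]
      exact P.π.mono h
    have h17 : ∀ (F : Type) [Field F] [Algebra ℂ F] [IsFF F] (β : CMap P.Y F),
        ∑ i, c i * β.deg (Nm (D i)) = (∑ i, c i * d i) * β.deg (P.R.hyp a) := by
      intro F _ _ _ β
      rw [Finset.sum_mul]
      refine Finset.sum_congr rfl fun i _ => ?_
      rw [h5 i, deg_lin β (h4 i) (P.R.cart_hyp a)]
      push_cast
      ring
    rw [h17] at h16
    intro F _ _ _ β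
    rw [h17, (mul_eq_zero.1 h16).resolve_right (Int.cast_ne_zero.2 h15), zero_mul]
  obtain ⟨F₁, _, _, _, G, _, γ₁, β₁, h4, ⟨g₀, h5⟩, h6, -⟩ := hN γ.c hc
  haveI := CMap.isFF_of_isCurve (CMap.res_surj γ.c) hc
  have h7 : ∀ g, ∃ k : ℕ, ((γ₁ g).c = γ.c → 0 < k) ∧
      ∑ i, c i * (γ₁ g).deg (D i).1 = k * ∑ i, c i * (CMap.res γ.c).deg (D i).1 := fun g => by
    rcases hP _ (h6 g) with h | h
    · obtain ⟨k, h7, h8⟩ := (γ₁ g).exists_deg_factor (CMap.res γ.c) h (CMap.res_surj _)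
      refine ⟨k, fun _ => h7, ?_⟩
      rw [Finset.mul_sum]
      refine Finset.sum_congr rfl fun i _ => ?_
      rw [h8 _ (D i).2]
      push_cast
      ring
    · by_cases h' : (γ₁ g).c = γ.c
      · exact ⟨1, fun _ => one_pos, by
          rw [hg _ _ h, hg _ (CMap.res γ.c) (h' ▸ h), mul_zero]⟩
      · exact ⟨0, fun h'' => absurd h'' h', by rw [hg _ _ h, Nat.cast_zero, zero_mul]⟩
  choose k h7 h8 using h7
  have h9 := key _ β₁
  simp only [← h4, Int.cast_sum, Finset.mul_sum] at h9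
  rw [Finset.sum_comm] at h9
  simp only [h8] at h9
  rw [← Finset.sum_mul, ← Nat.cast_sum] at h9
  have h10 := (mul_eq_zero.1 h9).resolve_left (Nat.cast_ne_zero.2
    (Finset.sum_pos' (fun _ _ => Nat.zero_le _) ⟨g₀, Finset.mem_univ _, h7 g₀ h5⟩).ne')
  obtain ⟨k₀, -, h11⟩ := γ.exists_deg_factor (CMap.res γ.c) rfl (CMap.res_surj _)
  rw [← mul_zero (k₀ : ℂ), ← h10, Finset.mul_sum]
  refine Finset.sum_congr rfl fun i _ => ?_
  rw [h11 _ (D i).2]
  push_cast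
  ring

end Pool.Agent.Lib.DU
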