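import Pool.Agent.Lib.DU.Blue

open Set Filter TensorProduct Pool.Agent.Lib.MP_e39d36_ag Pool.Agent.Lib.MP_e39d36_ag.Var
  Pool.Agent.Lib.MP_cc3443_ag

set_option linter.unusedSectionVars false
set_option linter.unusedVariables false
set_option linter.style.haveILetI false

noncomputable section

namespace Pool.Agent.Lib.DU

namespace H0

open Polynomial
open scoped nonZeroDivisors

attribute [local instance] FractionRing.liftAlgebra FractionRing.isScalarTower_liftAlgebra in
/-- Finiteness of the normalisation of a finitely generated domain. -/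
theorem noeth (k R L : Type) [Field k] [CharZero k] [CommRing R] [IsDomain R] [Algebra k R]
    [Algebra.FiniteType k R] [Field L] [Algebra R L] [IsFractionRing R L] (A : Set L)
    (hA : ∀ z ∈ A, IsIntegral R z) :
    ∃ s : Finset L, ↑s ⊆ A ∧ A ⊆ Submodule.span R (s : Set L) := by
  obtain ⟨n, g, hg, hf⟩ := exists_finite_inj_algHom_of_fg k R
  let P := MvPolynomial (Fin n) k
  letI : Algebra P R := g.toRingHom.toAlgebra
  haveI : Module.Finite P R := hf
  letI : Algebra P L := ((algebraMap R L).comp (algebraMap P R)).toAlgebra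
  haveI : IsScalarTower P R L := IsScalarTower.of_algebraMap_eq fun _ => rfl
  haveI : FaithfulSMul P R := (faithfulSMul_iff_algebraMap_injective P R).2 hg
  haveI : FaithfulSMul P L := (faithfulSMul_iff_algebraMap_injective P L).2
    ((IsFractionRing.injective R L).comp hg)
  let K := FractionRing P
  haveI : CharZero P := algebraRat.charZero P
  haveI : IsLocalization (Algebra.algebraMapSubmonoid R P⁰) L := inferInstance
  haveI : FiniteDimensional K L := .of_isLocalization P R P⁰
  haveI : IsNoetherian P (integralClosure P L) := IsIntegralClosure.isNoetherian P K L _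
  have h1 : (Subalgebra.toSubmodule (integralClosure P L)).FG := by
    rw [← Module.Finite.iff_fg]
    exact (inferInstance : Module.Finite P (integralClosure P L))
  have h2 : (Submodule.span P A).FG := by
    refine Submodule.FG.of_le h1 (Submodule.span_le.2 fun z hz => ?_)
    exact isIntegral_trans z (hA z hz)
  obtain ⟨s, h3, h4⟩ := (Submodule.fg_span_iff_fg_span_finset_subset A).1 h2
  refine ⟨s, h3, fun z hz => ?_⟩
  have := h4 ▸ Submodule.subset_span (R := P) hz
  exact Submodule.span_le_restrictScalars P R _ this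

open scoped IntermediateField.algebraAdjoinAdjoin in
theorem noeth2 (k K : Type) [Field k] [CharZero k] [Field K] [Algebra k K] (S : Set K)
    (hS : S.Finite) (A : Set K) (h1 : A ⊆ IntermediateField.adjoin k S)
    (h2 : ∀ z ∈ A, IsIntegral (Algebra.adjoin k S) z) :
    ∃ s : Set K, s.Finite ∧ s ⊆ A ∧ A ⊆ Submodule.span (Algebra.adjoin k S) s := by
  haveI : Algebra.FiniteType k (Algebra.adjoin k S) := .adjoin_of_finite hS
  let L := IntermediateField.adjoin k S
  let f : L →ₐ[Algebra.adjoin k S] K := IsScalarTower.toAlgHom _ L K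
  obtain ⟨s, h3, h4⟩ := noeth k (Algebra.adjoin k S) L (f ⁻¹' A) fun z hz =>
    (isIntegral_algHom_iff f (algebraMap L K).injective).1 (h2 _ hz)
  refine ⟨f '' s, s.finite_toSet.image _, image_subset_iff.2 h3, fun z hz => ?_⟩
  have h5 : (⟨z, h1 hz⟩ : L) ∈ Submodule.span (Algebra.adjoin k S) (s : Set L) := h4 hz
  have h6 := Submodule.mem_map_of_mem (f := f.toLinearMap) h5
  rw [Submodule.map_span] at h6
  exact h6

variable {k F ι K : Type} [Field k] [CharZero k] [Field F] [Algebra k F] [Finite ι] [Field K]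
  [Algebra k K]

theorem main (ψ : F[X] →ₐ[k] K) (hψ : Function.Injective ψ) (y : ι → F) (d : ℕ) (i₀ : ι)
    (h₀ : y i₀ ≠ 0) : FiniteDimensional k (Gam k y d) := by
  let φ : F →ₐ[k] K := ψ.comp (IsScalarTower.toAlgHom k F F[X])
  have hφ : ∀ a, φ a = ψ (C a) := fun a => rfl
  let t : K := ψ X
  have ht : t ≠ 0 := fun h => X_ne_zero (hψ (h.trans (map_zero ψ).symm))
  let S : Set K := range fun j => φ (y j) * t
  let A : Set K := (fun s => φ s * t ^ d) '' (Gam k y d : Set F)
  have key : ∀ (T : Subalgebra k K) (i : ι), y i ≠ 0 → (∀ j, φ (y j / y i) ∈ T) →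
      φ (y i) * t ∈ T → A ⊆ T := by
    rintro T i hi h1 h2 _ ⟨s, hs, rfl⟩
    have h3 : chK k y i ≤ T.comap φ := Algebra.adjoin_le (by rintro _ ⟨j, rfl⟩; exact h1 j)
    have h4 : φ (s / y i ^ (d : ℤ)) ∈ T := h3 (hs i hi)
    have h5 : φ s * t ^ d = φ (s / y i ^ (d : ℤ)) * (φ (y i) * t) ^ d := by
      have : φ (y i) ≠ 0 := (map_ne_zero φ).2 hi
      rw [zpow_natCast, map_div₀, map_pow, mul_pow]
      field_simp
    show φ s * t ^ d ∈ T
    rw [h5]
    exact mul_mem h4 (pow_mem h2 d)
  have hq : ∀ i j, φ (y j / y i) = φ (y j) * t / (φ (y i) * t) := fun i j => by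
    rw [map_div₀, mul_div_mul_right _ _ ht]
  have hS : ∀ j, φ (y j) * t ∈ S := fun j => ⟨j, rfl⟩
  obtain ⟨s, hs1, hs2, hs3⟩ := noeth2 k K S (finite_range _) A
    (key (IntermediateField.adjoin k S).toSubalgebra i₀ h₀
      (fun j => by
        rw [hq]
        exact (IntermediateField.adjoin k S).div_mem (IntermediateField.subset_adjoin k S (hS j))
          (IntermediateField.subset_adjoin k S (hS i₀)))
      (IntermediateField.subset_adjoin k S (hS i₀)))
    (fun z hz => by
      refine isIntegral_of_val (R := (Algebra.adjoin k S).toSubring) fun V hV => ?_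
      haveI : Nonempty ι := ⟨i₀⟩
      obtain ⟨i, hi⟩ := Finite.exists_max fun j => V.valuation (φ (y j) * t)
      have h1 : φ (y i) * t ≠ 0 := fun h => by
        have h2 := hi i₀
        rw [h, map_zero, le_zero_iff, map_eq_zero] at h2
        exact mul_ne_zero ((map_ne_zero φ).2 h₀) ht h2
      have h2 : y i ≠ 0 := fun h => h1 (by rw [h, map_zero, zero_mul])
      let T : Subalgebra k K :=
        { V.toSubring with algebraMap_mem' := fun c => hV ((Algebra.adjoin k S).algebraMap_mem c) }
      refine key T i h2 (fun j => ?_) (hV (Algebra.subset_adjoin (hS i))) hz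
      show _ ∈ V
      rw [hq, ← V.valuation_le_one_iff, map_div₀]
      exact div_le_one_of_le₀ (hi j) zero_le)
  have hR : ∀ r ∈ Algebra.adjoin k S, ∃ (p : F[X]) (c : k),
      ψ p = r ∧ p.eval 0 = algebraMap k F c := by
    intro r hr
    induction hr using Algebra.adjoin_induction with
    | mem x hx =>
      obtain ⟨j, rfl⟩ := hx
      exact ⟨C (y j) * X, 0, by rw [map_mul]; rfl, by simp⟩
    | algebraMap c => exact ⟨algebraMap k _ c, c, ψ.commutes c, by simp⟩
    | add a b _ _ ha hb =>
      obtain ⟨p, c, rfl, h1⟩ := ha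
      obtain ⟨q, e, rfl, h2⟩ := hb
      exact ⟨p + q, c + e, map_add _ _ _, by rw [eval_add, h1, h2, map_add]⟩
    | mul a b _ _ ha hb =>
      obtain ⟨p, c, rfl, h1⟩ := ha
      obtain ⟨q, e, rfl, h2⟩ := hb
      exact ⟨p * q, c * e, map_mul _ _ _, by rw [eval_mul, h1, h2, map_mul]⟩
  let B : Set F := (fun s => φ s * t ^ d) ⁻¹' s
  have hB : B.Finite := hs1.preimage fun a _ b _ h =>
    φ.injective (mul_right_cancel₀ (pow_ne_zero d ht) h)
  have hW : ∀ z ∈ Submodule.span (Algebra.adjoin k S) s, ∃ p : F[X],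
      z = ψ p * t ^ d ∧ p.eval 0 ∈ Submodule.span k B := by
    intro z hz
    induction hz using Submodule.span_induction with
    | mem x hx =>
      obtain ⟨a, -, rfl⟩ := hs2 hx
      exact ⟨C a, rfl, Submodule.subset_span (by rw [eval_C]; exact hx)⟩
    | zero => exact ⟨0, by simp, by simp⟩
    | add a b _ _ ha hb =>
      obtain ⟨p, rfl, h1⟩ := ha
      obtain ⟨q, rfl, h2⟩ := hb
      exact ⟨p + q, by rw [map_add, add_mul], by rw [eval_add]; exact add_mem h1 h2⟩
    | smul r a _ ha =>
      obtain ⟨p, rfl, h1⟩ := ha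
      obtain ⟨q, c, h2, h3⟩ := hR r r.2
      refine ⟨q * p, ?_, ?_⟩
      · rw [map_mul, h2, mul_assoc]; rfl
      · rw [eval_mul, h3, ← Algebra.smul_def]
        exact Submodule.smul_mem _ c h1
  haveI := FiniteDimensional.span_of_finite k hB
  refine Submodule.finiteDimensional_of_le (S₂ := Submodule.span k B) fun a ha => ?_
  obtain ⟨p, h1, h2⟩ := hW _ (hs3 ⟨a, ha, rfl⟩)
  have h3 : C a = p := hψ (mul_right_cancel₀ (pow_ne_zero d ht) h1)
  rwa [← h3, eval_C] at h2

end H0

theorem blockH0 : St_H0 := by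
  rintro k F ι _ _ _ _ _ y d ⟨i₀, h₀⟩
  have H : ∀ n : ℕ, FiniteDimensional k (Gam k y n) := fun n =>
    H0.main (IsScalarTower.toAlgHom k (Polynomial F) (FractionRing (Polynomial F)))
      (IsFractionRing.injective (Polynomial F) _) y n i₀ h₀
  obtain ⟨n, rfl | rfl⟩ := d.eq_nat_or_neg
  · exact H n
  · haveI := H 0
    let f : F →ₗ[k] F := LinearMap.mulRight k (y i₀ ^ n)
    have hf : ∀ s ∈ Gam k y (-(n : ℤ)), f s ∈ Gam k y ((0 : ℕ) : ℤ) := fun s hs i hi => by
      have h1 : f s / y i ^ ((0 : ℕ) : ℤ) = s / y i ^ (-(n : ℤ)) * (y i₀ / y i) ^ n := by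
        simp only [f, LinearMap.mulRight_apply, zpow_neg, zpow_natCast, div_pow, pow_zero]
        field_simp
      rw [h1]
      exact mul_mem (hs i hi) (pow_mem (Algebra.subset_adjoin (mem_range_self i₀)) n)
    refine FiniteDimensional.of_injective (f.restrict hf) fun a b h => Subtype.ext ?_
    exact mul_right_cancel₀ (pow_ne_zero n h₀) (congrArg Subtype.val h)

end Pool.Agent.Lib.DU
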