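import Pool.Agent.Lib.DU.Blue

open Set Filter TensorProduct Pool.Agent.Lib.MP_e39d36_ag Pool.Agent.Lib.MP_e39d36_ag.Var
  Pool.Agent.Lib.MP_cc3443_ag

set_option linter.unusedSectionVars false
set_option linter.unusedVariables false

noncomputable section

namespace Pool.Agent.Lib.DU

namespace H1

variable {L J : Type} [Field L] [Algebra ℂ L] [Fintype J] [DecidableEq J]

/-- Laurent monomials. -/
def mon (u : J → L) (α : J → ℤ) : L := ∏ j, u j ^ α j

variable {u : J → L}

lemma mon_add (hu : ∀ a, u a ≠ 0) (α β : J → ℤ) : mon u (α + β) = mon u α * mon u β := by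
  unfold mon
  rw [← Finset.prod_mul_distrib]
  exact Finset.prod_congr rfl fun j _ => zpow_add₀ (hu j) _ _

lemma mon_zero : mon u 0 = 1 := by simp [mon]

lemma mon_single (a : J) (n : ℤ) : mon u (Pi.single a n) = u a ^ n := by
  unfold mon
  rw [Finset.prod_eq_single a]
  · simp
  · intro b _ hb; simp [hb]
  · simp

lemma prod_zpow_const {x : L} (hx : x ≠ 0) (α : J → ℤ) (s : Finset J) :
    ∏ j ∈ s, x ^ α j = x ^ ∑ j ∈ s, α j := by
  induction s using Finset.induction_on with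
  | empty => simp
  | insert a s ha ih => rw [Finset.prod_insert ha, Finset.sum_insert ha, ih, zpow_add₀ hx]

lemma mon_div (hu : ∀ a, u a ≠ 0) (a : J) (α : J → ℤ) :
    mon u α / u a ^ (∑ j, α j) = ∏ j : {b // b ≠ a}, (u j / u a) ^ α j := by
  have h1 : mon u α / u a ^ (∑ j, α j) = ∏ j, (u j / u a) ^ α j := by
    unfold mon
    rw [← prod_zpow_const (hu a), ← Finset.prod_div_distrib]
    exact Finset.prod_congr rfl fun j _ => (div_zpow _ _ _).symm
  rw [h1, ← Finset.mul_prod_erase _ _ (Finset.mem_univ a), div_self (hu a), one_zpow, one_mul]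
  exact Finset.prod_subtype _ (by simp) fun j => (u j / u a) ^ α j

lemma mon_mem (hu : ∀ a, u a ≠ 0) (a : J) (e : ℕ) (α : J → ℤ) (h : ∑ j, α j = e)
    (h0 : ∀ c, c ≠ a → 0 ≤ α c) : mon u α / u a ^ e ∈ chA u a := by
  rw [← zpow_natCast, ← h, mon_div hu a]
  refine Subalgebra.prod_mem _ fun j _ => ?_
  obtain ⟨n, hn⟩ := Int.eq_ofNat_of_zero_le (h0 j j.2)
  rw [hn, zpow_natCast]
  exact Subalgebra.pow_mem _ (div_mem_chA u a j) n

lemma chA_span (hu : ∀ a, u a ≠ 0) (a : J) {x : L} (hx : x ∈ chA u a) :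
    x ∈ Submodule.span ℂ (mon u '' {α | ∑ j, α j = 0 ∧ ∀ c, c ≠ a → 0 ≤ α c}) := by
  have h1 : x ∈ Subalgebra.toSubmodule (chA u a) := hx
  rw [chA, Algebra.adjoin_eq_span] at h1
  refine Submodule.span_mono ?_ h1
  intro y hy
  induction hy using Submonoid.closure_induction with
  | mem y hy =>
    obtain ⟨j, rfl⟩ := hy
    refine ⟨Pi.single j 1 + Pi.single a (-1), ⟨?_, fun c hc => ?_⟩, ?_⟩
    · simp [Finset.sum_add_distrib]
    · rw [Pi.add_apply, Pi.single_eq_of_ne hc, Pi.single_apply]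
      split_ifs <;> simp
    · rw [mon_add hu, mon_single, mon_single, zpow_one, zpow_neg_one]
      exact (div_eq_mul_inv _ _).symm
  | one => exact ⟨0, ⟨by simp, fun c _ => le_rfl⟩, mon_zero⟩
  | mul y z _ _ hy hz =>
    obtain ⟨α, ⟨h1, h2⟩, rfl⟩ := hy
    obtain ⟨β, ⟨h3, h4⟩, rfl⟩ := hz
    refine ⟨α + β, ⟨?_, fun c hc => add_nonneg (h2 c hc) (h4 c hc)⟩, mon_add hu _ _⟩
    simp [Finset.sum_add_distrib, h1, h3]

lemma mem_span (hu : ∀ a, u a ≠ 0) (a b : J) (e n : ℕ) {w : L}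
    (hw : (u b / u a) ^ n * w / u a ^ e ∈ chA u a) :
    w ∈ Submodule.span ℂ (mon u '' {α | ∑ j, α j = e ∧ ∀ c, c ≠ a → c ≠ b → 0 ≤ α c}) := by
  set γ : J → ℤ := Pi.single a ((e : ℤ) + n) + Pi.single b (-(n : ℤ)) with hγ
  have h1 : w = (u b / u a) ^ n * w / u a ^ e * mon u γ := by
    rw [hγ, mon_add hu, mon_single, mon_single, zpow_add₀ (hu a), zpow_neg, zpow_natCast,
      zpow_natCast, zpow_natCast, div_pow]
    have := hu a; have := hu b
    field_simp
  rw [h1]
  have h2 := chA_span hu a hw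
  generalize (u b / u a) ^ n * w / u a ^ e = x at h2
  induction h2 using Submodule.span_induction with
  | mem y hy =>
    obtain ⟨α, ⟨h3, h4⟩, rfl⟩ := hy
    refine Submodule.subset_span ⟨α + γ, ⟨?_, fun c hc hb => ?_⟩, mon_add hu _ _⟩
    · simp [hγ, Finset.sum_add_distrib, h3]
    · simpa [hγ, hc, hb] using h4 c hc
  | zero => simp
  | add y z _ _ hy hz => rw [add_mul]; exact add_mem hy hz
  | smul c y _ hy => rw [smul_mul_assoc]; exact Submodule.smul_mem _ c hy

lemma indep (hu : ∀ a, u a ≠ 0) (a : J)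
    (hi : AlgebraicIndependent ℂ fun b : {b // b ≠ a} => u b / u a) (e : ℤ) :
    LinearIndepOn ℂ (mon u) {α | ∑ j, α j = e} := by
  classical
  rw [linearIndepOn_iff_linearIndepOn_finset]
  intro s hs
  obtain ⟨N, hN⟩ : ∃ N : ℕ, ∀ α ∈ s, ∀ j, 0 ≤ α j + N := by
    obtain ⟨N, hN⟩ := (s ×ˢ (Finset.univ : Finset J)).finite_toSet.image
      (fun p => (-p.1 p.2).toNat) |>.bddAbove
    refine ⟨N, fun α hα j => ?_⟩
    have : (-α j).toNat ≤ N := hN ⟨(α, j), by simp [hα], rfl⟩
    omega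
  let f : s → ({b // b ≠ a} →₀ ℕ) := fun α =>
    Finsupp.equivFunOnFinite.symm fun j => (α.1 j + N).toNat
  have hf : Function.Injective f := by
    intro α β h
    have h1 : ∀ j, j ≠ a → α.1 j = β.1 j := fun j hj => by
      have h2 : (α.1 j + N).toNat = (β.1 j + N).toNat := congrArg (fun g => g ⟨j, hj⟩) h
      have := hN _ α.2 j; have := hN _ β.2 j
      omega
    have h2 : ∑ j, α.1 j = ∑ j, β.1 j := (hs α.2).trans (hs β.2).symm
    rw [← Finset.add_sum_erase _ _ (Finset.mem_univ a),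
      ← Finset.add_sum_erase _ _ (Finset.mem_univ a),
      Finset.sum_congr rfl fun j hj => h1 j (Finset.ne_of_mem_erase hj), add_left_inj] at h2
    refine Subtype.ext (funext fun j => ?_)
    by_cases hj : j = a
    · rw [hj, h2]
    · exact h1 j hj
  have h1 := ((MvPolynomial.basisMonomials {b // b ≠ a} ℂ).linearIndependent.comp f hf).map'
    (MvPolynomial.aeval fun b : {b // b ≠ a} => u b / u a).toLinearMap
    (LinearMap.ker_eq_bot.2 hi)
  set C : L := (∏ j : {b // b ≠ a}, (u j / u a) ^ N) / u a ^ e with hC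
  refine LinearIndependent.of_comp (LinearMap.mulLeft ℂ C) ?_
  have h0 : ∀ {g g' : s → L}, LinearIndependent ℂ g → g' = g → LinearIndependent ℂ g' :=
    fun h h' => h' ▸ h
  refine h0 h1 (funext fun α => ?_)
  have h2 : mon u α.1 / u a ^ e = ∏ j : {b // b ≠ a}, (u j / u a) ^ α.1 j := by
    rw [← mon_div hu a, hs α.2]
  have h3 : C * mon u α.1 = ∏ j : {b // b ≠ a}, (u j / u a) ^ (α.1 j + N).toNat := by
    rw [hC, div_mul_comm, h2, ← Finset.prod_mul_distrib]
    refine Finset.prod_congr rfl fun j _ => ?_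
    rw [← zpow_natCast _ (α.1 j + N).toNat, Int.toNat_of_nonneg (hN _ α.2 j),
      zpow_add₀ (div_ne_zero (hu _) (hu _)), zpow_natCast]
  simp only [Function.comp_apply, LinearMap.mulLeft_apply, MvPolynomial.coe_basisMonomials,
    AlgHom.toLinearMap_apply, MvPolynomial.aeval_monomial, map_one, one_mul]
  rw [Finsupp.prod_fintype _ _ (fun j => pow_zero _)]
  exact h3

end H1

open H1 in
theorem blockH1 : St_H1 := by
  intro L J _ _ _ u hu hi e η hη
  classical
  have := Fintype.ofFinite J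
  rcases isEmpty_or_nonempty J with hJ | ⟨⟨a0⟩⟩
  · exact ⟨0, fun a => hJ.elim a⟩
  have h1 : ∀ a b, ∃ g ∈ Finsupp.supported ℂ ℂ
      {α : J → ℤ | ∑ j, α j = e ∧ ∀ c, c ≠ a → c ≠ b → 0 ≤ α c},
      Finsupp.linearCombination ℂ (mon u) g = η a - η b := fun a b => by
    obtain ⟨n, hn⟩ := hη a b
    exact (Finsupp.mem_span_image_iff_linearCombination ℂ).1 (mem_span hu a b e n hn)
  choose g hg hΨ using h1
  have hg' : ∀ a b, g a b ∈ Finsupp.supported ℂ ℂ {α : J → ℤ | ∑ j, α j = e} := fun a b =>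
    Finsupp.supported_mono (fun α h => h.1) (hg a b)
  have hco : ∀ a b c, g a c = g a b + g b c := fun a b c => by
    have := linearIndepOn_iff.1 (indep hu a0 (hi a0) e) (g a c - (g a b + g b c))
      (sub_mem (hg' a c) (add_mem (hg' a b) (hg' b c)))
      (by rw [map_sub, map_add, hΨ, hΨ, hΨ]; ring)
    exact sub_eq_zero.1 this
  have h2 : ∀ α : J → ℤ, ∃ i, ∑ j, α j = e → 0 ≤ α i := fun α => by
    by_contra h
    push Not at h
    have h3 : ∑ j, α j < ∑ _j : J, (0 : ℤ) :=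
      Finset.sum_lt_sum_of_nonempty ⟨a0, Finset.mem_univ _⟩ fun j _ => (h j).2
    rw [(h a0).1, Finset.sum_const_zero] at h3
    omega
  choose i hi' using h2
  let μ : J → ((J → ℤ) →₀ ℂ) := fun a => ∑ c, (g a c).filter fun α => i α = c
  have hμ : ∀ a α, μ a α = g a (i α) α := fun a α => by
    simp only [μ, Finsupp.finsetSum_apply, Finsupp.filter_apply]
    rw [Finset.sum_eq_single (i α)] <;> simp +contextual [eq_comm]
  refine ⟨η a0 - Finsupp.linearCombination ℂ (mon u) (μ a0), fun a => ?_⟩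
  have h3 : μ a = g a a0 + μ a0 := by
    ext α
    rw [Finsupp.add_apply, hμ, hμ, hco a a0 (i α), Finsupp.add_apply]
  have h4 : η a - (η a0 - Finsupp.linearCombination ℂ (mon u) (μ a0)) =
      Finsupp.linearCombination ℂ (mon u) (μ a) := by
    rw [h3, map_add, hΨ]; ring
  rw [h4, Finsupp.linearCombination_apply, Finsupp.sum, Finset.sum_div]
  refine Subalgebra.sum_mem _ fun α hα => ?_
  rw [smul_div_assoc]
  refine Subalgebra.smul_mem _ ?_ _
  have h5 : α ∈ (g a (i α)).support := by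
    rw [Finsupp.mem_support_iff, ← hμ]; exact Finsupp.mem_support_iff.1 hα
  have h6 := hg a (i α) h5
  refine mon_mem hu a e α h6.1 fun c hc => ?_
  by_cases hc' : c = i α
  · rw [hc']; exact hi' α h6.1
  · exact h6.2 c hc hc'

end Pool.Agent.Lib.DU
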