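import Pool.Agent.Lib.DU.Blue

open Set Filter Pool.Agent.Lib.MP_e39d36_ag Pool.Agent.Lib.MP_e39d36_ag.Var
  Pool.Agent.Lib.MP_cc3443_ag

set_option linter.unusedSectionVars false
set_option linter.style.haveILetI false
set_option linter.unusedVariables false

noncomputable section

namespace Pool.Agent.Lib.DU.PROb

theorem pro : St_PRO := by
  intro K _ _ X Q m hm J _ z hz hv hJ
  obtain ⟨η, hη⟩ := X.exists_top
  obtain ⟨o, ho⟩ := hv η
  have hd : z o ≠ 0 := fun h => ho (h ▸ zero_mem _)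
  let L := IntermediateField.adjoin ℂ (range fun a => z a / z o)
  let u : J → L := fun a => ⟨_, IntermediateField.subset_adjoin _ _ ⟨a, rfl⟩⟩
  have hu : ∀ a, algebraMap L K (u a) = z a / z o := fun _ => rfl
  have ho1 : u o = 1 := Subtype.ext (div_self hd)
  haveI : Algebra.IsAlgebraic L K := ⟨fun w => by
    obtain ⟨b, h1, h2, h3⟩ := (Q.locOf_icl hm hz hv hd hu ho).2 w (hη ▸ trivial)
    rw [← mul_div_cancel_left₀ w h2.1, div_eq_mul_inv]
    exact (mem_icl.1 h3).tower_top.isAlgebraic.mul (mem_icl.1 h1).tower_top.isAlgebraic.inv⟩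
  haveI := essFin_of_frac _ (X.fg (ch η)) (X.frac _)
  haveI := Algebra.EssFiniteType.of_comp ℂ L K
  have h1 : IntermediateField.adjoin ℂ (range u) = ⊤ := L.lift_injective (by
    rw [IntermediateField.lift_adjoin, IntermediateField.lift_top, ← range_comp]; rfl)
  have h2 : ∀ a, u a ≠ 0 → IntermediateField.adjoin ℂ
      (range fun b : {b // b ≠ a} => u b / u a) = ⊤ := fun a ha => by
    have h2 : ∀ b, u b / u a ∈ IntermediateField.adjoin ℂ
        (range fun b : {b // b ≠ a} => u b / u a) := fun b => by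
      by_cases hb : b = a
      · simp [hb, ha]
      · exact IntermediateField.subset_adjoin _ _ ⟨⟨b, hb⟩, rfl⟩
    rw [eq_top_iff, ← h1, IntermediateField.adjoin_le_iff]
    rintro _ ⟨b, rfl⟩
    have := _root_.div_mem (h2 b) (h2 o)
    rwa [div_div_div_cancel_right₀ ha, ho1, div_one] at this
  have h3 : ∀ a, u a ≠ 0 → AlgebraicIndependent ℂ fun b : {b // b ≠ a} => u b / u a := by
    intro a ha
    haveI : Algebra.IsAlgebraic (Algebra.adjoin ℂ (range fun b : {b // b ≠ a} => u b / u a)) L :=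
      IntermediateField.isAlgebraic_adjoin_iff_top.1 (by rw [h2 a ha]; infer_instance)
    refine (Algebra.IsAlgebraic.isTranscendenceBasis_of_le_trdeg_of_finite ℂ _ ?_).1
    have := hJ a
    rwa [← trdeg_add_eq ℂ L, trdeg_eq_zero (A := K), add_zero] at this
  have h4 : ∀ a, u a ≠ 0 := fun a => by
    by_cases ha : a = o
    · simp [ha, ho1]
    · exact (div_ne_zero_iff.1 ((h3 o (by simp [ho1])).ne_zero ⟨a, ha⟩)).1
  have h5 : ∀ a, z a ≠ 0 := fun a h => h4 a (Subtype.ext (by simp [u, h]))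
  haveI : Nonempty J := ⟨o⟩
  let Y : Var L := pn u h4 (fun a => h3 a (h4 a)) fun a w => by
    have h6 : Algebra.adjoin ℂ (range fun b : {b // b ≠ a} => u b / u a) ≤ chA u a :=
      Algebra.adjoin_mono (by rintro _ ⟨b, rfl⟩; exact ⟨b, rfl⟩)
    obtain ⟨r, h7, s, h8, rfl⟩ := IntermediateField.mem_adjoin_iff_div.1
      (h2 a (h4 a) ▸ IntermediateField.mem_top (x := w))
    by_cases hs : s = 0
    · exact ⟨1, one_mem _, one_ne_zero, by simp [hs]⟩
    · exact ⟨s, h6 h8, hs, by rw [mul_div_cancel₀ _ hs]; exact h6 h7⟩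
  have h6 : ∀ x, ∃ y, Dom (Y.O y) ((X.O x).comap (algebraMap L K)) ∧
      LocOf (icl K (Y.O y)) (X.O x) := fun x => by
    obtain ⟨a, ha⟩ := hv x
    obtain ⟨y, h6, h7⟩ := exists_centre (X := Y) (i := a) ((X.isLoc x).comap _)
      ((Q.chA_le_iff hz hd hu (hv x) (h5 a)).2 ha)
    exact ⟨y, h6, (Q.locOf_icl hm hz hv hd hu ha).of_le (icl_mono h7.1) (icl_le (X.nml x) h6.1)⟩
  choose p hp hp' using h6
  exact ⟨⟨L, Algebra.finite_of_essFiniteType_of_isAlgebraic, Y, ⟨u, h4, fun _ => rfl⟩,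
    fun a => h3 a (h4 a), IC.mk' p hp hp', z, hz, hv, z o, hd, hu⟩, Equiv.refl J, fun _ => rfl⟩

theorem pro1 : St_PRO1 := by
  intro K _ _ X Q
  obtain ⟨η, hη⟩ := X.exists_top
  have hle : ∀ x, X.O x ≤ X.O η := fun x => hη ▸ le_top
  haveI := essFin_of_frac _ (X.fg (ch η)) (X.frac _)
  obtain ⟨n, hn⟩ := Cardinal.lt_aleph0.1 (trdeg_lt_aleph0 ℂ K)
  have h1 : ∀ x k, Indep x k → k ≤ n := fun x k h => by
    have := Indep.le_trdeg ⟨η, id, fun _ _ _ _ => rfl, fun _ _ _ _ => rfl, fun _ => rfl,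
      fun a _ h => by simpa [hη, un_top] using h⟩ (h.mono (hle x))
    rwa [hn, Nat.cast_le] at this
  obtain ⟨G, S, h7, -, h8⟩ := Q.exists_cuts (m := 1) le_rfl (B := fun _ => False) (fun _ _ _ => id)
    (fun s _ h => (Q.notMem_van (Q.y_pow_mem (ch s) 1) (ch_spec s).1).2
      (by rw [div_self (pow_ne_zero _ (Q.ne _))]; exact Un.one) (h (Q.y_pow_mem _ 1))) (n + 1)
    (countable_singleton η)
  obtain ⟨P, -⟩ := pro K X Q 1 one_pos (Fin (n + 1)) G h7 (fun x => by
      by_contra! h9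
      obtain ⟨t, -, -, h13⟩ := (h8 η rfl x (hle x) h9).resolve_left id
      have := h1 _ _ (h13 0 (indep_zero t))
      omega) fun a => by
      classical
      rw [hn, Cardinal.mk_fintype, Fintype.card_subtype_compl, Nat.cast_le]
      simp
  exact ⟨P⟩

theorem hyp_one {K : Type} [Field K] [Algebra ℂ K] {X : Var K} (Q : Prj X)
    (h : ∀ a, AlgebraicIndependent ℂ fun b : {b // b ≠ a} => Q.y b / Q.y a) {i : X.ι} {E : X.PD}
    (hE : ¬(X.A i).toSubring ≤ X.O E.1) : Q.hyp i E = 1 := by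
  have hc := (ch_spec E.1).1
  have hi : i ≠ ch E.1 := fun h => hE (h ▸ hc)
  have hf := (Q.prime_y h hi).1
  have h6 : ¬Un (X.O E.1) (Q.y i / Q.y (ch E.1)) := fun hu => hE (Q.le_of_un hc hu)
  obtain ⟨t, h0, ht⟩ := exists_unif (isV E).1
  rw [← ord_val] at ht
  obtain ⟨b, h1, h2, h3⟩ := (locOf_of_le hc).2 t
    (((isV E).mem_iff h0).2 (by rw [← ord_val]; omega))
  have h4 : X.ord (b * t) E.1 = 1 := by rw [ord_mul h2.1 h0, ord_un h2, ht, zero_add]
  have h5 : ¬Un (X.O E.1) (b * t) := fun h => by rw [ord_un h] at h4; omega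
  obtain ⟨g, hg⟩ := (not_un_iff_dvd hc hf h6 ⟨_, h3⟩).1 h5
  have h7 : b * t = Q.y i / Q.y (ch E.1) * g := congrArg Subtype.val hg
  have h8 := ord_pos (Q.div_ne _ _) (hc (Q.mem _ i)) h6
  have h9 := ord_nonneg (hc g.2)
  rw [h7, ord_mul (Q.div_ne _ _) (right_ne_zero_of_mul (h7 ▸ mul_ne_zero h2.1 h0))] at h4
  rw [Q.hyp_apply]
  omega

theorem pic : St_PIC := by
  intro K _ _ X Q h N i
  haveI : UniqueFactorizationMonoid (X.A i).toSubring := Q.A_eq i ▸ ufm_chA (Q.ne i) (h i)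
  obtain ⟨φ, h1, h2⟩ := exists_principal (i := i) N
  by_cases h3 : ∀ E : X.PD, (X.A i).toSubring ≤ X.O E.1
  · exact ⟨φ, 0, h1, by
      rw [zero_smul, add_zero]; exact Finsupp.ext fun E => (h2 E (h3 E)).symm, fun _ => le_rfl⟩
  obtain ⟨E, hE⟩ := not_forall.1 h3
  refine ⟨φ, N E - X.ord φ E.1, h1, ?_, fun h0 => ?_⟩
  · ext E'
    simp only [Finsupp.add_apply, Finsupp.smul_apply, smul_eq_mul, div_apply]
    by_cases h6 : (X.A i).toSubring ≤ X.O E'.1
    · rw [h2 E' h6, Q.hyp_eq_zero h6]; simp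
    · rw [Q.eq_at_infinity h h6 hE, hyp_one Q h hE]; ring
  · by_contra h4
    obtain ⟨a, rfl⟩ := eq_const (X := X) (z := φ) fun x => hartogs fun E' _ => by
      have := h0 E'
      by_cases h5 : (X.A i).toSubring ≤ X.O E'.1
      · rwa [h2 E' h5]
      · rw [Q.eq_at_infinity h h5 hE] at this ⊢
        simp only [Finsupp.coe_zero, Pi.zero_apply] at this
        omega
    rw [ord_un (X.un_const _ fun h => h1 (by simp [h])), sub_zero] at h4
    exact h4 (h0 E)

end Pool.Agent.Lib.DU.PROb
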