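import Pool.Agent.Lib.DU.Blue

open Set Filter TensorProduct Pool.Agent.Lib.MP_e39d36_ag Pool.Agent.Lib.MP_e39d36_ag.Var
  Pool.Agent.Lib.MP_cc3443_ag

set_option linter.unusedSectionVars false
set_option linter.unusedVariables false

noncomputable section

namespace Pool.Agent.Lib.DU

namespace REGB

variable {K : Type} [Field K] [Algebra ℂ K] {X : Var K} (Q : Prj X)

theorem exists_ctr (φ : K ≃+* K) (hc : ∀ a : ℂ, φ (algebraMap ℂ K a) = algebraMap ℂ K a)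
    (h : Reg ℂ Q.y φ) (x : X.Pt) : ∃ x', Dom (X.O x') ((X.O x).comap φ.toRingHom) := by
  obtain ⟨i, hi⟩ := h (X.O x) (X.isLoc x) (ch x) (by
    have := (ch_spec x).1
    rwa [Q.A_eq] at this)
  have h1 : (X.A i).toSubring ≤ (X.O x).comap φ.toRingHom := by
    rw [Q.A_eq]
    exact chA_le (fun a => by
      change φ _ ∈ X.O x
      rw [hc]
      exact X.const_mem x a) hi
  exact (exists_centre ((X.isLoc x).comap _) h1).imp fun _ h => h.1

theorem exists_pt (φ : K ≃+* K) (hc : ∀ a : ℂ, φ (algebraMap ℂ K a) = algebraMap ℂ K a)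
    (h : Reg ℂ Q.y φ) (h' : Reg ℂ Q.y φ.symm) (x : X.Pt) :
    ∃ x', ∀ z, z ∈ X.O x' ↔ φ z ∈ X.O x := by
  obtain ⟨x', h1⟩ := exists_ctr Q φ hc h x
  obtain ⟨x'', h2⟩ := exists_ctr Q φ.symm (fun a => φ.symm_apply_eq.2 (hc a).symm) h' x'
  have h3 : ((X.O x).comap φ.toRingHom).comap φ.symm.toRingHom = X.O x := by
    ext z
    simp
  have h4 := h2.trans (h1.comap φ.symm.toRingHom)
  rw [h3] at h4
  obtain rfl := X.sep _ _ _ (X.isLoc x) h4 Dom.refl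
  refine ⟨x', fun z => ⟨fun hz => h1.1 hz, fun hz => ?_⟩⟩
  simpa using h2.1 hz

theorem isV_pt (φ : K ≃+* K) {E : X.PD} {x : X.Pt} (h : ∀ z, z ∈ X.O x ↔ φ z ∈ X.O E.1) :
    IsV ((val E).comap φ.toRingHom) (X.O x) :=
  ⟨(isV E).1.comp φ.surjective, fun z => by rw [h, (isV E).2]; rfl⟩

theorem mem_e {φ : K ≃+* K} {E E' : X.PD} (h : ∀ f, X.ord (φ f) E'.1 = X.ord f E.1) (z : K) :
    z ∈ X.O E.1 ↔ φ z ∈ X.O E'.1 := by
  by_cases h0 : z = 0
  · simp [h0]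
  rw [(isV E).mem_iff h0, (isV E').mem_iff ((map_ne_zero φ).2 h0), ← ord_val, ← ord_val, h]

end REGB

open REGB in
theorem blockREGB : St_REGB := by
  intro K _ _ X Q Γ φ h h'
  choose p hp using exists_pt Q φ.toRingEquiv φ.commutes h h'
  choose q hq using exists_pt Q φ.symm.toRingEquiv φ.symm.commutes h' h
  let e : X.PD ≃ X.PD :=
    { toFun := fun E => ⟨q E.1, (X.pd_iff _).2 ⟨_, isV_pt _ (hq E.1)⟩⟩
      invFun := fun E => ⟨p E.1, (X.pd_iff _).2 ⟨_, isV_pt _ (hp E.1)⟩⟩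
      left_inv := fun E => Subtype.ext (X.O_inj (Subring.ext fun z => by simp [hp, hq]))
      right_inv := fun E => Subtype.ext (X.O_inj (Subring.ext fun z => by simp [hp, hq])) }
  have he : ∀ f E, X.ord (φ f) (e E).1 = X.ord f E.1 := fun f E => by
    rw [ord_val f]
    refine (X.ord_eq _ _ (isV_pt _ (hq E.1)) _).trans ?_
    simp [od]
  have l1 : ∀ (D : X.PD →₀ ℤ) x g, LocEq D (p x) g →
      LocEq (Finsupp.equivMapDomain e D) x (φ g) := fun D x g hg =>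
    .mk' ((map_ne_zero φ).2 hg.1) fun E hE => by
      rw [Finsupp.equivMapDomain_apply, hg.eq (E := e.symm E)
        fun z hz => (hp _ _).2 (hE ((hp _ _).1 hz)), ← he, e.apply_symm_apply]
  have l2 : ∀ (D : X.PD →₀ ℤ) x g, LocEq D (q x) g →
      LocEq (Finsupp.equivMapDomain e.symm D) x (φ.symm g) := fun D x g hg =>
    .mk' ((map_ne_zero φ.symm).2 hg.1) fun E hE => by
      rw [Finsupp.equivMapDomain_apply, e.symm_symm, hg.eq (E := e E)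
        fun z hz => (hq _ _).2 (hE ((hq _ _).1 hz)), ← he (φ.symm g), φ.apply_symm_apply]
  let ε : X.CD ≃ X.CD :=
    { toFun := fun D => ⟨Finsupp.equivMapDomain e D.1, fun x => ⟨_, l1 _ x _ (D.2.lf _)⟩⟩
      invFun := fun D => ⟨Finsupp.equivMapDomain e.symm D.1, fun x => ⟨_, l2 _ x _ (D.2.lf _)⟩⟩
      left_inv := fun D => Subtype.ext (Finsupp.ext fun E => by simp)
      right_inv := fun D => Subtype.ext (Finsupp.ext fun E => by simp) }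
  obtain ⟨f, hf⟩ := Γ.exists_lin_mor Γ ⟨φ.toAlgHom, p, fun x => by
    rw [show (X.O x).comap φ.toAlgHom.toRingHom = X.O (p x) from
      Subring.ext fun z => (hp x z).symm]
    exact Dom.refl⟩ ε fun D => l1 D.1
  obtain ⟨g, hg⟩ := Γ.exists_lin_mor Γ ⟨φ.symm.toAlgHom, q, fun x => by
    rw [show (X.O x).comap φ.symm.toAlgHom.toRingHom = X.O (q x) from
      Subring.ext fun z => (hq x z).symm]
    exact Dom.refl⟩ ε.symm fun D => l2 D.1
  obtain ⟨T, hT⟩ := Γ.exists_equiv ε hf hg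
  exact ⟨T, φ.commutes, e, ε, he, fun D E => by simp [ε], hT⟩

open REGB in
theorem blockBDD (hB : St_BPF) : St_BDD := by
  intro K _ _ X Q Γ T
  obtain ⟨j₀⟩ := X.nei
  obtain ⟨b₀, hb⟩ := hB K X Q Γ j₀ (T (Γ.cls ⟨_, Q.cart_hyp j₀⟩))
  refine eventually_atTop.2 ⟨b₀, fun b hb' φ h h' hT R hR j hj => ?_⟩
  obtain ⟨k, rfl⟩ := Nat.exists_eq_add_of_le hb'
  obtain ⟨hc, e, ε, h1, h2, h3⟩ := Γ.isPull_rho φ
  choose p hp using exists_pt Q φ.1 hc h h'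
  have hle : ∀ x (E : X.PD), X.O x ≤ X.O (e E).1 → X.O (p x) ≤ X.O E.1 := fun x E hE z hz =>
    (mem_e (h1 · E) z).2 (hE ((hp x z).1 hz))
  have hφ : ∀ {z : K}, z ≠ 0 → φ.1 z ≠ 0 := fun hz => (map_ne_zero φ.1).2 hz
  obtain ⟨x, hx, hx'⟩ := exists_centre (i := j) hR (Q.A_eq j ▸ hj)
  obtain ⟨s, hs0, hs1, hs2⟩ := hb (ε ⟨_, Q.cart_hyp j₀⟩) (by rw [← h3, hT]) (fun S hS => by
    have := (hS.insert x).to_subtype
    obtain ⟨w, hw, hw'⟩ := exists_avoid_sub (Q.Fm 1) (fun t : ↥(insert x S) => Q.van 1 (p t.1))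
      fun t ht => (Q.notMem_van (Q.y_mem _) (ch_spec (p t.1)).1).2
        (by rw [pow_one, div_self (Q.ne _)]; exact Un.one) (ht (Q.y_mem (ch (p t.1))))
    have hw0 : w ≠ 0 := fun h0 => hw' ⟨x, mem_insert _ _⟩ (h0 ▸ zero_mem _)
    have key : ∀ E : X.PD, ((ε ⟨_, Q.cart_hyp j₀⟩).1 + X.div (φ.1 (w / Q.y j₀))) (e E) =
        X.ord (w / Q.y (ch E.1) ^ 1) E.1 := fun E => by
      rw [Finsupp.add_apply, h2, div_apply, h1, pow_one]
      simp only [Prj.hyp_apply, ord_div (Q.ne _) (Q.ne _), ord_div hw0 (Q.ne _)]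
      ring
    refine ⟨φ.1 (w / Q.y j₀), hφ (div_ne_zero hw0 (Q.ne _)), e.surjective.forall.2 fun E => ?_,
      fun t ht => e.surjective.forall.2 fun E hE => ?_⟩
    · rw [key]
      exact ord_nonneg ((ch_spec _).1 (Q.div_mem hw _))
    · rw [key]
      exact ord_un ((Q.notMem_van hw (ch_spec _).1).1 fun h4 =>
        hw' ⟨t, mem_insert_of_mem _ ht⟩ (Q.van_mono hw (hle t E hE) h4))) x
  let P : X.ι → K := fun l => φ.1 (Q.y l / Q.y j₀) * s * Q.y j₀ ^ b₀ * Q.y j ^ k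
  have hP : ∀ l i, P l / Q.y i ^ (b₀ + k) =
      φ.1 (Q.y l / Q.y j₀) * s * (Q.y j₀ / Q.y i) ^ b₀ * (Q.y j / Q.y i) ^ k := fun l i => by
    have := Q.ne i
    simp only [P, div_pow, pow_add]
    field_simp
  have hP0 : ∀ l i, P l / Q.y i ^ (b₀ + k) ≠ 0 := fun l i => by
    rw [hP]
    exact mul_ne_zero (mul_ne_zero (mul_ne_zero (hφ (Q.div_ne _ _)) hs0)
      (pow_ne_zero _ (Q.div_ne _ _))) (pow_ne_zero _ (Q.div_ne _ _))
  have key : ∀ l i (E : X.PD), (X.A i).toSubring ≤ X.O (e E).1 →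
      X.ord (P l / Q.y i ^ (b₀ + k)) (e E).1 = Q.hyp l E +
        (b₀ • Q.hyp j₀ - (ε ⟨_, Q.cart_hyp j₀⟩).1 + X.div s) (e E) + k * Q.hyp j (e E) := by
    intro l i E hE
    rw [hP, ord_mul (mul_ne_zero (mul_ne_zero (hφ (Q.div_ne _ _)) hs0)
      (pow_ne_zero _ (Q.div_ne _ _))) (pow_ne_zero _ (Q.div_ne _ _)),
      ord_mul (mul_ne_zero (hφ (Q.div_ne _ _)) hs0) (pow_ne_zero _ (Q.div_ne _ _)),
      ord_mul (hφ (Q.div_ne _ _)) hs0, ord_pow, ord_pow, h1, Finsupp.add_apply, Finsupp.sub_apply,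
      Finsupp.smul_apply, h2, div_apply, Q.hyp_sub i j₀ (e E), Q.hyp_sub i j (e E),
      Q.hyp_eq_zero hE, Q.hyp_sub j₀ l E]
    simp only [nsmul_eq_mul]
    ring
  refine ⟨P, fun l i _ => ?_, fun l i => ?_, ch (p x), Un.mono ?_ hx.1⟩
  · rw [zpow_natCast]
    change _ ∈ chA Q.y i
    rw [← Q.A_eq]
    refine mem_A fun t ht => hartogs (e.surjective.forall.2 fun E hE => ?_)
    rw [key l i E (ht.trans hE)]
    exact add_nonneg (add_nonneg (Q.hyp_nonneg _ _) (hs1 _))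
      (mul_nonneg (Int.natCast_nonneg _) (Q.hyp_nonneg _ _))
  · simp only [P, map_div₀]
    ring
  · have h4 : LocEq (0 : X.PD →₀ ℤ) x (P (ch (p x)) / Q.y j ^ (b₀ + k)) :=
      .mk' (hP0 _ _) (e.surjective.forall.2 fun E hE => by
        rw [key _ j E (hx'.1.trans hE), hs2 _ hE, Q.hyp_eq_zero (hx'.1.trans hE),
          Q.hyp_eq_zero ((ch_spec _).1.trans (hle x E hE))]
        simp)
    simpa using h4.un locEq_zero

theorem blockFINR : St_FINR := by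
  intro K _ _ X Q Γ _ b
  obtain ⟨j⟩ := X.nei
  have hm : ∀ D : X.CD, Mov D.1 → Γ.cls D ∈ (Γ.cone {D | 0 ≤ D.1}).topologicalClosure :=
    fun D hD => subset_closure (Γ.cone_mov_le (Submodule.subset_span ⟨D, hD, rfl⟩))
  let S : CG.Setup Γ.N1 :=
    { Γ.setup Q with
      C := (Γ.cone {D | 0 ≤ D.1}).topologicalClosure
      Γ := ⊥
      closed := isClosed_closure
      salient := fun x h h' => Γ.salient Q h h'
      span_eq := top_le_iff.1 ((Γ.span_mov Q).ge.trans (Submodule.span_mono (by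
        rintro _ ⟨D, hD, rfl⟩
        exact ⟨⟨D, rfl⟩, hm D hD⟩)))
      ΓΛ := fun γ hγ x hx => by rw [Subgroup.mem_bot.1 hγ]; exact hx
      ΓC := fun γ hγ x hx => by rw [Subgroup.mem_bot.1 hγ]; exact hx }
  obtain ⟨ξ, hξ⟩ := S.exists_pos
  obtain ⟨B, hB, hB'⟩ := CG.exists_finset_span (Γ.span_mov Q)
  have h0 : ∀ v ∈ B, ∃ (m : ℕ) (D D' : X.CD), Mov D.1 ∧ Mov D'.1 ∧ v = Γ.cls D ∧
      Γ.cls D' + v = (m : ℝ) • Γ.cls ⟨_, Q.cart_hyp j⟩ := fun v hv => by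
    obtain ⟨D, hD, rfl⟩ := hB hv
    obtain ⟨m, hm⟩ := Q.exists_mov D.2.neg j
    refine ⟨m, D, ⟨_, D.2.neg.add ((Q.cart_hyp j).nsmul m)⟩, hD, hm, rfl, ?_⟩
    rw [← Γ.cls_add, ← Γ.cls_nsmul]
    exact congrArg _ (Subtype.ext (by simp))
  choose! m h0 using h0
  refine (CG.Setup.finite_of_span hB' (F := fun v => {z | z ∈ S.Λ ∧ z ∈ S.C ∧
    ξ z ≤ m v * (b * ξ (Γ.cls ⟨_, Q.cart_hyp j⟩))}) fun v _ => hξ.finite_le _).subset ?_
  rintro _ ⟨φ, ⟨P, hP, ⟨l, hl⟩, hR⟩, rfl⟩ v hv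
  have hφ : ∀ {z : K}, z ≠ 0 → φ.1 z ≠ 0 := fun hz => (map_ne_zero φ.1).2 hz
  have hP0 : ∀ i, P i ≠ 0 := fun i h0 => mul_ne_zero hl (hφ (Q.ne i)) (by rw [← hR, h0, mul_zero])
  have hy : ∀ i, Q.y i ^ b ≠ 0 := fun i => pow_ne_zero _ (Q.ne i)
  have h4 : ξ (Γ.rho φ (Γ.cls ⟨_, Q.cart_hyp j⟩)) ≤ b * ξ (Γ.cls ⟨_, Q.cart_hyp j⟩) := by
    obtain ⟨hc, e, ε, h1, h2, h3⟩ := Γ.isPull_rho φ
    let W : X.CD := ⟨b • Q.hyp j + -(ε ⟨_, Q.cart_hyp j⟩).1 + X.div (P j / Q.y j ^ b),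
      (((Q.cart_hyp j).nsmul b).add (ε _).2.neg).add (cart_div (div_ne_zero (hP0 j) (hy j)))⟩
    have h5 : 0 ≤ W.1 := e.surjective.forall.2 fun E => by
      have h6 : φ.1 (Q.y j / Q.y (ch E.1)) = P j / P (ch E.1) := by
        rw [map_div₀, div_eq_div_iff (hφ (Q.ne _)) (hP0 _), hR]
      have h7 : P (ch E.1) / Q.y (ch (e E).1) ^ b ∈ X.A (ch (e E).1) := by
        have := hP (ch E.1) (ch (e E).1) (Q.ne _)
        rwa [zpow_natCast, Q.A_eq] at *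
      have h8 := ord_nonneg ((ch_spec _).1 h7)
      have h9 := h1 (Q.y j / Q.y (ch E.1)) E
      rw [h6, ord_div (hP0 _) (hP0 _)] at h9
      rw [ord_div (hP0 _) (hy _), ord_pow] at h8
      simp only [W, Finsupp.add_apply, Finsupp.neg_apply, Finsupp.smul_apply, h2, div_apply,
        Prj.hyp_apply, ← h9, ord_div (hP0 _) (hy _), ord_pow, nsmul_eq_mul, Finsupp.coe_zero,
        Pi.zero_apply]
      rw [ord_div (Q.ne _) (Q.ne _)]
      linarith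
    have h6 : Γ.cls W + Γ.cls (ε ⟨_, Q.cart_hyp j⟩) = (b : ℝ) • Γ.cls ⟨_, Q.cart_hyp j⟩ := by
      rw [← Γ.cls_add, ← Γ.cls_nsmul, ← add_zero (Γ.cls ⟨b • _, _⟩),
        ← Γ.cls_div (div_ne_zero (hP0 j) (hy j)), ← Γ.cls_add]
      exact congrArg _ (Subtype.ext (by simp only [W]; abel))
    have h7 := hξ.1 _ (subset_closure (Submodule.subset_span ⟨W, h5, rfl⟩))
    have h8 := congrArg ξ h6
    rw [map_add, map_smul, smul_eq_mul] at h8
    rw [h3]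
    linarith
  obtain ⟨D, D', h5, h6, rfl, h7⟩ := h0 v hv
  obtain ⟨D₁, h8, h9, -⟩ := (Γ.isPull_rho φ).exists_map D
  obtain ⟨D₂, h10, h11, -⟩ := (Γ.isPull_rho φ).exists_map D'
  refine ⟨⟨D₁, h8.symm⟩, h8 ▸ hm _ (h9 h5), ?_⟩
  have h12 := hξ.1 _ (hm _ (h11 h6))
  have h13 := congrArg (fun z => ξ (Γ.rho φ z)) h7
  simp only [map_add, map_smul, smul_eq_mul, h10] at h13
  have h14 := mul_le_mul_of_nonneg_left h4 (Nat.cast_nonneg (α := ℝ) (m (Γ.cls D)))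
  linarith

end Pool.Agent.Lib.DU
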