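import Pool.Agent.Lib.DU.Blue

open Set Filter TensorProduct Pool.Agent.Lib.MP_e39d36_ag Pool.Agent.Lib.MP_e39d36_ag.Var
  Pool.Agent.Lib.MP_cc3443_ag

set_option linter.unusedSectionVars false
set_option linter.unusedVariables false

noncomputable section

namespace Pool.Agent.Lib.DU

namespace REGK

variable {K F : Type} [Field K] [Algebra ℂ K] [Field F] [Algebra ℂ F] {X : Var K}

/-- The data of a pseudo-automorphism. -/
structure PA (X : Var K) where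
  φ : K ≃+* K
  e : X.PD ≃ X.PD
  ε : X.CD ≃ X.CD
  const : ∀ a : ℂ, φ (algebraMap ℂ K a) = algebraMap ℂ K a
  ord : ∀ f E, X.ord (φ f) (e E).1 = X.ord f E.1
  app : ∀ D E, (ε D).1 (e E) = D.1 E

/-- The inverse. -/
def PA.inv (p : PA X) : PA X where
  φ := p.φ.symm
  e := p.e.symm
  ε := p.ε.symm
  const a := p.φ.symm_apply_eq.2 (p.const a).symm
  ord f E := by rw [← p.ord, p.e.apply_symm_apply, p.φ.apply_symm_apply]
  app D E := by rw [← p.app, p.e.apply_symm_apply, p.ε.apply_symm_apply]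

variable (Q : Prj X) (p : PA X)

/-- The hyperplane sections as Cartier divisors. -/
def H (j : X.ι) : X.CD := ⟨Q.hyp j, Q.cart_hyp j⟩

/-- Their transforms. -/
def D (j : X.ι) : X.PD →₀ ℤ := (p.ε (H Q j)).1

lemma cart_D (j : X.ι) : Cart (D Q p j) := (p.ε (H Q j)).2

lemma D_app (j : X.ι) (E : X.PD) : D Q p j (p.e E) = Q.hyp j E := p.app _ _

lemma D_nonneg (j : X.ι) : 0 ≤ D Q p j := p.e.surjective.forall.2 fun E =>
  (Q.hyp_nonneg j E).trans_eq (D_app Q p j E).symm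

lemma φ_ne (i j : X.ι) : p.φ (Q.y j / Q.y i) ≠ 0 := (map_ne_zero p.φ).2 (Q.div_ne i j)

lemma D_sub (i j : X.ι) (E : X.PD) :
    D Q p j E = D Q p i E + X.ord (p.φ (Q.y j / Q.y i)) E.1 := by
  obtain ⟨E, rfl⟩ := p.e.surjective E
  rw [D_app, D_app, p.ord, Q.hyp_sub i j]

lemma mem_of_zero {x : X.Pt} {i : X.ι} (h : ∀ E : X.PD, X.O x ≤ X.O E.1 → D Q p i E = 0)
    (l : X.ι) : p.φ (Q.y l / Q.y i) ∈ X.O x := hartogs fun E hE => by
  have h1 := D_sub Q p i l E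
  have h2 : 0 ≤ D Q p l E := D_nonneg Q p l E
  rw [h E hE] at h1
  omega

lemma le_comap {T : Subring K} {i : X.ι} (hc : ∀ a : ℂ, algebraMap ℂ K a ∈ T)
    (h : ∀ l, p.φ (Q.y l / Q.y i) ∈ T) : (X.A i).toSubring ≤ T.comap p.φ.toRingHom := by
  rw [Q.A_eq]
  exact chA_le (fun a => show p.φ _ ∈ T from (p.const a).symm ▸ hc a) h

/-- Base points of the transformed linear system. -/
def Bad (x : X.Pt) : Prop := ∀ l, ∃ E : X.PD, X.O x ≤ X.O E.1 ∧ D Q p l E ≠ 0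

variable {p} in
/-- Transport of a point. -/
def tr (γ : CMap X F) (c : X.Pt) (h : Dom (X.O c) ((X.O γ.c).comap p.φ.toRingHom)) : CMap X F where
  c := c
  τ z := γ.τ (p.φ z)
  add a ha b hb := by rw [map_add]; exact γ.add _ (h.1 ha) _ (h.1 hb)
  mul a ha b hb := by rw [map_mul]; exact γ.mul _ (h.1 ha) _ (h.1 hb)
  const a := by rw [p.const, γ.const]
  zero a ha hu := γ.zero _ (h.1 ha) fun h1 => hu (h.2 a ha (un_comap.2 h1))

variable [IsFF F]

lemma deg_hyp (γ : CMap X F) (i j : X.ι) : γ.deg (Q.hyp j) = γ.deg (Q.hyp i) := by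
  have h1 : Q.hyp j = Q.hyp i + X.div (Q.y j / Q.y i) := Finsupp.ext (Q.hyp_sub _ j)
  rw [h1, CMap.deg_add (Q.cart_hyp _) (cart_div (Q.div_ne _ _)), CMap.deg_div (Q.div_ne _ _),
    add_zero]

lemma deg_D (γ : CMap X F) (i j : X.ι) : γ.deg (D Q p j) = γ.deg (D Q p i) := by
  have h1 : D Q p j = D Q p i + X.div (p.φ (Q.y j / Q.y i)) := Finsupp.ext (D_sub Q p _ j)
  rw [h1, CMap.deg_add (cart_D Q p _) (cart_div (φ_ne Q p _ _)), CMap.deg_div (φ_ne Q p _ _),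
    add_zero]

lemma ineq (γ : CMap X F) (c : X.Pt) (h : Dom (X.O c) ((X.O γ.c).comap p.φ.toRingHom))
    (j : X.ι) : (tr γ c h).deg (Q.hyp j) ≤ γ.deg (D Q p j) ∧
      ((∃ P, Bad Q p (γ.ctr P)) → (tr γ c h).deg (Q.hyp j) < γ.deg (D Q p j)) := by
  set γ' := tr γ c h with hγ'
  have hi0 : (X.A (ch c)).toSubring ≤ X.O c := (ch_spec c).1
  have h1 : LocEq (D Q p (ch c)) γ.c 1 := .mk' one_ne_zero fun E hE => by
    obtain ⟨E, rfl⟩ := p.e.surjective E
    rw [D_app, Q.hyp_eq_zero, ord_un Un.one]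
    intro z hz
    have h2 : p.φ z ∈ X.O (p.e E).1 := hE (h.1 (hi0 hz))
    by_cases h0 : z = 0
    · rw [h0]; exact zero_mem _
    have h3 := ord_nonneg h2
    rw [p.ord, ord_val] at h3
    exact ((isV E).mem_iff h0).2 h3
  have h2 : LocEq (Q.hyp (ch c)) γ'.c 1 := by
    have := Q.locEq_hyp (ch c) hi0
    rwa [div_self (Q.ne _)] at this
  let g : Place F → K := fun P => lf (D Q p (ch c)) (γ.ctr P)
  have hg : ∀ P, LocEq (D Q p (ch c)) (γ.ctr P) (g P) := fun P => (cart_D Q p _).lf _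
  let u : Place F → K := fun P => Q.y (ch c) / Q.y (ch (γ'.ctr P))
  have hu : ∀ P, LocEq (Q.hyp (ch c)) (γ'.ctr P) (u P) := fun P => Q.locEq_hyp _ (ch_spec _).1
  have hf1 := CMap.finite_supp hg h1
  have hf2 := CMap.finite_supp hu h2
  have key : ∀ P : Place F, 0 ≤ P.ord (γ.τ (g P / 1)) - P.ord (γ'.τ (u P / 1)) ∧
      (Bad Q p (γ.ctr P) → 0 < P.ord (γ.τ (g P / 1)) - P.ord (γ'.τ (u P / 1))) := fun P => by
    have h3 : Un (X.O γ.c) (p.φ (u P)) := by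
      have h4 := ((hu P).mono (γ'.ctr_le P)).un h2
      rw [div_one] at h4
      exact un_comap.1 (h4.mono h.1)
    have h4 : Un (X.O γ.c) (g P) := by
      simpa using ((hg P).mono (γ.ctr_le P)).un h1
    have h5 : LocEq (D Q p (ch (γ'.ctr P))) (γ.ctr P) (g P / p.φ (u P)) :=
      .mk' (h4.div h3).1 fun E hE => by
        rw [ord_div h4.1 h3.1, ← (hg P).eq hE, D_sub Q p (ch (γ'.ctr P)) (ch c)]
        simp [u]
    have h6 := (γ.dom_ctr P).1 (h5.mem (D_nonneg Q p _))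
    have h7 : P.ord (γ.τ (g P / 1)) - P.ord (γ'.τ (u P / 1)) = P.ord (γ.τ (g P / p.φ (u P))) := by
      have h8 : g P = g P / p.φ (u P) * p.φ (u P) := (div_mul_cancel₀ _ h3.1).symm
      rw [div_one, div_one]
      change P.ord (γ.τ (g P)) - P.ord (γ.τ (p.φ (u P))) = _
      conv_lhs => rw [h8, γ.mul _ (h4.div h3).2.1 _ h3.2.1,
        P.ord_mul (CMap.τ_ne (h4.div h3)) (CMap.τ_ne h3)]
      ring
    have h8 : 0 ≤ P.ord (γ.τ (g P / p.φ (u P))) := (place_isV P).od_nonneg (CMap.mem_T.1 h6).2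
    rw [h7]
    refine ⟨h8, fun hb => h8.lt_of_ne' fun h9 => ?_⟩
    obtain ⟨E, hE, hE'⟩ := hb (ch (γ'.ctr P))
    have h10 : Un (X.O (γ.ctr P)) (g P / p.φ (u P)) :=
      (γ.dom_ctr P).2 _ (h5.mem (D_nonneg Q p _)) (CMap.un_T.2 ⟨h4.div h3,
        (place_isV P).un_iff.2 ⟨CMap.τ_ne (h4.div h3), h9⟩⟩)
    exact hE' ((h5.eq hE).trans (ord_un (h10.mono hE)))
  have h3 : γ.deg (D Q p j) - γ'.deg (Q.hyp j) =
      ∑ᶠ P : Place F, (P.ord (γ.τ (g P / 1)) - P.ord (γ'.τ (u P / 1))) := by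
    rw [deg_D Q p γ (ch c), deg_hyp Q γ' (ch c), CMap.deg_eq (cart_D Q p _) hg h1,
      CMap.deg_eq (Q.cart_hyp _) hu h2, finsum_sub_distrib hf1 hf2]
  refine ⟨?_, fun ⟨P, hP⟩ => ?_⟩
  · rw [← sub_nonneg, h3]
    exact finsum_nonneg fun P => (key P).1
  · rw [← sub_pos, h3]
    refine finsum_pos (fun P => (key P).1) ⟨P, (key P).2 hP⟩ ((hf1.union hf2).subset fun P hP => ?_)
    by_contra h4
    simp only [mem_union, mem_ofPred_eq, not_or, not_not] at h4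
    exact hP (sub_eq_zero.2 (h4.1.trans h4.2.symm))

end REGK

open REGK in
theorem blockREGK (hC : St_CURVE) : St_REGK := by
  intro K _ _ X Q Γ φ hφ T hT j hj
  obtain ⟨h0, e, ε, h1, h2, h3⟩ := Γ.isPull_rho φ
  let p : PA X := ⟨φ.1, e, ε, h0, h1, h2⟩
  have hn : ∀ (F : Type) [Field F] [Algebra ℂ F] [IsFF F] (γ : CMap X F) (E : X.CD),
      γ.deg (ε E).1 = γ.deg E.1 := fun F _ _ _ γ E => by
    obtain ⟨l, hl, -⟩ := Γ.exists_fun γ
    have h4 := h3 E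
    rw [hφ] at h4
    have h5 := hl (ε E)
    rw [← h4] at h5
    exact_mod_cast h5.symm.trans (hl E)
  obtain ⟨x, hx, -⟩ := exists_centre (i := j) hT (Q.A_eq j ▸ hj)
  by_cases hb : Bad Q p x
  swap
  · simp only [Bad, not_forall, not_exists, not_and, not_not] at hb
    obtain ⟨i, hi⟩ := hb
    exact ⟨i, fun l => hx.1 (mem_of_zero Q p hi l)⟩
  exfalso
  have hx' : X.O x ≠ ⊤ := fun h => by
    obtain ⟨E, hE, -⟩ := hb j
    exact (isV E).ne_top (top_le_iff.1 (h ▸ hE))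
  choose b hb1 hb2 hb3 using fun l => X.frac j (p.φ.symm (Q.y l / Q.y j))
  obtain ⟨F, _, _, _, γ, P, hP, hS⟩ := hC K X Q x hx'
    ((D Q p j).support ∪ ⋃ l, {E : X.PD | X.ord (p.φ (b l)) E.1 ≠ 0})
    ((Finset.finite_toSet _).union (finite_iUnion fun l => finite_ord _))
  have h4 : ∀ E : X.PD, X.O γ.c ≤ X.O E.1 → D Q p j E = 0 := fun E hE => of_not_not fun h =>
    hS E (Or.inl (Finsupp.mem_support_iff.2 h)) hE
  have h5 : ∀ l, Un (X.O γ.c) (p.φ (b l)) := fun l => by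
    have h6 : ∀ E : X.PD, X.O γ.c ≤ X.O E.1 → X.ord (p.φ (b l)) E.1 = 0 := fun E hE =>
      of_not_not fun h => hS E (Or.inr (mem_iUnion.2 ⟨l, h⟩)) hE
    simpa using (locEq_div (X := X) (x := γ.c) ((map_ne_zero p.φ).2 (hb2 l))).un
      (g := 1) (.mk' one_ne_zero fun E hE => by rw [div_apply, h6 E hE, ord_un Un.one])
  obtain ⟨c, hc, hc'⟩ := exists_centre ((X.isLoc γ.c).comap p.φ.toRingHom)
    (le_comap Q p (X.const_mem _) (mem_of_zero Q p h4))
  have h6 : (X.A j).toSubring ≤ (X.O c).comap p.inv.φ.toRingHom :=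
    le_comap Q p.inv (X.const_mem _) fun l =>
      (hc.2 _ (hc'.1 (hb1 l)) (un_comap.2 (h5 l))).mem_of_mul (hc'.1 (hb3 l))
  obtain ⟨c', h7, -⟩ := exists_centre ((X.isLoc c).comap p.inv.φ.toRingHom) h6
  have h8 : Dom ((X.O c).comap p.inv.φ.toRingHom) (X.O γ.c) := by
    refine ⟨fun z hz => ?_, fun z hz hu => un_comap.2 (hc.2 _ hz (un_comap.2 ?_))⟩
    · have := hc.1 hz
      simpa [PA.inv] using this
    · simpa [PA.inv] using hu
  obtain rfl : c' = γ.c := X.sep _ _ _ (X.isLoc _) (h7.trans h8) Dom.refl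
  have h9 := (ineq Q p γ c hc j).2 ⟨P, fun l => (hb l).imp fun E hE => ⟨hP.trans hE.1, hE.2⟩⟩
  have h10 := (ineq Q p.inv (tr γ c hc) γ.c h7 j).1
  have h11 : (tr (tr γ c hc) γ.c h7).deg (Q.hyp j) = γ.deg (Q.hyp j) :=
    CMap.deg_congr rfl (fun a _ => congrArg γ.τ (p.φ.apply_symm_apply a)) (Q.cart_hyp j)
  have h12 : γ.deg (D Q p j) = γ.deg (Q.hyp j) := hn F γ (H Q j)
  have h13 : (tr γ c hc).deg (D Q p.inv j) = (tr γ c hc).deg (Q.hyp j) := by
    have := hn F (tr γ c hc) (ε.symm (H Q j))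
    rw [ε.apply_symm_apply] at this
    exact this.symm
  omega

end Pool.Agent.Lib.DU
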