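import Pool.Agent.Lib.DU.Blue

open Set Filter TensorProduct Pool.Agent.Lib.MP_e39d36_ag Pool.Agent.Lib.MP_e39d36_ag.Var
  Pool.Agent.Lib.MP_cc3443_ag

set_option linter.unusedSectionVars false
set_option linter.unusedVariables false

noncomputable section

namespace Pool.Agent.Lib.DU

section charts

variable {k F ι : Type} [Field k] [Field F] [Algebra k F] {y : ι → F} {T : Subring F} {i j : ι}

lemma div_mem_chK (y : ι → F) (i j : ι) : y j / y i ∈ chK k y i := Algebra.subset_adjoin ⟨j, rfl⟩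

lemma chK_le (hc : ∀ a : k, algebraMap k F a ∈ T) (h : ∀ j, y j / y i ∈ T) :
    (chK k y i).toSubring ≤ T := fun z hz => by
  have hz' : z ∈ Algebra.adjoin k (range fun j => y j / y i) := hz
  induction hz' using Algebra.adjoin_induction with
  | mem x hx => obtain ⟨j, rfl⟩ := hx; exact h j
  | algebraMap r => exact hc r
  | add x y hx hy h1 h2 => exact add_mem (h1 hx) (h2 hy)
  | mul x y hx hy h1 h2 => exact mul_mem (h1 hx) (h2 hy)

lemma const_mem (h : (chK k y i).toSubring ≤ T) (a : k) : algebraMap k F a ∈ T :=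
  h ((chK k y i).algebraMap_mem a)

lemma chK_le_of_un (h : (chK k y i).toSubring ≤ T) (hu : Un T (y j / y i)) :
    (chK k y j).toSubring ≤ T :=
  chK_le (const_mem h) fun l => by
    have h0 := (div_ne_zero_iff.1 hu.1).2
    rw [← div_div_div_cancel_right₀ h0]
    exact hu.div_mem (h (div_mem_chK y i l))

lemma un_of_chK (hi : y i ≠ 0) (hj : y j ≠ 0) (h : (chK k y i).toSubring ≤ T)
    (h' : (chK k y j).toSubring ≤ T) : Un T (y j / y i) :=
  ⟨div_ne_zero hj hi, h (div_mem_chK y i j), by rw [inv_div]; exact h' (div_mem_chK y j i)⟩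

lemma Reg.le {φ : F →ₐ[k] F} (h : Reg k y φ) (hT : IsLoc T) (hj : (chK k y j).toSubring ≤ T) :
    ∃ i, (chK k y i).toSubring ≤ T.comap φ.toRingHom := by
  obtain ⟨i, hi⟩ := h T hT j hj
  exact ⟨i, chK_le (fun a => by
    change φ _ ∈ T
    rw [φ.commutes]; exact const_mem hj a) hi⟩

lemma Reg.comp {φ : F →ₐ[k] F} {ψ : F → F} (h : Reg k y φ) (h' : Reg k y ψ) :
    Reg k y (φ ∘ ψ) := fun T hT j hj => by
  obtain ⟨i, hi⟩ := h.le hT hj
  exact h' _ (hT.comap _) i hi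

lemma Reg.mul {φ ψ : F ≃ₐ[k] F} (h : Reg k y φ) (h' : Reg k y ψ) : Reg k y ⇑(φ * ψ) :=
  Reg.comp (φ := φ.toAlgHom) h h'

lemma reg_id : Reg k y id := fun T _ j hj => ⟨j, fun l => hj (div_mem_chK y j l)⟩

lemma Bpf.reg {b : ℕ} {φ : F →ₐ[k] F} (hy : ∀ i, y i ≠ 0) (h : Bpf k y b φ) : Reg k y φ :=
    fun T hT j hj => by
  obtain ⟨P, h1, h2, i, h3⟩ := h T hT j hj
  refine ⟨i, fun l => ?_⟩
  have h4 := h3.div_mem (hj (h1 l j (hy j)))
  have h5 := (div_ne_zero_iff.1 h3.1).1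
  have h6 : φ (y i) ≠ 0 := (map_ne_zero φ).2 (hy i)
  rw [zpow_natCast, div_div_div_cancel_right₀ (pow_ne_zero _ (hy j))] at h4
  rw [map_div₀, (div_eq_div_iff h6 h5).2 (h2 l i)]
  exact h4

lemma Coords.eq_top (hy : Coords k y) (i : ι) {S : Subfield F} (hc : ∀ a : k, algebraMap k F a ∈ S)
    (h : ∀ l, y l / y i ∈ S) (z : F) : z ∈ S := by
  obtain ⟨b, h1, h2, h3⟩ := hy.frac i z
  have h4 := chK_le (T := S.toSubring) hc h
  rw [← mul_div_cancel_left₀ z h2]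
  exact div_mem (h4 h3) (h4 h1)

lemma Coords.algHom_ext (hy : Coords k y) (i : ι) {E : Type} [Field E] [Algebra k E]
    {φ ψ : F →ₐ[k] E} (h : ∀ l, φ (y l / y i) = ψ (y l / y i)) : φ = ψ :=
  AlgHom.ext fun z => hy.eq_top i (S := RingHom.eqLocusField φ.toRingHom ψ.toRingHom)
    (fun a => (φ.commutes a).trans (ψ.commutes a).symm) h z

lemma coords_prj {K : Type} [Field K] [Algebra ℂ K] {X : Var K} (Q : Prj X) : Coords ℂ Q.y :=
  ⟨X.fin, X.nei, Q.ne, fun i => by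
    have := X.frac i
    rwa [Q.A_eq] at this⟩

end charts

section pl

variable {U : Type} [Field U] [Algebra ℂ U] {P : Pl U} {u v : U} {c d : ℂ}

lemma Pl.Val.unique (h : P.Val u c) (h' : P.Val u d) : c = d := h.2.symm.trans h'.2

lemma Pl.Val.mul (h : P.Val u c) (h' : P.Val v d) : P.Val (u * v) (c * d) :=
  ⟨mul_mem h.1 h'.1, by rw [← h.2, ← h'.2, ← map_mul]; rfl⟩

lemma Pl.Val.add (h : P.Val u c) (h' : P.Val v d) : P.Val (u + v) (c + d) :=
  ⟨add_mem h.1 h'.1, by rw [← h.2, ← h'.2, ← map_add]; rfl⟩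

lemma Pl.val_const (P : Pl U) (c : ℂ) : P.Val (algebraMap ℂ U c) c :=
  ⟨P.V.algebraMap_mem c, P.θ.commutes c⟩

lemma Pl.val_aeval {σ : Type} {e : σ → U} {e₀ : σ → ℂ} (h : ∀ s, P.Val (e s) (e₀ s))
    (p : MvPolynomial σ ℂ) : P.Val (MvPolynomial.aeval e p) (MvPolynomial.aeval e₀ p) := by
  induction p using MvPolynomial.induction_on with
  | C a => simpa using P.val_const a
  | add p q hp hq => simpa using hp.add hq
  | mul_X p s hp => simpa using hp.mul (h s)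

lemma gen_ne (hu : u ≠ 0) : ∀ᶠ P in gen U, ∃ c, c ≠ 0 ∧ P.Val u c :=
  mem_iInf_of_mem u (mem_iInf_of_mem hu (mem_principal_self _))

lemma gen_val (u : U) : ∀ᶠ P in gen U, ∃ c, P.Val u c := by
  by_cases hu : u = 0
  · exact Eventually.of_forall fun P => ⟨0, by simpa [hu] using P.val_const 0⟩
  · exact (gen_ne hu).mono fun P ⟨c, _, h⟩ => ⟨c, h⟩

lemma exists_of_gen {p : Pl U → Prop} (h : ∀ᶠ P in gen U, p P) : ∃ S : Set U, S.Finite ∧
    ∀ P : Pl U, (∀ s ∈ S, ∃ c, P.Val s c ∧ (s ≠ 0 → c ≠ 0)) → p P := by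
  rw [gen, iInf_subtype', Filter.Eventually, mem_iInf] at h
  obtain ⟨I, hI, V, hV, h⟩ := h
  refine ⟨Subtype.val '' I, hI.image _, fun P hP => ?_⟩
  have : P ∈ ⋂ i, V i := mem_iInter.2 fun i => hV i (by
    obtain ⟨c, h1, h2⟩ := hP i.1.1 ⟨i.1, i.2, rfl⟩
    exact ⟨c, h2 i.1.2, h1⟩)
  rwa [← h] at this

end pl

namespace Uni

variable {K : Type} [Field K] [Algebra ℂ K] {W : Uni K} {P : Pl W.U} {w w' : W.Ω} {a a' : K}

variable (W) in
/-- The multiplication map. -/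
abbrev mu : K ⊗[ℂ] W.U →ₐ[ℂ] W.Ω :=
  Algebra.TensorProduct.productMap (IsScalarTower.toAlgHom ℂ K W.Ω)
    (IsScalarTower.toAlgHom ℂ W.U W.Ω)

lemma mu_tmul (a : K) (u : W.U) : W.mu (a ⊗ₜ u) = W.ι a * algebraMap W.U W.Ω u := rfl

lemma ι_const (c : ℂ) : W.ι (algebraMap ℂ K c) = algebraMap W.U W.Ω (algebraMap ℂ W.U c) := by
  rw [← IsScalarTower.algebraMap_apply, ← IsScalarTower.algebraMap_apply]

lemma inj_sub (V : Subalgebra ℂ W.U) : Function.Injective (Algebra.TensorProduct.productMap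
    (IsScalarTower.toAlgHom ℂ K W.Ω) ((IsScalarTower.toAlgHom ℂ W.U W.Ω).comp V.val)) := by
  have h1 : Algebra.TensorProduct.productMap (IsScalarTower.toAlgHom ℂ K W.Ω)
      ((IsScalarTower.toAlgHom ℂ W.U W.Ω).comp V.val) =
      W.mu.comp (Algebra.TensorProduct.map (AlgHom.id ℂ K) V.val) := by
    ext <;> simp
  rw [h1, AlgHom.coe_comp]
  exact W.inj.comp (Module.Flat.lTensor_preserves_injective_linearMap (M := K) V.val.toLinearMap
    Subtype.val_injective)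

lemma Sp0.unique (h : W.Sp0 P w a) (h' : W.Sp0 P w a') : a = a' := by
  obtain ⟨t, h1, rfl⟩ := h
  obtain ⟨t', h2, rfl⟩ := h'
  rw [inj_sub P.V (h1.symm.trans h2)]

lemma Sp0.add (h : W.Sp0 P w a) (h' : W.Sp0 P w' a') : W.Sp0 P (w + w') (a + a') := by
  obtain ⟨t, rfl, rfl⟩ := h
  obtain ⟨t', rfl, rfl⟩ := h'
  exact ⟨t + t', (map_add _ _ _).symm, (map_add _ _ _).symm⟩

lemma Sp0.mul (h : W.Sp0 P w a) (h' : W.Sp0 P w' a') : W.Sp0 P (w * w') (a * a') := by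
  obtain ⟨t, rfl, rfl⟩ := h
  obtain ⟨t', rfl, rfl⟩ := h'
  exact ⟨t * t', (map_mul _ _ _).symm, (map_mul _ _ _).symm⟩

lemma sp0_ι (P : Pl W.U) (a : K) : W.Sp0 P (W.ι a) a := ⟨a ⊗ₜ 1, by simp, by simp⟩

lemma sp0_val {u : W.U} {c : ℂ} (h : P.Val u c) :
    W.Sp0 P (algebraMap W.U W.Ω u) (algebraMap ℂ K c) :=
  ⟨1 ⊗ₜ ⟨u, h.1⟩, by simp, by simp [h.2]⟩

lemma Sp0.sp (h : W.Sp0 P w a) : W.Sp P w a :=
  ⟨1, 1, w, a, by simpa using sp0_ι P 1, one_ne_zero, h, mul_one _, mul_one _⟩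

lemma Sp0.ne (h : W.Sp0 P w a) (ha : a ≠ 0) : w ≠ 0 := fun h0 =>
  ha (h.unique (by simpa [h0] using sp0_ι P 0))

lemma Sp.unique (h : W.Sp P w a) (h' : W.Sp P w a') : a = a' := by
  obtain ⟨q, b, p, c, h1, h2, h3, rfl, rfl⟩ := h
  obtain ⟨q', b', p', c', h4, h5, h6, rfl, rfl⟩ := h'
  have h7 := (h3.mul h4).unique (by rw [mul_right_comm]; exact h6.mul h1)
  rw [mul_right_comm a', mul_assoc, mul_assoc] at h7
  exact mul_right_cancel₀ (mul_ne_zero h2 h5) h7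

lemma Sp.add (h : W.Sp P w a) (h' : W.Sp P w' a') : W.Sp P (w + w') (a + a') := by
  obtain ⟨q, b, p, c, h1, h2, h3, rfl, rfl⟩ := h
  obtain ⟨q', b', p', c', h4, h5, h6, rfl, rfl⟩ := h'
  exact ⟨_, _, _, _, h1.mul h4, mul_ne_zero h2 h5, (h3.mul h4).add (h6.mul h1), by ring, by ring⟩

lemma Sp.mul (h : W.Sp P w a) (h' : W.Sp P w' a') : W.Sp P (w * w') (a * a') := by
  obtain ⟨q, b, p, c, h1, h2, h3, rfl, rfl⟩ := h
  obtain ⟨q', b', p', c', h4, h5, h6, rfl, rfl⟩ := h'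
  exact ⟨_, _, _, _, h1.mul h4, mul_ne_zero h2 h5, h3.mul h6, by ring, by ring⟩

lemma sp_ι (P : Pl W.U) (a : K) : W.Sp P (W.ι a) a := (sp0_ι P a).sp

lemma sp_val {u : W.U} {c : ℂ} (h : P.Val u c) :
    W.Sp P (algebraMap W.U W.Ω u) (algebraMap ℂ K c) := (sp0_val h).sp

lemma sp_zero : W.Sp P 0 0 := by simpa using sp_ι P 0

lemma sp_one : W.Sp P 1 1 := by simpa using sp_ι P 1

lemma Sp.neg (h : W.Sp P w a) : W.Sp P (-w) (-a) := by simpa using (sp_ι P (-1)).mul h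

lemma Sp.sub (h : W.Sp P w a) (h' : W.Sp P w' a') : W.Sp P (w - w') (a - a') := by
  simpa only [sub_eq_add_neg] using h.add h'.neg

lemma Sp.ne (h : W.Sp P w a) (ha : a ≠ 0) : w ≠ 0 := fun h0 => ha (h.unique (h0 ▸ sp_zero))

lemma Sp.inv (h : W.Sp P w a) (ha : a ≠ 0) : W.Sp P w⁻¹ a⁻¹ := by
  have hw := h.ne ha
  obtain ⟨q, b, p, c, h1, h2, h3, rfl, rfl⟩ := h
  exact ⟨_, _, _, _, h3, mul_ne_zero ha h2, h1, inv_mul_cancel_left₀ hw _,
    inv_mul_cancel_left₀ ha _⟩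

lemma Sp.div (h : W.Sp P w a) (h' : W.Sp P w' a') (ha : a' ≠ 0) : W.Sp P (w / w') (a / a') := by
  simpa only [div_eq_mul_inv] using h.mul (h'.inv ha)

lemma Sp.pow (h : W.Sp P w a) (n : ℕ) : W.Sp P (w ^ n) (a ^ n) := by
  induction n with
  | zero => simpa using sp_one
  | succ n ih => simpa only [pow_succ] using ih.mul h

lemma Sp.sum {τ : Type*} {s : Finset τ} {f : τ → W.Ω} {g : τ → K}
    (h : ∀ i ∈ s, W.Sp P (f i) (g i)) : W.Sp P (∑ i ∈ s, f i) (∑ i ∈ s, g i) := by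
  classical
  induction s using Finset.induction_on with
  | empty => simpa using sp_zero
  | insert i s hi ih =>
    rw [Finset.sum_insert hi, Finset.sum_insert hi]
    exact (h i (Finset.mem_insert_self _ _)).add (ih fun j hj => h j (Finset.mem_insert_of_mem hj))

lemma Sp.map {φ : W.Ω →ₐ[W.U] W.Ω} {ψ : K →ₐ[ℂ] K} (hφ : ∀ a, W.Sp P (φ (W.ι a)) (ψ a))
    (h : W.Sp P w a) : W.Sp P (φ w) (ψ a) := by
  have key : ∀ w a, W.Sp0 P w a → W.Sp P (φ w) (ψ a) := by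
    rintro _ _ ⟨t, rfl, rfl⟩
    induction t using TensorProduct.induction_on with
    | zero => simpa using sp_zero
    | add s t hs ht => simpa only [map_add] using hs.add ht
    | tmul a u =>
      have := (hφ a).mul (sp_val (⟨u.2, rfl⟩ : P.Val u.1 (P.θ u)))
      rw [← φ.commutes, ← ψ.commutes, ← map_mul, ← map_mul] at this
      exact this
  obtain ⟨q, b, p, c, h1, h2, h3, rfl, rfl⟩ := h
  have h4 := (key _ _ h3).div (key _ _ h1) ((map_ne_zero ψ).2 h2)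
  rwa [← map_div₀, ← map_div₀, mul_div_cancel_right₀ _ (h1.ne h2), mul_div_cancel_right₀ _ h2] at h4

lemma sp_of_gen {ι : Type} {y : ι → K} (hy : Coords ℂ y) (i : ι) {φ : W.Ω →ₐ[W.U] W.Ω}
    {ψ : K →ₐ[ℂ] K} (h : ∀ l, W.Sp P (φ (W.ι (y l / y i))) (ψ (y l / y i))) (a : K) :
    W.Sp P (φ (W.ι a)) (ψ a) := by
  let S : Subfield K :=
    { carrier := {a | W.Sp P (φ (W.ι a)) (ψ a)}
      mul_mem' := fun ha hb => by simpa only [mem_ofPred_eq, map_mul] using Sp.mul ha hb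
      add_mem' := fun ha hb => by simpa only [mem_ofPred_eq, map_add] using Sp.add ha hb
      one_mem' := by simpa using sp_one
      zero_mem' := by simpa using sp_zero
      neg_mem' := fun ha => by simpa only [mem_ofPred_eq, map_neg] using Sp.neg ha
      inv_mem' := fun a ha => by
        by_cases h0 : a = 0
        · simpa [h0] using sp_zero
        · simpa only [mem_ofPred_eq, map_inv₀] using Sp.inv ha ((map_ne_zero ψ).2 h0) }
  refine hy.eq_top i (S := S) (fun c => ?_) h a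
  change W.Sp P _ _
  rw [ψ.commutes, ι_const, φ.commutes]
  exact sp_val (P.val_const c)

variable (W) in
/-- Evaluation of a polynomial over `K` at constants. -/
abbrev ev {σ : Type} (e : σ → W.U) : MvPolynomial σ K →+* W.Ω :=
  MvPolynomial.eval₂Hom W.ι fun s => algebraMap W.U W.Ω (e s)

lemma sp_ev {σ : Type} {e : σ → W.U} {e₀ : σ → ℂ} (h : ∀ s, P.Val (e s) (e₀ s))
    (p : MvPolynomial σ K) :
    W.Sp P (W.ev e p) (MvPolynomial.eval (fun s => algebraMap ℂ K (e₀ s)) p) := by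
  induction p using MvPolynomial.induction_on with
  | C a => simpa using sp_ι P a
  | add p q hp hq => simpa only [map_add] using hp.add hq
  | mul_X p s hp => simpa using hp.mul (sp_val (h s))

lemma ι_mem_Fld (C : Set W.U) (a : K) : W.ι a ∈ W.Fld C :=
  Subfield.subset_closure (Or.inl ⟨a, rfl⟩)

lemma alg_mem_Fld {C : Set W.U} {u : W.U} (h : u ∈ C) : algebraMap W.U W.Ω u ∈ W.Fld C :=
  Subfield.subset_closure (Or.inr ⟨u, h, rfl⟩)

lemma Fld_mono {C C' : Set W.U} (h : C ⊆ C') : W.Fld C ≤ W.Fld C' :=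
  Subfield.closure_mono (union_subset_union_right _ (image_mono h))

lemma mem_Fld_univ (w : W.Ω) : w ∈ W.Fld univ := by
  rw [Fld, image_univ, W.gen]; trivial

lemma mem_Fld_range {σ : Type} {e : σ → W.U} :
    w ∈ W.Fld (range e) ↔ ∃ p q, W.ev e q ≠ 0 ∧ w * W.ev e q = W.ev e p := by
  have h1 : Subring.closure (range (algebraMap K W.Ω) ∪ algebraMap W.U W.Ω '' range e) =
      (W.ev e).range := by
    refine le_antisymm (Subring.closure_le.2 ?_) ?_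
    · rintro _ (⟨a, rfl⟩ | ⟨_, ⟨s, rfl⟩, rfl⟩)
      · exact ⟨MvPolynomial.C a, by simp⟩
      · exact ⟨MvPolynomial.X s, by simp⟩
    · rintro _ ⟨p, rfl⟩
      induction p using MvPolynomial.induction_on with
      | C a => rw [MvPolynomial.eval₂Hom_C]; exact Subring.subset_closure (Or.inl ⟨a, rfl⟩)
      | add p q hp hq => rw [map_add]; exact add_mem hp hq
      | mul_X p s hp =>
        rw [map_mul, MvPolynomial.eval₂Hom_X']
        exact mul_mem hp (Subring.subset_closure (Or.inr ⟨_, ⟨s, rfl⟩, rfl⟩))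
  rw [Fld, Subfield.mem_closure_iff, h1]
  constructor
  · rintro ⟨_, ⟨p, rfl⟩, _, ⟨q, rfl⟩, rfl⟩
    by_cases h : W.ev e q = 0
    · exact ⟨0, 1, by simp, by simp [h]⟩
    · exact ⟨p, q, h, div_mul_cancel₀ _ h⟩
  · rintro ⟨p, q, h2, h3⟩
    exact ⟨_, ⟨p, rfl⟩, _, ⟨q, rfl⟩, by rw [← h3, mul_div_cancel_right₀ _ h2]⟩

lemma exists_finite_Fld {C : Set W.U} (h : w ∈ W.Fld C) :
    ∃ C' ⊆ C, C'.Finite ∧ w ∈ W.Fld C' := by
  have h2 : ∀ {w w'}, (∃ C' ⊆ C, C'.Finite ∧ w ∈ W.Fld C') → (∃ C' ⊆ C, C'.Finite ∧ w' ∈ W.Fld C') →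
      ∃ C' ⊆ C, C'.Finite ∧ w ∈ W.Fld C' ∧ w' ∈ W.Fld C' :=
    fun ⟨A, h1, h2, h3⟩ ⟨B, h4, h5, h6⟩ => ⟨A ∪ B, union_subset h1 h4, h2.union h5,
      Fld_mono subset_union_left h3, Fld_mono subset_union_right h6⟩
  induction h using Subfield.closure_induction with
  | mem x hx =>
    rcases hx with ⟨a, rfl⟩ | ⟨u, hu, rfl⟩
    · exact ⟨∅, empty_subset _, finite_empty, ι_mem_Fld _ a⟩
    · exact ⟨{u}, singleton_subset_iff.2 hu, finite_singleton u, alg_mem_Fld rfl⟩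
  | one => exact ⟨∅, empty_subset _, finite_empty, one_mem _⟩
  | add x y _ _ hx hy =>
    obtain ⟨A, h3, h4, h5, h6⟩ := h2 hx hy
    exact ⟨A, h3, h4, add_mem h5 h6⟩
  | neg x _ hx => exact hx.imp fun _ h => ⟨h.1, h.2.1, neg_mem h.2.2⟩
  | inv x _ hx => exact hx.imp fun _ h => ⟨h.1, h.2.1, inv_mem h.2.2⟩
  | mul x y _ _ hx hy =>
    obtain ⟨A, h3, h4, h5, h6⟩ := h2 hx hy
    exact ⟨A, h3, h4, mul_mem h5 h6⟩

lemma exists_mu (w : W.Ω) : ∃ p q, W.mu q ≠ 0 ∧ w * W.mu q = W.mu p := by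
  have h1 : ∀ p, W.ev id p ∈ W.mu.range := fun p => by
    induction p using MvPolynomial.induction_on with
    | C a => exact ⟨a ⊗ₜ 1, by simp⟩
    | add p q hp hq => rw [map_add]; exact add_mem hp hq
    | mul_X p s hp => rw [map_mul]; exact mul_mem hp ⟨1 ⊗ₜ s, by simp⟩
  obtain ⟨p, q, h2, h3⟩ := (mem_Fld_range (e := id)).1 (range_id ▸ mem_Fld_univ w)
  obtain ⟨p', hp⟩ := h1 p
  obtain ⟨q', hq⟩ := h1 q
  exact ⟨p', q', hq ▸ h2, hp ▸ hq ▸ h3⟩

lemma gen_span {B : Submodule ℂ K} (h : w ∈ Submodule.span W.U (W.ι '' B)) :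
    ∀ᶠ P in DU.gen W.U, ∃ a ∈ B, W.Sp P w a := by
  induction h using Submodule.span_induction with
  | mem x hx =>
    obtain ⟨a, ha, rfl⟩ := hx
    exact Eventually.of_forall fun P => ⟨a, ha, sp_ι P a⟩
  | zero => exact Eventually.of_forall fun P => ⟨0, zero_mem _, sp_zero⟩
  | add x y _ _ hx hy =>
    exact (hx.and hy).mono fun P ⟨⟨a, h1, h2⟩, b, h3, h4⟩ => ⟨_, add_mem h1 h3, h2.add h4⟩
  | smul u x _ hx =>
    refine (hx.and (gen_val u)).mono fun P ⟨⟨a, h1, h2⟩, c, h3⟩ => ⟨c • a, B.smul_mem c h1, ?_⟩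
    rw [Algebra.smul_def, Algebra.smul_def]
    exact (sp_val h3).mul h2

lemma gen_mu {t : K ⊗[ℂ] W.U} (ht : t ≠ 0) :
    ∀ᶠ P in DU.gen W.U, ∃ a, a ≠ 0 ∧ W.Sp P (W.mu t) a := by
  let B := Module.Basis.ofVectorSpace ℂ K
  obtain ⟨u, rfl⟩ := TensorProduct.eq_repr_basis_left B t
  obtain ⟨i, hi⟩ : u.support.Nonempty := Finsupp.support_nonempty_iff.2 fun h => ht (by simp [h])
  refine ((u.support.eventually_all.2 fun j hj => gen_ne (Finsupp.mem_support_iff.1 hj))).mono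
    fun P hP => ?_
  choose! c h1 h2 using hP
  refine ⟨∑ j ∈ u.support, c j • B j, fun h => h1 i hi
    (linearIndependent_iff'.1 B.linearIndependent _ _ h i hi), ?_⟩
  rw [Finsupp.sum, map_sum]
  refine Sp.sum fun j hj => ?_
  rw [mu_tmul, Algebra.smul_def, mul_comm]
  exact (sp_val (h2 j hj)).mul (sp_ι P _)

lemma gen_sp_ne (hw : w ≠ 0) : ∀ᶠ P in DU.gen W.U, ∃ a, a ≠ 0 ∧ W.Sp P w a := by
  obtain ⟨p, q, h1, h2⟩ := exists_mu w
  have h3 : W.mu p ≠ 0 := h2 ▸ mul_ne_zero hw h1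
  refine ((gen_mu (t := p) fun h => h3 (by simp [h])).and
    (gen_mu (t := q) fun h => h1 (by simp [h]))).mono fun P ⟨⟨a, h4, h5⟩, b, h6, h7⟩ =>
      ⟨a / b, div_ne_zero h4 h6, ?_⟩
  have := h5.div h7 h6
  rwa [← h2, mul_div_cancel_right₀ _ h1] at this

lemma gen_sp (w : W.Ω) : ∀ᶠ P in DU.gen W.U, ∃ a, W.Sp P w a := by
  by_cases hw : w = 0
  · exact Eventually.of_forall fun P => ⟨0, hw ▸ sp_zero⟩
  · exact (gen_sp_ne hw).mono fun P ⟨a, _, h⟩ => ⟨a, h⟩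

variable {ι : Type} {y : ι → K}

lemma ι_mem_chK {j : ι} (h : a ∈ chK ℂ y j) : W.ι a ∈ chK W.U (W.ι ∘ y) j :=
  chK_le (T := (chK W.U (W.ι ∘ y) j).toSubring.comap W.ι)
    (fun c => by
      rw [Subring.mem_comap, ι_const]; exact (chK W.U (W.ι ∘ y) j).algebraMap_mem _)
    (fun l => by rw [Subring.mem_comap, map_div₀]; exact div_mem_chK (W.ι ∘ y) j l) h

lemma mem_chK_up {j : ι} : w ∈ chK W.U (W.ι ∘ y) j ↔
    w ∈ Submodule.span W.U (W.ι '' (chK ℂ y j).toSubmodule) := by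
  refine ⟨fun h => ?_, fun h => (Submodule.span_le (p := (chK W.U (W.ι ∘ y) j).toSubmodule)).2
    (by rintro _ ⟨a, ha, rfl⟩; exact ι_mem_chK ha) h⟩
  let M : Submonoid W.Ω := (chK ℂ y j).toSubmonoid.map W.ι
  have h1 : chK W.U (W.ι ∘ y) j ≤ Algebra.adjoin W.U (M : Set W.Ω) := Algebra.adjoin_mono (by
    rintro _ ⟨l, rfl⟩
    exact ⟨_, div_mem_chK y j l, map_div₀ _ _ _⟩)
  have h2 := h1 h
  rw [← Subalgebra.mem_toSubmodule, Algebra.adjoin_eq_span, Submonoid.closure_eq] at h2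
  exact h2

lemma coords_up (hy : Coords ℂ y) : Coords W.U (W.ι ∘ y) := by
  refine ⟨hy.fin, hy.nei, fun i => (map_ne_zero _).2 (hy.ne i), fun i w => ?_⟩
  have h1 : ∀ t, ∃ b ∈ chK W.U (W.ι ∘ y) i, b ≠ 0 ∧ b * W.mu t ∈ chK W.U (W.ι ∘ y) i := fun t => by
    induction t using TensorProduct.induction_on with
    | zero => exact ⟨1, one_mem _, one_ne_zero, by simp⟩
    | tmul a u =>
      obtain ⟨b, h1, h2, h3⟩ := hy.frac i a
      refine ⟨_, ι_mem_chK h1, (map_ne_zero _).2 h2, ?_⟩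
      rw [mu_tmul, ← mul_assoc, ← map_mul]
      exact mul_mem (ι_mem_chK h3) (Subalgebra.algebraMap_mem _ u)
    | add s t hs ht =>
      obtain ⟨b, h1, h2, h3⟩ := hs
      obtain ⟨c, h4, h5, h6⟩ := ht
      refine ⟨b * c, mul_mem h1 h4, mul_ne_zero h2 h5, ?_⟩
      convert add_mem (mul_mem h3 h4) (mul_mem h6 h1) using 1
      rw [map_add]; ring
  obtain ⟨p, q, h2, h3⟩ := exists_mu w
  obtain ⟨b, h4, h5, h6⟩ := h1 p
  obtain ⟨c, h7, h8, h9⟩ := h1 q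
  refine ⟨b * (c * W.mu q), mul_mem h4 h9, mul_ne_zero h5 (mul_ne_zero h8 h2), ?_⟩
  convert mul_mem h6 h7 using 1
  rw [← h3]; ring

end Uni

end Pool.Agent.Lib.DU
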