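import Pool.Agent.Lib.DU.DER
import Pool.Agent.Lib.DU.Sp

open Set Filter TensorProduct Pool.Agent.Lib.MP_e39d36_ag Pool.Agent.Lib.MP_e39d36_ag.Var
  Pool.Agent.Lib.MP_cc3443_ag

set_option linter.unusedSectionVars false
set_option linter.unusedVariables false
set_option linter.style.haveILetI false

noncomputable section

namespace Pool.Agent.Lib.DU

namespace RIG

variable {K : Type} [Field K] [Algebra ℂ K] (W : Uni K)

instance : CharZero W.U := charZero_of_injective_algebraMap (algebraMap ℂ W.U).injective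

instance : CharZero W.Ω := charZero_of_injective_algebraMap (algebraMap ℂ W.Ω).injective

/-- The inclusion of the constants. -/
abbrev c : W.U →+* W.Ω := algebraMap W.U W.Ω

lemma ind : AlgebraicIndependent K fun i => c W (W.x i) := by
  have h1 : Function.Injective (W.mu.comp (Algebra.TensorProduct.map (AlgHom.id ℂ K)
      (MvPolynomial.aeval W.x : MvPolynomial ℕ ℂ →ₐ[ℂ] W.U))) :=
    W.inj.comp (Module.Flat.lTensor_preserves_injective_linearMap (M := K)
      (MvPolynomial.aeval W.x : MvPolynomial ℕ ℂ →ₐ[ℂ] W.U).toLinearMap W.tb.1)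
  have h2 : ((MvPolynomial.aeval fun i => c W (W.x i) : MvPolynomial ℕ K →ₐ[K] W.Ω).restrictScalars
      ℂ).comp ((MvPolynomial.algebraTensorAlgEquiv ℂ K).toAlgHom.restrictScalars ℂ) =
      W.mu.comp (Algebra.TensorProduct.map (AlgHom.id ℂ K) (MvPolynomial.aeval W.x)) := by
    ext a
    · simp [Algebra.smul_def]
    · simp
  rw [← h2] at h1
  exact Function.Injective.of_comp_right (f := MvPolynomial.aeval fun i => c W (W.x i))
    (g := MvPolynomial.algebraTensorAlgEquiv ℂ K) h1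
    (MvPolynomial.algebraTensorAlgEquiv ℂ K).surjective

lemma exD (v : ℕ → W.U) : ∃ D : Derivation K W.Ω W.Ω, ∀ i, D (c W (W.x i)) = c W (v i) := by
  haveI : CharZero K := charZero_of_injective_algebraMap (algebraMap ℂ K).injective
  obtain ⟨t, ht, hb⟩ := exists_isTranscendenceBasis_superset (ind W).to_subtype_range
  obtain ⟨D, hD⟩ := blockDER K W.Ω t _ hb fun z =>
    Function.extend (fun i => c W (W.x i)) (fun i => c W (v i)) 0 z.1
  exact ⟨D, fun i => (hD ⟨_, ht ⟨i, rfl⟩⟩).trans ((ind W).injective.extend_apply _ _ i)⟩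

/-- The derivation of the big field with given values on the parameters. -/
def D (v : ℕ → W.U) : Derivation K W.Ω W.Ω := (exD W v).choose

/-- The derivation of the constants with given values on the parameters. -/
def d (v : ℕ → W.U) : Derivation ℂ W.U W.U := (blockDER ℂ W.U ℕ W.x W.tb v).choose

variable {W}

lemma D_x (v : ℕ → W.U) (i : ℕ) : D W v (c W (W.x i)) = c W (v i) := (exD W v).choose_spec i

lemma d_x (v : ℕ → W.U) (i : ℕ) : d W v (W.x i) = v i :=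
  (blockDER ℂ W.U ℕ W.x W.tb v).choose_spec i

lemma D_ι (v : ℕ → W.U) (a : K) : D W v (W.ι a) = 0 := (D W v).map_algebraMap a

lemma mem_cl_univ (u : W.U) : u ∈ W.cl univ := by
  change IsAlgebraic _ u
  rw [image_univ]
  exact W.tb.isAlgebraic.1 u

lemma cl_mono {s t : Set ℕ} (h : s ⊆ t) : W.cl s ≤ W.cl t := fun u hu =>
  IsAlgebraic.adjoin_of_forall_isAlgebraic (fun z hz => (hz.2 (image_mono h hz.1)).elim) hu

lemma x_mem_cl {s : Set ℕ} {i : ℕ} (h : i ∈ s) : W.x i ∈ W.cl s :=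
  isAlgebraic_algebraMap (⟨W.x i, Algebra.subset_adjoin ⟨i, h, rfl⟩⟩ : Algebra.adjoin ℂ (W.x '' s))

lemma cl_val {N : Type} [AddCommGroup N] [Module W.U N] (δ : W.U → N)
    (ha : ∀ a b, δ (a + b) = δ a + δ b) (hm : ∀ a b, δ (a * b) = a • δ b + b • δ a)
    (hk : ∀ z, δ (algebraMap ℂ W.U z) = 0) (s : Set ℕ) (M : Submodule (W.cl s).toSubfield N)
    (hs : ∀ i ∈ s, δ (W.x i) ∈ M) {u : W.U} (hu : u ∈ W.cl s) : δ u ∈ M := by
  have h1 : ∀ b ∈ Algebra.adjoin ℂ (W.x '' s), b ∈ (W.cl s).toSubfield := fun b hb =>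
    isAlgebraic_algebraMap (⟨b, hb⟩ : Algebra.adjoin ℂ (W.x '' s))
  exact DER.alg0 δ ha hm (Algebra.adjoin ℂ (W.x '' s)).toSubring _ h1 M
    (DER.adjoin0 δ ha hm hk _ _ h1 M (by rintro _ ⟨i, hi, rfl⟩; exact hs i hi)) hu hu

lemma D_c (v : ℕ → W.U) (u : W.U) : D W v (c W u) = c W (d W v u) := by
  have := cl_val (fun u => D W v (c W u) - c W (d W v u)) (fun a b => by simp only [map_add]; ring)
    (fun a b => by
      simp only [map_mul, Derivation.leibniz, smul_eq_mul, map_add, Algebra.smul_def]; ring)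
    (fun z => by rw [← Uni.ι_const, D_ι, Derivation.map_algebraMap, map_zero, sub_zero]) univ ⊥
    (fun i _ => by simp [D_x, d_x]) (mem_cl_univ u)
  exact sub_eq_zero.1 this

lemma d_zero {v : ℕ → W.U} {s : Set ℕ} (h : ∀ i ∈ s, v i = 0) {u : W.U} (hu : u ∈ W.cl s) :
    d W v u = 0 :=
  cl_val (d W v) (map_add _) (d W v).leibniz (d W v).map_algebraMap s ⊥
    (fun i hi => by simp [d_x, h i hi]) hu

lemma d_mem {v : ℕ → W.U} {s : Set ℕ} (h : ∀ i ∈ s, v i ∈ W.cl s) {u : W.U} (hu : u ∈ W.cl s) :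
    d W v u ∈ W.cl s :=
  cl_val (d W v) (map_add _) (d W v).leibniz (d W v).map_algebraMap s (DER.selfMod _)
    (fun i hi => by rw [d_x]; exact h i hi) hu

lemma fld_zero {R : Type} [CommRing R] [Algebra R W.Ω] (E : Derivation R W.Ω W.Ω) {C : Set W.U}
    (h1 : ∀ a, E (W.ι a) = 0) (h2 : ∀ u ∈ C, E (c W u) = 0) {w : W.Ω} (hw : w ∈ W.Fld C) :
    E w = 0 := by
  induction hw using Subfield.closure_induction with
  | mem x hx =>
    rcases hx with ⟨a, rfl⟩ | ⟨u, hu, rfl⟩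
    · exact h1 a
    · exact h2 u hu
  | one => exact E.map_one_eq_zero
  | add x y _ _ hx hy => rw [map_add, hx, hy, add_zero]
  | neg x _ hx => rw [map_neg, hx, neg_zero]
  | inv x _ hx => rw [E.leibniz_inv, hx, smul_zero]
  | mul x y _ _ hx hy => rw [E.leibniz, hx, hy, smul_zero, smul_zero, add_zero]

lemma D_zero {v : ℕ → W.U} {s : Set ℕ} (h : ∀ i ∈ s, v i = 0) {w : W.Ω}
    (hw : w ∈ W.Fld (W.cl s)) : D W v w = 0 :=
  fld_zero _ (D_ι v) (fun u hu => by rw [D_c, d_zero h hu, map_zero]) hw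

lemma D_ext {E : Derivation K W.Ω W.Ω} (h : ∀ i, E (c W (W.x i)) = 0) (w : W.Ω) : E w = 0 :=
  fld_zero E E.map_algebraMap (fun u _ => cl_val (fun u => E (c W u))
    (fun a b => by simp only [map_add])
    (fun a b => by simp only [map_mul, Derivation.leibniz, smul_eq_mul, Algebra.smul_def])
    (fun z => by rw [← Uni.ι_const]; exact E.map_algebraMap _) univ ⊥ (fun i _ => h i)
    (mem_cl_univ u)) (Uni.mem_Fld_univ w)

lemma D_add (v v' : ℕ → W.U) (w : W.Ω) : D W (v + v') w = D W v w + D W v' w := by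
  have := D_ext (E := D W (v + v') - (D W v + D W v')) (fun i => by simp [D_x]) w
  simpa [sub_eq_zero] using this

lemma D_smul (u : W.U) (v : ℕ → W.U) (w : W.Ω) : D W (u • v) w = u • D W v w := by
  have := D_ext (E := D W (u • v) - c W u • D W v) (fun i => by simp [D_x, Algebra.smul_def]) w
  simpa [sub_eq_zero, Algebra.smul_def] using this

lemma map_D_c (k : W.Ω ≃ₐ[W.U] W.Ω) (v : ℕ → W.U) (u : W.U) :
    k (D W v (c W u)) = D W v (c W u) := by
  rw [D_c, k.commutes]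

/-- The logarithmic derivative of an automorphism. -/
def ld (k : W.Ω ≃ₐ[W.U] W.Ω) (v : ℕ → W.U) : Derivation W.U W.Ω W.Ω :=
  Derivation.mk'
    { toFun := fun w => k.symm (D W v (k w)) - D W v w
      map_add' := fun a b => by simp only [map_add]; ring
      map_smul' := fun u w => by
        rw [Algebra.smul_def, Algebra.smul_def]
        simp only [map_mul, k.commutes, Derivation.leibniz, smul_eq_mul, map_add,
          k.symm.commutes, map_D_c, k.symm_apply_apply, RingHom.id_apply]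
        ring }
    fun a b => by
      simp only [LinearMap.coe_mk, AddHom.coe_mk, map_mul, Derivation.leibniz, smul_eq_mul,
        map_add, k.symm_apply_apply]
      ring

/-- The logarithmic derivative as a linear map of the direction. -/
def L (k : W.Ω ≃ₐ[W.U] W.Ω) : (ℕ → W.U) →ₗ[W.U] W.Ω → W.Ω where
  toFun v := fun w => k.symm (D W v (k w)) - D W v w
  map_add' v v' := funext fun w => by simp only [D_add, map_add, Pi.add_apply]; ring
  map_smul' u v := funext fun w => by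
    simp only [D_smul, Pi.smul_apply, RingHom.id_apply, smul_sub]
    rw [Algebra.smul_def, Algebra.smul_def u (k.symm _), map_mul, k.symm.commutes]

lemma L_apply (k : W.Ω ≃ₐ[W.U] W.Ω) (v : ℕ → W.U) (w : W.Ω) :
    L k v w = k.symm (D W v (k w)) - D W v w := rfl

lemma L_zero {k : W.Ω ≃ₐ[W.U] W.Ω} {s : Set ℕ} (hk : ∀ a, k (W.ι a) ∈ W.Fld (W.cl s))
    {v : ℕ → W.U} (h : ∀ i ∈ s, v i = 0) : L k v = 0 := funext fun w =>
  fld_zero (ld k v) (fun a => by
    change k.symm (D W v (k _)) - D W v _ = 0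
    rw [D_zero h (hk a), D_ι, map_zero, sub_zero]) (fun u _ => (ld k v).map_algebraMap u)
    (Uni.mem_Fld_univ w)

lemma L_congr {k : W.Ω ≃ₐ[W.U] W.Ω} {s : Set ℕ} (hk : ∀ a, k (W.ι a) ∈ W.Fld (W.cl s))
    {v v' : ℕ → W.U} (h : ∀ i ∈ s, v i = v' i) : L k v = L k v' := by
  rw [← sub_eq_zero, ← map_sub]
  exact L_zero hk fun i hi => sub_eq_zero.2 (h i hi)

lemma L_mem {ι : Type} {y : ι → K} (hy : Coords ℂ y) (hV : St_VEC) :
    ∃ t : Submodule W.U (W.Ω → W.Ω), FiniteDimensional W.U t ∧ ∀ k : W.Ω ≃ₐ[W.U] W.Ω,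
      Reg W.U (W.ι ∘ y) k → Reg W.U (W.ι ∘ y) k.symm → LinearMap.range (L k) ≤ t := by
  obtain ⟨h1, t, h2, h3⟩ := hV W.U W.Ω ι _ (Uni.coords_up hy)
  refine ⟨t, h2, ?_⟩
  rintro k hk hk' _ ⟨v, rfl⟩
  have h4 : ∀ j, ∀ a ∈ chK W.U (W.ι ∘ y) j, D W v a ∈ chK W.U (W.ι ∘ y) j := fun j a ha => by
    induction ha using Algebra.adjoin_induction with
    | mem x hx =>
      obtain ⟨l, rfl⟩ := hx
      change D W v (W.ι _ / W.ι _) ∈ _
      rw [← map_div₀, D_ι]
      exact zero_mem _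
    | algebraMap u => rw [D_c]; exact Subalgebra.algebraMap_mem _ _
    | add a b _ _ h5 h6 => rw [map_add]; exact add_mem h5 h6
    | mul a b ha hb h5 h6 => rw [Derivation.leibniz]; exact add_mem (mul_mem ha h6) (mul_mem hb h5)
  exact h3 (ld k v) fun j a ha =>
    sub_mem (h1 k hk hk' ((D W v).restrictScalars ℤ) h4 j a ha) (h4 j a ha)

/-- Conjugation of maps by an automorphism. -/
def Ad (h : W.Ω ≃ₐ[W.U] W.Ω) : (W.Ω → W.Ω) ≃ₗ[W.U] W.Ω → W.Ω :=
  (LinearEquiv.funCongrLeft W.U W.Ω h.symm.toEquiv).trans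
    (LinearEquiv.piCongrRight fun _ => h.toLinearEquiv)

lemma Ad_apply (h : W.Ω ≃ₐ[W.U] W.Ω) (f : W.Ω → W.Ω) (w : W.Ω) : Ad h f w = h (f (h.symm w)) := rfl

lemma L_mul (k h : W.Ω ≃ₐ[W.U] W.Ω) (v : ℕ → W.U) : L (k * h⁻¹) v = Ad h (L k v - L h v) := by
  funext w
  have h1 : ∀ z, (k * h⁻¹).symm z = h (k.symm z) := fun _ => rfl
  have h2 : (k * h⁻¹) w = k (h.symm w) := rfl
  rw [Ad_apply, Pi.sub_apply, L_apply, L_apply, L_apply, h1, h2, sub_sub_sub_cancel_right, map_sub,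
    h.apply_symm_apply, h.apply_symm_apply]

lemma L_le {t : Submodule W.U (W.Ω → W.Ω)} [FiniteDimensional W.U t] {k h : W.Ω ≃ₐ[W.U] W.Ω}
    {s : Set ℕ} (hk : ∀ a, k (W.ι a) ∈ W.Fld (W.cl s)) (hh : ∀ a, h (W.ι a) ∈ W.Fld (W.cl sᶜ))
    (h1 : LinearMap.range (L (k * h⁻¹)) ≤ t)
    (h2 : Module.finrank W.U (LinearMap.range (L (k * h⁻¹))) ≤
      Module.finrank W.U (LinearMap.range (L k))) (v : ℕ → W.U) :
    L h v ∈ LinearMap.range (L k) := by
  haveI := Submodule.finiteDimensional_of_le h1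
  have h3 : (LinearMap.range (L k)).map (Ad h).toLinearMap ≤ LinearMap.range (L (k * h⁻¹)) := by
    rintro _ ⟨_, ⟨v, rfl⟩, rfl⟩
    refine ⟨s.indicator v, ?_⟩
    rw [L_mul, L_zero hh fun i hi => indicator_of_notMem hi v, sub_zero,
      L_congr hk fun i hi => indicator_of_mem hi v]
    rfl
  have h4 := Submodule.eq_of_le_of_finrank_le h3 (by rwa [LinearEquiv.finrank_map_eq])
  obtain ⟨_, ⟨v', rfl⟩, h5⟩ : L (k * h⁻¹) v ∈ (LinearMap.range (L k)).map (Ad h).toLinearMap :=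
    h4 ▸ ⟨v, rfl⟩
  rw [L_mul] at h5
  refine ⟨v - v', ?_⟩
  rw [map_sub, (Ad h).injective h5, sub_sub_cancel]

lemma exists_comm {G : Type} [Group G] [Fintype G] (α : G →* (W.Ω ≃ₐ[W.U] W.Ω))
    {k : W.Ω ≃ₐ[W.U] W.Ω} {s : Set ℕ} (hk : ∀ a, k (W.ι a) ∈ W.Fld (W.cl s))
    (hα : ∀ g a, α g (W.ι a) ∈ W.Fld (W.cl sᶜ)) (h : ∀ g v, L (α g) v ∈ LinearMap.range (L k))
    (v : ℕ → W.U) : ∃ v' : ℕ → W.U, (∀ i ∈ sᶜ, v' i = v i) ∧
      ∀ g a, D W v' (k (α g (k.symm (W.ι a)))) = 0 := by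
  classical
  have hn : (Fintype.card G : W.U) ≠ 0 := Nat.cast_ne_zero.2 Fintype.card_ne_zero
  obtain ⟨v₀, h0⟩ : (Fintype.card G : W.U)⁻¹ • ∑ g, L (α g) v ∈ LinearMap.range (L k) :=
    Submodule.smul_mem _ _ (Submodule.sum_mem _ fun g _ => h g v)
  let v' := s.piecewise v₀ v
  have h1 : ∀ i ∈ sᶜ, v' i = v i := fun i hi => piecewise_eq_of_notMem _ _ _ hi
  have h2 : ∀ w, (Fintype.card G : W.Ω) * k.symm (D W v' (k w)) =
      ∑ g, (α g).symm (D W v' (α g w)) := fun w => by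
    have h3 : (Fintype.card G : W.U) • L k v' = ∑ g, L (α g) v' := by
      rw [L_congr hk fun i hi => piecewise_eq_of_mem s v₀ v hi, h0, smul_inv_smul₀ hn]
      exact Finset.sum_congr rfl fun g _ => (L_congr (hα g) h1).symm
    have h4 := congrFun h3 w
    simp only [Pi.smul_apply, Finset.sum_apply, L_apply, Finset.sum_sub_distrib, Finset.sum_const,
      Finset.card_univ, Algebra.smul_def, map_natCast, mul_sub] at h4
    exact sub_left_injective h4
  refine ⟨v', h1, fun g a => ?_⟩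
  have h3 := h2 (k.symm (W.ι a))
  rw [k.apply_symm_apply, D_ι, map_zero, mul_zero] at h3
  have h4 := h2 (α g (k.symm (W.ι a)))
  have h5 : ∀ g' w, (α g').symm (D W v' (α g' (α g w))) =
      α g ((α (g' * g)).symm (D W v' (α (g' * g) w))) := fun g' w => by
    rw [map_mul]
    exact ((α g).apply_symm_apply _).symm
  simp only [h5] at h4
  have h6 : ∑ g', (α (g' * g)).symm (D W v' (α (g' * g) (k.symm (W.ι a)))) = 0 :=
    (Equiv.sum_comp (Equiv.mulRight g) _).trans h3.symm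
  rw [← map_sum, h6, map_zero] at h4
  simpa using h4

lemma mem_Fld (V : Set (ℕ → W.U)) {w : W.Ω} (hw : ∀ v ∈ V, D W v w = 0) :
    w ∈ W.Fld {u | ∀ v ∈ V, d W v u = 0} := by
  classical
  let b := Module.Basis.ofVectorSpace ℂ K
  obtain ⟨p, q, h1, h2⟩ := Uni.exists_mu w
  obtain ⟨p, rfl⟩ := TensorProduct.eq_repr_basis_left b p
  obtain ⟨q, rfl⟩ := TensorProduct.eq_repr_basis_left b q
  let s := p.support ∪ q.support
  let Φ : (s → W.U) →ₗ[W.U] W.Ω := Fintype.linearCombination W.U fun i : s => W.ι (b i)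
  have hΦ : ∀ f, Φ f = ∑ i : s, c W (f i) * W.ι (b i) := fun f => by
    simp only [Φ, Fintype.linearCombination_apply, Algebra.smul_def]
  have h3 : ∀ r : _ →₀ W.U, r.support ⊆ s →
      W.mu (r.sum fun i n => b i ⊗ₜ n) = Φ fun i => r i := fun r hr => by
    rw [Finsupp.sum_of_support_subset _ hr _ fun _ _ => tmul_zero _ _, map_sum, hΦ,
      ← Finset.sum_coe_sort s]
    exact Finset.sum_congr rfl fun i _ => mul_comm _ _
  have h4 : ∀ f, Φ f = 0 → f = 0 := fun f hf => by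
    let r : _ →₀ W.U := Finsupp.onFinset s (fun i => if h : i ∈ s then f ⟨i, h⟩ else 0)
      fun i hi => by_contra fun h => hi (dif_neg h)
    have h5 : (fun i : s => r i) = f := funext fun i => dif_pos i.2
    have h6 := h3 r Finsupp.support_onFinset_subset
    rw [h5, hf, ← map_zero W.mu] at h6
    rw [← h5, TensorProduct.sum_tmul_basis_left_eq_zero b r (W.inj h6)]
    rfl
  have h5 : ∀ v f, D W v (Φ f) = Φ fun i => d W v (f i) := fun v f => by
    rw [hΦ, hΦ, map_sum]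
    refine Finset.sum_congr rfl fun i _ => ?_
    rw [Derivation.leibniz, D_ι, D_c, smul_zero, zero_add, smul_eq_mul, mul_comm]
  rw [h3 q Finset.subset_union_right] at h1 h2
  rw [h3 p Finset.subset_union_left] at h2
  obtain ⟨f, hf, ⟨j, hj⟩, h6⟩ := DER.ech0 (ι := s ⊕ s) (⊤ : Subfield W.U)
    {f | w * Φ (f ∘ Sum.inl) = Φ (f ∘ Sum.inr)} (fun _ _ _ => trivial)
    (fun f hf u _ => by
      change w * Φ (u • (f ∘ Sum.inl)) = Φ (u • (f ∘ Sum.inr))
      rw [map_smul, map_smul, ← hf, mul_smul_comm])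
    ((fun v => ⇑(d W v)) '' V)
    (by rintro _ ⟨v, -, rfl⟩; exact ⟨map_zero (d W v), (d W v).map_one_eq_zero⟩)
    (by
      rintro _ ⟨v, hv, rfl⟩ f hf
      have h6 := congrArg (D W v) hf
      rwa [Derivation.leibniz, hw v hv, smul_zero, add_zero, h5, h5, smul_eq_mul] at h6)
    ⟨Sum.elim (fun i => q i) fun i => p i, h2, fun h => h1 (by
      rw [show (fun i : s => q i) = 0 from funext fun i => congrFun h (Sum.inl i), map_zero])⟩
  have h7 : Φ (f ∘ Sum.inl) ≠ 0 := fun h => by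
    have h8 : w * Φ (f ∘ Sum.inl) = Φ (f ∘ Sum.inr) := hf
    rw [h, mul_zero] at h8
    rcases j with j | j
    · exact one_ne_zero (hj.symm.trans (congrFun (h4 _ h) j))
    · exact one_ne_zero (hj.symm.trans (congrFun (h4 _ h8.symm) j))
  have h8 : ∀ e : s → s ⊕ s, Φ (f ∘ e) ∈ W.Fld {u | ∀ v ∈ V, d W v u = 0} := fun e => by
    rw [hΦ]
    exact sum_mem fun i _ => mul_mem (Uni.alg_mem_Fld fun v hv => h6 _ ⟨v, hv, rfl⟩ _)
      (Uni.ι_mem_Fld _ _)
  rw [eq_div_of_mul_eq h7 hf]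
  exact div_mem (h8 _) (h8 _)

lemma ev_cl (u : W.U) : ∀ᶠ n in atTop, u ∈ W.cl (Iio n) := by
  have h1 : u ∈ (AlgebraicIndependent.matroid ℂ W.U).closure (W.x '' univ) := by
    rw [AlgebraicIndependent.matroid_closure_eq]
    exact mem_cl_univ u
  obtain ⟨I, h2, h3, -, h4⟩ := Matroid.exists_mem_finite_closure_of_mem_closure h1
  obtain ⟨J, -, h5, rfl⟩ := h3.exists_subset_finite_image_eq h2
  rw [AlgebraicIndependent.matroid_closure_eq] at h4
  obtain ⟨m, hm⟩ := h5.bddAbove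
  exact (eventually_gt_atTop m).mono fun n hn =>
    cl_mono (s := J) (fun i hi => (hm hi).trans_lt hn) h4

lemma ev_Fld (w : W.Ω) : ∀ᶠ n in atTop, w ∈ W.Fld (W.cl (Iio n)) := by
  obtain ⟨C, -, h1, h2⟩ := Uni.exists_finite_Fld (Uni.mem_Fld_univ w)
  exact ((eventually_all_finite h1).2 fun u _ => ev_cl u).mono fun n hn => Uni.Fld_mono hn h2

end RIG

theorem blockRIG (hD : St_DER) (hV : St_VEC) : St_RIG := by
  intro K ι _ _ y hy W
  obtain ⟨t, ht, h1⟩ := RIG.L_mem (W := W) hy hV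
  let S : Set ℕ := {n | ∃ k : W.Ω ≃ₐ[W.U] W.Ω, Reg W.U (W.ι ∘ y) k ∧ Reg W.U (W.ι ∘ y) k.symm ∧
    Module.finrank W.U (LinearMap.range (RIG.L k)) = n}
  have hS : BddAbove S := ⟨Module.finrank W.U t, by
    rintro _ ⟨k, hk, hk', rfl⟩
    exact Submodule.finrank_mono (h1 k hk hk')⟩
  obtain ⟨k, hk, hk', h2⟩ := Nat.sSup_mem (s := S) ⟨_, 1, reg_id, reg_id, rfl⟩ hS
  obtain ⟨i⟩ := hy.nei
  haveI := hy.fin
  obtain ⟨N, h3⟩ := (eventually_all.2 fun l => RIG.ev_Fld (k (W.ι (y l / y i)))).exists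
  have h4 : ∀ a, k (W.ι a) ∈ W.Fld (W.cl (Iio N)) :=
    hy.eq_top i (S := (W.Fld (W.cl (Iio N))).comap ((k : W.Ω →+* W.Ω).comp W.ι)) (fun z => by
      change k (W.ι _) ∈ W.Fld _
      rw [Uni.ι_const, k.commutes]
      exact Uni.alg_mem_Fld ((W.cl _).algebraMap_mem z)) h3
  refine ⟨k, N, hk, hk', fun G _ _ α hα h5 => ?_⟩
  rw [← compl_Iio] at h5 ⊢
  have h6 : ∀ g v, RIG.L (α g) v ∈ LinearMap.range (RIG.L k) := fun g => by
    have h7 : Reg W.U (W.ι ∘ y) ⇑(k * (α g)⁻¹) := hk.mul (map_inv α g ▸ hα g⁻¹)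
    have h8 : Reg W.U (W.ι ∘ y) ⇑(k * (α g)⁻¹).symm := (hα g).mul hk'
    exact RIG.L_le h4 (h5 g) (h1 _ h7 h8) (h2 ▸ le_csSup hS ⟨_, h7, h8, rfl⟩)
  let V : Set (ℕ → W.U) := {v | (∀ i ∈ (Iio N)ᶜ, v i ∈ W.cl (Iio N)ᶜ) ∧
    ∀ g a, RIG.D W v (k (α g (k.symm (W.ι a)))) = 0}
  let C : Subalgebra ℂ W.U :=
    { carrier := {u | ∀ v ∈ V, RIG.d W v u = 0}
      mul_mem' := fun ha hb v hv => by
        rw [Derivation.leibniz, ha v hv, hb v hv, smul_zero, smul_zero, add_zero]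
      add_mem' := fun ha hb v hv => by rw [map_add, ha v hv, hb v hv, add_zero]
      algebraMap_mem' := fun z v _ => (RIG.d W v).map_algebraMap z }
  refine ⟨C, DER.ld (RIG.d W '' V) _ ?_ (fun e he h7 => ?_) C ?_,
    fun g a => RIG.mem_Fld V fun v hv => hv.2 g a⟩
  · rintro _ ⟨v, hv, rfl⟩ e he
    exact RIG.d_mem hv.1 he
  · choose v h8 h9 using fun j : ℕ => RIG.exists_comm α h4 h5 h6 (Pi.single j 1)
    have h10 : IsAlgebraic ℂ e := DER.const (fun j : ((Iio N)ᶜ : Set ℕ) => W.x j)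
      (fun j => RIG.d W (v j)) (fun j => map_add _) (fun j => (RIG.d W (v j)).leibniz)
      (fun j => (RIG.d W (v j)).map_algebraMap)
      (fun j => by rw [RIG.d_x, h8 _ _ j.2, Pi.single_eq_same])
      (fun j l h => by
        rw [RIG.d_x, h8 _ _ l.2, Pi.single_eq_of_ne fun h' => h (Subtype.ext h').symm])
      (by rw [← image_eq_range]; exact he)
      fun j => h7 _ ⟨_, ⟨fun l hl => by
        rw [h8 _ _ hl, Pi.single_apply]
        split_ifs
        exacts [one_mem _, zero_mem _], h9 j⟩, rfl⟩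
    exact minpoly.mem_range_of_degree_eq_one ℂ e
      (IsAlgClosed.degree_eq_one_of_irreducible ℂ (minpoly.irreducible h10.isIntegral))
  · rintro _ ⟨v, hv, rfl⟩ u hu
    exact hu v hv

end Pool.Agent.Lib.DU
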