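import Pool.Agent.Lib.DU.Blue

open Set Filter TensorProduct Pool.Agent.Lib.MP_e39d36_ag Pool.Agent.Lib.MP_e39d36_ag.Var
  Pool.Agent.Lib.MP_cc3443_ag

set_option linter.unusedSectionVars false
set_option linter.unusedVariables false

noncomputable section

namespace Pool.Agent.Lib.DU

namespace SER

variable {L J : Type} [Field L] [Algebra ℂ L] {u : J → L}

lemma hom (hu : ∀ a, u a ≠ 0) (a : J) {x : L} (hx : x ∈ chA u a) :
    ∀ᶠ d : ℕ in atTop, ∀ b, x * (u a / u b) ^ d ∈ chA u b := by
  induction hx using Algebra.adjoin_induction with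
  | mem y hy =>
    obtain ⟨j, rfl⟩ := hy
    filter_upwards [eventually_ge_atTop 1] with d hd b
    obtain ⟨d, rfl⟩ := Nat.exists_eq_add_of_le' hd
    have h : u j / u a * (u a / u b) ^ (d + 1) = u j / u b * (u a / u b) ^ d := by
      have := hu a; have := hu b
      rw [pow_succ]; field_simp
    rw [h]
    exact mul_mem (div_mem_chA u b j) (pow_mem (div_mem_chA u b a) d)
  | algebraMap c =>
    exact Eventually.of_forall fun d b =>
      mul_mem (Subalgebra.algebraMap_mem _ c) (pow_mem (div_mem_chA u b a) d)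
  | add y z _ _ hy hz =>
    filter_upwards [hy, hz] with d h1 h2 b
    rw [add_mul]; exact add_mem (h1 b) (h2 b)
  | mul y z _ _ hy hz =>
    obtain ⟨d1, h1⟩ := hy.exists
    obtain ⟨d2, h2⟩ := eventually_atTop.1 hz
    filter_upwards [eventually_ge_atTop (d1 + d2)] with d hd b
    obtain ⟨k, rfl⟩ := Nat.exists_eq_add_of_le hd
    rw [add_assoc, pow_add, mul_mul_mul_comm]
    exact mul_mem (h1 b) (h2 _ (Nat.le_add_right _ _) b)

lemma exists_den (hu : ∀ a, u a ≠ 0) (hf : ∀ a w, ∃ b ∈ chA u a, b ≠ 0 ∧ b * w ∈ chA u a)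
    (T : Set (J × L)) (hT : T.Finite) : ∃ (B : L) (e : ℕ), B ≠ 0 ∧ (∀ b, B / u b ^ e ∈ chA u b) ∧
      ∀ p ∈ T, B * p.2 / u p.1 ^ e ∈ chA u p.1 := by
  induction T, hT using Set.Finite.induction_on with
  | empty => exact ⟨1, 0, one_ne_zero, fun b => by simp, fun p hp => hp.elim⟩
  | @insert p T _ _ ih =>
    obtain ⟨B, e, hB, h1, h2⟩ := ih
    obtain ⟨b0, hb0, hb1, hb2⟩ := hf p.1 p.2
    obtain ⟨d, hd⟩ := (hom hu p.1 hb0).exists
    refine ⟨B * (b0 * u p.1 ^ d), e + d, mul_ne_zero hB (mul_ne_zero hb1 (pow_ne_zero _ (hu _))),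
      fun b => ?_, fun q hq => ?_⟩
    · have h : B * (b0 * u p.1 ^ d) / u b ^ (e + d) = B / u b ^ e * (b0 * (u p.1 / u b) ^ d) := by
        have := hu b
        rw [pow_add, div_pow]; field_simp
      rw [h]; exact mul_mem (h1 b) (hd b)
    · rcases hq with rfl | hq
      · have h : B * (b0 * u q.1 ^ d) * q.2 / u q.1 ^ (e + d) = B / u q.1 ^ e * (b0 * q.2) := by
          have := hu q.1
          rw [pow_add]; field_simp
        rw [h]; exact mul_mem (h1 _) hb2
      · have h : B * (b0 * u p.1 ^ d) * q.2 / u q.1 ^ (e + d) =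
            B * q.2 / u q.1 ^ e * (b0 * (u p.1 / u q.1) ^ d) := by
          have := hu q.1
          rw [pow_add, div_pow]; field_simp
        rw [h]; exact mul_mem (h2 q hq) (hd _)

variable {V κ : Type} [AddCommGroup V] [Module L V] [Fintype κ]

/-- Vectors whose coordinates have bounded denominators. -/
def bd (u : J → L) (v : Module.Basis κ L V) (B : L) (e : ℕ) (a : J) : Submodule (chA u a) V where
  carrier := {x | ∀ k, B * v.repr x k / u a ^ e ∈ chA u a}
  zero_mem' := fun k => by simp
  add_mem' := fun {x y} hx hy k => by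
    rw [map_add, Finsupp.add_apply, mul_add, add_div]; exact add_mem (hx k) (hy k)
  smul_mem' := fun c x hx k => by
    have h : B * v.repr (c • x) k / u a ^ e = c * (B * v.repr x k / u a ^ e) := by
      rw [Subalgebra.smul_def, map_smul, Finsupp.smul_apply, smul_eq_mul]; ring
    rw [h]; exact mul_mem c.2 (hx k)

lemma bd_fg (hu : ∀ a, u a ≠ 0) (v : Module.Basis κ L V) {B : L} (hB : B ≠ 0) (e : ℕ) (a : J) :
    (bd u v B e a).FG := by
  classical
  refine Submodule.fg_def.2 ⟨range fun k => (u a ^ e / B) • v k, finite_range _, le_antisymm ?_ ?_⟩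
  · rw [Submodule.span_le]
    rintro _ ⟨k, rfl⟩ l
    have := hu a
    rw [map_smul, Finsupp.smul_apply, smul_eq_mul, v.repr_self, Finsupp.single_apply]
    split_ifs
    · rw [show B * (u a ^ e / B * 1) / u a ^ e = 1 by field_simp]; exact one_mem _
    · simp
  · intro x hx
    rw [← v.sum_repr x]
    refine Submodule.sum_mem _ fun k _ => ?_
    have h : v.repr x k • v k =
        (⟨_, hx k⟩ : chA u a) • (u a ^ e / B) • v k := by
      have := hu a
      rw [Subalgebra.smul_def, smul_smul]
      congr 1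
      field_simp
    rw [h]
    exact Submodule.smul_mem _ _ (Submodule.subset_span ⟨k, rfl⟩)

/-- The sheaf of vectors whose coordinates have bounded denominators. -/
def bdSh (hu : ∀ a, u a ≠ 0) (v : Module.Basis κ L V) (B : L) (e : ℕ) : Sh u V where
  M := bd u v B e
  compat := fun a b x hx => by
    obtain ⟨n, hn⟩ := eventually_atTop.1 (eventually_all.2 fun k => hom hu a (hx k))
    refine ⟨n, fun k => ?_⟩
    have h : B * v.repr ((u a / u b) ^ n • x) k / u b ^ e =
        B * v.repr x k / u a ^ e * (u a / u b) ^ (n + e) := by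
      have := hu a; have := hu b
      rw [map_smul, Finsupp.smul_apply, smul_eq_mul, pow_add, div_pow _ _ e]; field_simp
    rw [h]; exact hn _ (Nat.le_add_right _ _) k b

end SER

open SER in
theorem blockSER (hF : St_FIL) (hH : St_H1) : St_SER := by
  intro L J V _ _ _ _ _ _ _ _ u hu hi hf S hS
  let v := Module.finBasis L V
  choose t ht hsp using fun a => Submodule.fg_def.1 (hS a)
  obtain ⟨B, e, hB, -, h2⟩ := exists_den hu hf
    (⋃ a, ⋃ k, (fun x => (a, v.repr x k)) '' t a)
    (finite_iUnion fun a => finite_iUnion fun k => (ht a).image _)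
  have hle : ∀ a, S.M a ≤ (bdSh hu v B e).M a := fun a => by
    rw [← hsp a, Submodule.span_le]
    intro x hx k
    exact h2 (a, v.repr x k) (mem_iUnion₂.2 ⟨a, k, x, hx, rfl⟩)
  obtain ⟨W, hW, h3⟩ := hF L J V u hu S (bdSh hu v B e) hle fun a => bd_fg hu v hB e a
  refine ⟨W, hW, fun η hη => ?_⟩
  have h4 : ∀ k, ∃ c, ∀ a, (B * v.repr (η a) k - c) / u a ^ e ∈ chA u a := fun k => by
    refine hH L J u hu hi e (fun a => B * v.repr (η a) k) fun a b => ?_
    obtain ⟨n, hn⟩ := hη a b
    refine ⟨n, ?_⟩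
    have h5 := hle a hn k
    rw [map_smul, map_sub, Finsupp.smul_apply, Finsupp.sub_apply, smul_eq_mul] at h5
    convert h5 using 2
    ring
  choose c hc using h4
  refine ⟨v.equivFun.symm fun k => c k / B, h3 _ (fun a b => ?_) fun a _ k => ?_⟩
  · simpa only [sub_sub_sub_cancel_right] using hη a b
  · have h5 : v.repr (v.equivFun.symm fun k => c k / B) k = c k / B := by
      rw [← v.equivFun_apply, LinearEquiv.apply_symm_apply]
    have h6 : B * v.repr (η a - v.equivFun.symm fun k => c k / B) k = B * v.repr (η a) k - c k := by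
      rw [map_sub, Finsupp.sub_apply, h5]; field_simp
    rw [h6]; exact hc k a

end Pool.Agent.Lib.DU
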