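import Pool.Agent.Lib.DU.Blue

open Set Filter TensorProduct Pool.Agent.Lib.MP_e39d36_ag Pool.Agent.Lib.MP_e39d36_ag.Var
  Pool.Agent.Lib.MP_cc3443_ag

set_option linter.unusedSectionVars false
set_option linter.unusedVariables false
set_option linter.style.haveILetI false

noncomputable section

namespace Pool.Agent.Lib.DU

namespace SMO

lemma map_map (A T K : Type) [CommRing A] [CommRing T] [CommRing K] [Algebra ℂ A] [Algebra ℂ T]
    [Algebra ℂ K] [Algebra A T] [Algebra A K] [Algebra T K] [IsScalarTower ℂ A T]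
    [IsScalarTower ℂ A K] [IsScalarTower ℂ T K] [IsScalarTower A T K] (m : Ω[A⁄ℂ]) :
    KaehlerDifferential.map ℂ ℂ T K (KaehlerDifferential.map ℂ ℂ A T m) =
      KaehlerDifferential.map ℂ ℂ A K m := by
  have hm : m ∈ Submodule.span A (range (KaehlerDifferential.D ℂ A)) := by
    rw [KaehlerDifferential.span_range_derivation]; trivial
  induction hm using Submodule.span_induction with
  | mem x hx =>
    obtain ⟨a, rfl⟩ := hx
    simp only [KaehlerDifferential.map_D, ← IsScalarTower.algebraMap_apply]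
  | zero => simp
  | add x y _ _ hx hy => simp only [map_add, hx, hy]
  | smul a x _ hx =>
    rw [map_smul, (KaehlerDifferential.map ℂ ℂ A K).map_smul, ← hx, ← algebraMap_smul T a,
      map_smul, algebraMap_smul]

lemma inj_aux (A T K : Type) [CommRing A] [CommRing T] [CommRing K] [Algebra ℂ A] [Algebra ℂ T]
    [Algebra ℂ K] [Algebra A T] [Algebra A K] [Algebra T K] [IsScalarTower ℂ A T]
    [IsScalarTower ℂ A K] [IsScalarTower ℂ T K] [IsScalarTower A T K] (M : Submonoid A)
    [IsLocalization M T] (δ : A) (hδ : ∀ m, KaehlerDifferential.map ℂ ℂ A K m = 0 → δ • m = 0)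
    (hu : IsUnit (algebraMap A T δ)) :
    Function.Injective (KaehlerDifferential.map ℂ ℂ T K) := by
  rw [injective_iff_map_eq_zero]
  intro ω hω
  obtain ⟨⟨m, s⟩, h⟩ := IsLocalizedModule.surj M (KaehlerDifferential.map ℂ ℂ A T) ω
  simp only [Submonoid.smul_def] at h
  have h1 : KaehlerDifferential.map ℂ ℂ A K m = 0 := by
    rw [← map_map A T K, ← h, ← algebraMap_smul T, map_smul, hω, smul_zero]
  have h2 : (algebraMap A T δ * algebraMap A T s) • ω = 0 := by
    rw [mul_smul, algebraMap_smul, algebraMap_smul, h, ← map_smul, hδ m h1, map_zero]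
  exact ((hu.mul (IsLocalization.map_units T s)).smul_eq_zero).1 h2

lemma exists_kill (A K : Type) [CommRing A] [IsDomain A] [Field K] [Algebra ℂ A] [Algebra ℂ K]
    [Algebra A K] [IsScalarTower ℂ A K] [IsFractionRing A K] [Algebra.FiniteType ℂ A] :
    ∃ δ : A, δ ≠ 0 ∧ ∀ m, KaehlerDifferential.map ℂ ℂ A K m = 0 → δ • m = 0 := by
  classical
  haveI : IsNoetherianRing A := Algebra.FiniteType.isNoetherianRing ℂ A
  obtain ⟨s, hs⟩ := IsNoetherian.noetherian (LinearMap.ker (KaehlerDifferential.map ℂ ℂ A K))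
  have h1 : ∀ m ∈ s, ∃ d : A, d ≠ 0 ∧ d • m = 0 := fun m hm => by
    have : KaehlerDifferential.map ℂ ℂ A K m = 0 := by
      rw [← LinearMap.mem_ker, ← hs]; exact Submodule.subset_span hm
    obtain ⟨d, hd⟩ := (IsLocalizedModule.eq_zero_iff (nonZeroDivisors A) _).1 this
    exact ⟨d, nonZeroDivisors.ne_zero d.2, hd⟩
  choose! d h2 h3 using h1
  refine ⟨∏ m ∈ s, d m, Finset.prod_ne_zero_iff.2 h2, fun m hm => ?_⟩
  rw [← LinearMap.mem_ker, ← hs] at hm
  induction hm using Submodule.span_induction with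
  | mem x hx => rw [← Finset.prod_erase_mul _ _ hx, mul_smul, h3 x hx, smul_zero]
  | zero => simp
  | add x y _ _ hx hy => rw [smul_add, hx, hy, add_zero]
  | smul a x _ hx => rw [smul_comm, hx, smul_zero]

end SMO

theorem blockSMO : St_SMO := by
  intro K _ _ X
  have h1 : ∀ i, ∃ δ : X.A i, δ ≠ 0 ∧
      ∀ m, KaehlerDifferential.map ℂ ℂ (X.A i) K m = 0 → δ • m = 0 := fun i => by
    haveI : IsFractionRing (X.A i) K := isFrac (R := (X.A i).toSubring) (X.frac i)
    haveI : Algebra.FiniteType ℂ (X.A i) := (Subalgebra.fg_iff_finiteType _).1 (X.fg i)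
    exact SMO.exists_kill _ K
  choose δ h2 h3 using h1
  refine ⟨⋃ i, {E | X.ord (δ i) E.1 ≠ 0}, finite_iUnion fun i => finite_ord _, fun x hx => ?_⟩
  obtain ⟨i, hi⟩ := X.chart x
  letI : Algebra (X.A i) (X.O x) := (Subring.inclusion hi.1).toAlgebra
  haveI : IsLocalization ((unS (X.O x)).comap (X.A i).toSubring.subtype) (X.O x) :=
    hi.isLocalization
  haveI : IsScalarTower ℂ (X.A i) (X.O x) := IsScalarTower.of_algebraMap_eq fun _ => rfl
  haveI : IsScalarTower (X.A i) (X.O x) K := IsScalarTower.of_algebraMap_eq fun _ => rfl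
  refine SMO.inj_aux (X.A i) (X.O x) K ((unS (X.O x)).comap (X.A i).toSubring.subtype) (δ i)
    (h3 i) (isUnit_iff_un.2 ⟨fun h => h2 i (Subtype.ext h), hi.1 (δ i).2, hartogs fun E hE => ?_⟩)
  have h4 : X.ord (δ i) E.1 = 0 := of_not_not fun h => hx E (mem_iUnion.2 ⟨i, h⟩) hE
  rw [ord_val] at h4 ⊢
  rw [od_inv]
  exact (neg_eq_zero.2 h4).ge

end Pool.Agent.Lib.DU
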