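import Pool.Agent.Lib.DU.Sp

open Set Filter TensorProduct Pool.Agent.Lib.MP_e39d36_ag Pool.Agent.Lib.MP_e39d36_ag.Var
  Pool.Agent.Lib.MP_cc3443_ag

set_option linter.unusedSectionVars false
set_option linter.unusedVariables false

noncomputable section

namespace Pool.Agent.Lib.DU

namespace SPEC

section charts

variable {k F ι : Type} [Field k] [Field F] [Algebra k F] {y : ι → F}

lemma prod_mul_mem [Fintype ι] {B : Subring F} {b z : ι → F} (hb : ∀ l, b l ∈ B)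
    (h : ∀ l, b l * z l ∈ B) (l : ι) : (∏ i, b i) * z l ∈ B := by
  classical
  rw [← Finset.prod_erase_mul _ _ (Finset.mem_univ l), mul_assoc]
  exact mul_mem (prod_mem fun i _ => hb i) (h l)

/-- A partition of unity adapted to a morphism. -/
lemma exists_unity [Fintype ι] {φ : F → F} (h : Reg k y φ) (j : ι) : ∃ f : ι → F,
    (∀ i, f i ∈ chK k y j) ∧ (∀ i l, f i * φ (y l / y i) ∈ chK k y j) ∧ ∑ i, f i = 1 := by
  let B := (chK k y j).toSubring
  let I : ι → Ideal B := fun i =>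
    { carrier := {f | ∀ l, f.1 * φ (y l / y i) ∈ B}
      zero_mem' := fun l => by simp
      add_mem' := fun ha hb l => by
        rw [Subring.coe_add, add_mul]; exact add_mem (ha l) (hb l)
      smul_mem' := fun c f hf l => by
        rw [smul_eq_mul, Subring.coe_mul, mul_assoc]; exact mul_mem c.2 (hf l) }
  by_cases h1 : ⨆ i, I i = ⊤
  · obtain ⟨f, h2, h3⟩ := (Submodule.mem_iSup_iff_exists_finsupp I 1).1 (h1 ▸ Submodule.mem_top)
    refine ⟨fun i => f i, fun i => (f i).2, fun i => h2 i, ?_⟩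
    rw [Finsupp.sum_fintype _ _ fun _ => rfl] at h3
    simpa using congrArg B.subtype h3
  · obtain ⟨p, hp, h2⟩ := Ideal.exists_le_maximal _ h1
    obtain ⟨T, h3, h4, h5⟩ := exists_locP p
    obtain ⟨i, hi⟩ := h T h3 j h4.1
    choose b h6 h7 h8 using fun l => h4.2 _ (hi l)
    exact absurd (h2 (Submodule.mem_iSup_of_mem i
      (show (⟨∏ l, b l, prod_mem fun l _ => h6 l⟩ : B) ∈ I i from prod_mul_mem h6 h8)))
      ((h5 _).1 (Un.prod fun l _ => h7 l))

variable (k y) in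
/-- Elements of a chart of degree at most `b`. -/
def Ab (i : ι) (b : ℕ) : Submodule k F := (Gam k y b).comap (LinearMap.mulRight k (y i ^ b))

lemma mem_Ab {i : ι} {b : ℕ} {a : F} :
    a ∈ Ab k y i b ↔ ∀ j, y j ≠ 0 → a * (y i / y j) ^ b ∈ chK k y j := by
  refine forall₂_congr fun j hj => ?_
  rw [LinearMap.mulRight_apply, zpow_natCast, div_pow, mul_div_assoc]

lemma Ab_mono (i : ι) : Monotone (Ab k y i) := fun b b' h a ha => mem_Ab.2 fun j hj => by
  obtain ⟨c, rfl⟩ := Nat.exists_eq_add_of_le h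
  rw [pow_add, ← mul_assoc]
  exact mul_mem (mem_Ab.1 ha j hj) (pow_mem (div_mem_chK y j i) c)

lemma ev_Ab {i : ι} (hi : y i ≠ 0) {a : F} (ha : a ∈ chK k y i) :
    ∀ᶠ b in atTop, a ∈ Ab k y i b := by
  have key : ∀ {a b}, a ∈ Ab k y i b → ∀ᶠ b in atTop, a ∈ Ab k y i b := fun h =>
    (eventually_ge_atTop _).mono fun _ hb => Ab_mono i hb h
  have ha' : a ∈ Algebra.adjoin k (range fun j => y j / y i) := ha
  clear ha
  induction ha' using Algebra.adjoin_induction with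
  | mem x hx =>
    obtain ⟨l, rfl⟩ := hx
    refine key (b := 1) (mem_Ab.2 fun j hj => ?_)
    rw [pow_one, div_mul_div_cancel₀ hi]
    exact div_mem_chK y j l
  | algebraMap r =>
    refine key (b := 0) (mem_Ab.2 fun j hj => ?_)
    rw [pow_zero, mul_one]
    exact (chK k y j).algebraMap_mem r
  | add x z _ _ h1 h2 => exact (h1.and h2).mono fun b h => add_mem h.1 h.2
  | mul x z _ _ h1 h2 =>
    obtain ⟨b, h3, h4⟩ := (h1.and h2).exists
    refine key (b := b + b) (mem_Ab.2 fun j hj => ?_)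
    rw [pow_add, mul_mul_mul_comm]
    exact mul_mem (mem_Ab.1 h3 j hj) (mem_Ab.1 h4 j hj)

end charts

open Uni

variable {K ι : Type} [Field K] [Algebra ℂ K] {y : ι → K} {W : Uni K} {P : Pl W.U}

lemma span_Ab {i : ι} (hi : y i ≠ 0) {w : W.Ω} (hw : w ∈ chK W.U (W.ι ∘ y) i) :
    ∀ᶠ b in atTop, w ∈ Submodule.span W.U (W.ι '' Ab ℂ y i b) := by
  rw [mem_chK_up] at hw
  induction hw using Submodule.span_induction with
  | mem x hx =>
    obtain ⟨a, ha, rfl⟩ := hx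
    exact (ev_Ab hi ha).mono fun b hb => Submodule.subset_span ⟨a, hb, rfl⟩
  | zero => exact Eventually.of_forall fun _ => zero_mem _
  | add x z _ _ h1 h2 => exact (h1.and h2).mono fun b h => add_mem h.1 h.2
  | smul u x _ h => exact h.mono fun b h => Submodule.smul_mem _ u h

lemma gen_reg [Finite ι] {φ : W.Ω →ₐ[W.U] W.Ω} (h : Reg W.U (W.ι ∘ y) φ) :
    ∀ᶠ P in DU.gen W.U, ∀ ψ : K → K, (∀ a, W.Sp P (φ (W.ι a)) (ψ a)) → Reg ℂ y ψ := by
  have := Fintype.ofFinite ι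
  choose f h1 h2 h3 using exists_unity h
  filter_upwards [eventually_all.2 fun j => eventually_all.2 fun i =>
    gen_span (mem_chK_up.1 (h1 j i)), eventually_all.2 fun j => eventually_all.2 fun i =>
    eventually_all.2 fun l => gen_span (mem_chK_up.1 (h2 j i l))] with P h4 h5 ψ hψ T hT j hj
  choose a h6 h7 using h4 j
  have h8 : ∑ i, a i = 1 := (Sp.sum fun i _ => h7 i).unique (h3 j ▸ sp_one)
  obtain ⟨i, -, hi⟩ := hT.of_sum (s := Finset.univ) (fun i _ => hj (h6 i)) (h8 ▸ Un.one)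
  refine ⟨i, fun l => hi.mem_of_mul ?_⟩
  obtain ⟨c, h9, h10⟩ := h5 j i l
  have h11 := (h7 i).mul (hψ (y l / y i))
  rw [map_div₀ W.ι] at h11
  rw [h11.unique h10]
  exact hj h9

lemma gen_deg (hy : Coords ℂ y) (φ : W.Ω →ₐ[W.U] W.Ω) : ∃ b : ℕ, ∀ᶠ P in DU.gen W.U,
    ∀ ψ : K →ₐ[ℂ] K, (∀ a, W.Sp P (φ (W.ι a)) (ψ a)) → Deg ℂ y b ψ := by
  have := hy.fin
  have := Fintype.ofFinite ι
  obtain ⟨i⟩ := hy.nei
  choose q h1 h2 h3 using fun l => (coords_up (W := W) hy).frac i (φ (W.ι (y l / y i)))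
  have h4 := prod_mul_mem (B := (chK W.U (W.ι ∘ y) i).toSubring) h1 h3
  obtain ⟨b, hb⟩ := (eventually_all.2 fun l => span_Ab (hy.ne i) (h4 l)).exists
  refine ⟨b, ?_⟩
  filter_upwards [eventually_all.2 fun l => gen_span (hb l),
    gen_sp_ne (Finset.prod_ne_zero_iff.2 fun l (_ : l ∈ Finset.univ) => h2 l)] with P h5 h6 ψ hψ
  obtain ⟨c, h7, h8⟩ := h6
  choose a h9 h10 using h5
  have h11 : ∀ l, a l = c * ψ (y l / y i) := fun l => (h10 l).unique (h8.mul (hψ _))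
  refine ⟨fun l => a l * y i ^ b, h9, ⟨i, ?_⟩, fun l m => ?_⟩
  · beta_reduce
    rw [h11, div_self (hy.ne i), map_one, mul_one]
    exact mul_ne_zero h7 (pow_ne_zero _ (hy.ne i))
  · simp only [h11, map_div₀]
    ring

variable (P) in
/-- The images of the elements of `A` specialise. -/
def Gd (A : Subalgebra ℂ K) (φ : W.Ω →ₐ[W.U] W.Ω) : Prop := ∀ a ∈ A, ∃ c, W.Sp P (φ (W.ι a)) c

variable (P) in
/-- `w` and `a` have the same specialisation after every good map. -/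
def Eqv (A : Subalgebra ℂ K) (w : W.Ω) (a : K) : Prop :=
  a ∈ A ∧ ∀ φ : W.Ω →ₐ[W.U] W.Ω, Gd P A φ → ∀ c, W.Sp P (φ (W.ι a)) c → W.Sp P (φ w) c

variable {A : Subalgebra ℂ K} {w w' : W.Ω} {a a' : K}

lemma eqv_ι (ha : a ∈ A) : Eqv P A (W.ι a) a := ⟨ha, fun _ _ _ h => h⟩

lemma Eqv.add (h : Eqv P A w a) (h' : Eqv P A w' a') : Eqv P A (w + w') (a + a') :=
  ⟨add_mem h.1 h'.1, fun φ hφ c hc => by
    obtain ⟨d, hd⟩ := hφ a h.1
    obtain ⟨d', hd'⟩ := hφ a' h'.1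
    rw [map_add, map_add] at hc
    rw [map_add, hc.unique (hd.add hd')]
    exact (h.2 φ hφ d hd).add (h'.2 φ hφ d' hd')⟩

lemma Eqv.mul (h : Eqv P A w a) (h' : Eqv P A w' a') : Eqv P A (w * w') (a * a') :=
  ⟨mul_mem h.1 h'.1, fun φ hφ c hc => by
    obtain ⟨d, hd⟩ := hφ a h.1
    obtain ⟨d', hd'⟩ := hφ a' h'.1
    rw [map_mul, map_mul] at hc
    rw [map_mul, hc.unique (hd.mul hd')]
    exact (h.2 φ hφ d hd).mul (h'.2 φ hφ d' hd')⟩

lemma eqv_val {u : W.U} {c : ℂ} (h : P.Val u c) :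
    Eqv P A (algebraMap W.U W.Ω u) (algebraMap ℂ K c) :=
  ⟨A.algebraMap_mem c, fun φ hφ d hd => by
    rw [ι_const, φ.commutes] at hd
    rw [φ.commutes, hd.unique (sp_val (P.val_const c))]
    exact sp_val h⟩

lemma Eqv.sp (h : Eqv P A w a) : W.Sp P w a :=
  h.2 (AlgHom.id _ _) (fun a _ => ⟨a, sp_ι P a⟩) a (sp_ι P a)

lemma gen_eqv (h : w ∈ Submodule.span W.U (W.ι '' A.toSubmodule)) :
    ∀ᶠ P in DU.gen W.U, ∃ a, Eqv P A w a := by
  induction h using Submodule.span_induction with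
  | mem x hx =>
    obtain ⟨a, ha, rfl⟩ := hx
    exact Eventually.of_forall fun P => ⟨a, eqv_ι ha⟩
  | zero => exact Eventually.of_forall fun P => ⟨0, by simpa using eqv_ι (P := P) A.zero_mem⟩
  | add x y _ _ hx hy => exact (hx.and hy).mono fun P ⟨⟨a, h1⟩, b, h2⟩ => ⟨_, h1.add h2⟩
  | smul u x _ hx =>
    refine (hx.and (gen_val u)).mono fun P ⟨⟨a, h1⟩, c, h3⟩ => ⟨algebraMap ℂ K c * a, ?_⟩
    rw [Algebra.smul_def]
    exact (eqv_val h3).mul h1

lemma gen_gd [Finite ι] (i : ι) (φ : W.Ω →ₐ[W.U] W.Ω) :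
    ∀ᶠ P in DU.gen W.U, Gd P (chK ℂ y i) φ := by
  filter_upwards [eventually_all.2 fun l => gen_sp (φ (W.ι (y l / y i)))] with P hP a ha
  have ha' : a ∈ Algebra.adjoin ℂ (range fun j => y j / y i) := ha
  clear ha
  induction ha' using Algebra.adjoin_induction with
  | mem x hx => obtain ⟨l, rfl⟩ := hx; exact hP l
  | algebraMap r => exact ⟨_, by rw [ι_const, φ.commutes]; exact sp_val (P.val_const r)⟩
  | add x z _ _ h1 h2 =>
    obtain ⟨c, h1⟩ := h1
    obtain ⟨d, h2⟩ := h2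
    exact ⟨_, by rw [map_add, map_add]; exact h1.add h2⟩
  | mul x z _ _ h1 h2 =>
    obtain ⟨c, h1⟩ := h1
    obtain ⟨d, h2⟩ := h2
    exact ⟨_, by rw [map_mul, map_mul]; exact h1.mul h2⟩

lemma gen_inj (hy : Coords ℂ y) (i : ι) (φ φ' : W.Ω →ₐ[W.U] W.Ω) (hφ : ∀ w, φ' (φ w) = w) :
    ∀ᶠ P in DU.gen W.U, ∀ a ∈ chK ℂ y i, W.Sp P (φ (W.ι a)) 0 → a = 0 := by
  have := hy.fin
  choose q h1 h2 h3 using fun l => (coords_up (W := W) hy).frac i (φ (W.ι (y l / y i)))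
  filter_upwards [gen_gd (y := y) i φ', eventually_all.2 fun l => gen_eqv (mem_chK_up.1 (h1 l)),
    eventually_all.2 fun l => gen_eqv (mem_chK_up.1 (h3 l)),
    eventually_all.2 fun l => gen_sp_ne ((map_ne_zero φ').2 (h2 l))] with P h4 h5 h6 h7 a ha h0
  have key : ∃ q b c b', Eqv P (chK ℂ y i) q b ∧ Eqv P (chK ℂ y i) (q * φ (W.ι a)) c ∧ b' ≠ 0 ∧
      W.Sp P (φ' q) b' := by
    have ha' : a ∈ Algebra.adjoin ℂ (range fun j => y j / y i) := ha
    clear ha h0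
    induction ha' using Algebra.adjoin_induction with
    | mem x hx =>
      obtain ⟨l, rfl⟩ := hx
      obtain ⟨b, hb⟩ := h5 l
      obtain ⟨c, hc⟩ := h6 l
      obtain ⟨b', hb', hb''⟩ := h7 l
      exact ⟨_, _, _, _, hb, hc, hb', hb''⟩
    | algebraMap r =>
      refine ⟨1, 1, algebraMap ℂ K r, 1, by simpa using eqv_ι (P := P) (chK ℂ y i).one_mem, ?_,
        one_ne_zero, by simpa using sp_one⟩
      rw [one_mul, ι_const, φ.commutes]
      exact eqv_val (P.val_const r)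
    | add x z _ _ e1 e2 =>
      obtain ⟨q, b, c, b', e1, e3, e4, e5⟩ := e1
      obtain ⟨q', d, e, d', e2, e6, e7, e8⟩ := e2
      refine ⟨_, _, c * d + e * b, _, e1.mul e2, ?_, mul_ne_zero e4 e7,
        by rw [map_mul]; exact e5.mul e8⟩
      convert (e3.mul e2).add (e6.mul e1) using 1
      rw [map_add, map_add]; ring
    | mul x z _ _ e1 e2 =>
      obtain ⟨q, b, c, b', e1, e3, e4, e5⟩ := e1
      obtain ⟨q', d, e, d', e2, e6, e7, e8⟩ := e2
      refine ⟨_, _, c * e, _, e1.mul e2, ?_, mul_ne_zero e4 e7, by rw [map_mul]; exact e5.mul e8⟩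
      convert e3.mul e6 using 1
      rw [map_mul, map_mul]; ring
  obtain ⟨q, b, c, b', e1, e2, e3, e4⟩ := key
  have e5 : c = 0 := e2.sp.unique (by simpa using e1.sp.mul h0)
  have e6 := e2.2 φ' h4 0 (by simpa [e5] using sp_zero)
  rw [map_mul, hφ] at e6
  exact (mul_eq_zero.1 ((e4.mul (sp_ι P a)).unique e6)).resolve_left e3

lemma gen_hom (hy : Coords ℂ y) (φ φ' : W.Ω →ₐ[W.U] W.Ω) (hφ : ∀ w, φ' (φ w) = w) :
    ∀ᶠ P in DU.gen W.U, ∃ ψ : K →ₐ[ℂ] K, ∀ a, W.Sp P (φ (W.ι a)) (ψ a) := by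
  have := hy.fin
  obtain ⟨i⟩ := hy.nei
  filter_upwards [gen_gd (y := y) i φ, gen_inj hy i φ φ' hφ] with P h1 h2
  have h3 : ∀ a, ∃ c, W.Sp P (φ (W.ι a)) c := fun a => by
    obtain ⟨b, h4, h5, h6⟩ := hy.frac i a
    obtain ⟨c, hc⟩ := h1 _ h6
    obtain ⟨d, hd⟩ := h1 _ h4
    have h7 := hc.div hd fun h => h5 (h2 b h4 (h ▸ hd))
    rw [← map_div₀, ← map_div₀, mul_div_cancel_left₀ _ h5] at h7
    exact ⟨_, h7⟩
  choose ψ hψ using h3
  exact ⟨{ toFun := ψ
           map_one' := (hψ 1).unique (by simpa using sp_one)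
           map_mul' := fun a b => (hψ _).unique (by
             rw [map_mul, map_mul]; exact (hψ a).mul (hψ b))
           map_zero' := (hψ 0).unique (by simpa using sp_zero)
           map_add' := fun a b => (hψ _).unique (by
             rw [map_add, map_add]; exact (hψ a).add (hψ b))
           commutes' := fun c => (hψ _).unique (by
             rw [ι_const, φ.commutes]; exact sp_val (P.val_const c)) }, hψ⟩

end SPEC

open SPEC Uni in
theorem blockSPEC : St_SPEC := by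
  intro K ι _ _ y hy W κ h1 h2
  have := hy.fin
  obtain ⟨b, hb⟩ := gen_deg hy (W := W) κ
  refine ⟨b, ?_⟩
  filter_upwards [hb, gen_hom hy (W := W) κ κ.symm κ.symm_apply_apply,
    gen_hom hy (W := W) κ.symm κ κ.apply_symm_apply, gen_reg (φ := (κ : W.Ω →ₐ[W.U] W.Ω)) h1,
    gen_reg (φ := (κ.symm : W.Ω →ₐ[W.U] W.Ω)) h2] with P h3 ⟨ψ, h4⟩ ⟨ψ', h5⟩ h6 h7
  have h8 : ∀ a, ψ (ψ' a) = a := fun a => (Sp.map h4 (h5 a)).unique (by simpa using sp_ι P a)
  have h9 : ∀ a, ψ' (ψ a) = a := fun a => (Sp.map h5 (h4 a)).unique (by simpa using sp_ι P a)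
  exact ⟨AlgEquiv.ofAlgHom ψ ψ' (AlgHom.ext h8) (AlgHom.ext h9), h4, h5, h6 _ h4, h7 _ h5, h3 ψ h4⟩

end Pool.Agent.Lib.DU
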