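import Pool.Agent.Lib.DU.DER

open Set Filter TensorProduct Pool.Agent.Lib.MP_e39d36_ag Pool.Agent.Lib.MP_e39d36_ag.Var
  Pool.Agent.Lib.MP_cc3443_ag

set_option linter.unusedSectionVars false
set_option linter.unusedVariables false
set_option linter.style.haveILetI false

noncomputable section

namespace Pool.Agent.Lib.DU

namespace UNI

/-- The algebraic closure of a field of rational functions in countably many variables. -/
abbrev Big (k : Type) [Field k] : Type := AlgebraicClosure (FractionRing (MvPolynomial ℕ k))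

/-- The variables. -/
def var (k : Type) [Field k] (i : ℕ) : Big k :=
  algebraMap (MvPolynomial ℕ k) (Big k) (MvPolynomial.X i)

theorem inj (k : Type) [Field k] :
    Function.Injective (algebraMap (MvPolynomial ℕ k) (Big k)) := by
  rw [IsScalarTower.algebraMap_eq (MvPolynomial ℕ k) (FractionRing (MvPolynomial ℕ k)) (Big k)]
  exact (algebraMap (FractionRing (MvPolynomial ℕ k)) (Big k)).injective.comp
    (IsFractionRing.injective _ _)

instance (k : Type) [Field k] : FaithfulSMul (MvPolynomial ℕ k) (Big k) :=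
  (faithfulSMul_iff_algebraMap_injective _ _).2 (inj k)

instance (k : Type) [Field k] : Algebra.IsAlgebraic (MvPolynomial ℕ k) (Big k) :=
  haveI : Algebra.IsAlgebraic (MvPolynomial ℕ k) (FractionRing (MvPolynomial ℕ k)) :=
    IsLocalization.isAlgebraic _ (nonZeroDivisors _)
  Algebra.IsAlgebraic.trans _ (FractionRing (MvPolynomial ℕ k)) _

theorem tb (k : Type) [Field k] : IsTranscendenceBasis k (var k) :=
  (IsTranscendenceBasis.mvPolynomial ℕ k).algebraMap_comp

theorem dom (K : Type) [Field K] [Algebra ℂ K] : IsDomain (K ⊗[ℂ] Big ℂ) := by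
  classical
  haveI : CharZero K := charZero_of_injective_algebraMap (algebraMap ℂ K).injective
  haveI : CharZero (Big K) := charZero_of_injective_algebraMap (algebraMap K (Big K)).injective
  have hind : AlgebraicIndependent ℂ (var K) :=
    (tb K).1.restrictScalars (algebraMap ℂ K).injective
  letI : Algebra (MvPolynomial ℕ ℂ) (Big K) :=
    (MvPolynomial.aeval (var K) : MvPolynomial ℕ ℂ →ₐ[ℂ] Big K).toRingHom.toAlgebra
  have hA : ∀ a, algebraMap (MvPolynomial ℕ ℂ) (Big K) a = MvPolynomial.aeval (var K) a :=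
    fun _ => rfl
  haveI : IsScalarTower ℂ (MvPolynomial ℕ ℂ) (Big K) := IsScalarTower.of_algebraMap_eq fun c => by
    rw [hA]; exact ((MvPolynomial.aeval (var K) : _ →ₐ[ℂ] Big K).commutes c).symm
  haveI : FaithfulSMul (MvPolynomial ℕ ℂ) (Big K) :=
    (faithfulSMul_iff_algebraMap_injective _ _).2 hind
  let j0 : Big ℂ →ₐ[MvPolynomial ℕ ℂ] Big K := IsAlgClosed.lift
  let j : Big ℂ →ₐ[ℂ] Big K := j0.restrictScalars ℂ
  have hj : ∀ i, j (var ℂ i) = var K i := fun i => by
    change j0 (algebraMap _ _ _) = _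
    rw [j0.commutes, hA, MvPolynomial.aeval_X]
  choose D hD using fun i : ℕ => blockDER K (Big K) ℕ _ (tb K) (Pi.single i 1)
  have hle : ∀ b ∈ Algebra.adjoin ℂ (range (var K)), b ∈ j.fieldRange := by
    intro b hb
    refine (Algebra.adjoin_le (S := j.fieldRange.toSubalgebra) ?_) hb
    rintro _ ⟨i, rfl⟩
    exact ⟨_, hj i⟩
  have halg : ∀ e ∈ j.fieldRange, IsAlgebraic (Algebra.adjoin ℂ (range (var K))) e := by
    rintro _ ⟨u, rfl⟩
    have h1 : IsAlgebraic (MvPolynomial ℕ ℂ) (j0 u) :=
      (Algebra.IsAlgebraic.isAlgebraic u).algHom j0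
    refine IsAlgebraic.ringHom_of_comp_eq
      (hind.aevalEquiv : MvPolynomial ℕ ℂ ≃ₐ[ℂ] _).toRingEquiv.toRingHom (RingHom.id _) h1
      hind.aevalEquiv.injective ?_
    exact RingHom.ext fun a => hind.algebraMap_aevalEquiv a
  have hk : ∀ i c, D i (algebraMap ℂ (Big K) c) = 0 := fun i c => by
    rw [IsScalarTower.algebraMap_apply ℂ K (Big K)]
    exact (D i).map_algebraMap _
  have H := DER.ld (range D) j.fieldRange (by
      rintro _ ⟨i, rfl⟩ e he
      refine DER.alg_self (D i) (Algebra.adjoin ℂ (range (var K))).toSubring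
        j.fieldRange.toSubfield hle ?_ he (halg e he)
      refine DER.adjoin0 (D i) (map_add _) (D i).leibniz (hk i) _ j.fieldRange.toSubfield hle
        (DER.selfMod _) ?_
      rintro _ ⟨l, rfl⟩
      change D i (var K l) ∈ j.fieldRange
      rw [hD, Pi.single_apply]
      split_ifs
      · exact one_mem _
      · exact zero_mem _)
    (fun e he h => by
      have h1 := DER.const (k := ℂ) (var K) (fun i => D i) (fun i => map_add _)
        (fun i => (D i).leibniz) hk (fun i => by simp [hD]) (fun i l hl => by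
          simp [hD, hl.symm]) (halg e he) fun i => h _ ⟨i, rfl⟩
      exact minpoly.mem_range_of_degree_eq_one ℂ e
        (IsAlgClosed.degree_eq_one_of_irreducible ℂ (minpoly.irreducible h1.isIntegral)))
    (IsScalarTower.toAlgHom ℂ K (Big K)).range (by
      rintro _ ⟨i, rfl⟩ _ ⟨c, rfl⟩
      exact (D i).map_algebraMap c)
  exact Subalgebra.LinearDisjoint.isDomain_of_injective (fa := IsScalarTower.toAlgHom ℂ K (Big K))
    (fb := j) (algebraMap K (Big K)).injective j.injective H.symm

end UNI

theorem blockUNI : St_UNI := by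
  intro K _ _
  haveI := UNI.dom K
  let T := K ⊗[ℂ] UNI.Big ℂ
  let Ω := FractionRing T
  let ψ : T →ₐ[ℂ] Ω := IsScalarTower.toAlgHom ℂ T Ω
  let f : K →ₐ[ℂ] Ω := ψ.comp Algebra.TensorProduct.includeLeft
  let g : UNI.Big ℂ →ₐ[ℂ] Ω := ψ.comp Algebra.TensorProduct.includeRight
  have hp : Algebra.TensorProduct.productMap f g = ψ := by
    refine Algebra.TensorProduct.ext' fun a b => ?_
    simp only [Algebra.TensorProduct.productMap_apply_tmul, f, g, AlgHom.comp_apply]
    refine (map_mul ψ _ _).symm.trans (congrArg ψ ?_)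
    simp [T]
  have hψ : Function.Injective ψ := IsFractionRing.injective T Ω
  refine ⟨@Uni.mk K _ _ (UNI.Big ℂ) Ω _ _ _ _ g.toRingHom.toAlgebra f.toRingHom.toAlgebra
    (@IsScalarTower.of_algebraMap_eq _ _ _ _ _ _ _ g.toRingHom.toAlgebra _
      fun c => (g.commutes c).symm)
    (@IsScalarTower.of_algebraMap_eq _ _ _ _ _ _ _ f.toRingHom.toAlgebra _
      fun c => (f.commutes c).symm) _ (UNI.var ℂ) (UNI.tb ℂ) (hp ▸ hψ) ?_⟩
  rw [eq_top_iff]
  rintro z -
  have h1 : ∀ t : T, ψ t ∈ Subfield.closure (range f ∪ range g) := by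
    intro t
    induction t using TensorProduct.induction_on with
    | zero => rw [map_zero]; exact zero_mem _
    | add a b ha hb => rw [map_add]; exact add_mem ha hb
    | tmul a b =>
      rw [← hp, Algebra.TensorProduct.productMap_apply_tmul]
      exact mul_mem (Subfield.subset_closure (Or.inl ⟨a, rfl⟩))
        (Subfield.subset_closure (Or.inr ⟨b, rfl⟩))
  obtain ⟨a, b, -, rfl⟩ := IsFractionRing.div_surjective (A := T) z
  exact div_mem (h1 a) (h1 b)

end Pool.Agent.Lib.DU
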