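import Pool.Agent.Lib.DU.H0
import Pool.Agent.Lib.DU.H1
import Pool.Agent.Lib.DU.FIL
import Pool.Agent.Lib.DU.SER
import Pool.Agent.Lib.DU.PROb
import Pool.Agent.Lib.DU.CURVE
import Pool.Agent.Lib.DU.GOOD
import Pool.Agent.Lib.DU.LOG
import Pool.Agent.Lib.DU.SMO
import Pool.Agent.Lib.DU.FD
import Pool.Agent.Lib.DU.RT
import Pool.Agent.Lib.DU.REGK
import Pool.Agent.Lib.DU.REGB
import Pool.Agent.Lib.DU.BPF
import Pool.Agent.Lib.DU.DER
import Pool.Agent.Lib.DU.UNI
import Pool.Agent.Lib.DU.VEC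
import Pool.Agent.Lib.DU.CHEV
import Pool.Agent.Lib.DU.RIG
import Pool.Agent.Lib.DU.SPEC
import Pool.Agent.Lib.DU.GEN
import Pool.Agent.Lib.DU.FC
import Pool.Agent.Lib.DU.CORE
import Pool.Agent.Lib.DU.END

namespace Pool.Agent.Lib.DU

theorem mainFD : St_FD :=
  blockFD (blockLOG PROb.pro1 (blockSER (blockFIL blockH0) blockH1)) blockSMO blockRT
    (blockGOOD PROb.pro PROb.pic blockCURVE)

theorem mainFC : St_FC :=
  blockFC mainFD (blockREGK blockCURVE) blockREGB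
    (blockBDD (blockBPF PROb.pro1 PROb.pic blockCURVE)) blockFINR
    (blockCORE blockUNI (blockRIG blockDER (blockVEC blockH0)) blockSPEC
      (blockGEN blockH0 blockCHEV) blockCHEV)

end Pool.Agent.Lib.DU
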