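import Pool.Agent.Lib.DU.Blue

open Set Filter TensorProduct Pool.Agent.Lib.MP_e39d36_ag Pool.Agent.Lib.MP_e39d36_ag.Var
  Pool.Agent.Lib.MP_cc3443_ag

set_option linter.unusedSectionVars false
set_option linter.unusedVariables false

noncomputable section

namespace Pool.Agent.Lib.DU

namespace VEC

variable {k F ι : Type} [Field k] [Field F] [Algebra k F] {y : ι → F} {T : Subring F} {i j : ι}

lemma div_mem (y : ι → F) (i j : ι) : y j / y i ∈ chK k y i := Algebra.subset_adjoin ⟨j, rfl⟩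

lemma ch_le (hc : ∀ a : k, algebraMap k F a ∈ T) (h : ∀ j, y j / y i ∈ T) :
    (chK k y i).toSubring ≤ T := fun z hz => by
  have hz' : z ∈ Algebra.adjoin k (range fun j => y j / y i) := hz
  induction hz' using Algebra.adjoin_induction with
  | mem x hx => obtain ⟨j, rfl⟩ := hx; exact h j
  | algebraMap r => exact hc r
  | add x y hx hy h1 h2 => exact add_mem (h1 hx) (h2 hy)
  | mul x y hx hy h1 h2 => exact mul_mem (h1 hx) (h2 hy)

lemma ch_le_of_un (h : (chK k y i).toSubring ≤ T) (hu : Un T (y j / y i)) :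
    (chK k y j).toSubring ≤ T :=
  ch_le (fun a => h ((chK k y i).algebraMap_mem a)) fun l => by
    have h0 := (div_ne_zero_iff.1 hu.1).2
    rw [← div_div_div_cancel_right₀ h0]
    exact hu.div_mem (h (div_mem y i l))

lemma reg_le (φ : F ≃ₐ[k] F) (h : Reg k y φ) (hT : IsLoc T) (hj : (chK k y j).toSubring ≤ T) :
    ∃ i, (chK k y i).toSubring ≤ T.comap (φ : F →+* F) := by
  obtain ⟨i, hi⟩ := h T hT j hj
  exact ⟨i, ch_le (fun a => by
    change φ _ ∈ T
    rw [φ.commutes]; exact hj ((chK k y j).algebraMap_mem a)) hi⟩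

lemma loc_stable (D : Derivation ℤ F F) {A : Subring F} (hA : ∀ a ∈ A, D a ∈ A) :
    ∀ z ∈ loc A T, D z ∈ loc A T := by
  rintro z ⟨b, h1, h2, h3⟩
  refine ⟨b * b, mul_mem h1 h1, Un.mul h2 h2, ?_⟩
  have h4 : b * b * D z = b * D (b * z) - b * z * D b := by
    rw [D.leibniz, smul_eq_mul, smul_eq_mul]; ring
  rw [h4]
  exact sub_mem (mul_mem h1 (hA _ h3)) (mul_mem h3 (hA _ h1))

lemma twist (hy : ∀ i, y i ≠ 0) (φ : F ≃ₐ[k] F) (h1 : Reg k y φ) (h2 : Reg k y φ.symm)
    (D : Derivation ℤ F F) (hD : ∀ j, ∀ a ∈ chK k y j, D a ∈ chK k y j) (j : ι) (a : F)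
    (ha : a ∈ chK k y j) : φ.symm (D (φ a)) ∈ chK k y j := by
  refine mem_of_forall_loc (B := (chK k y j).toSubring) fun T hT hl => ?_
  obtain ⟨i, hi⟩ := reg_le φ.symm h2 hT hl.1
  have hd := dom_loc hi
  have hT2 := hd.isLoc (hT.comap _)
  obtain ⟨l, hl'⟩ := reg_le φ h1 hT2 locOf_loc.1
  have hle : ∀ z, φ z ∈ loc (chK k y i).toSubring (T.comap (φ.symm : F →+* F)) → z ∈ T :=
    fun z hz => by simpa using hd.1 hz
  have hu : Un ((loc (chK k y i).toSubring (T.comap (φ.symm : F →+* F))).comap (φ : F →+* F))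
      (y j / y l) := by
    rw [un_comap]
    refine hd.2 _ (hl' (div_mem y l j)) (un_comap.2 ?_)
    have : (φ.symm : F →+* F) ((φ : F →+* F) (y j / y l)) = y j / y l := φ.symm_apply_apply _
    rw [this]
    exact ⟨div_ne_zero (hy j) (hy l), hle _ (hl' (div_mem y l j)), by
      rw [inv_div]; exact hl.1 (div_mem y j l)⟩
  exact hd.1 (loc_stable D (hD i) _ (ch_le_of_un hl' hu ha))

variable (k y) in
/-- Regular vector fields, as functions. -/
def vf : Submodule k (F → F) where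
  carrier := {f | ∃ D : Derivation k F F, ⇑D = f ∧ ∀ j, ∀ a ∈ chK k y j, D a ∈ chK k y j}
  zero_mem' := ⟨0, rfl, fun _ _ _ => zero_mem _⟩
  add_mem' := by
    rintro _ _ ⟨D, rfl, h1⟩ ⟨E, rfl, h2⟩
    exact ⟨D + E, rfl, fun j a ha => add_mem (h1 j a ha) (h2 j a ha)⟩
  smul_mem' := by
    rintro c _ ⟨D, rfl, h1⟩
    exact ⟨c • D, rfl, fun j a ha => Subalgebra.smul_mem _ (h1 j a ha) c⟩

lemma mem_Gam (hy : ∀ i, y i ≠ 0) (i l : ι) (f : vf k y) :
    y i ^ 2 * f.1 (y l / y i) ∈ Gam k y 2 := fun j hj => by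
  obtain ⟨_, D, rfl, hD⟩ := f
  have h1 : y l / y i = (y l / y j) / (y i / y j) := (div_div_div_cancel_right₀ hj _ _).symm
  have h2 : y i ^ 2 * D (y l / y i) / y j ^ (2 : ℤ) =
      y i / y j * D (y l / y j) - y l / y j * D (y i / y j) := by
    have := hy i
    rw [h1, D.leibniz_div]
    simp only [smul_eq_mul, zpow_ofNat]
    field_simp
  change y i ^ 2 * D (y l / y i) / y j ^ (2 : ℤ) ∈ _
  rw [h2]
  exact sub_mem (mul_mem (div_mem y j i) (hD j _ (div_mem y j l)))
    (mul_mem (div_mem y j l) (hD j _ (div_mem y j i)))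

lemma der_zero (hy : Coords k y) (i : ι) (D : Derivation k F F) (h : ∀ l, D (y l / y i) = 0)
    (z : F) : D z = 0 := by
  have h1 : ∀ a ∈ chK k y i, D a = 0 := fun a ha => by
    have ha' : a ∈ Algebra.adjoin k (range fun j => y j / y i) := ha
    induction ha' using Algebra.adjoin_induction with
    | mem x hx => obtain ⟨j, rfl⟩ := hx; exact h j
    | algebraMap r => exact D.map_algebraMap r
    | add x y hx hy h1 h2 => rw [map_add, h1 hx, h2 hy, add_zero]
    | mul x y hx hy h1 h2 => rw [D.leibniz, h1 hx, h2 hy, smul_zero, smul_zero, add_zero]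
  obtain ⟨b, h2, h3, h4⟩ := hy.frac i z
  have h5 := h1 _ h4
  rw [D.leibniz, h1 b h2, smul_zero, add_zero, smul_eq_mul] at h5
  exact (mul_eq_zero.1 h5).resolve_left h3

end VEC

theorem blockVEC (h0 : St_H0) : St_VEC := by
  intro k F ι _ _ _ _ y hy
  refine ⟨fun φ h1 h2 D hD => VEC.twist hy.ne φ h1 h2 D hD, VEC.vf k y, ?_,
    fun D hD => ⟨D, rfl, hD⟩⟩
  have := hy.fin
  obtain ⟨i⟩ := hy.nei
  have := h0 k F ι y 2 ⟨i, hy.ne i⟩
  let L : VEC.vf k y →ₗ[k] (ι → Gam k y 2) :=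
    { toFun := fun f l => ⟨_, VEC.mem_Gam hy.ne i l f⟩
      map_add' := fun f g => funext fun l => Subtype.ext (mul_add _ _ _)
      map_smul' := fun c f => funext fun l => Subtype.ext (mul_smul_comm _ _ _) }
  refine FiniteDimensional.of_injective L ((injective_iff_map_eq_zero L).2 ?_)
  rintro ⟨_, D, rfl, hD⟩ h
  refine Subtype.ext (funext fun z => VEC.der_zero hy i D (fun l => ?_) z)
  have h1 : y i ^ 2 * D (y l / y i) = 0 := congrArg Subtype.val (congrFun h l)
  exact (mul_eq_zero.1 h1).resolve_left (pow_ne_zero _ (hy.ne i))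

end Pool.Agent.Lib.DU
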